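import Pool.Agent.ZFin.Defs
import Pool.Agent.ZCM.Link

/-! # Module Growth: the entire function `G = S^w F` (section 5) -/

namespace Pool.Agent.ZFin
open Polynomial Pool.Agent.ZCM

/-- `w = 2(q+1)^2+1+q` -/
def ww (q : ℕ) : ℕ := 2 * (q + 1) ^ 2 + 1 + q

theorem Growth_idx (q : ℕ) (i : Idx q) :
    2 * (i.1 : ℕ) + 3 * (i.2.1 : ℕ) + (i.2.2 : ℕ) ≤ ww q := by
  have h1 := i.1.2
  have h2 := i.2.1.2
  have h3 := i.2.2.2
  unfold ww
  omega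

theorem Growth_ev {C : ℝ} {f : PowerSeries ℂ} (hf : Ent f)
    (h : ∀ r : NNReal, nr r f ≤ ENNReal.ofReal (Real.exp (C * (1 + (r : ℝ) ^ 2)))) (z : ℂ) :
    ‖ev f z‖ ≤ Real.exp (C * (1 + ‖z‖ ^ 2)) := by
  have h1 := norm_ev_le hf (z := z) (r := ‖z‖₊) le_rfl
  refine h1.trans ?_
  have h2 := h ‖z‖₊
  exact ENNReal.toReal_le_of_le_ofReal (Real.exp_pos _).le h2

theorem Growth_poly {p : ℂ[X]} {l : ℕ} {H : ℝ} (hH : 0 ≤ H) (hd : p.natDegree ≤ l)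
    (hc : ∀ n, ‖p.coeff n‖ ≤ H) (z : ℂ) :
    ‖p.eval z‖ ≤ H * (l + 1) * max 1 ‖z‖ ^ l := by
  rw [eval_eq_sum_range' (Nat.lt_succ_of_le hd)]
  have h1 : ∀ n ∈ Finset.range (l + 1), ‖p.coeff n * z ^ n‖ ≤ H * max 1 ‖z‖ ^ l := by
    intro n hn
    have hn' : n ≤ l := by
      have := Finset.mem_range.mp hn
      omega
    rw [norm_mul, norm_pow]
    refine mul_le_mul (hc n) ?_ (by positivity) hH
    calc ‖z‖ ^ n ≤ max 1 ‖z‖ ^ n := pow_le_pow_left₀ (norm_nonneg z) (le_max_right _ _) n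
      _ ≤ max 1 ‖z‖ ^ l := pow_le_pow_right₀ (le_max_left _ _) hn'
  calc ‖∑ n ∈ Finset.range (l.succ), p.coeff n * z ^ n‖
      ≤ ∑ n ∈ Finset.range (l + 1), ‖p.coeff n * z ^ n‖ := norm_sum_le _ _
    _ ≤ ∑ n ∈ Finset.range (l + 1), H * max 1 ‖z‖ ^ l := Finset.sum_le_sum h1
    _ = H * (l + 1) * max 1 ‖z‖ ^ l := by
        rw [Finset.sum_const, Finset.card_range, nsmul_eq_mul]
        push_cast
        ring

theorem Growth_eval (L : PeriodPair) (q : ℕ) (p : Idx q → ℂ[X]) (z : ℂ) :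
    MvPolynomial.eval (v4 L z) (mv q p) =
      ∑ i : Idx q, (p i).eval z * L.weierstrassP z ^ (i.1 : ℕ) *
        (L.derivWeierstrassP z / 2) ^ (i.2.1 : ℕ) * zetaL L z ^ (i.2.2 : ℕ) := by
  unfold mv
  rw [map_sum]
  refine Finset.sum_congr rfl fun i _ => ?_
  rw [map_mul, map_mul, map_mul, map_pow, map_pow, map_pow, MvPolynomial.eval_X,
    MvPolynomial.eval_X, MvPolynomial.eval_X]
  have h1 : MvPolynomial.eval (v4 L z)
      (aeval (MvPolynomial.X 0 : MvPolynomial (Fin 4) ℂ) (p i)) = (p i).eval z := by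
    have h2 := Polynomial.hom_eval₂ (p i) (algebraMap ℂ (MvPolynomial (Fin 4) ℂ))
      (MvPolynomial.eval (v4 L z)) (MvPolynomial.X 0)
    rw [Polynomial.aeval_def, h2, MvPolynomial.eval_X]
    have h3 : (MvPolynomial.eval (v4 L z)).comp (algebraMap ℂ (MvPolynomial (Fin 4) ℂ)) =
        RingHom.id ℂ := by
      ext1 c
      simp [MvPolynomial.algebraMap_eq]
    rw [h3, Polynomial.eval₂_id]
    simp [v4]
  rw [h1]
  simp [v4]

/-- `G(z) = ∑ p_i(z) Q^j q^ε S^(w-2j-3ε-κ) R^κ` (with `S = ev (SS a b)` etc.) is entire, equals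
`S^w P(z,℘,℘'/2,ζ)` off the lattice, and grows with order two. -/
theorem growth (L : PeriodPair) (a b : ℂ) (h2 : L.g₂ = -4 * a) (h3 : L.g₃ = -4 * b) (q : ℕ) :
    ∃ C : ℝ, 0 ≤ C ∧ ∀ (l : ℕ) (H : ℝ) (p : Idx q → ℂ[X]), 0 ≤ H →
      (∀ i, (p i).natDegree ≤ l) → (∀ i n, ‖(p i).coeff n‖ ≤ H) →
      ∃ G : ℂ → ℂ, Differentiable ℂ G ∧
        (∀ z, z ∉ L.lattice → G z = ev (SS a b) z ^ ww q * MvPolynomial.eval (v4 L z) (mv q p)) ∧
        ∀ z, ‖G z‖ ≤ H * (C * (l + 1)) * max 1 ‖z‖ ^ l * Real.exp (C * (1 + ‖z‖ ^ 2)) := by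
  obtain ⟨C₀, hC₀, hg⟩ := grow a b
  set M : ℕ := Fintype.card (Idx q) with hM
  refine ⟨max (M : ℝ) (ww q * C₀), le_max_of_le_left (Nat.cast_nonneg _), ?_⟩
  intro l H p hH hd hc
  refine ⟨fun z => ∑ i : Idx q, (p i).eval z * ev (QQ a b) z ^ (i.1 : ℕ) *
    ev (qq a b) z ^ (i.2.1 : ℕ) *
    ev (SS a b) z ^ (ww q - (2 * (i.1 : ℕ) + 3 * (i.2.1 : ℕ) + (i.2.2 : ℕ))) *
    ev (Pool.Agent.ZCM.RR a b) z ^ (i.2.2 : ℕ), ?_, ?_, ?_⟩
  · have dS := differentiable_ev (Link_Ent_SS a b)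
    have dQ := differentiable_ev (Link_Ent_QQ a b)
    have dq := differentiable_ev (Link_Ent_qq a b)
    have dR := differentiable_ev (Link_Ent_RR a b)
    refine Differentiable.fun_sum fun i _ => ?_
    exact (((((p i).differentiable).fun_mul (dQ.fun_pow _)).fun_mul (dq.fun_pow _)).fun_mul
      (dS.fun_pow _)).fun_mul (dR.fun_pow _)
  · intro z hz
    have lQ := link_Q L a b h2 h3 hz
    have lq := link_q L a b h2 h3 hz
    have lR := link_R L a b h2 h3 hz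
    rw [Growth_eval, Finset.mul_sum]
    refine Finset.sum_congr rfl fun i _ => ?_
    have hi := Growth_idx q i
    obtain ⟨n, hn⟩ := Nat.exists_eq_add_of_le hi
    rw [← lQ, ← lq, ← lR, hn, Nat.add_sub_cancel_left]
    generalize (i.1 : ℕ) = j
    generalize (i.2.1 : ℕ) = e
    generalize (i.2.2 : ℕ) = k
    ring
  · intro z
    set B : ℝ := Real.exp (C₀ * (1 + ‖z‖ ^ 2)) with hB
    have hB1 : 1 ≤ B := Real.one_le_exp (by positivity)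
    have bS : ‖ev (SS a b) z‖ ≤ B :=
      Growth_ev (Link_Ent_SS a b) (fun r => (hg r).1) z
    have bQ : ‖ev (QQ a b) z‖ ≤ B :=
      Growth_ev (Link_Ent_QQ a b) (fun r => (hg r).2.1) z
    have bq : ‖ev (qq a b) z‖ ≤ B :=
      Growth_ev (Link_Ent_qq a b) (fun r => (hg r).2.2.1) z
    have bR : ‖ev (Pool.Agent.ZCM.RR a b) z‖ ≤ B :=
      Growth_ev (Link_Ent_RR a b) (fun r => (hg r).2.2.2) z
    have hm : 0 ≤ max 1 ‖z‖ ^ l := by positivity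
    have key : ∀ i : Idx q, ‖(p i).eval z * ev (QQ a b) z ^ (i.1 : ℕ) *
        ev (qq a b) z ^ (i.2.1 : ℕ) *
        ev (SS a b) z ^ (ww q - (2 * (i.1 : ℕ) + 3 * (i.2.1 : ℕ) + (i.2.2 : ℕ))) *
        ev (Pool.Agent.ZCM.RR a b) z ^ (i.2.2 : ℕ)‖ ≤ H * (l + 1) * max 1 ‖z‖ ^ l * B ^ ww q := by
      intro i
      have hi := Growth_idx q i
      rw [norm_mul, norm_mul, norm_mul, norm_mul, norm_pow, norm_pow, norm_pow, norm_pow]
      have h1 := Growth_poly hH (hd i) (hc i) z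
      have e1 : ‖ev (QQ a b) z‖ ^ (i.1 : ℕ) ≤ B ^ (i.1 : ℕ) :=
        pow_le_pow_left₀ (norm_nonneg _) bQ _
      have e2 : ‖ev (qq a b) z‖ ^ (i.2.1 : ℕ) ≤ B ^ (i.2.1 : ℕ) :=
        pow_le_pow_left₀ (norm_nonneg _) bq _
      have e3 : ‖ev (SS a b) z‖ ^ (ww q - (2 * (i.1 : ℕ) + 3 * (i.2.1 : ℕ) + (i.2.2 : ℕ))) ≤
          B ^ (ww q - (2 * (i.1 : ℕ) + 3 * (i.2.1 : ℕ) + (i.2.2 : ℕ))) :=
        pow_le_pow_left₀ (norm_nonneg _) bS _
      have e4 : ‖ev (Pool.Agent.ZCM.RR a b) z‖ ^ (i.2.2 : ℕ) ≤ B ^ (i.2.2 : ℕ) :=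
        pow_le_pow_left₀ (norm_nonneg _) bR _
      have hA : 0 ≤ H * (l + 1) * max 1 ‖z‖ ^ l := by positivity
      have hB0 : 0 ≤ B := by linarith
      calc ‖(p i).eval z‖ * ‖ev (QQ a b) z‖ ^ (i.1 : ℕ) * ‖ev (qq a b) z‖ ^ (i.2.1 : ℕ) *
            ‖ev (SS a b) z‖ ^ (ww q - (2 * (i.1 : ℕ) + 3 * (i.2.1 : ℕ) + (i.2.2 : ℕ))) *
            ‖ev (Pool.Agent.ZCM.RR a b) z‖ ^ (i.2.2 : ℕ)
          ≤ H * (l + 1) * max 1 ‖z‖ ^ l * B ^ (i.1 : ℕ) * B ^ (i.2.1 : ℕ) *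
            B ^ (ww q - (2 * (i.1 : ℕ) + 3 * (i.2.1 : ℕ) + (i.2.2 : ℕ))) * B ^ (i.2.2 : ℕ) := by
            gcongr
        _ = H * (l + 1) * max 1 ‖z‖ ^ l * B ^ ((i.1 : ℕ) + (i.2.1 : ℕ) +
            (ww q - (2 * (i.1 : ℕ) + 3 * (i.2.1 : ℕ) + (i.2.2 : ℕ))) + (i.2.2 : ℕ)) := by
            rw [pow_add, pow_add, pow_add]
            ring
        _ ≤ H * (l + 1) * max 1 ‖z‖ ^ l * B ^ ww q := by
            refine mul_le_mul_of_nonneg_left (pow_le_pow_right₀ hB1 ?_) hA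
            omega
    have hBw : B ^ ww q ≤ Real.exp (max (M : ℝ) (ww q * C₀) * (1 + ‖z‖ ^ 2)) := by
      rw [hB, ← Real.exp_nat_mul]
      refine Real.exp_le_exp.mpr ?_
      rw [← mul_assoc]
      exact mul_le_mul_of_nonneg_right (le_max_right _ _) (by positivity)
    calc ‖∑ i : Idx q, (p i).eval z * ev (QQ a b) z ^ (i.1 : ℕ) *
          ev (qq a b) z ^ (i.2.1 : ℕ) *
          ev (SS a b) z ^ (ww q - (2 * (i.1 : ℕ) + 3 * (i.2.1 : ℕ) + (i.2.2 : ℕ))) *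
          ev (Pool.Agent.ZCM.RR a b) z ^ (i.2.2 : ℕ)‖
        ≤ ∑ i : Idx q, H * (l + 1) * max 1 ‖z‖ ^ l * B ^ ww q :=
          (norm_sum_le _ _).trans (Finset.sum_le_sum fun i _ => key i)
      _ = (M : ℝ) * (H * (l + 1) * max 1 ‖z‖ ^ l * B ^ ww q) := by
          rw [Finset.sum_const, Finset.card_univ, nsmul_eq_mul]
      _ ≤ max (M : ℝ) (ww q * C₀) * (H * (l + 1) * max 1 ‖z‖ ^ l *
            Real.exp (max (M : ℝ) (ww q * C₀) * (1 + ‖z‖ ^ 2))) := by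
          refine mul_le_mul (le_max_left _ _) ?_ (by positivity)
            (le_max_of_le_left (Nat.cast_nonneg _))
          exact mul_le_mul_of_nonneg_left hBw (by positivity)
      _ = _ := by ring

end Pool.Agent.ZFin
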