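import Pool.Agent.ZFin.Schwarz

/-! # Module SchwarzC: Schwarz lemma at radius `√m` and Cauchy estimate (section 5) -/

namespace Pool.Agent.ZFin

/-- the same with `R = √m` and Cauchy's estimate at a further point `β0`. -/
theorem schwarz_cauchy (r : ℕ) (β : Fin r → ℂ) (hinj : Function.Injective β) (β0 : ℂ) (A : ℝ)
    (hA : 0 ≤ A) : ∃ C : ℝ, 0 ≤ C ∧ ∃ m0 : ℕ, ∀ m ≥ m0, ∀ (G : ℂ → ℂ) (l e : ℕ) (H : ℝ), 0 ≤ H →
      Differentiable ℂ G → (∀ z, ‖G z‖ ≤ H * max 1 ‖z‖ ^ l * Real.exp (A * (1 + ‖z‖ ^ 2))) →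
      (∀ i, ∀ t < m, iteratedDeriv t G (β i) = 0) →
      ‖iteratedDeriv e G β0‖ ≤ H * Real.exp (-(r / 2 : ℝ) * m * Real.log m +
        (l / 2 : ℝ) * Real.log m + e * Real.log (e + 1) + C * (m + e + l)) := by
  set B : ℝ := 1 + ∑ i, ‖β i‖ with hB
  set ρ : ℝ := ‖β0‖ + 1 with hρ
  set K : ℝ := 2 * (ρ + B) with hK
  have hsum : 0 ≤ ∑ i, ‖β i‖ := Finset.sum_nonneg (fun i _ => norm_nonneg _)
  have hB1 : 1 ≤ B := by linarith
  have hβ : ∀ i, ‖β i‖ ≤ B := by
    intro i
    have := Finset.single_le_sum (f := fun i => ‖β i‖) (fun i _ => norm_nonneg _)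
      (Finset.mem_univ i)
    linarith
  have hρ1 : 1 ≤ ρ := by
    have := norm_nonneg β0
    linarith
  have hK1 : 1 ≤ K := by linarith
  have hlK : 0 ≤ Real.log K := Real.log_nonneg hK1
  refine ⟨2 * A + r * Real.log K, by positivity, ⌈(2 * B + ρ) ^ 2⌉₊, ?_⟩
  intro m hm G l e H hH hG hgr hz
  have hm1 : (2 * B + ρ) ^ 2 ≤ m := Nat.ceil_le.mp hm
  have hpos : 0 ≤ 2 * B + ρ := by linarith
  set R : ℝ := Real.sqrt m with hR
  have hR1 : 2 * B + ρ ≤ R := Real.le_sqrt_of_sq_le hm1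
  have hR0 : 0 < R := by linarith
  have hR2 : R ^ 2 = m := Real.sq_sqrt (Nat.cast_nonneg m)
  have hm0 : (1 : ℝ) ≤ m := by
    rw [← hR2]; nlinarith
  have hmpos : (0 : ℝ) < m := by linarith
  have hlogR : Real.log R = Real.log m / 2 := by
    rw [hR, Real.log_sqrt (Nat.cast_nonneg m)]
  set S : ℝ := H * R ^ l * Real.exp (A * (1 + m)) with hS
  have hS0 : 0 ≤ S := by positivity
  have hSb : ∀ z : ℂ, ‖z‖ = R → ‖G z‖ ≤ S := by
    intro z hzR
    have := hgr z
    rw [hzR, hR2, max_eq_right (by linarith : (1 : ℝ) ≤ R)] at this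
    exact this
  -- bound on the unit circle around `β0`
  have hcirc : ∀ z ∈ Metric.sphere β0 1, ‖G z‖ ≤ S * (K / R) ^ (r * m) := by
    intro z hz1
    have hz2 : ‖z‖ ≤ ρ := by
      have h1 : ‖z - β0‖ = 1 := by simpa [dist_eq_norm] using hz1
      have h2 : z = β0 + (z - β0) := by ring
      calc ‖z‖ = ‖β0 + (z - β0)‖ := by rw [← h2]
        _ ≤ ‖β0‖ + ‖z - β0‖ := norm_add_le _ _
        _ = ρ := by rw [h1]
    have h1 := schwarz_many r m β hinj G hG hz B R S hβ (by linarith) (by linarith) hSb z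
      (by linarith)
    refine h1.trans (mul_le_mul_of_nonneg_left ?_ hS0)
    have hRB : 0 < R - B := by linarith
    refine pow_le_pow_left₀ (div_nonneg (by positivity) hRB.le) ?_ _
    rw [div_le_div_iff₀ hRB hR0]
    have h3 : ‖z‖ + B ≤ ρ + B := by linarith
    have h4 : R ≤ 2 * (R - B) := by linarith
    calc (‖z‖ + B) * R ≤ (ρ + B) * (2 * (R - B)) :=
          mul_le_mul h3 h4 hR0.le (by linarith)
      _ = K * (R - B) := by rw [hK]; ring
  have hcau := Complex.norm_iteratedDeriv_le_of_forall_mem_sphere_norm_le (c := β0) (R := 1)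
    (f := G) e one_pos hG.diffContOnCl hcirc
  rw [one_pow, div_one] at hcau
  refine hcau.trans ?_
  -- rewriting as exponentials
  have e1 : (e.factorial : ℝ) ≤ Real.exp (e * Real.log (e + 1)) := by
    have h1 : (e.factorial : ℝ) ≤ ((e : ℝ) + 1) ^ e := by
      have h2 : e.factorial ≤ (e + 1) ^ e :=
        (Nat.factorial_le_pow e).trans (Nat.pow_le_pow_left (Nat.le_succ e) e)
      exact_mod_cast h2
    have h3 : ((e : ℝ) + 1) ^ e = Real.exp (e * Real.log (e + 1)) := by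
      rw [mul_comm, Real.exp_mul, Real.exp_log (by positivity), Real.rpow_natCast]
    rw [← h3]; exact h1
  have e2 : R ^ l = Real.exp ((l / 2 : ℝ) * Real.log m) := by
    have h1 : (l / 2 : ℝ) * Real.log m = Real.log R * l := by rw [hlogR]; ring
    rw [h1, Real.exp_mul, Real.exp_log hR0, Real.rpow_natCast]
  have e3 : (K / R) ^ (r * m) =
      Real.exp (r * m * Real.log K + -(r / 2 : ℝ) * m * Real.log m) := by
    have h1 : r * m * Real.log K + -(r / 2 : ℝ) * m * Real.log m =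
        Real.log (K / R) * ((r * m : ℕ) : ℝ) := by
      rw [Real.log_div (by linarith) hR0.ne', hlogR]; push_cast; ring
    rw [h1, Real.exp_mul, Real.exp_log (by positivity), Real.rpow_natCast]
  calc (e.factorial : ℝ) * (S * (K / R) ^ (r * m)) ≤
      Real.exp (e * Real.log (e + 1)) * (S * (K / R) ^ (r * m)) :=
        mul_le_mul_of_nonneg_right e1 (by positivity)
    _ = H * Real.exp (-(r / 2 : ℝ) * m * Real.log m + (l / 2 : ℝ) * Real.log m
        + e * Real.log (e + 1) + (A * (1 + m) + r * m * Real.log K)) := by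
        rw [hS, e2, e3, Real.exp_add, Real.exp_add, Real.exp_add, Real.exp_add, Real.exp_add]
        ring
    _ ≤ _ := by
        refine mul_le_mul_of_nonneg_left (Real.exp_le_exp.mpr ?_) hH
        have h1 : A * (1 + m) ≤ 2 * A * m := by nlinarith
        have h2 : 0 ≤ (2 * A + r * Real.log K) * ((e : ℝ) + l) := by positivity
        nlinarith

end Pool.Agent.ZFin
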