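import Pool.Agent.ZFin.Defs
import Pool.Agent.ZCM.Link
import Pool.Agent.ZCM.Curve

/-! # Module DerivG: derivatives of `F` and of `G = S^w F` (section 5) -/

namespace Pool.Agent.ZFin
open Polynomial Pool.Agent.ZCM
open Filter Topology

/-- the chain rule along the curve -/
theorem DerivG_hasDerivAt (L : PeriodPair) (a b : ℂ) (h2 : L.g₂ = -4 * a) (h3 : L.g₃ = -4 * b)
    (U : MvPolynomial (Fin 4) ℂ) {z : ℂ} (hz : z ∉ L.lattice) :
    HasDerivAt (fun z => MvPolynomial.eval (v4 L z) U)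
      (MvPolynomial.eval (v4 L z) (D4 a U)) z := by
  induction U using MvPolynomial.induction_on with
  | C r =>
    have h1 : D4 a (MvPolynomial.C r) = 0 := (D4 a).map_algebraMap r
    rw [h1, map_zero]
    simp only [MvPolynomial.eval_C]
    exact hasDerivAt_const z r
  | add p q hp hq =>
    rw [map_add, map_add]
    simp only [map_add]
    exact hp.add hq
  | mul_X p i hp =>
    rw [Derivation.leibniz]
    simp only [map_add, smul_eq_mul, map_mul, MvPolynomial.eval_X]
    have hi : HasDerivAt (fun z => v4 L z i)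
        (MvPolynomial.eval (v4 L z) (D4 a (MvPolynomial.X i))) z := by
      have hX : D4 a (MvPolynomial.X i) =
          (![1, 2 * MvPolynomial.X 2, 3 * MvPolynomial.X 1 ^ 2 + MvPolynomial.C a,
            -MvPolynomial.X 1] : Fin 4 → MvPolynomial (Fin 4) ℂ) i := by
        unfold D4; exact MvPolynomial.mkDerivation_X _ _ _
      rw [hX]
      fin_cases i
      · simpa [v4] using hasDerivAt_id' z
      · simpa [v4] using hasDerivAt_P L hz
      · simpa [v4] using hasDerivAt_P' L a b h2 h3 hz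
      · simpa [v4] using hasDerivAt_zetaL L hz
    have := hp.mul hi
    refine this.congr_deriv ?_
    ring

/-- derivatives of `F(z) = P(z,℘,℘'/2,ζ)` off the lattice (`Pool.Agent.ZCM.Curve_iteratedDeriv`
with `β = 0`-shift, or directly): `F^(t)(z) = (D^t P)(z,℘,℘'/2,ζ)` -/
theorem iteratedDeriv_v4 (L : PeriodPair) (a b : ℂ) (h2 : L.g₂ = -4 * a) (h3 : L.g₃ = -4 * b)
    (U : MvPolynomial (Fin 4) ℂ) (t : ℕ) {z : ℂ} (hz : z ∉ L.lattice) :
    iteratedDeriv t (fun z => MvPolynomial.eval (v4 L z) U) z =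
      MvPolynomial.eval (v4 L z) ((⇑(D4 a))^[t] U) := by
  induction t generalizing z with
  | zero => simp
  | succ n ih =>
    rw [iteratedDeriv_succ]
    have hev : iteratedDeriv n (fun z => MvPolynomial.eval (v4 L z) U) =ᶠ[𝓝 z]
        fun z => MvPolynomial.eval (v4 L z) ((⇑(D4 a))^[n] U) := by
      filter_upwards [(isOpen_compl L).mem_nhds hz] with s' hs'
      exact ih hs'
    rw [hev.deriv_eq, (DerivG_hasDerivAt L a b h2 h3 _ hz).deriv, Function.iterate_succ_apply']

theorem DerivG_analyticAt (L : PeriodPair) (a b : ℂ) (h2 : L.g₂ = -4 * a)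
    (h3 : L.g₃ = -4 * b) (U : MvPolynomial (Fin 4) ℂ) {z : ℂ} (hz : z ∉ L.lattice) :
    AnalyticAt ℂ (fun z => MvPolynomial.eval (v4 L z) U) z := by
  have hd : DifferentiableOn ℂ (fun z => MvPolynomial.eval (v4 L z) U)
      (L.lattice : Set ℂ)ᶜ := fun s' hs' =>
    (DerivG_hasDerivAt L a b h2 h3 U hs').differentiableAt.differentiableWithinAt
  exact hd.analyticAt ((isOpen_compl L).mem_nhds hz)

/-- if `G = S^w F` off the lattice and `(D^t P)(v4 z0) = 0` for `t < e`, then the derivatives of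
`G` of order `< e` vanish at `z0` and `G^(e)(z0) = S(z0)^w (D^e P)(v4 z0)`. -/
theorem deriv_G (L : PeriodPair) (a b : ℂ) (h2 : L.g₂ = -4 * a) (h3 : L.g₃ = -4 * b) (w : ℕ)
    (U : MvPolynomial (Fin 4) ℂ) (G : ℂ → ℂ)
    (hG : ∀ z, z ∉ L.lattice → G z = ev (SS a b) z ^ w * MvPolynomial.eval (v4 L z) U)
    (z0 : ℂ) (hz0 : z0 ∉ L.lattice) (e : ℕ)
    (h : ∀ t < e, MvPolynomial.eval (v4 L z0) ((⇑(D4 a))^[t] U) = 0) :
    (∀ t < e, iteratedDeriv t G z0 = 0) ∧
      iteratedDeriv e G z0 = ev (SS a b) z0 ^ w * MvPolynomial.eval (v4 L z0) ((⇑(D4 a))^[e] U) := by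
  have hS : Differentiable ℂ (ev (SS a b)) := differentiable_ev (Gr_SS a b).ent
  have hA : AnalyticAt ℂ (fun z => ev (SS a b) z ^ w) z0 := by
    have hdiff : Differentiable ℂ (fun z => ev (SS a b) z ^ w) := by fun_prop
    exact hdiff.analyticAt z0
  have hφ := DerivG_analyticAt L a b h2 h3 U hz0
  have hev : G =ᶠ[𝓝 z0] (fun z => ev (SS a b) z ^ w) * fun z => MvPolynomial.eval (v4 L z) U := by
    filter_upwards [(isOpen_compl L).mem_nhds hz0] with s hs
    exact hG s hs
  have key : ∀ t ≤ e, iteratedDeriv t G z0 =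
      ev (SS a b) z0 ^ w * MvPolynomial.eval (v4 L z0) ((⇑(D4 a))^[t] U) := by
    intro t ht
    rw [hev.iteratedDeriv_eq, Curve_leibniz _ _ t z0 hA hφ (fun j hj => ?_),
      iteratedDeriv_v4 L a b h2 h3 U t hz0]
    rw [iteratedDeriv_v4 L a b h2 h3 U j hz0]
    exact h j (lt_of_lt_of_le hj ht)
  exact ⟨fun t ht => by rw [key t ht.le, h t ht, mul_zero], key e le_rfl⟩

end Pool.Agent.ZFin
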