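import Pool.Agent.ZFin.Defs
import Pool.Agent.ZCM.Link

/-! # Module SchNe: `P(z,℘(z))` is not identically zero (section 7.3) -/

namespace Pool.Agent.ZFin
open Polynomial Pool.Agent.ZCM

theorem schNe_eval (L : PeriodPair) (Lz N0 : ℕ) (p : ℕ → ℕ → ℕ → ℤ)
    (hp : ∀ i j k, k ≠ 0 → p i j k = 0) (hN : 0 < N0) (z : ℂ) :
    MvPolynomial.eval (v4 L z) (PP ℂ Lz N0 p) =
      ∑ i ∈ Finset.range Lz, (∑ j ∈ Finset.range N0, (p i j 0 : ℂ) * L.weierstrassP z ^ j)
        * z ^ i := by
  unfold PP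
  simp only [map_sum, map_mul, map_pow, MvPolynomial.eval_C, MvPolynomial.eval_X]
  apply Finset.sum_congr rfl
  intro i _
  rw [Finset.sum_mul]
  apply Finset.sum_congr rfl
  intro j _
  rw [Finset.sum_eq_single 0]
  · simp [v4]
    ring
  · intro k _ hk
    rw [hp i j k hk]
    simp
  · intro h
    exact absurd (Finset.mem_range.mpr hN) h

theorem schNe_coeff (L : PeriodPair) (Lz : ℕ) (c : ℕ → ℂ) (z : ℂ)
    (h : ∀ n : ℕ, ∑ i ∈ Finset.range Lz, c i * (z + n * L.ω₁) ^ i = 0) :
    ∀ i < Lz, c i = 0 := by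
  have hω : L.ω₁ ≠ 0 := by
    intro h0
    apply L.ω₁_div_two_notMem_lattice
    rw [h0]
    simp
  set Q : Polynomial ℂ := ∑ i ∈ Finset.range Lz, C (c i) * X ^ i with hQ
  have hroot : ∀ n : ℕ, Q.IsRoot (z + n * L.ω₁) := by
    intro n
    rw [Polynomial.IsRoot.def, hQ, Polynomial.eval_finsetSum]
    simp only [Polynomial.eval_mul, Polynomial.eval_C, Polynomial.eval_pow, Polynomial.eval_X]
    exact h n
  have hQ0 : Q = 0 := by
    apply Polynomial.eq_zero_of_infinite_isRoot
    apply Set.Infinite.mono (s := Set.range fun n : ℕ => z + n * L.ω₁)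
    · rintro _ ⟨n, rfl⟩
      exact hroot n
    · apply Set.infinite_range_of_injective
      intro m n hmn
      simp only at hmn
      have h1 := add_left_cancel hmn
      have h2 := mul_right_cancel₀ hω h1
      exact_mod_cast h2
  intro i hi
  have h1 : Q.coeff i = c i := by
    rw [hQ, Polynomial.finsetSum_coeff]
    simp only [Polynomial.coeff_C_mul, Polynomial.coeff_X_pow]
    rw [Finset.sum_eq_single i]
    · simp
    · intro j _ hj
      simp [hj.symm]
    · intro h
      exact absurd (Finset.mem_range.mpr hi) h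
  rw [← h1, hQ0, Polynomial.coeff_zero]

/-- `P(z,℘(z))` is not identically `0` (poles at the lattice points) -/
theorem sch_ne (L : PeriodPair) (Lz N0 : ℕ) (p : ℕ → ℕ → ℕ → ℤ)
    (hp : ∀ i j k, k ≠ 0 → p i j k = 0) (h0 : ∃ i < Lz, ∃ j < N0, p i j 0 ≠ 0) :
    ∃ z, z ∉ L.lattice ∧ MvPolynomial.eval (v4 L z) (PP ℂ Lz N0 p) ≠ 0 := by
  by_contra hcon
  push Not at hcon
  obtain ⟨i, hi, j, hj, hij⟩ := h0
  have hN : 0 < N0 := by omega
  -- `℘(z)` is a root of the `i`-th polynomial
  have hA : ∀ z, z ∉ L.lattice →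
      ∑ j ∈ Finset.range N0, (p i j 0 : ℂ) * L.weierstrassP z ^ j = 0 := by
    intro z hz
    refine schNe_coeff L Lz
      (fun i => ∑ j ∈ Finset.range N0, (p i j 0 : ℂ) * L.weierstrassP z ^ j) z ?_ i hi
    intro n
    have hmem : (n : ℂ) * L.ω₁ ∈ L.lattice := by
      have := L.lattice.smul_mem (n : ℤ) L.ω₁_mem_lattice
      simpa using this
    have hz' : z + n * L.ω₁ ∉ L.lattice := by
      intro h
      apply hz
      have := L.lattice.sub_mem h hmem
      simpa using this
    have h1 := hcon _ hz'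
    rw [schNe_eval L Lz N0 p hp hN] at h1
    have h2 : L.weierstrassP (z + n * L.ω₁) = L.weierstrassP z :=
      L.weierstrassP_add_coe z ⟨_, hmem⟩
    rw [h2] at h1
    exact h1
  set R : Polynomial ℂ := ∑ j ∈ Finset.range N0, C (p i j 0 : ℂ) * X ^ j with hR
  have hR0 : R ≠ 0 := by
    intro h
    have h1 : R.coeff j = (p i j 0 : ℂ) := by
      rw [hR, Polynomial.finsetSum_coeff]
      simp only [Polynomial.coeff_C_mul, Polynomial.coeff_X_pow]
      rw [Finset.sum_eq_single j]
      · simp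
      · intro k _ hk
        simp [hk.symm]
      · intro h
        exact absurd (Finset.mem_range.mpr hj) h
    rw [h, Polynomial.coeff_zero] at h1
    apply hij
    exact_mod_cast h1.symm
  have hroot : ∀ z, z ∉ L.lattice → L.weierstrassP z ∈ R.rootSet ℂ := by
    intro z hz
    rw [Polynomial.mem_rootSet]
    refine ⟨hR0, ?_⟩
    rw [hR, Polynomial.coe_aeval_eq_eval, Polynomial.eval_finsetSum]
    simp only [Polynomial.eval_mul, Polynomial.eval_C, Polynomial.eval_pow, Polynomial.eval_X]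
    exact hA z hz
  have hfin : (R.rootSet ℂ).Finite := Polynomial.rootSet_finite R ℂ
  obtain ⟨M, hM⟩ := hfin.isBounded.exists_norm_le
  have hx := (Link_analyticAt_x L).continuousAt
  have hx1 : Filter.Tendsto (fun z => ‖Link_x L z‖) (nhdsWithin (0:ℂ) {0}ᶜ) (nhds 1) := by
    have := hx.tendsto.norm
    rw [Link_x_zero] at this
    simp only [norm_one] at this
    exact this.mono_left nhdsWithin_le_nhds
  have hx2 : Filter.Tendsto (fun z : ℂ => ‖z‖ ^ 2 * M) (nhdsWithin (0:ℂ) {0}ᶜ) (nhds 0) := by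
    have h1 : ContinuousAt (fun z : ℂ => ‖z‖ ^ 2 * M) 0 := by fun_prop
    have h2 := h1.tendsto
    simp only [norm_zero, ne_eq, OfNat.ofNat_ne_zero, not_false_eq_true, zero_pow, zero_mul] at h2
    exact h2.mono_left nhdsWithin_le_nhds
  have hle : ∀ᶠ z in nhdsWithin (0:ℂ) {0}ᶜ, ‖Link_x L z‖ ≤ ‖z‖ ^ 2 * M := by
    filter_upwards [eventually_notMem L, self_mem_nhdsWithin] with z hz hz0
    rw [Link_x_eq L hz0, norm_mul, norm_pow]
    exact mul_le_mul_of_nonneg_left (hM _ (hroot z hz)) (by positivity)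
  have := le_of_tendsto_of_tendsto hx1 hx2 hle
  norm_num at this

end Pool.Agent.ZFin
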