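import Mathlib

/-! # Module SchNum: numerics of section 7.3 -/

namespace Pool.Agent.ZFin

/-- numerics of 7.3, `S = 8κ+8`, `L = (2κ+2) T`, `e ≥ T` -/
theorem sch_num (κ : ℕ) (hκ : 1 ≤ κ) (C : ℝ) (hC : 0 ≤ C) : ∃ T0 : ℕ, ∀ T ≥ T0, ∀ e ≥ T,
    (T * Real.log T + C * T) + (-((8 * κ + 8 : ℕ) / 2 : ℝ) * e * Real.log e +
      ((((2 * κ + 2) * T : ℕ) : ℝ) / 2) * Real.log e + e * Real.log (e + 1) +
      C * (e + e + (2 * κ + 2) * T + 1)) <
    -(κ : ℝ) * ((T * Real.log T + C * T) +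
      (e * Real.log ((2 * κ + 2) * T + e + 1) + C * ((2 * κ + 2) * T + e + 1))) := by
  obtain ⟨T1, hT1⟩ := exists_nat_gt (Real.exp (Real.log 2 + κ * Real.log (2 * κ + 4) +
    C * (2 * κ ^ 2 + 7 * κ + 6)))
  refine ⟨T1 + 1, fun T hT e he => ?_⟩
  have hk : (1 : ℝ) ≤ κ := by exact_mod_cast hκ
  have hT' : (1 : ℝ) ≤ T := by exact_mod_cast (by omega : 1 ≤ T)
  have heT : (T : ℝ) ≤ e := by exact_mod_cast he
  have he' : (1 : ℝ) ≤ e := hT'.trans heT
  have hTT1 : (T1 : ℝ) ≤ T := by exact_mod_cast (by omega : T1 ≤ T)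
  have hLT : 0 ≤ Real.log T := Real.log_nonneg hT'
  have hLe : 0 ≤ Real.log e := Real.log_nonneg he'
  have h1 : Real.log T ≤ Real.log e := Real.log_le_log (by linarith) heT
  have h2 : T * Real.log T ≤ e * Real.log e := mul_le_mul heT h1 hLT (by linarith)
  have h3 : T * Real.log e ≤ e * Real.log e := mul_le_mul_of_nonneg_right heT hLe
  have h4 : Real.log ((e : ℝ) + 1) ≤ Real.log 2 + Real.log e := by
    rw [← Real.log_mul (by norm_num) (by linarith)]
    exact Real.log_le_log (by linarith) (by linarith)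
  have h5 : Real.log ((2 * κ + 2) * T + e + 1) ≤ Real.log (2 * κ + 4) + Real.log e := by
    rw [← Real.log_mul (by positivity) (by linarith)]
    apply Real.log_le_log (by positivity)
    have : ((2 : ℝ) * κ + 2) * T ≤ (2 * κ + 2) * e := mul_le_mul_of_nonneg_left heT (by positivity)
    nlinarith
  have h6 : Real.log 2 + κ * Real.log (2 * κ + 4) + C * (2 * κ ^ 2 + 7 * κ + 6) < Real.log e := by
    rw [Real.lt_log_iff_exp_lt (by linarith)]
    linarith
  have h4' : e * Real.log ((e : ℝ) + 1) ≤ e * (Real.log 2 + Real.log e) :=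
    mul_le_mul_of_nonneg_left h4 (by linarith)
  have h5' : κ * (e * Real.log ((2 * κ + 2) * T + e + 1)) ≤
      κ * (e * (Real.log (2 * κ + 4) + Real.log e)) :=
    mul_le_mul_of_nonneg_left (mul_le_mul_of_nonneg_left h5 (by linarith)) (by linarith)
  have h6' : (e : ℝ) * (Real.log 2 + κ * Real.log (2 * κ + 4) + C * (2 * κ ^ 2 + 7 * κ + 6)) <
      e * Real.log e := mul_lt_mul_of_pos_left h6 (by linarith)
  have h7 : C * (T + (e + e + (2 * κ + 2) * T + 1) + κ * T + κ * ((2 * κ + 2) * T + e + 1)) ≤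
      C * (e * (2 * κ ^ 2 + 7 * κ + 6)) := by
    apply mul_le_mul_of_nonneg_left _ hC
    have a1 : ((2 : ℝ) * κ ^ 2 + 5 * κ + 3) * T ≤ (2 * κ ^ 2 + 5 * κ + 3) * e :=
      mul_le_mul_of_nonneg_left heT (by positivity)
    have a2 : ((1 : ℝ) + κ) * 1 ≤ (1 + κ) * e := mul_le_mul_of_nonneg_left he' (by positivity)
    nlinarith
  have h8 : 0 ≤ (κ : ℝ) * (e * Real.log e) := by positivity
  have h9 : ((κ : ℝ) + 1) * (T * Real.log T) ≤ (κ + 1) * (e * Real.log e) :=
    mul_le_mul_of_nonneg_left h2 (by positivity)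
  have h10 : ((κ : ℝ) + 1) * (T * Real.log e) ≤ (κ + 1) * (e * Real.log e) :=
    mul_le_mul_of_nonneg_left h3 (by positivity)
  push_cast
  nlinarith

end Pool.Agent.ZFin
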