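import Pool.Agent.ZFin.SchInt
import Pool.Agent.ZCM.Count

/-! # Module SchSieg: the auxiliary polynomial of section 7.2

`P = PP L N0 p` with `p i j k = 0` for `k ≠ 0`, i.e. `P = ∑ p_ij z^i X^j`. -/

namespace Pool.Agent.ZFin
open Polynomial NumberField Pool.Agent.ZCM

theorem SchSieg_PP_sub {A : Type*} [CommRing A] (L N0 : ℕ) (p p' : ℕ → ℕ → ℕ → ℤ) :
    PP A L N0 (fun i j k => p i j k - p' i j k) = PP A L N0 p - PP A L N0 p' := by
  unfold PP
  simp only [← Finset.sum_sub_distrib]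
  refine Finset.sum_congr rfl fun i _ => Finset.sum_congr rfl fun j _ =>
    Finset.sum_congr rfl fun k _ => ?_
  rw [Int.cast_sub, map_sub]
  ring

theorem SchSieg_iter_sub {A : Type*} [CommRing A] (a : A) (t : ℕ) (P Q : MvPolynomial (Fin 4) A) :
    (⇑(D4 a))^[t] (P - Q) = (⇑(D4 a))^[t] P - (⇑(D4 a))^[t] Q := by
  induction t generalizing P Q with
  | zero => rfl
  | succ n ih => rw [Function.iterate_succ_apply, Function.iterate_succ_apply,
      Function.iterate_succ_apply, map_sub, ih]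

/-- extension of an array -/
def SchSieg_ext {L N0 X : ℕ} (q : Fin L × Fin N0 → Fin X) (i j k : ℕ) : ℤ :=
  if h : i < L ∧ j < N0 ∧ k = 0 then ((q (⟨i, h.1⟩, ⟨j, h.2.1⟩) : ℕ) : ℤ) else 0

theorem SchSieg_ext_apply {L N0 X : ℕ} (q : Fin L × Fin N0 → Fin X) (t : Fin L × Fin N0) :
    SchSieg_ext q t.1 t.2 0 = ((q t : ℕ) : ℤ) := by
  unfold SchSieg_ext
  rw [dif_pos ⟨t.1.2, t.2.2, rfl⟩]

theorem SchSieg_ext_zero {L N0 X : ℕ} (q : Fin L × Fin N0 → Fin X) (i j : ℕ) {k : ℕ} (hk : k ≠ 0) :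
    SchSieg_ext q i j k = 0 := by
  unfold SchSieg_ext
  rw [dif_neg (fun h => hk h.2.2)]

theorem SchSieg_ext_bound {L N0 X : ℕ} (hX : 1 ≤ X) (q q' : Fin L × Fin N0 → Fin X) (i j k : ℕ) :
    |((SchSieg_ext q i j k - SchSieg_ext q' i j k : ℤ) : ℝ)| ≤ (X : ℝ) - 1 := by
  have h1 : ∀ r : Fin L × Fin N0 → Fin X, 0 ≤ SchSieg_ext r i j k ∧
      SchSieg_ext r i j k ≤ (X : ℤ) - 1 := by
    intro r
    unfold SchSieg_ext
    split_ifs with h
    · have := (r (⟨i, h.1⟩, ⟨j, h.2.1⟩)).2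
      constructor <;> omega
    · constructor <;> omega
  have h2 := h1 q
  have h3 := h1 q'
  have h4 : |SchSieg_ext q i j k - SchSieg_ext q' i j k| ≤ (X : ℤ) - 1 := by
    rw [abs_le]
    constructor <;> omega
  rw [← Int.cast_abs]
  have h5 : ((|SchSieg_ext q i j k - SchSieg_ext q' i j k| : ℤ) : ℝ) ≤ (((X : ℤ) - 1 : ℤ) : ℝ) := by
    exact_mod_cast h4
  push_cast at h5 ⊢
  exact h5

/-- the pigeonhole for given parameters -/
theorem SchSieg_core {K : Type} [Field K] [NumberField K] (a : 𝓞 K) (z x y : ℕ → K) (N0 S L T X : ℕ)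
    (hX : 1 ≤ X) (M : ℕ → ℕ) (hM : ∀ n, 0 < M n)
    (hI : ∀ n (L t : ℕ) (p : ℕ → ℕ → ℕ → ℤ), IsIntegral ℤ ((M n : K) ^ (L + 2 * N0 + t) *
        MvPolynomial.eval ![z n, x n, y n, 0] ((⇑(D4 (a : K)))^[t] (PP K L N0 p))))
    (CP : ℝ) (hpig : ∀ {α : Type} (Om : Finset α) (T1 : ℕ) (y : ℕ → α → 𝓞 K) (ρ : ℕ → ℝ),
      (∀ n, 0 ≤ ρ n) →
      (∀ p ∈ Om, ∀ p' ∈ Om, ∀ n < T1, (∀ i < n, y i p = y i p') →
        ∀ σ : K →+* ℂ, ‖σ ((y n p : K) - (y n p' : K))‖ ≤ ρ n) →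
      ∏ n ∈ Finset.range T1, (CP * (1 + ρ n)) ^ (Module.finrank ℚ K) < (Om.card : ℝ) →
      ∃ p ∈ Om, ∃ p' ∈ Om, p ≠ p' ∧ ∀ n < T1, y n p = y n p')
    (ρ : ℝ) (hρ : 0 ≤ ρ)
    (hbound : ∀ n < S, ∀ t < T, ∀ (p : ℕ → ℕ → ℕ → ℤ), (∀ i j k, |(p i j k : ℝ)| ≤ (X : ℝ) - 1) →
      ∀ σ : K →+* ℂ, ‖σ ((M n : K) ^ (L + 2 * N0 + t) *
        MvPolynomial.eval ![z n, x n, y n, 0] ((⇑(D4 (a : K)))^[t] (PP K L N0 p)))‖ ≤ ρ)
    (hprod : ((CP * (1 + ρ)) ^ (Module.finrank ℚ K)) ^ (S * T) < (X : ℝ) ^ (L * N0)) :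
    ∃ p : ℕ → ℕ → ℕ → ℤ, (∀ i j k, |(p i j k : ℝ)| ≤ (X : ℝ) - 1) ∧
      (∀ i j k, k ≠ 0 → p i j k = 0) ∧ (∃ i < L, ∃ j < N0, p i j 0 ≠ 0) ∧
      ∀ n < S, ∀ t < T,
        MvPolynomial.eval ![z n, x n, y n, 0] ((⇑(D4 (a : K)))^[t] (PP K L N0 p)) = 0 := by
  classical
  let w : ℕ → (Fin L × Fin N0 → Fin X) → 𝓞 K := fun l q =>
    ⟨(M (l / T) : K) ^ (L + 2 * N0 + l % T) *
        MvPolynomial.eval ![z (l / T), x (l / T), y (l / T), 0]
          ((⇑(D4 (a : K)))^[l % T] (PP K L N0 (SchSieg_ext q))), hI _ _ _ _⟩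
  have hw : ∀ l q, ((w l q : 𝓞 K) : K) = (M (l / T) : K) ^ (L + 2 * N0 + l % T) *
        MvPolynomial.eval ![z (l / T), x (l / T), y (l / T), 0]
          ((⇑(D4 (a : K)))^[l % T] (PP K L N0 (SchSieg_ext q))) := fun l q => rfl
  have hdiff : ∀ l q q', ((w l q : 𝓞 K) : K) - ((w l q' : 𝓞 K) : K) =
      (M (l / T) : K) ^ (L + 2 * N0 + l % T) *
        MvPolynomial.eval ![z (l / T), x (l / T), y (l / T), 0]
          ((⇑(D4 (a : K)))^[l % T] (PP K L N0
            (fun i j k => SchSieg_ext q i j k - SchSieg_ext q' i j k))) := by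
    intro l q q'
    rw [hw, hw, SchSieg_PP_sub, SchSieg_iter_sub, map_sub]
    ring
  obtain ⟨q, -, q', -, hne, heq⟩ := hpig (Finset.univ : Finset (Fin L × Fin N0 → Fin X))
    (S * T) w (fun _ => ρ) (fun _ => hρ) (by
      intro q _ q' _ l hl _ σ
      have hT : 0 < T := Nat.pos_of_ne_zero (by rintro rfl; simp at hl)
      rw [hdiff]
      exact hbound (l / T) (Nat.div_lt_of_lt_mul (by rwa [mul_comm])) (l % T) (Nat.mod_lt _ hT) _
        (fun i j k => SchSieg_ext_bound hX q q' i j k) σ) (by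
      rw [Finset.prod_const, Finset.card_range, Finset.card_univ, Fintype.card_fun,
        Fintype.card_prod, Fintype.card_fin, Fintype.card_fin, Fintype.card_fin, Nat.cast_pow]
      exact hprod)
  refine ⟨fun i j k => SchSieg_ext q i j k - SchSieg_ext q' i j k,
    fun i j k => SchSieg_ext_bound hX q q' i j k, ?_, ?_, ?_⟩
  · intro i j k hk
    simp only [SchSieg_ext_zero q i j hk, SchSieg_ext_zero q' i j hk, sub_zero]
  · obtain ⟨t, ht⟩ := Function.ne_iff.1 hne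
    refine ⟨t.1, t.1.2, t.2, t.2.2, ?_⟩
    change SchSieg_ext q t.1 t.2 0 - SchSieg_ext q' t.1 t.2 0 ≠ 0
    rw [SchSieg_ext_apply, SchSieg_ext_apply]
    intro h
    apply ht
    apply Fin.ext
    omega
  · intro n hn t ht
    have hT : 0 < T := lt_of_le_of_lt (Nat.zero_le _) ht
    have h1 : (n * T + t) / T = n := by
      rw [mul_comm, Nat.mul_add_div hT, Nat.div_eq_of_lt ht, add_zero]
    have h2 : (n * T + t) % T = t := by
      rw [mul_comm, Nat.mul_add_mod, Nat.mod_eq_of_lt ht]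
    have h3 : n * T + t < S * T := by
      have : (n + 1) * T ≤ S * T := Nat.mul_le_mul_right T hn
      have h4 : (n + 1) * T = n * T + T := by ring
      omega
    have h5 := hdiff (n * T + t) q q'
    rw [heq _ h3, sub_self, h1, h2] at h5
    have h6 : (M n : K) ^ (L + 2 * N0 + t) ≠ 0 := pow_ne_zero _ (by exact_mod_cast (hM n).ne')
    rcases mul_eq_zero.mp h5.symm with h7 | h7
    · exact absurd h7 h6
    · exact h7

/-- section 7.2: `κ = [K:ℚ]`, `N0 = 8κ`, `8κ+8` points, `L = (2κ+2) T` (pigeonhole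
`Pool.Agent.ZCM.pigeon`) -/
theorem sch_siegel {K : Type} [Field K] [NumberField K] (a : 𝓞 K) (z x y : ℕ → K) (κ : ℕ)
    (hκ : κ = Module.finrank ℚ K) : ∃ C : ℝ, 0 ≤ C ∧ ∃ T0 : ℕ, ∀ T ≥ T0,
    ∃ p : ℕ → ℕ → ℕ → ℤ, (∀ i j k, |(p i j k : ℝ)| ≤ Real.exp (T * Real.log T + C * T)) ∧
      (∀ i j k, k ≠ 0 → p i j k = 0) ∧ (∃ i < (2 * κ + 2) * T, ∃ j < 8 * κ, p i j 0 ≠ 0) ∧
      ∀ n < 8 * κ + 8, ∀ t < T,
        MvPolynomial.eval ![z n, x n, y n, 0]
          ((⇑(D4 (a : K)))^[t] (PP K ((2 * κ + 2) * T) (8 * κ) p)) = 0 := by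
  have hκ1 : 1 ≤ κ := by rw [hκ]; exact Module.finrank_pos
  obtain ⟨CP, hCP, hpig⟩ := pigeon K
  choose M hM hI using fun n => sch_int a (8 * κ) (z n) (x n) (y n)
  choose Cs hCs hS using fun n => sch_size a (8 * κ) (z n) (x n) (y n)
  set Cm : ℝ := ∑ n ∈ Finset.range (8 * κ + 8), Cs n with hCm
  set Lm : ℝ := ∑ n ∈ Finset.range (8 * κ + 8), Real.log (M n) with hLm
  have hlogM : ∀ n, 0 ≤ Real.log (M n) := fun n => Real.log_nonneg (by exact_mod_cast hM n)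
  have hCm0 : 0 ≤ Cm := Finset.sum_nonneg fun n _ => hCs n
  have hLm0 : 0 ≤ Lm := Finset.sum_nonneg fun n _ => hlogM n
  have hCm1 : ∀ n < 8 * κ + 8, Cs n ≤ Cm := fun n hn =>
    Finset.single_le_sum (f := Cs) (fun i _ => hCs i) (Finset.mem_range.mpr hn)
  have hLm1 : ∀ n < 8 * κ + 8, Real.log (M n) ≤ Lm := fun n hn =>
    Finset.single_le_sum (f := fun n => Real.log (M n)) (fun i _ => hlogM i) (Finset.mem_range.mpr hn)
  have hκr : (1:ℝ) ≤ κ := by exact_mod_cast hκ1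
  have hl3 : 0 ≤ Real.log (2 * κ + 3) := Real.log_nonneg (by linarith)
  set C4 : ℝ := Real.log (2 * κ + 3) + Cm * (2 * κ + 3) + Lm * (18 * κ + 3) with hC4
  have hC40 : 0 ≤ C4 := by positivity
  have hlogC : 0 ≤ Real.log (2 * CP) := Real.log_nonneg (by linarith)
  refine ⟨C4 + Real.log (2 * CP), by positivity, 1, fun T hT => ?_⟩
  have hTr : (1:ℝ) ≤ T := by exact_mod_cast hT
  have hT0 : (0:ℝ) < T := by linarith
  have hlogT : 0 ≤ Real.log T := Real.log_nonneg hTr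
  set L : ℕ := (2 * κ + 2) * T with hL
  have hLr : (L : ℝ) = (2 * κ + 2) * T := by rw [hL]; push_cast; ring
  set B : ℝ := Real.exp (T * Real.log T + C4 * T) with hB
  have hB1 : 1 ≤ B := Real.one_le_exp (by positivity)
  set X : ℕ := ⌊2 * CP * B⌋₊ + 1 with hX
  have hX1 : 1 ≤ X := by omega
  have hXr : (1:ℝ) ≤ X := by exact_mod_cast hX1
  have hXlt : 2 * CP * B < X := by
    rw [hX]; push_cast; exact Nat.lt_floor_add_one _
  have hXle : (X : ℝ) - 1 ≤ 2 * CP * B := by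
    rw [hX]; push_cast
    have := Nat.floor_le (a := 2 * CP * B) (by positivity)
    linarith
  -- the bound for the coefficients
  have hfinal : (X : ℝ) - 1 ≤ Real.exp (T * Real.log T + (C4 + Real.log (2 * CP)) * T) := by
    refine hXle.trans ?_
    have h1 : 2 * CP * B = Real.exp (Real.log (2 * CP) + (T * Real.log T + C4 * T)) := by
      rw [Real.exp_add, Real.exp_log (by linarith)]
    rw [h1]
    apply Real.exp_le_exp.mpr
    nlinarith
  -- the bound for the values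
  have hbound : ∀ n < 8 * κ + 8, ∀ t < T, ∀ (p : ℕ → ℕ → ℕ → ℤ),
      (∀ i j k, |(p i j k : ℝ)| ≤ (X : ℝ) - 1) → ∀ σ : K →+* ℂ,
      ‖σ ((M n : K) ^ (L + 2 * (8 * κ) + t) * MvPolynomial.eval ![z n, x n, y n, 0]
        ((⇑(D4 (a : K)))^[t] (PP K L (8 * κ) p)))‖ ≤ X * B := by
    intro n hn t ht p hp σ
    have h1 := hS n L t X p (by positivity) (fun i j k => (hp i j k).trans (by linarith)) σ
    have htr : (t : ℝ) + 1 ≤ T := by exact_mod_cast ht
    have ht0 : (0:ℝ) ≤ t := Nat.cast_nonneg t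
    rw [map_mul, map_pow, map_natCast, norm_mul, norm_pow, Complex.norm_natCast]
    have hMpos : (0:ℝ) < M n := by exact_mod_cast hM n
    have h2 : (M n : ℝ) ^ (L + 2 * (8 * κ) + t) =
        Real.exp (((L + 2 * (8 * κ) + t : ℕ) : ℝ) * Real.log (M n)) := by
      rw [Real.exp_nat_mul, Real.exp_log hMpos]
    have hLt : (L : ℝ) + t + 1 ≤ (2 * κ + 3) * T := by rw [hLr]; nlinarith
    have hLt0 : (1:ℝ) ≤ (L : ℝ) + t + 1 := by
      have : (0:ℝ) ≤ L := Nat.cast_nonneg L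
      linarith
    have h3 : (t : ℝ) * Real.log (L + t + 1) ≤ T * Real.log T + Real.log (2 * κ + 3) * T := by
      have h4 : Real.log (L + t + 1) ≤ Real.log T + Real.log (2 * κ + 3) := by
        rw [← Real.log_mul (by linarith) (by linarith), mul_comm (T:ℝ)]
        exact Real.log_le_log (by linarith) hLt
      have h5 : 0 ≤ Real.log (L + t + 1) := Real.log_nonneg hLt0
      calc (t : ℝ) * Real.log (L + t + 1) ≤ T * Real.log (L + t + 1) :=
            mul_le_mul_of_nonneg_right (by linarith) h5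
        _ ≤ T * (Real.log T + Real.log (2 * κ + 3)) := mul_le_mul_of_nonneg_left h4 (by linarith)
        _ = _ := by ring
    have h6 : Cs n * ((L : ℝ) + t + 1) ≤ Cm * (2 * κ + 3) * T := by
      calc Cs n * ((L : ℝ) + t + 1) ≤ Cm * ((2 * κ + 3) * T) :=
            mul_le_mul (hCm1 n hn) hLt (by linarith) hCm0
        _ = _ := by ring
    have h7 : ((L + 2 * (8 * κ) + t : ℕ) : ℝ) * Real.log (M n) ≤ Lm * (18 * κ + 3) * T := by
      have h8 : ((L + 2 * (8 * κ) + t : ℕ) : ℝ) ≤ (18 * κ + 3) * T := by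
        push_cast
        nlinarith
      calc ((L + 2 * (8 * κ) + t : ℕ) : ℝ) * Real.log (M n) ≤ ((18 * κ + 3) * T) * Lm :=
            mul_le_mul h8 (hLm1 n hn) (hlogM n) (by positivity)
        _ = _ := by ring
    calc (M n : ℝ) ^ (L + 2 * (8 * κ) + t) * ‖σ (MvPolynomial.eval ![z n, x n, y n, 0]
          ((⇑(D4 (a : K)))^[t] (PP K L (8 * κ) p)))‖
        ≤ Real.exp (((L + 2 * (8 * κ) + t : ℕ) : ℝ) * Real.log (M n)) *
          (X * Real.exp (t * Real.log (L + t + 1) + Cs n * (L + t + 1))) := by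
          rw [h2]
          exact mul_le_mul_of_nonneg_left h1 (Real.exp_pos _).le
      _ = X * Real.exp (((L + 2 * (8 * κ) + t : ℕ) : ℝ) * Real.log (M n) +
          (t * Real.log (L + t + 1) + Cs n * (L + t + 1))) := by
          rw [Real.exp_add (((L + 2 * (8 * κ) + t : ℕ) : ℝ) * Real.log (M n))]; ring
      _ ≤ X * B := by
          apply mul_le_mul_of_nonneg_left _ (by positivity)
          apply Real.exp_le_exp.mpr
          have h9 : C4 * T = Real.log (2 * κ + 3) * T + Cm * (2 * κ + 3) * T + Lm * (18 * κ + 3) * T := by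
            rw [hC4]; ring
          linarith
  -- the pigeonhole condition
  have hprod : ((CP * (1 + X * B)) ^ (Module.finrank ℚ K)) ^ ((8 * κ + 8) * T) <
      (X : ℝ) ^ (L * (8 * κ)) := by
    have h1 : L * (8 * κ) = 2 * (κ * ((8 * κ + 8) * T)) := by rw [hL]; ring
    rw [← hκ, h1, ← pow_mul (CP * (1 + X * B)), pow_mul (X : ℝ) 2]
    have hXB : (1:ℝ) ≤ X * B := by nlinarith
    apply pow_lt_pow_left₀ _ (by positivity)
    · have : 0 < κ * ((8 * κ + 8) * T) := by positivity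
      exact this.ne'
    · calc CP * (1 + X * B) ≤ CP * (X * B + X * B) := by
            apply mul_le_mul_of_nonneg_left (by linarith) (by linarith)
        _ = (2 * CP * B) * X := by ring
        _ < X * X := by
            apply mul_lt_mul_of_pos_right hXlt (by linarith)
        _ = (X:ℝ) ^ 2 := by ring
  obtain ⟨p, hp1, hp2, hp3, hp4⟩ := SchSieg_core a z x y (8 * κ) (8 * κ + 8) L T X hX1 M hM
    (fun n L t p => hI n L t p) CP hpig (X * B) (by positivity) hbound hprod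
  exact ⟨p, fun i j k => (hp1 i j k).trans hfinal, hp2, hp3, hp4⟩

end Pool.Agent.ZFin
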