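import Pool.Agent.ZFin.SchPts
import Pool.Agent.ZFin.SchSieg
import Pool.Agent.ZFin.SchNe
import Pool.Agent.ZFin.SchNum
import Pool.Agent.ZFin.SchwarzC
import Pool.Agent.ZFin.DerivG
import Pool.Agent.ZCM.GrowGS
import Pool.Agent.ZCM.Liou

/-! # Module Schneider: `β` and `℘(β)` are not both algebraic (section 7.3) -/

namespace Pool.Agent.ZFin
open Polynomial NumberField Pool.Agent.ZCM

private theorem Schneider_val {K : Type} [Field K] [NumberField K] (ι : K →+* ℂ) (a' : 𝓞 K)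
    (Lz N0 : ℕ) (p : ℕ → ℕ → ℕ → ℤ) (hp : ∀ i j k, k ≠ 0 → p i j k = 0) (t : ℕ) (z x y : K)
    (u : ℂ) :
    ι (MvPolynomial.eval ![z, x, y, 0] ((⇑(D4 (a' : K)))^[t] (PP K Lz N0 p))) =
      MvPolynomial.eval ![ι z, ι x, ι y, u] ((⇑(D4 (oc ι a')))^[t] (PP ℂ Lz N0 p)) := by
  rw [PP_indep (oc ι a') Lz N0 p hp t (ι z) (ι x) (ι y) u 0]
  have h1 := map_D4_iterate (a' : K) ι (PP K Lz N0 p) t
  rw [map_PP] at h1
  have h2 : oc ι a' = ι (a' : K) := rfl
  rw [h2, ← h1, MvPolynomial.eval_map, ← MvPolynomial.eval₂_id, MvPolynomial.eval₂_comp_left,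
    RingHom.comp_id]
  congr 1
  funext i
  fin_cases i <;> simp

/-- an entire function all of whose derivatives vanish at a point is zero -/
private theorem Schneider_zero (G : ℂ → ℂ) (hG : Differentiable ℂ G) (z0 : ℂ)
    (h : ∀ t, iteratedDeriv t G z0 = 0) (z : ℂ) : G z = 0 := by
  have han : AnalyticOnNhd ℂ G Set.univ := fun w _ => hG.analyticAt w
  have hord : analyticOrderAt G z0 = ⊤ := by
    rw [ENat.eq_top_iff_forall_ge]
    intro m
    exact (natCast_le_analyticOrderAt_iff_iteratedDeriv_eq_zero (hG.analyticAt z0)).2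
      fun t _ => h t
  have hev := analyticOrderAt_eq_top.1 hord
  exact han.eqOn_zero_of_preconnected_of_eventuallyEq_zero isPreconnected_univ
    (Set.mem_univ z0) hev (Set.mem_univ z)

/-- the real-number bookkeeping at the end of the proof -/
private theorem Schneider_num (κ T e Lz N0 : ℕ) (hκ : 1 ≤ κ) (hT : 1 ≤ T)
    (hLz : Lz = (2 * κ + 2) * T) (C C1 Cs Cc lM ls v : ℝ) (hC1 : 0 ≤ C1) (hCs : 0 ≤ Cs)
    (hCc : 0 ≤ Cc) (hlM : 0 ≤ lM)
    (hC : C1 + (1 + (N0 : ℝ) ^ 2) + (Cs + Cc + (1 + 2 * N0) * lM + 3 * N0 * |ls|) ≤ C)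
    (hnum : (T * Real.log T + C * T) + (-((8 * κ + 8 : ℕ) / 2 : ℝ) * e * Real.log e +
      ((((2 * κ + 2) * T : ℕ) : ℝ) / 2) * Real.log e + e * Real.log (e + 1) +
      C * (e + e + (2 * κ + 2) * T + 1)) <
    -(κ : ℝ) * ((T * Real.log T + C * T) +
      (e * Real.log ((2 * κ + 2) * T + e + 1) + C * ((2 * κ + 2) * T + e + 1))))
    (hup : 3 * N0 * ls + Real.log v ≤ (T * Real.log T + C1 * T) + (Lz + (N0 : ℝ) ^ 2) +
      (-((8 * κ + 8 : ℕ) / 2 : ℝ) * e * Real.log e + ((Lz : ℝ) / 2) * Real.log e +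
        e * Real.log (e + 1) + Cc * (e + e + Lz)))
    (hlow : ∀ Θ : ℝ, ((Lz + 2 * N0 + e : ℕ) : ℝ) * lM + ((T * Real.log T + C1 * T) +
      (e * Real.log (Lz + e + 1) + Cs * (Lz + e + 1))) ≤ Θ →
      -((κ : ℝ) - 1) * Θ ≤ ((Lz + 2 * N0 + e : ℕ) : ℝ) * lM + Real.log v) : False := by
  have hκr : (1 : ℝ) ≤ κ := by exact_mod_cast hκ
  have hTr : (1 : ℝ) ≤ T := by exact_mod_cast hT
  have hLr : (Lz : ℝ) = (2 * κ + 2) * T := by rw [hLz]; push_cast; ring
  have hL0 : (0 : ℝ) ≤ Lz := Nat.cast_nonneg _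
  have he0 : (0 : ℝ) ≤ e := Nat.cast_nonneg _
  have hN0 : (0 : ℝ) ≤ N0 := Nat.cast_nonneg _
  have hlT : 0 ≤ Real.log T := Real.log_nonneg hTr
  have hTl : 0 ≤ (T : ℝ) * Real.log T := by positivity
  have hle : 0 ≤ Real.log ((Lz : ℝ) + e + 1) := Real.log_nonneg (by linarith)
  have hel : 0 ≤ (e : ℝ) * Real.log ((Lz : ℝ) + e + 1) := by positivity
  have habs : -|ls| ≤ ls := neg_abs_le ls
  have habs0 : 0 ≤ |ls| := abs_nonneg ls
  set Q : ℝ := 3 * N0 * |ls| with hQ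
  have hQ0 : 0 ≤ Q := by positivity
  set P : ℝ := (1 + 2 * (N0 : ℝ)) * lM with hP
  have hP0 : 0 ≤ P := by positivity
  set Θ : ℝ := (T * Real.log T + C * T) + (e * Real.log (Lz + e + 1) + C * (Lz + e + 1)) with hΘ
  have hN2 : 0 ≤ (N0 : ℝ) ^ 2 := sq_nonneg _
  have hCC1 : C1 ≤ C := by linarith
  have hC0 : 0 ≤ C := by linarith
  have hpow : ((Lz + 2 * N0 + e : ℕ) : ℝ) * lM ≤ P * (Lz + e + 1) := by
    have h1 : 0 ≤ (N0 : ℝ) * lM * (Lz + e) := by positivity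
    have h2 : P * ((Lz : ℝ) + e + 1) - ((Lz + 2 * N0 + e : ℕ) : ℝ) * lM =
        2 * ((N0 : ℝ) * lM * (Lz + e)) + lM := by
      rw [hP]; push_cast; ring
    linarith
  have hCge : (Cs + P) * ((Lz : ℝ) + e + 1) ≤ C * (Lz + e + 1) :=
    mul_le_mul_of_nonneg_right (by linarith) (by linarith)
  rw [add_mul] at hCge
  have hCT : C1 * T ≤ C * T := mul_le_mul_of_nonneg_right hCC1 (by linarith)
  have hCT0 : 0 ≤ C * T := by positivity
  have hCs' : 0 ≤ Cs * ((Lz : ℝ) + e + 1) := by positivity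
  have h1 := hlow Θ (by rw [hΘ]; linarith)
  have h2 : ((Lz + 2 * N0 + e : ℕ) : ℝ) * lM ≤ Θ := by
    rw [hΘ]; linarith
  -- lower bound
  have h3 : -(κ : ℝ) * Θ ≤ Real.log v := by
    have h4 : -((κ : ℝ) - 1) * Θ = -(κ : ℝ) * Θ + Θ := by ring
    rw [h4] at h1
    linarith
  -- upper bound
  have hup2 : (1 + (N0 : ℝ) ^ 2 + Cc + Q) * ((e : ℝ) + e + Lz + 1) ≤
      C * (e + e + Lz + 1) :=
    mul_le_mul_of_nonneg_right (by linarith) (by linarith)
  have hup3 : Cc * ((e : ℝ) + e + Lz) + (Lz + (N0 : ℝ) ^ 2) + Q ≤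
      (1 + (N0 : ℝ) ^ 2 + Cc + Q) * ((e : ℝ) + e + Lz + 1) := by
    have e1 : 0 ≤ (N0 : ℝ) ^ 2 * ((e : ℝ) + e + Lz) := by positivity
    have e2 : 0 ≤ Q * ((e : ℝ) + e + Lz) := by positivity
    have e3 : (1 + (N0 : ℝ) ^ 2 + Cc + Q) * ((e : ℝ) + e + Lz + 1) =
        (Cc * ((e : ℝ) + e + Lz) + (Lz + (N0 : ℝ) ^ 2) + Q) + (e + e + 1 +
          (N0 : ℝ) ^ 2 * ((e : ℝ) + e + Lz) + Q * ((e : ℝ) + e + Lz) + Cc) := by ring
    linarith
  have hls : -Q ≤ 3 * N0 * ls := by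
    have h4 := mul_le_mul_of_nonneg_left habs (show (0 : ℝ) ≤ 3 * N0 by positivity)
    have h5 : 3 * (N0 : ℝ) * -|ls| = -Q := by rw [hQ]; ring
    rw [h5] at h4
    exact h4
  have hΘ2 : Θ = (T * Real.log T + C * T) +
      (e * Real.log ((2 * κ + 2) * T + e + 1) + C * ((2 * κ + 2) * T + e + 1)) := by
    rw [hΘ, hLr]
  rw [← hΘ2] at hnum
  have hcast : ((((2 * κ + 2) * T : ℕ) : ℝ)) = Lz := by rw [hLz]
  rw [hcast, ← hLr] at hnum
  linarith

theorem schneider (L : PeriodPair) (a b : ℂ) (ha : IsIntegral ℤ a) (hb : IsIntegral ℤ b)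
    (h2 : L.g₂ = -4 * a) (h3 : L.g₃ = -4 * b) (β : ℂ) (hβ : β ∉ L.lattice)
    (hβa : IsAlgebraic ℚ β) : ¬ IsAlgebraic ℚ (L.weierstrassP β) := by
  intro hPa
  obtain ⟨K, iK, iN, ι, a', b', z, x, y, hab, hbb, hzinj, hzL, hx, hy⟩ :=
    many_points L a b ha hb h2 h3 β hβ hβa hPa
  obtain ⟨κ, hκ⟩ : ∃ κ : ℕ, κ = Module.finrank ℚ K := ⟨_, rfl⟩
  have hκ1 : 1 ≤ κ := by rw [hκ]; exact Module.finrank_pos
  obtain ⟨N0, hN0⟩ : ∃ N0 : ℕ, N0 = 8 * κ := ⟨_, rfl⟩
  obtain ⟨C1, hC1, T1, hsieg⟩ := sch_siegel a' z x y κ hκ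
  choose M hM hint using fun n => sch_int a' N0 (z n) (x n) (y n)
  choose Cs hCs hsize using fun n => sch_size a' N0 (z n) (x n) (y n)
  obtain ⟨C2, hC2, hgrow⟩ := nr_GS_le a b N0
  have hinj : Function.Injective (fun i : Fin (8 * κ + 8) => ι (z i)) := fun i j h =>
    Fin.ext (hzinj (ι.injective h))
  choose Cc hCc m0 hcauchy using fun n : ℕ =>
    schwarz_cauchy (8 * κ + 8) (fun i => ι (z i)) hinj (ι (z n)) C2 hC2
  -- the total constant
  let Bn : ℕ → ℝ := fun n => Cs n + Cc n + (1 + 2 * N0) * Real.log (M n) +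
    3 * N0 * |Real.log ‖ev (SS a b) (ι (z n))‖|
  have hlogM : ∀ n, 0 ≤ Real.log (M n) := fun n =>
    Real.log_nonneg (by exact_mod_cast hM n)
  have hBn : ∀ n, 0 ≤ Bn n := fun n => by
    have := hCs n; have := hCc n; have := hlogM n
    simp only [Bn]
    positivity
  set C : ℝ := C1 + (1 + (N0 : ℝ) ^ 2) + ∑ n ∈ Finset.range (8 * κ + 8), Bn n with hCdef
  have hC0 : 0 ≤ C := by
    have : 0 ≤ ∑ n ∈ Finset.range (8 * κ + 8), Bn n := Finset.sum_nonneg fun n _ => hBn n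
    positivity
  obtain ⟨T2, hnum⟩ := sch_num κ hκ1 C hC0
  set T : ℕ := max (max T1 T2) (max 1 (∑ n ∈ Finset.range (8 * κ + 8), m0 n)) with hT
  have hTT1 : T1 ≤ T := (le_max_left _ _).trans (le_max_left _ _)
  have hTT2 : T2 ≤ T := (le_max_right _ _).trans (le_max_left _ _)
  have hT1 : 1 ≤ T := (le_max_left _ _).trans (le_max_right _ _)
  have hTm : ∀ n < 8 * κ + 8, m0 n ≤ T := fun n hn =>
    ((Finset.single_le_sum (f := m0) (fun i _ => Nat.zero_le _)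
      (Finset.mem_range.2 hn)).trans (le_max_right _ _)).trans (le_max_right _ _)
  obtain ⟨p, hpH, hpk, hpne, hpz⟩ := hsieg T hTT1
  rw [← hN0] at hpz hpne
  obtain ⟨Lz, hLz⟩ : ∃ Lz : ℕ, Lz = (2 * κ + 2) * T := ⟨_, rfl⟩
  rw [← hLz] at hpz hpne
  set H : ℝ := Real.exp (T * Real.log T + C1 * T) with hH
  have hH0 : 0 < H := Real.exp_pos _
  -- the values
  let val : ℕ → ℕ → K := fun n t =>
    MvPolynomial.eval ![z n, x n, y n, 0] ((⇑(D4 (a' : K)))^[t] (PP K Lz N0 p))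
  have hval : ∀ n t, ι (val n t) =
      MvPolynomial.eval (v4 L (ι (z n))) ((⇑(D4 a))^[t] (PP ℂ Lz N0 p)) := by
    intro n t
    rw [show ι (val n t) = _ from Schneider_val ι a' Lz N0 p hpk t (z n) (x n) (y n)
      (zetaL L (ι (z n))), hab, v4, hx n, hy n]
  set G : ℂ → ℂ := ev (GS a b Lz N0 p) with hG
  have hGd : Differentiable ℂ G := differentiable_ev (Ent_GS a b Lz N0 p)
  have hGS : ∀ w, w ∉ L.lattice →
      G w = ev (SS a b) w ^ (3 * N0) * MvPolynomial.eval (v4 L w) (PP ℂ Lz N0 p) := fun w hw =>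
    (link_GS L a b h2 h3 Lz N0 p hw).symm
  have hS0 : ∀ w, w ∉ L.lattice → ev (SS a b) w ≠ 0 := fun w hw h0 =>
    hw ((S_eq_zero_iff L a b h2 h3 w).1 h0)
  -- there is a non-vanishing value
  have hex : ∃ e, ∃ n < 8 * κ + 8, val n e ≠ 0 := by
    by_contra hcon
    push Not at hcon
    obtain ⟨w, hw, hwne⟩ := sch_ne L Lz N0 p hpk hpne
    have hall : ∀ t, iteratedDeriv t G (ι (z 0)) = 0 := by
      intro t
      have hd := (deriv_G L a b h2 h3 (3 * N0) (PP ℂ Lz N0 p) G hGS (ι (z 0)) (hzL 0) (t + 1)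
        (fun s _ => by rw [← hval 0 s, hcon s 0 (by omega), map_zero])).1
      exact hd t (Nat.lt_succ_self t)
    have h0 := Schneider_zero G hGd (ι (z 0)) hall w
    rw [hGS w hw] at h0
    rcases mul_eq_zero.1 h0 with h4 | h4
    · exact hS0 w hw ((pow_eq_zero_iff (by omega)).1 h4)
    · exact hwne h4
  classical
  obtain ⟨e, ⟨n0, hn0, hne⟩, hemin⟩ : ∃ e, (∃ n < 8 * κ + 8, val n e ≠ 0) ∧
      ∀ t < e, ∀ n < 8 * κ + 8, val n t = 0 := by
    refine ⟨Nat.find hex, Nat.find_spec hex, fun t ht n hn => ?_⟩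
    by_contra hcon
    exact Nat.find_min hex ht ⟨n, hn, hcon⟩
  have heT : T ≤ e := by
    by_contra hlt
    push Not at hlt
    exact hne (hpz n0 (by omega) e hlt)
  -- upper bound
  set s : ℝ := ‖ev (SS a b) (ι (z n0))‖ with hs
  have hs0 : 0 < s := norm_pos_iff.2 (hS0 _ (hzL n0))
  set v : ℝ := ‖ι (val n0 e)‖ with hv
  have hv0 : 0 < v := norm_pos_iff.2 ((map_ne_zero ι).2 hne)
  have hLz1 : 1 ≤ Lz := by
    rw [hLz]
    exact Nat.one_le_iff_ne_zero.2 (Nat.mul_ne_zero (by omega) (by omega))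
  have hN01 : 1 ≤ N0 := by omega
  have hLzr : (1 : ℝ) ≤ Lz := by exact_mod_cast hLz1
  have hN0r : (1 : ℝ) ≤ N0 := by exact_mod_cast hN01
  have hup := hcauchy n0 e ((hTm n0 hn0).trans heT) G Lz e (H * (Lz * (N0 : ℝ) ^ 2))
    (by positivity) hGd
    (fun w => by
      have h4 := hgrow Lz p H hH0.le hpH ‖w‖₊
      have h5 := norm_ev_le (Ent_GS a b Lz N0 p) (z := w) (r := ‖w‖₊) (le_refl _)
      refine h5.trans ?_
      have h6 := ENNReal.toReal_mono ENNReal.ofReal_ne_top h4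
      rw [ENNReal.toReal_ofReal (by positivity)] at h6
      exact h6)
    (fun i t ht => (deriv_G L a b h2 h3 (3 * N0) (PP ℂ Lz N0 p) G hGS (ι (z i)) (hzL i) e
      (fun u hu => by rw [← hval i u, hemin u hu i i.2, map_zero])).1 t ht)
  rw [(deriv_G L a b h2 h3 (3 * N0) (PP ℂ Lz N0 p) G hGS (ι (z n0)) (hzL n0) e
      (fun u hu => by rw [← hval n0 u, hemin u hu n0 hn0, map_zero])).2, ← hval n0 e, norm_mul,
      norm_pow, ← hs, ← hv] at hup
  have hup' := Real.log_le_log (by positivity) hup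
  rw [Real.log_mul (by positivity) (by positivity), Real.log_pow,
    Real.log_mul (by positivity) (by positivity), Real.log_mul (by positivity) (by positivity),
    Real.log_exp, Real.log_exp, Real.log_mul (by positivity) (by positivity)] at hup'
  have hlL : Real.log (Lz : ℝ) ≤ Lz := (Real.log_le_sub_one_of_pos (by linarith)).trans (by linarith)
  have hlN : Real.log ((N0 : ℝ) ^ 2) ≤ (N0 : ℝ) ^ 2 :=
    (Real.log_le_sub_one_of_pos (by positivity)).trans (by linarith)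
  -- Liouville
  have hMr : (0 : ℝ) < M n0 := by exact_mod_cast hM n0
  refine Schneider_num κ T e Lz N0 hκ1 hT1 hLz C C1 (Cs n0) (Cc n0) (Real.log (M n0))
    (Real.log s) v hC1 (hCs n0) (hCc n0) (hlogM n0) ?_ (hnum T hTT2 e heT) ?_ ?_
  · have h4 : Bn n0 ≤ ∑ n ∈ Finset.range (8 * κ + 8), Bn n :=
      Finset.single_le_sum (f := Bn) (fun i _ => hBn i) (Finset.mem_range.2 hn0)
    simp only [Bn] at h4 ⊢
    rw [hCdef]
    linarith
  · push_cast at hup' ⊢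
    linarith
  · intro Θ hΘ
    set Y : K := (M n0 : K) ^ (Lz + 2 * N0 + e) * val n0 e with hY
    have hYint : IsIntegral ℤ Y := hint n0 Lz e p
    have hM0 : (M n0 : K) ≠ 0 := by exact_mod_cast (hM n0).ne'
    have hY0 : Y ≠ 0 := mul_ne_zero (pow_ne_zero _ hM0) hne
    have hYσ : ∀ σ : K →+* ℂ, ‖σ Y‖ ≤ Real.exp Θ := by
      intro σ
      have h4 := hsize n0 Lz e H p hH0.le hpH σ
      rw [hY, map_mul, map_pow, map_natCast, norm_mul, norm_pow, Complex.norm_natCast]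
      calc (M n0 : ℝ) ^ (Lz + 2 * N0 + e) * ‖σ (val n0 e)‖
          ≤ (M n0 : ℝ) ^ (Lz + 2 * N0 + e) *
            (H * Real.exp (e * Real.log (Lz + e + 1) + Cs n0 * (Lz + e + 1))) := by
            gcongr
        _ = Real.exp (((Lz + 2 * N0 + e : ℕ) : ℝ) * Real.log (M n0) +
            ((T * Real.log T + C1 * T) +
              (e * Real.log (Lz + e + 1) + Cs n0 * (Lz + e + 1)))) := by
            have e1 : ∀ A B D : ℝ, Real.exp (A + (B + D)) =
                Real.exp A * (Real.exp B * Real.exp D) := fun A B D => by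
              rw [Real.exp_add, Real.exp_add]
            rw [e1, Real.exp_nat_mul, Real.exp_log hMr, ← hH]
        _ ≤ Real.exp Θ := Real.exp_le_exp.2 hΘ
    have h5 := liouville K Y hYint hY0 Θ hYσ ι
    rw [hY, map_mul, map_pow, map_natCast, norm_mul, norm_pow, Complex.norm_natCast, ← hv,
      ← hκ] at h5
    have h6 := Real.log_le_log (Real.exp_pos _) h5
    rw [Real.log_exp, Real.log_mul (by positivity) (by positivity), Real.log_pow] at h6
    exact h6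

end Pool.Agent.ZFin
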