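import Pool.Agent.ZFin.AddThm
import Pool.Agent.ZFin.Schneider

/-! # Module Per: points with the same `℘`, `℘'`; periods are transcendental -/

namespace Pool.Agent.ZFin
open Pool.Agent.ZCM
open Filter Topology

/-- derivatives of `℘` only depend on `℘` and `℘'` -/
theorem Per_iter (L : PeriodPair) (a b : ℂ) (h2 : L.g₂ = -4 * a) (h3 : L.g₃ = -4 * b)
    (z1 z2 : ℂ) (hz1 : z1 ∉ L.lattice) (hz2 : z2 ∉ L.lattice)
    (hx : L.weierstrassP z1 = L.weierstrassP z2)
    (hy : L.derivWeierstrassP z1 = L.derivWeierstrassP z2) (n : ℕ) :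
    iteratedDeriv n L.weierstrassP z1 = iteratedDeriv n L.weierstrassP z2 := by
  have h4 : ∀ z, z ∉ L.lattice → iteratedDeriv n L.weierstrassP z =
      MvPolynomial.eval (v4 L z) ((⇑(D4 a))^[n] (MvPolynomial.X 1)) := by
    intro z hz
    rw [← iteratedDeriv_v4 L a b h2 h3 (MvPolynomial.X 1) n hz]
    congr 1
    funext w
    simp [v4]
  rw [h4 z1 hz1, h4 z2 hz2]
  have h5 : sh (z1 - z2) (zetaL L z1 - zetaL L z2) ((⇑(D4 a))^[n] (MvPolynomial.X 1)) =
      (⇑(D4 a))^[n] (MvPolynomial.X 1) := by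
    rw [sh_D4_iterate, sh_X1]
  rw [← h5, eval_sh, h5]
  congr 2
  unfold v4
  rw [hx, hy]
  funext i
  fin_cases i <;> simp

/-- points with the same `℘` and `℘'` differ by a lattice element -/
theorem same_point (L : PeriodPair) (a b : ℂ) (h2 : L.g₂ = -4 * a) (h3 : L.g₃ = -4 * b)
    (z1 z2 : ℂ) (hz1 : z1 ∉ L.lattice) (hz2 : z2 ∉ L.lattice)
    (hx : L.weierstrassP z1 = L.weierstrassP z2)
    (hy : L.derivWeierstrassP z1 = L.derivWeierstrassP z2) : z1 - z2 ∈ L.lattice := by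
  have hT : Link_T 0 (fun s => L.weierstrassP (z1 + s)) =
      Link_T 0 (fun s => L.weierstrassP (z2 + s)) := by
    ext n
    rw [Link_coeff_T, Link_coeff_T, iteratedDeriv_comp_const_add, iteratedDeriv_comp_const_add]
    simp only [add_zero]
    rw [Per_iter L a b h2 h3 z1 z2 hz1 hz2 hx hy]
  have hana : ∀ z, z ∉ L.lattice → AnalyticAt ℂ (fun s => L.weierstrassP (z + s)) 0 := by
    intro z hz
    have h4 : AnalyticAt ℂ L.weierstrassP (z + 0) := by
      rw [add_zero]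
      exact Link_analyticOnNhd_P L z hz
    have h5 : AnalyticAt ℂ (fun s : ℂ => z + s) 0 := by fun_prop
    exact h4.fun_comp h5
  have h6 := Link_T_inj (hana z1 hz1) (hana z2 hz2) hT
  have hnot : ∀ z, z ∉ L.lattice → ∀ᶠ s in 𝓝 (0 : ℂ), z + s ∈ ((L.lattice : Set ℂ)ᶜ) := by
    intro z hz
    have hcont : ContinuousAt (fun s : ℂ => z + s) 0 := by fun_prop
    refine hcont.eventually_mem ?_
    rw [add_zero]
    exact (isOpen_compl L).mem_nhds hz
  have dS : ∀ z, Differentiable ℂ (fun s => ev (SS a b) (z + s)) := fun z =>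
    (differentiable_ev (Link_Ent_SS a b)).comp ((differentiable_const z).add differentiable_id)
  have dQ : ∀ z, Differentiable ℂ (fun s => ev (QQ a b) (z + s)) := fun z =>
    (differentiable_ev (Link_Ent_QQ a b)).comp ((differentiable_const z).add differentiable_id)
  have hloc : (fun s => ev (QQ a b) (z1 + s) * ev (SS a b) (z2 + s) ^ 2) =ᶠ[𝓝 0]
      (fun s => ev (QQ a b) (z2 + s) * ev (SS a b) (z1 + s) ^ 2) := by
    filter_upwards [h6, hnot z1 hz1, hnot z2 hz2] with s hs hs1 hs2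
    rw [← link_Q L a b h2 h3 hs1, ← link_Q L a b h2 h3 hs2, hs]
    ring
  have hA : AnalyticOnNhd ℂ (fun s => ev (QQ a b) (z1 + s) * ev (SS a b) (z2 + s) ^ 2)
      Set.univ := fun w _ => ((dQ z1).fun_mul ((dS z2).fun_pow 2)).analyticAt w
  have hB : AnalyticOnNhd ℂ (fun s => ev (QQ a b) (z2 + s) * ev (SS a b) (z1 + s) ^ 2)
      Set.univ := fun w _ => ((dQ z2).fun_mul ((dS z1).fun_pow 2)).analyticAt w
  have h7 : ev (QQ a b) (z1 + -z2) * ev (SS a b) (z2 + -z2) ^ 2 =
      ev (QQ a b) (z2 + -z2) * ev (SS a b) (z1 + -z2) ^ 2 :=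
    congrFun (hA.eq_of_eventuallyEq hB hloc) (-z2)
  have e1 : z2 + -z2 = 0 := by ring
  have e2 : z1 + -z2 = z1 - z2 := by ring
  rw [e1, e2, S_zero, Q_zero L a b h2 h3] at h7
  have h8 : ev (SS a b) (z1 - z2) ^ 2 = 0 := by linear_combination -h7
  exact (S_eq_zero_iff L a b h2 h3 _).1 (pow_eq_zero_iff two_ne_zero |>.1 h8)

/-- `℘'` vanishes at half periods -/
theorem half_period (L : PeriodPair) (z : ℂ) (hz : 2 * z ∈ L.lattice) :
    L.derivWeierstrassP z = 0 := by
  have h4 : L.derivWeierstrassP (-z) = L.derivWeierstrassP z := by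
    have h5 := L.derivWeierstrassP_sub_coe z ⟨2 * z, hz⟩
    simp only at h5
    rw [← h5]
    congr 1
    ring
  rw [L.derivWeierstrassP_neg] at h4
  have h6 : 2 * L.derivWeierstrassP z = 0 := by linear_combination -h4
  exact (mul_eq_zero.1 h6).resolve_left two_ne_zero

theorem no_alg_period (L : PeriodPair) (a b : ℂ) (ha : IsIntegral ℤ a) (hb : IsIntegral ℤ b)
    (h2 : L.g₂ = -4 * a) (h3 : L.g₃ = -4 * b) (ω : ℂ) (hω : ω ∈ L.lattice) (hω0 : ω ≠ 0) :
    ¬ IsAlgebraic ℚ ω := by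
  intro halg
  -- some `ω / 2^k` is not in the lattice
  have hex : ∃ k : ℕ, ω / 2 ^ k ∉ L.lattice := by
    have ht : Tendsto (fun k : ℕ => ω / 2 ^ k) atTop (𝓝 0) := by
      have h4 : Tendsto (fun k : ℕ => ((1 / 2 : ℂ)) ^ k) atTop (𝓝 0) :=
        tendsto_pow_atTop_nhds_zero_of_norm_lt_one (by norm_num)
      have h5 := h4.const_mul ω
      rw [mul_zero] at h5
      refine h5.congr fun k => ?_
      rw [one_div, inv_pow, ← div_eq_mul_inv]
    obtain ⟨k, hk⟩ := (ht.eventually (Link_S_lower a b)).exists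
    refine ⟨k, fun hmem => ?_⟩
    rw [(S_eq_zero_iff L a b h2 h3 _).2 hmem, norm_zero, mul_zero] at hk
    have h6 : ω / 2 ^ k = 0 := norm_le_zero_iff.1 hk
    rw [div_eq_zero_iff] at h6
    rcases h6 with h6 | h6
    · exact hω0 h6
    · exact pow_ne_zero k two_ne_zero h6
  classical
  obtain ⟨k, hk⟩ : ∃ k, k = Nat.find hex := ⟨_, rfl⟩
  have h4 : ω / 2 ^ k ∉ L.lattice := by
    rw [hk]
    exact Nat.find_spec hex
  have hk0 : k ≠ 0 := by
    rintro rfl
    apply h4
    simpa using hω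
  obtain ⟨j, rfl⟩ := Nat.exists_eq_succ_of_ne_zero hk0
  have h5 : ω / 2 ^ j ∈ L.lattice := by
    by_contra h
    have := Nat.find_min' hex h
    omega
  have h6 : 2 * (ω / 2 ^ (j + 1)) ∈ L.lattice := by
    have : 2 * (ω / 2 ^ (j + 1)) = ω / 2 ^ j := by
      rw [pow_succ]
      field_simp
    rw [this]
    exact h5
  have h7 := half_period L _ h6
  have h8 := add_curve L a b h2 h3 _ h4
  rw [Nat.succ_eq_add_one, h7] at h8
  have h9 : IsAlgebraic ℚ (ω / 2 ^ (j + 1)) := by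
    have h10 : IsAlgebraic ℚ ((((2 : ℚ) ^ (j + 1))⁻¹ : ℚ) : ℂ) := by
      rw [← eq_ratCast (algebraMap ℚ ℂ)]
      exact isAlgebraic_algebraMap _
    have h11 := halg.mul h10
    have h12 : ω / 2 ^ (j + 1) = ω * ((((2 : ℚ) ^ (j + 1))⁻¹ : ℚ) : ℂ) := by
      push_cast
      rw [div_eq_mul_inv]
    rw [h12]
    exact h11
  refine schneider L a b ha hb h2 h3 _ h4 h9 ?_
  -- `℘` is a root of a monic polynomial with algebraic coefficients
  have haQ : IsAlgebraic ℚ a := ha.tower_top.isAlgebraic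
  have hbQ : IsAlgebraic ℚ b := hb.tower_top.isAlgebraic
  set x := L.weierstrassP (ω / 2 ^ (j + 1)) with hx
  have h12 : x ^ 3 + a * x + b = 0 := by rw [← h8]; ring
  have haI : IsIntegral ℚ a := haQ.isIntegral
  have hbI : IsIntegral ℚ b := hbQ.isIntegral
  let A : integralClosure ℚ ℂ := ⟨a, haI⟩
  let B : integralClosure ℚ ℂ := ⟨b, hbI⟩
  have hxI : IsIntegral (integralClosure ℚ ℂ) x := by
    refine ⟨Polynomial.X ^ 3 + Polynomial.C A * Polynomial.X + Polynomial.C B, ?_, ?_⟩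
    · monicity!
    · simp only [Polynomial.eval₂_add, Polynomial.eval₂_mul, Polynomial.eval₂_pow,
        Polynomial.eval₂_X, Polynomial.eval₂_C]
      exact h12
  exact (isIntegral_trans x hxI).isAlgebraic

end Pool.Agent.ZFin
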