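import Pool.Agent.ZFin.Defs
import Pool.Agent.ZCM.Link
import Pool.Agent.ZCM.Dup

/-! # Module SchDup: duplication on the lattice functions, section 7.1 -/

namespace Pool.Agent.ZFin
open Pool.Agent.ZCM PowerSeries

theorem SchDup_ev_rescale (c : ℂ) (f : ℂ⟦X⟧) (z : ℂ) : ev (rescale c f) z = ev f (c * z) := by
  unfold ev
  refine tsum_congr (fun n => ?_)
  rw [coeff_rescale, mul_pow]
  ring

theorem SchDup_SS (a b z : ℂ) :
    ev (SS a b) (2 * z) = -(2 * ev (qq a b) z * ev (SS a b) z) := by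
  have h := congrArg (fun f => ev f z) (dup_SS a b)
  have eS := Link_Ent_SS a b
  have eq := Link_Ent_qq a b
  have e : (2 : ℂ⟦X⟧) = C (2 : ℂ) := (map_ofNat (C (R := ℂ)) 2).symm
  simp only [SchDup_ev_rescale] at h
  rw [h, e, ev_neg, ev_mul ((Ent_C 2).mul eq) eS, ev_mul (Ent_C 2) eq, ev_C]

theorem SchDup_QQ (a b z : ℂ) : ev (QQ a b) (2 * z) =
    (3 * ev (QQ a b) z ^ 2 + a * ev (SS a b) z ^ 4) ^ 2
      - 8 * ev (QQ a b) z * ev (qq a b) z ^ 2 := by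
  have h := congrArg (fun f => ev f z) (dup_QQ a b)
  have eS := Link_Ent_SS a b
  have eQ := Link_Ent_QQ a b
  have eq := Link_Ent_qq a b
  have e3 : (3 : ℂ⟦X⟧) = C (3 : ℂ) := (map_ofNat (C (R := ℂ)) 3).symm
  have e8 : (8 : ℂ⟦X⟧) = C (8 : ℂ) := (map_ofNat (C (R := ℂ)) 8).symm
  have f1 := ((Ent_C 3).mul (eQ.pow 2)).add ((Ent_C a).mul (eS.pow 4))
  simp only [SchDup_ev_rescale] at h
  rw [h, e3, e8, ev_sub (f1.pow 2) (((Ent_C 8).mul eQ).mul (eq.pow 2)), ev_pow f1,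
    ev_add ((Ent_C 3).mul (eQ.pow 2)) ((Ent_C a).mul (eS.pow 4)), ev_mul (Ent_C 3) (eQ.pow 2),
    ev_mul (Ent_C a) (eS.pow 4), ev_mul ((Ent_C 8).mul eQ) (eq.pow 2), ev_mul (Ent_C 8) eQ,
    ev_pow eQ, ev_pow eS, ev_pow eq, ev_C, ev_C, ev_C]

theorem SchDup_qq (a b z : ℂ) : ev (qq a b) (2 * z) =
    (3 * ev (QQ a b) z ^ 2 + a * ev (SS a b) z ^ 4) ^ 3
      - 12 * ev (qq a b) z ^ 2 * ev (QQ a b) z
        * (3 * ev (QQ a b) z ^ 2 + a * ev (SS a b) z ^ 4) + 8 * ev (qq a b) z ^ 4 := by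
  have h := congrArg (fun f => ev f z) (dup_qq a b)
  have eS := Link_Ent_SS a b
  have eQ := Link_Ent_QQ a b
  have eq := Link_Ent_qq a b
  have e3 : (3 : ℂ⟦X⟧) = C (3 : ℂ) := (map_ofNat (C (R := ℂ)) 3).symm
  have e8 : (8 : ℂ⟦X⟧) = C (8 : ℂ) := (map_ofNat (C (R := ℂ)) 8).symm
  have e12 : (12 : ℂ⟦X⟧) = C (12 : ℂ) := (map_ofNat (C (R := ℂ)) 12).symm
  have f1 := ((Ent_C 3).mul (eQ.pow 2)).add ((Ent_C a).mul (eS.pow 4))
  have f2 := ((Ent_C 12).mul (eq.pow 2)).mul eQ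
  have f3 := (f1.pow 3).sub (f2.mul f1)
  simp only [SchDup_ev_rescale] at h
  rw [h, e3, e8, e12, ev_add f3 ((Ent_C 8).mul (eq.pow 4)), ev_sub (f1.pow 3) (f2.mul f1),
    ev_pow f1, ev_mul f2 f1, ev_mul ((Ent_C 12).mul (eq.pow 2)) eQ,
    ev_mul (Ent_C 12) (eq.pow 2),
    ev_add ((Ent_C 3).mul (eQ.pow 2)) ((Ent_C a).mul (eS.pow 4)), ev_mul (Ent_C 3) (eQ.pow 2),
    ev_mul (Ent_C a) (eS.pow 4), ev_mul (Ent_C 8) (eq.pow 4),
    ev_pow eQ, ev_pow eS, ev_pow eq, ev_pow eq, ev_C, ev_C, ev_C, ev_C]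

/-- from `Pool.Agent.ZCM.dup_SS` and `S_eq_zero_iff`, `link_q` -/
theorem two_mul_mem_iff (L : PeriodPair) (a b : ℂ) (h2 : L.g₂ = -4 * a) (h3 : L.g₃ = -4 * b)
    (z : ℂ) (hz : z ∉ L.lattice) : 2 * z ∈ L.lattice ↔ L.derivWeierstrassP z / 2 = 0 := by
  have hS : ev (SS a b) z ≠ 0 := fun h0 => hz ((S_eq_zero_iff L a b h2 h3 z).mp h0)
  rw [← S_eq_zero_iff L a b h2 h3, SchDup_SS, ← link_q L a b h2 h3 hz]
  constructor
  · intro h
    have h4 : ev (SS a b) z ^ 4 * (L.derivWeierstrassP z / 2) = 0 := by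
      linear_combination (-1 / 2 : ℂ) * h
    exact (mul_eq_zero.1 h4).resolve_left (pow_ne_zero 4 hS)
  · intro h
    rw [h]; ring

/-- from `dup_SS`, `dup_QQ`, `dup_qq` -/
theorem dup_lat (L : PeriodPair) (a b : ℂ) (h2 : L.g₂ = -4 * a) (h3 : L.g₃ = -4 * b)
    (z x y : ℂ) (hz : z ∉ L.lattice) (h2z : 2 * z ∉ L.lattice) (hx : x = L.weierstrassP z)
    (hy : y = L.derivWeierstrassP z / 2) :
    L.weierstrassP (2 * z) = ((3 * x ^ 2 + a) ^ 2 - 8 * x * y ^ 2) / (4 * y ^ 2) ∧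
    L.derivWeierstrassP (2 * z) / 2 = -((3 * x ^ 2 + a) ^ 3 -
      12 * x * y ^ 2 * (3 * x ^ 2 + a) + 8 * y ^ 4) / (8 * y ^ 3) := by
  have hS : ev (SS a b) z ≠ 0 := fun h0 => hz ((S_eq_zero_iff L a b h2 h3 z).mp h0)
  have hy0 : y ≠ 0 := by
    rw [hy]
    intro h
    exact h2z ((two_mul_mem_iff L a b h2 h3 z hz).2 h)
  have hQ := link_Q L a b h2 h3 hz
  have hq := link_q L a b h2 h3 hz
  rw [← hx] at hQ
  rw [← hy] at hq
  have hQ2 := link_Q L a b h2 h3 h2z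
  have hq2 := link_q L a b h2 h3 h2z
  rw [SchDup_SS, SchDup_QQ, ← hQ, ← hq] at hQ2
  rw [SchDup_SS, SchDup_qq, ← hQ, ← hq] at hq2
  constructor
  · rw [eq_div_iff (mul_ne_zero (by norm_num) (pow_ne_zero 2 hy0))]
    apply mul_left_cancel₀ (pow_ne_zero 8 hS)
    linear_combination hQ2
  · rw [eq_div_iff (mul_ne_zero (by norm_num) (pow_ne_zero 3 hy0))]
    apply mul_left_cancel₀ (pow_ne_zero 12 hS)
    linear_combination -hq2

end Pool.Agent.ZFin
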