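import Pool.Agent.ZFin.Defs
import Pool.Agent.ZCM.Gel

/-! # small lemmas copied from `Pool.Agent.ZCM` (to keep the imports light) -/

namespace Pool.Agent.ZFin
open Polynomial NumberField Pool.Agent.ZCM

theorem TA_ne {R : Type*} [CommRing R] [IsDomain R] (A B f : R[X])
    (hf : f.natDegree = 3) (hAB : ¬ (A = 0 ∧ B = 0)) : A ^ 2 - B ^ 2 * f ≠ 0 := by
  intro h
  have h1 : A ^ 2 = B ^ 2 * f := sub_eq_zero.mp h
  have hf0 : f ≠ 0 := by
    rintro rfl
    simp at hf
  by_cases hB : B = 0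
  · subst hB
    have h3 : A ^ 2 = 0 := by rw [h1]; ring
    exact hAB ⟨pow_eq_zero_iff (two_ne_zero) |>.mp h3, rfl⟩
  · have h2 : (A ^ 2).natDegree = (B ^ 2 * f).natDegree := by rw [h1]
    rw [natDegree_pow, natDegree_mul (pow_ne_zero 2 hB) hf0, natDegree_pow, hf] at h2
    omega

theorem TA_deg {R : Type*} [CommRing R] [IsDomain R] (A B f : R[X]) (D : ℕ)
    (hf : f.natDegree = 3) (hA : 2 * A.natDegree ≤ D)
    (hB : B ≠ 0 → 2 * B.natDegree + 3 ≤ D) : (A ^ 2 - B ^ 2 * f).natDegree ≤ D := by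
  refine (natDegree_sub_le _ _).trans (max_le ?_ ?_)
  · rw [natDegree_pow]; exact hA
  · by_cases hB0 : B = 0
    · subst hB0
      simp
    · refine natDegree_mul_le.trans ?_
      rw [natDegree_pow, hf]
      exact hB hB0

theorem TA_f {R : Type*} [CommRing R] [IsDomain R] (a b : R) :
    (X ^ 3 + C a * X + C b : R[X]).natDegree = 3 := by
  compute_degree!

theorem TA_nm {R : Type*} [CommRing R] (A B f : R[X]) (σ : R →+* ℂ) :
    nm1 ((A ^ 2 - B ^ 2 * f).map σ) ≤
      nm1 (A.map σ) ^ 2 + nm1 (B.map σ) ^ 2 * nm1 (f.map σ) := by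
  rw [Polynomial.map_sub, Polynomial.map_mul, Polynomial.map_pow, Polynomial.map_pow]
  refine (nm1_sub_le _ _).trans (add_le_add ?_ ?_)
  · rw [pow_two, pow_two]; exact nm1_mul_le _ _
  · refine (nm1_mul_le _ _).trans (mul_le_mul_of_nonneg_right ?_ (nm1_nonneg _))
    rw [pow_two, pow_two]; exact nm1_mul_le _ _

/-- the growth facts for `T log T` -/
theorem TA_growth (c : ℝ) (hc : 0 < c) :
    Filter.Tendsto (fun T : ℕ => c * ((T : ℝ) * Real.log T)) Filter.atTop Filter.atTop ∧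
    (∀ T : ℕ, 3 ≤ T → c * (((T + 1 : ℕ) : ℝ) * Real.log ((T + 1 : ℕ) : ℝ)) ≤
      2 * (c * ((T : ℝ) * Real.log T))) ∧
    (∀ T : ℕ, 3 ≤ T → c * ((T : ℝ) * Real.log T) ≤
      c * (((T + 1 : ℕ) : ℝ) * Real.log ((T + 1 : ℕ) : ℝ))) := by
  refine ⟨?_, ?_, ?_⟩
  · refine Filter.Tendsto.const_mul_atTop hc ?_
    exact tendsto_natCast_atTop_atTop.atTop_mul_atTop₀
      (Real.tendsto_log_atTop.comp tendsto_natCast_atTop_atTop)
  · intro T hT
    have hT' : (3 : ℝ) ≤ (T : ℝ) := by exact_mod_cast hT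
    have hT0 : (0 : ℝ) < T := by linarith
    have hlog1 : 1 ≤ Real.log T := by
      rw [Real.le_log_iff_exp_le hT0]
      have := Real.exp_one_lt_d9
      linarith
    have h1 : Real.log ((T + 1 : ℕ) : ℝ) ≤ Real.log T + 1 / T := by
      push_cast
      have h2 : (T : ℝ) + 1 = T * (1 + 1 / T) := by field_simp
      rw [h2, Real.log_mul (by positivity) (by positivity)]
      have h3 := Real.log_le_sub_one_of_pos (show (0 : ℝ) < 1 + 1 / T by positivity)
      linarith
    have h4 : ((T + 1 : ℕ) : ℝ) * Real.log ((T + 1 : ℕ) : ℝ) ≤ 2 * ((T : ℝ) * Real.log T) := by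
      have h5 : ((T + 1 : ℕ) : ℝ) * Real.log ((T + 1 : ℕ) : ℝ) ≤
          ((T : ℝ) + 1) * (Real.log T + 1 / T) := by
        push_cast
        push_cast at h1
        exact mul_le_mul_of_nonneg_left h1 (by positivity)
      have h6 : ((T : ℝ) + 1) * (Real.log T + 1 / T) =
          T * Real.log T + Real.log T + 1 + 1 / T := by field_simp; ring
      have h7 : 1 / (T : ℝ) ≤ 1 := by
        rw [div_le_one hT0]; linarith
      nlinarith
    nlinarith
  · intro T hT
    have hT' : (3 : ℝ) ≤ (T : ℝ) := by exact_mod_cast hT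
    refine mul_le_mul_of_nonneg_left ?_ hc.le
    push_cast
    have h1 : Real.log (T : ℝ) ≤ Real.log ((T : ℝ) + 1) :=
      Real.log_le_log (by linarith) (by linarith)
    have h2 : 0 ≤ Real.log (T : ℝ) := Real.log_nonneg (by linarith)
    nlinarith

/-- common denominator -/
theorem TA_den {K : Type*} [Field K] [NumberField K] (β c : K) :
    ∃ M0 : ℕ, 0 < M0 ∧ IsIntegral ℤ ((M0 : K) * β) ∧ IsIntegral ℤ ((M0 : K) * c) := by
  have h : ∀ z : K, ∃ n : ℕ, 0 < n ∧ IsIntegral ℤ ((n : K) * z) := by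
    intro z
    have hz : IsAlgebraic ℤ z := by
      have h1 : IsAlgebraic ℚ z := Algebra.IsAlgebraic.isAlgebraic z
      exact (IsFractionRing.isAlgebraic_iff ℤ ℚ K).2 h1
    obtain ⟨y, hy0, hy⟩ := hz.exists_integral_multiple
    refine ⟨y.natAbs, Int.natAbs_pos.2 hy0, ?_⟩
    rcases Int.natAbs_eq y with h | h
    · have e : (y.natAbs : K) * z = y • z := by
        rw [zsmul_eq_mul]
        conv_rhs => rw [h]
        simp
      rw [e]; exact hy
    · have e : (y.natAbs : K) * z = -(y • z) := by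
        rw [zsmul_eq_mul]
        conv_rhs => rw [h]
        simp
      rw [e]; exact hy.neg
  obtain ⟨n, hn, hn'⟩ := h β
  obtain ⟨k, hk, hk'⟩ := h c
  have hint : ∀ j : ℕ, IsIntegral ℤ (j : K) := fun j => by
    simpa using (isIntegral_algebraMap (R := ℤ) (A := K) (x := (j : ℤ)))
  refine ⟨n * k, Nat.mul_pos hn hk, ?_, ?_⟩
  · have e : ((n * k : ℕ) : K) * β = (k : K) * ((n : K) * β) := by push_cast; ring
    rw [e]; exact (hint k).mul hn'
  · have e : ((n * k : ℕ) : K) * c = (n : K) * ((k : K) * c) := by push_cast; ring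
    rw [e]; exact (hint n).mul hk'

/-- a common denominator of four elements of a number field -/
theorem TA_mult {K : Type*} [Field K] [NumberField K] (v : Fin 4 → K) :
    ∃ M : ℕ, 0 < M ∧ ∀ i, IsIntegral ℤ ((M : K) * v i) := by
  classical
  have hal : Algebra.IsAlgebraic ℤ K := ⟨fun z => by
    have h1 : IsAlgebraic ℚ z := Algebra.IsAlgebraic.isAlgebraic z
    exact (IsFractionRing.isAlgebraic_iff ℤ ℚ K).2 h1⟩
  obtain ⟨y, hy, h⟩ :=
    Algebra.IsAlgebraic.exists_integral_multiples ℤ (Finset.univ.image v)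
  refine ⟨y.natAbs, Int.natAbs_pos.2 hy, fun i => ?_⟩
  have h1 : IsIntegral ℤ (y • v i) := h (v i) (by simp)
  rw [zsmul_eq_mul] at h1
  rcases Int.natAbs_eq y with h2 | h2
  · have h3 : ((y.natAbs : ℕ) : K) = (y : K) := by
      have h4 := congrArg (fun z : ℤ => (z : K)) h2
      simp only [Int.cast_natCast] at h4
      exact h4.symm
    rw [h3]; exact h1
  · have h3 : ((y.natAbs : ℕ) : K) = -(y : K) := by
      have h4 := congrArg (fun z : ℤ => (z : K)) h2
      simp only [Int.cast_neg, Int.cast_natCast] at h4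
      rw [h4, neg_neg]
    rw [h3, neg_mul]; exact h1.neg

/-- integrality of a value of a polynomial, after multiplication with a power of a common
denominator of the arguments -/
theorem TA_int {K : Type*} [Field K] [NumberField K] (P : MvPolynomial (Fin 4) (𝓞 K))
    (v : Fin 4 → K) (M : ℕ) (hM : ∀ i, IsIntegral ℤ ((M : K) * v i)) (d : ℕ)
    (hd : P.totalDegree ≤ d) :
    IsIntegral ℤ ((M : K) ^ d *
      MvPolynomial.eval v (MvPolynomial.map (algebraMap (𝓞 K) K) P)) := by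
  rw [MvPolynomial.eval_map, MvPolynomial.eval₂_eq', Finset.mul_sum]
  refine IsIntegral.sum _ fun m hm => ?_
  have h1 : ∑ i, m i ≤ d := by
    refine le_trans ?_ hd
    have := MvPolynomial.le_totalDegree hm
    rwa [Finsupp.sum_fintype _ _ (by intro; rfl)] at this
  have h2 : (M : K) ^ d * (algebraMap (𝓞 K) K (P.coeff m) * ∏ i, v i ^ m i)
      = algebraMap (𝓞 K) K (P.coeff m) *
        ((M : K) ^ (d - ∑ i, m i) * ∏ i, ((M : K) * v i) ^ m i) := by
    have h3 : (M : K) ^ d = (M : K) ^ (d - ∑ i, m i) * (M : K) ^ (∑ i, m i) := by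
      rw [← pow_add, Nat.sub_add_cancel h1]
    simp_rw [mul_pow, Finset.prod_mul_distrib, Finset.prod_pow_eq_pow_sum]
    rw [h3]; ring
  rw [h2]
  refine IsIntegral.mul (RingOfIntegers.isIntegral_coe _) (IsIntegral.mul ?_ ?_)
  · have h4 : IsIntegral ℤ ((M : K)) := by
      have h5 := isIntegral_algebraMap (R := ℤ) (A := K) (x := (M : ℤ))
      simpa using h5
    exact h4.pow _
  · exact IsIntegral.prod _ fun i _ => (hM i).pow _

/-- a number field containing finitely many algebraic numbers -/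
theorem TA_numberField (S : Set ℂ) [Finite S] (hS : ∀ x ∈ S, IsAlgebraic ℚ x) :
    ∃ (K : Type) (_ : Field K) (_ : NumberField K) (ι : K →+* ℂ), ∀ x ∈ S, ∃ k : K, ι k = x := by
  have hfd : FiniteDimensional ℚ (IntermediateField.adjoin ℚ S) :=
    IntermediateField.finiteDimensional_adjoin fun x hx => (hS x hx).isIntegral
  refine ⟨IntermediateField.adjoin ℚ S, inferInstance, ⟨⟩, algebraMap _ ℂ, fun x hx => ?_⟩
  exact ⟨⟨x, IntermediateField.subset_adjoin ℚ S hx⟩, rfl⟩

theorem TA_integral {K : Type} [Field K] (ι : K →+* ℂ) {k : K} (h : IsIntegral ℤ (ι k)) :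
    IsIntegral ℤ k := by
  have : IsIntegral ℤ ((ι.toIntAlgHom) k) := h
  exact (isIntegral_algHom_iff ι.toIntAlgHom ι.injective).1 this

theorem TA_nat (k : ℕ) : IsIntegral ℤ (k : ℂ) := by
  have := isIntegral_algebraMap (R := ℤ) (A := ℂ) (x := (k : ℤ))
  simpa using this

theorem TA_clear (x : ℂ) (hx : IsAlgebraic ℚ x) : ∃ d : ℕ, 0 < d ∧ IsIntegral ℤ ((d : ℂ) * x) := by
  have hx' : IsAlgebraic ℤ x := (IsFractionRing.isAlgebraic_iff ℤ ℚ ℂ).2 hx
  obtain ⟨y, hy, h⟩ := hx'.exists_integral_multiple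
  refine ⟨y.natAbs, Int.natAbs_pos.2 hy, ?_⟩
  have h' : IsIntegral ℤ ((y : ℂ) * x) := by simpa [zsmul_eq_mul] using h
  rcases Int.natAbs_eq y with h1 | h1
  · have : ((y.natAbs : ℕ) : ℂ) = (y : ℂ) := by
      rw [h1]; simp
    rw [this]; exact h'
  · have : ((y.natAbs : ℕ) : ℂ) = -(y : ℂ) := by
      have := congrArg (fun t : ℤ => (t : ℂ)) h1
      simp only [Int.cast_neg, Int.cast_natCast] at this
      rw [this]; simp
    rw [this, neg_mul]; exact h'.neg

end Pool.Agent.ZFin
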