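import Pool.Agent.ZFin.Defs
import Pool.Agent.ZCM.Gel
import Pool.Agent.ZCM.Reduce

/-! # Module Shift: the substitution `z ↦ z - u`, `Y ↦ Y - v` -/

namespace Pool.Agent.ZFin
open Polynomial Pool.Agent.ZCM

/-- the substitution `z ↦ z - u`, `Y ↦ Y - v` of `ℂ[z,X,y,Y]` -/
noncomputable def sh (u v : ℂ) : MvPolynomial (Fin 4) ℂ →ₐ[ℂ] MvPolynomial (Fin 4) ℂ :=
  MvPolynomial.aeval ![MvPolynomial.X 0 - MvPolynomial.C u, MvPolynomial.X 1, MvPolynomial.X 2,
    MvPolynomial.X 3 - MvPolynomial.C v]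

theorem sh_X0 (u v : ℂ) : sh u v (MvPolynomial.X 0) = MvPolynomial.X 0 - MvPolynomial.C u := by
  simp [sh]

theorem sh_X1 (u v : ℂ) : sh u v (MvPolynomial.X 1) = MvPolynomial.X 1 := by simp [sh]

theorem sh_X2 (u v : ℂ) : sh u v (MvPolynomial.X 2) = MvPolynomial.X 2 := by simp [sh]

theorem sh_X3 (u v : ℂ) : sh u v (MvPolynomial.X 3) = MvPolynomial.X 3 - MvPolynomial.C v := by
  simp [sh]

theorem sh_C (u v c : ℂ) : sh u v (MvPolynomial.C c) = MvPolynomial.C c := by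
  rw [← MvPolynomial.algebraMap_eq, AlgHom.commutes]

theorem D4_C' (a c : ℂ) : D4 a (MvPolynomial.C c) = 0 := by
  rw [← MvPolynomial.algebraMap_eq]
  exact Derivation.map_algebraMap _ _

theorem sh_D4 (a u v : ℂ) (P : MvPolynomial (Fin 4) ℂ) : sh u v (D4 a P) = D4 a (sh u v P) := by
  induction P using MvPolynomial.induction_on with
  | C c => rw [D4_C', map_zero, sh_C, D4_C']
  | add p q hp hq => rw [map_add, map_add, map_add, map_add, hp, hq]
  | mul_X p i hp =>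
    have hX : sh u v (D4 a (MvPolynomial.X i)) = D4 a (sh u v (MvPolynomial.X i)) := by
      fin_cases i
      · show sh u v (D4 a (MvPolynomial.X 0)) = D4 a (sh u v (MvPolynomial.X 0))
        rw [sh_X0, map_sub, D4_C', sub_zero]
        simp only [D4, MvPolynomial.mkDerivation_X, Matrix.cons_val_zero, map_one]
      · show sh u v (D4 a (MvPolynomial.X 1)) = D4 a (sh u v (MvPolynomial.X 1))
        rw [sh_X1]
        simp only [D4, MvPolynomial.mkDerivation_X, Matrix.cons_val, map_mul, map_ofNat, sh_X2]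
      · show sh u v (D4 a (MvPolynomial.X 2)) = D4 a (sh u v (MvPolynomial.X 2))
        rw [sh_X2]
        simp only [D4, MvPolynomial.mkDerivation_X, Matrix.cons_val, map_mul, map_add, map_pow,
          map_ofNat, sh_X1, sh_C]
      · show sh u v (D4 a (MvPolynomial.X 3)) = D4 a (sh u v (MvPolynomial.X 3))
        rw [sh_X3, map_sub, D4_C', sub_zero]
        simp only [D4, MvPolynomial.mkDerivation_X, Matrix.cons_val, map_neg, sh_X1]
    rw [Derivation.leibniz, map_mul, Derivation.leibniz, map_add, smul_eq_mul, smul_eq_mul,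
      smul_eq_mul, smul_eq_mul, map_mul, map_mul, hp, hX]

theorem sh_D4_iterate (a u v : ℂ) (t : ℕ) (P : MvPolynomial (Fin 4) ℂ) :
    sh u v ((⇑(D4 a))^[t] P) = (⇑(D4 a))^[t] (sh u v P) := by
  induction t generalizing P with
  | zero => rfl
  | succ n ih => rw [Function.iterate_succ_apply, Function.iterate_succ_apply, ih, sh_D4]

theorem eval_sh (u v : ℂ) (w : Fin 4 → ℂ) (P : MvPolynomial (Fin 4) ℂ) :
    MvPolynomial.eval w (sh u v P) = MvPolynomial.eval ![w 0 - u, w 1, w 2, w 3 - v] P := by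
  induction P using MvPolynomial.induction_on with
  | C c => rw [sh_C, MvPolynomial.eval_C, MvPolynomial.eval_C]
  | add p q hp hq => rw [map_add, map_add, map_add, hp, hq]
  | mul_X p i hp =>
    rw [map_mul, map_mul, map_mul, hp]
    congr 1
    fin_cases i <;> simp [sh]

/-- the vector of polynomials of `sh u v (mv q p)` -/
noncomputable def shp (u v : ℂ) {q : ℕ} (p : Idx q → ℂ[X]) : Idx q → ℂ[X] :=
  fun i => ∑ κ : Fin (q + 1),
    C ((((κ : ℕ).choose (i.2.2 : ℕ) : ℕ) : ℂ) * (-v) ^ ((κ : ℕ) - (i.2.2 : ℕ))) *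
      (p (i.1, i.2.1, κ)).comp (X - C u)

theorem add_pow_fin {A : Type*} [CommSemiring A] (q : ℕ) (κ : Fin (q + 1)) (x y : A) :
    (x + y) ^ (κ : ℕ) = ∑ κ' : Fin (q + 1),
      (((κ : ℕ).choose (κ' : ℕ) : ℕ) : A) * y ^ ((κ : ℕ) - (κ' : ℕ)) * x ^ (κ' : ℕ) := by
  rw [add_pow, Fin.sum_univ_eq_sum_range (fun m => (((κ : ℕ).choose m : ℕ) : A) *
    y ^ ((κ : ℕ) - m) * x ^ m) (q + 1)]
  have h1 : Finset.range ((κ : ℕ) + 1) ⊆ Finset.range (q + 1) := by
    apply Finset.range_subset_range.2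
    have := κ.2
    omega
  rw [← Finset.sum_subset h1]
  · exact Finset.sum_congr rfl fun m _ => by ring
  · intro m _ hm
    have hm' : (κ : ℕ) < m := by
      simp only [Finset.mem_range] at hm
      omega
    rw [Nat.choose_eq_zero_of_lt hm']
    simp

theorem sh_mv (u v : ℂ) {q : ℕ} (p : Idx q → ℂ[X]) : sh u v (mv q p) = mv q (shp u v p) := by
  unfold mv
  rw [map_sum]
  have h1 : ∀ i : Idx q, sh u v (aeval (MvPolynomial.X 0 : MvPolynomial (Fin 4) ℂ) (p i) *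
      MvPolynomial.X 1 ^ (i.1 : ℕ) * MvPolynomial.X 2 ^ (i.2.1 : ℕ) *
      MvPolynomial.X 3 ^ (i.2.2 : ℕ)) = ∑ κ' : Fin (q + 1),
      aeval (MvPolynomial.X 0 : MvPolynomial (Fin 4) ℂ)
        (C ((((i.2.2 : ℕ).choose (κ' : ℕ) : ℕ) : ℂ) * (-v) ^ ((i.2.2 : ℕ) - (κ' : ℕ))) *
          (p i).comp (X - C u)) *
      MvPolynomial.X 1 ^ (i.1 : ℕ) * MvPolynomial.X 2 ^ (i.2.1 : ℕ) *
      MvPolynomial.X 3 ^ (κ' : ℕ) := by
    intro i
    rw [map_mul, map_mul, map_mul, map_pow, map_pow, map_pow, sh_X1, sh_X2, sh_X3]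
    have h2 : sh u v (aeval (MvPolynomial.X 0 : MvPolynomial (Fin 4) ℂ) (p i)) =
        aeval (MvPolynomial.X 0 : MvPolynomial (Fin 4) ℂ) ((p i).comp (X - C u)) := by
      rw [← Polynomial.aeval_algHom_apply, sh_X0, aeval_comp]
      congr 2
      simp [MvPolynomial.algebraMap_eq]
    rw [h2, sub_eq_add_neg (MvPolynomial.X 3) (MvPolynomial.C v), add_pow_fin, Finset.mul_sum]
    refine Finset.sum_congr rfl fun κ' _ => ?_
    rw [map_mul, aeval_C, MvPolynomial.algebraMap_eq, map_mul, map_pow, map_neg, map_natCast]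
    ring
  rw [Finset.sum_congr rfl fun i _ => h1 i]
  rw [Fintype.sum_prod_type, Fintype.sum_prod_type]
  refine Finset.sum_congr rfl fun j _ => ?_
  rw [Fintype.sum_prod_type, Fintype.sum_prod_type]
  refine Finset.sum_congr rfl fun e _ => ?_
  rw [Finset.sum_comm]
  refine Finset.sum_congr rfl fun κ _ => ?_
  simp only [shp]
  rw [map_sum, Finset.sum_mul, Finset.sum_mul, Finset.sum_mul]

theorem nm1_C_mul (c : ℂ) (p : ℂ[X]) : nm1 (C c * p) ≤ ‖c‖ * nm1 p := by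
  refine (nm1_mul_le _ _).trans ?_
  exact mul_le_mul_of_nonneg_right (Reduce_nm1_C c) (nm1_nonneg _)

theorem nm1_le_of_coeff (p : ℂ[X]) (l : ℕ) (H : ℝ) (hd : p.natDegree ≤ l)
    (hc : ∀ n, ‖p.coeff n‖ ≤ H) : nm1 p ≤ (l + 1) * H := by
  rw [Gel_nm1_eq p (Finset.range (l + 1))]
  · refine (Finset.sum_le_card_nsmul _ _ H fun n _ => hc n).trans ?_
    rw [Finset.card_range, nsmul_eq_mul]
    push_cast
    exact le_rfl
  · intro n hn
    rw [Finset.mem_range]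
    have := le_natDegree_of_mem_supp n hn
    omega

theorem nm1_comp_le (u : ℂ) (p : ℂ[X]) (l : ℕ) (H : ℝ) (hH : 0 ≤ H) (hd : p.natDegree ≤ l)
    (hc : ∀ n, ‖p.coeff n‖ ≤ H) :
    nm1 (p.comp (X - C u)) ≤ (l + 1) * H * (1 + ‖u‖) ^ l := by
  have h1 : p.comp (X - C u) = ∑ n ∈ Finset.range (l + 1), C (p.coeff n) * (X - C u) ^ n := by
    rw [comp, eval₂_eq_sum_range' C (Nat.lt_succ_of_le hd)]
  have h2 : nm1 (X - C u) ≤ 1 + ‖u‖ := by
    refine (nm1_sub_le _ _).trans ?_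
    refine add_le_add ?_ (Reduce_nm1_C u)
    have := Reduce_nm1_monomial 1 1
    simpa using this
  rw [h1]
  refine (Reduce_nm1_sum _ _).trans ?_
  have h3 : ∀ n ∈ Finset.range (l + 1), nm1 (C (p.coeff n) * (X - C u) ^ n) ≤
      H * (1 + ‖u‖) ^ l := by
    intro n hn
    have hn' : n ≤ l := by
      have := Finset.mem_range.1 hn
      omega
    refine (nm1_C_mul _ _).trans ?_
    refine mul_le_mul (hc n) ?_ (nm1_nonneg _) hH
    refine (Reduce_nm1_pow _ _ h2 n).trans ?_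
    exact pow_le_pow_right₀ (by linarith [norm_nonneg u]) hn'
  refine (Finset.sum_le_card_nsmul _ _ _ h3).trans ?_
  rw [Finset.card_range, nsmul_eq_mul]
  push_cast
  linarith

theorem shp_natDegree (u v : ℂ) {q : ℕ} (p : Idx q → ℂ[X]) (l : ℕ)
    (hd : ∀ i, (p i).natDegree ≤ l) (i : Idx q) : (shp u v p i).natDegree ≤ l := by
  unfold shp
  refine natDegree_sum_le_of_forall_le _ _ fun κ _ => ?_
  refine (natDegree_C_mul_le _ _).trans ?_
  rw [natDegree_comp, natDegree_X_sub_C, mul_one]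
  exact hd _

theorem shp_coeff (u v : ℂ) (q : ℕ) : ∃ C' : ℝ, 0 ≤ C' ∧ ∀ (p : Idx q → ℂ[X]) (l : ℕ) (H : ℝ),
    0 ≤ H → (∀ i, (p i).natDegree ≤ l) → (∀ i n, ‖(p i).coeff n‖ ≤ H) →
    ∀ i n, ‖(shp u v p i).coeff n‖ ≤ H * Real.exp (C' * (l + 1)) := by
  set V : ℝ := (q + 1) * (2 ^ q * (1 + ‖v‖) ^ q) with hV
  have hV0 : 0 ≤ V := by positivity
  refine ⟨V + 1 + ‖u‖, by positivity, fun p l H hH hd hc i n => ?_⟩
  refine (norm_coeff_le_nm1 _ _).trans ?_
  have hterm : ∀ κ ∈ (Finset.univ : Finset (Fin (q + 1))),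
      nm1 (C ((((κ : ℕ).choose (i.2.2 : ℕ) : ℕ) : ℂ) * (-v) ^ ((κ : ℕ) - (i.2.2 : ℕ))) *
        (p (i.1, i.2.1, κ)).comp (X - C u)) ≤
      (2 ^ q * (1 + ‖v‖) ^ q) * ((l + 1) * H * (1 + ‖u‖) ^ l) := by
    intro κ _
    refine (nm1_C_mul _ _).trans ?_
    refine mul_le_mul ?_ (nm1_comp_le u _ l H hH (hd _) (hc _)) (nm1_nonneg _) (by positivity)
    rw [norm_mul, norm_pow, norm_neg, Complex.norm_natCast]
    have hκ : (κ : ℕ) ≤ q := by
      have := κ.2
      omega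
    refine mul_le_mul ?_ ?_ (by positivity) (by positivity)
    · have h1 : (κ : ℕ).choose (i.2.2 : ℕ) ≤ 2 ^ (κ : ℕ) := Nat.choose_le_two_pow _ _
      have h2 : 2 ^ (κ : ℕ) ≤ 2 ^ q := Nat.pow_le_pow_right (by norm_num) hκ
      exact_mod_cast h1.trans h2
    · calc ‖v‖ ^ ((κ : ℕ) - (i.2.2 : ℕ)) ≤ (1 + ‖v‖) ^ ((κ : ℕ) - (i.2.2 : ℕ)) :=
            pow_le_pow_left₀ (norm_nonneg _) (by linarith [norm_nonneg v]) _
        _ ≤ (1 + ‖v‖) ^ q := pow_le_pow_right₀ (by linarith [norm_nonneg v]) (by omega)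
  unfold shp
  refine (Reduce_nm1_sum _ _).trans ?_
  refine (Finset.sum_le_card_nsmul _ _ _ hterm).trans ?_
  rw [Finset.card_univ, Fintype.card_fin, nsmul_eq_mul]
  have e1 : ((q + 1 : ℕ) : ℝ) * ((2 ^ q * (1 + ‖v‖) ^ q) * ((l + 1) * H * (1 + ‖u‖) ^ l)) =
      H * (V * ((l + 1) * (1 + ‖u‖) ^ l)) := by
    rw [hV]
    push_cast
    ring
  rw [e1]
  refine mul_le_mul_of_nonneg_left ?_ hH
  have e2 : V ≤ Real.exp V := by
    have := Real.add_one_le_exp V
    linarith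
  have e3 : (l : ℝ) + 1 ≤ Real.exp l := Real.add_one_le_exp _
  have e4 : (1 + ‖u‖) ^ l ≤ Real.exp (‖u‖ * l) := by
    have h5 : 1 + ‖u‖ ≤ Real.exp ‖u‖ := by
      have := Real.add_one_le_exp ‖u‖
      linarith
    calc (1 + ‖u‖) ^ l ≤ Real.exp ‖u‖ ^ l := pow_le_pow_left₀ (by positivity) h5 _
      _ = Real.exp (‖u‖ * l) := by
        rw [← Real.exp_nat_mul]
        congr 1
        ring
  calc V * ((l + 1) * (1 + ‖u‖) ^ l) ≤ Real.exp V * (Real.exp l * Real.exp (‖u‖ * l)) := by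
        refine mul_le_mul e2 ?_ (by positivity) (by positivity)
        exact mul_le_mul e3 e4 (by positivity) (by positivity)
    _ = Real.exp (V + (l + ‖u‖ * l)) := by rw [← Real.exp_add, ← Real.exp_add]
    _ ≤ Real.exp ((V + 1 + ‖u‖) * (l + 1)) := by
        refine Real.exp_le_exp.2 ?_
        have hl : (0 : ℝ) ≤ l := Nat.cast_nonneg l
        nlinarith [mul_nonneg hV0 hl, norm_nonneg u]

end Pool.Agent.ZFin
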