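import Mathlib

/-! # Module Schwarz: Schwarz lemma with many zeros, Cauchy estimate, `√m`-numerics (section 5) -/

namespace Pool.Agent.ZFin

/-- an entire function vanishing to order `m` at `β` is divisible by `(z - β) ^ m`
(copied from `Pool.Agent.ZCM.Beta_factor`) -/
private theorem Schwarz_factor (β : ℂ) (m : ℕ) : ∀ f : ℂ → ℂ, Differentiable ℂ f →
    (m : ℕ∞) ≤ analyticOrderAt f β →
    ∃ g : ℂ → ℂ, Differentiable ℂ g ∧ ∀ z, f z = (z - β) ^ m * g z := by
  induction m with
  | zero => intro f hf _; exact ⟨f, hf, fun z => by simp⟩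
  | succ m ih =>
    intro f hf hm
    have hfβ : f β = 0 := by
      by_contra hne
      have : analyticOrderAt f β = 0 := (hf.analyticAt β).analyticOrderAt_eq_zero.2 hne
      rw [this] at hm
      exact absurd hm (by simp)
    have hd : Differentiable ℂ (dslope f β) := by
      have := (Complex.differentiableOn_dslope (f := f) (s := Set.univ) (c := β)
        Filter.univ_mem).2 hf.differentiableOn
      exact differentiableOn_univ.1 this
    have hfac : ∀ z, f z = (z - β) * dslope f β z := by
      intro z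
      have := sub_smul_dslope f β z
      rw [hfβ, sub_zero, smul_eq_mul] at this
      exact this.symm
    have hord : (m : ℕ∞) ≤ analyticOrderAt (dslope f β) β := by
      have h1 : f = (fun z => z - β) * dslope f β := by
        funext z; simpa using hfac z
      have h2 : analyticOrderAt f β
          = analyticOrderAt (fun z : ℂ => z - β) β + analyticOrderAt (dslope f β) β := by
        conv_lhs => rw [h1]
        exact analyticOrderAt_mul (by fun_prop) (hd.analyticAt β)
      have h3 : analyticOrderAt (fun z : ℂ => z - β) β = 1 := by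
        have : AnalyticAt ℂ (fun z : ℂ => z - β) β := by fun_prop
        rw [show (1 : ℕ∞) = ((1 : ℕ) : ℕ∞) by rfl, this.analyticOrderAt_eq_natCast]
        exact ⟨fun _ => 1, analyticAt_const, one_ne_zero, by simp⟩
      rw [h2, h3, Nat.cast_succ, add_comm] at hm
      exact (ENat.add_le_add_iff_left (by simp)).1 hm
    obtain ⟨g, hg, hgf⟩ := ih _ hd hord
    exact ⟨g, hg, fun z => by rw [hfac z, hgf z]; ring⟩

private theorem Schwarz_prod {r : ℕ} (m : ℕ) (β : Fin r → ℂ) (hinj : Function.Injective β)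
    (G : ℂ → ℂ) (hG : Differentiable ℂ G)
    (hz : ∀ i, (m : ℕ∞) ≤ analyticOrderAt G (β i)) (s : Finset (Fin r)) :
    ∃ g : ℂ → ℂ, Differentiable ℂ g ∧ ∀ z, G z = (∏ i ∈ s, (z - β i) ^ m) * g z := by
  classical
  induction s using Finset.induction_on with
  | empty => exact ⟨G, hG, fun z => by simp⟩
  | insert a s ha ih =>
    obtain ⟨g, hg, hGg⟩ := ih
    have hord : (m : ℕ∞) ≤ analyticOrderAt g (β a) := by
      have h2 : G = (fun z : ℂ => ∏ i ∈ s, (z - β i) ^ m) * g := by
        funext z; simpa using hGg z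
      have hdiff : AnalyticAt ℂ (fun z : ℂ => ∏ i ∈ s, (z - β i) ^ m) (β a) := by fun_prop
      have h3 : analyticOrderAt G (β a)
          = analyticOrderAt (fun z : ℂ => ∏ i ∈ s, (z - β i) ^ m) (β a) +
            analyticOrderAt g (β a) := by
        conv_lhs => rw [h2]
        exact analyticOrderAt_mul hdiff (hg.analyticAt (β a))
      have h4 : analyticOrderAt (fun z : ℂ => ∏ i ∈ s, (z - β i) ^ m) (β a) = 0 := by
        refine hdiff.analyticOrderAt_eq_zero.2 ?_
        refine Finset.prod_ne_zero_iff.2 fun i hi => pow_ne_zero _ (sub_ne_zero.2 ?_)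
        intro h
        exact ha (hinj h ▸ hi)
      have h1 := hz a
      rw [h3, h4, zero_add] at h1
      exact h1
    obtain ⟨k, hk, hkg⟩ := Schwarz_factor (β a) m g hg hord
    refine ⟨k, hk, fun z => ?_⟩
    rw [Finset.prod_insert ha, hGg z, hkg z]
    ring

/-- entire `G` with zeros of order `≥ m` at `r` distinct points of `|z| ≤ B`, `|G| ≤ S` on
`|z| = R > B`: then `|G(z)| ≤ S ((|z|+B)/(R-B))^(r m)` for `|z| ≤ R`. -/
theorem schwarz_many (r m : ℕ) (β : Fin r → ℂ) (hinj : Function.Injective β) (G : ℂ → ℂ)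
    (hG : Differentiable ℂ G) (hz : ∀ i, ∀ t < m, iteratedDeriv t G (β i) = 0) (B R S : ℝ)
    (hB : ∀ i, ‖β i‖ ≤ B) (hB0 : 0 ≤ B) (hR : B < R) (hS : ∀ z, ‖z‖ = R → ‖G z‖ ≤ S) (z : ℂ)
    (hzR : ‖z‖ ≤ R) : ‖G z‖ ≤ S * ((‖z‖ + B) / (R - B)) ^ (r * m) := by
  have hR0 : 0 < R := lt_of_le_of_lt hB0 hR
  have hRB : 0 < R - B := by linarith
  have hord : ∀ i, (m : ℕ∞) ≤ analyticOrderAt G (β i) := fun i =>
    (natCast_le_analyticOrderAt_iff_iteratedDeriv_eq_zero (hG.analyticAt (β i))).2 (hz i)
  obtain ⟨g, hg, hGg⟩ := Schwarz_prod m β hinj G hG hord Finset.univ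
  have hGn : ∀ w, ‖G w‖ = (∏ i, ‖w - β i‖ ^ m) * ‖g w‖ := by
    intro w
    rw [hGg w, norm_mul, norm_prod]
    congr 1
    exact Finset.prod_congr rfl fun i _ => norm_pow _ _
  have hconst : ∀ x : ℝ, (∏ _i : Fin r, x ^ m) = x ^ (r * m) := by
    intro x
    rw [Finset.prod_const, Finset.card_univ, Fintype.card_fin, ← pow_mul, mul_comm]
  have hgz : ‖g z‖ ≤ S / (R - B) ^ (r * m) := by
    refine Complex.norm_le_of_forall_mem_frontier_norm_le (U := Metric.ball (0 : ℂ) R)
      Metric.isBounded_ball hg.diffContOnCl ?_ ?_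
    · intro w hw
      rw [frontier_ball (0 : ℂ) hR0.ne', mem_sphere_zero_iff_norm] at hw
      have h1 := hS w hw
      rw [hGn w] at h1
      rw [le_div_iff₀ (by positivity)]
      calc ‖g w‖ * (R - B) ^ (r * m) = (∏ _i : Fin r, (R - B) ^ m) * ‖g w‖ := by
            rw [hconst]; ring
        _ ≤ (∏ i, ‖w - β i‖ ^ m) * ‖g w‖ := by
            refine mul_le_mul_of_nonneg_right ?_ (norm_nonneg _)
            refine Finset.prod_le_prod (fun i _ => by positivity) fun i _ => ?_
            have h2 := norm_sub_norm_le w (β i)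
            rw [hw] at h2
            have h3 := hB i
            exact pow_le_pow_left₀ hRB.le (by linarith) m
        _ ≤ S := h1
    · rw [closure_ball (0 : ℂ) hR0.ne', mem_closedBall_zero_iff]
      exact hzR
  rw [hGn z, div_pow, mul_div_assoc']
  calc (∏ i, ‖z - β i‖ ^ m) * ‖g z‖ ≤ (‖z‖ + B) ^ (r * m) * (S / (R - B) ^ (r * m)) := by
        refine mul_le_mul ?_ hgz (norm_nonneg _) (by positivity)
        rw [← hconst]
        refine Finset.prod_le_prod (fun i _ => by positivity) fun i _ => ?_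
        refine pow_le_pow_left₀ (norm_nonneg _) ?_ m
        exact (norm_sub_le _ _).trans (by linarith [hB i])
    _ = S * (‖z‖ + B) ^ (r * m) / (R - B) ^ (r * m) := by ring

end Pool.Agent.ZFin
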