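import Pool.Agent.ZFin.Defs

/-! # Module RrLe: the final constant -/

namespace Pool.Agent.ZFin

theorem rr_le (D : ℕ) (hD : 1 ≤ D) : rr D * D ≤ 10 ^ 12 * D ^ 12 := by
  have h1 : dl (8 * D) ≤ 179 * D ^ 2 := by
    unfold dl
    nlinarith [mul_le_mul hD hD (by norm_num) (by omega)]
  have h2 : dl (8 * D) ^ 3 ≤ (179 * D ^ 2) ^ 3 := Nat.pow_le_pow_left h1 3
  calc rr D * D = 20000 * D ^ 6 * dl (8 * D) ^ 3 := by
        unfold rr r4 E2
        ring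
    _ ≤ 20000 * D ^ 6 * (179 * D ^ 2) ^ 3 := Nat.mul_le_mul_left _ h2
    _ = 114706780000 * D ^ 12 := by ring
    _ ≤ 10 ^ 12 * D ^ 12 := Nat.mul_le_mul_right _ (by norm_num)

end Pool.Agent.ZFin
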