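import Pool.Agent.ZFin.Sel
import Pool.Agent.ZFin.RrLe
import Pool.Agent.ZCM.Bridge

/-! # Module Scale: any lattice with algebraic invariants -/

namespace Pool.Agent.ZFin
open Pool.Agent.ZCM

private theorem Scale_mem (K : IntermediateField ℚ ℂ) (r : ℚ) {x : ℂ} (hx : x ∈ K) :
    (r : ℂ) * x ∈ K := by
  refine mul_mem ?_ hx
  have h := K.algebraMap_mem r
  rwa [eq_ratCast] at h

private theorem Scale_adjoin (x y z w : ℂ) (r1 r2 r3 r4 : ℚ) (h1 : r1 ≠ 0) (h2 : r2 ≠ 0)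
    (h3 : r3 ≠ 0) (h4 : r4 ≠ 0) :
    IntermediateField.adjoin ℚ {(r1 : ℂ) * x, (r2 : ℂ) * y, (r3 : ℂ) * z, (r4 : ℂ) * w} =
      IntermediateField.adjoin ℚ {x, y, z, w} := by
  apply le_antisymm
  · rw [IntermediateField.adjoin_le_iff]
    intro t ht
    simp only [Set.mem_insert_iff, Set.mem_singleton_iff] at ht
    rcases ht with rfl | rfl | rfl | rfl <;>
      exact Scale_mem _ _ (IntermediateField.subset_adjoin ℚ _ (by simp))
  · rw [IntermediateField.adjoin_le_iff]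
    intro t ht
    simp only [Set.mem_insert_iff, Set.mem_singleton_iff] at ht
    have key : ∀ (r : ℚ) (u : ℂ), r ≠ 0 → (r : ℂ) * u ∈ IntermediateField.adjoin ℚ
        {(r1 : ℂ) * x, (r2 : ℂ) * y, (r3 : ℂ) * z, (r4 : ℂ) * w} →
        u ∈ IntermediateField.adjoin ℚ
        {(r1 : ℂ) * x, (r2 : ℂ) * y, (r3 : ℂ) * z, (r4 : ℂ) * w} := by
      intro r u hr hu
      have h5 := Scale_mem _ r⁻¹ hu
      have h6 : ((r⁻¹ : ℚ) : ℂ) * ((r : ℂ) * u) = u := by
        have hr' : (r : ℂ) ≠ 0 := by exact_mod_cast hr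
        push_cast
        field_simp
      rwa [h6] at h5
    rcases ht with rfl | rfl | rfl | rfl
    · exact key r1 _ h1 (IntermediateField.subset_adjoin ℚ _ (by simp))
    · exact key r2 _ h2 (IntermediateField.subset_adjoin ℚ _ (by simp))
    · exact key r3 _ h3 (IntermediateField.subset_adjoin ℚ _ (by simp))
    · exact key r4 _ h4 (IntermediateField.subset_adjoin ℚ _ (by simp))

private theorem Scale_alg (r : ℚ) {x : ℂ} (hx : IsAlgebraic ℚ x) : IsAlgebraic ℚ ((r : ℂ) * x) := by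
  have h := (isAlgebraic_algebraMap (R := ℚ) (A := ℂ) r).mul hx
  rwa [eq_ratCast] at h

/-- any lattice with algebraic invariants -/
theorem count_pair (L : PeriodPair) (h2 : IsAlgebraic ℚ L.g₂) (h3 : IsAlgebraic ℚ L.g₃) (D : ℕ)
    (hD : 1 ≤ D) (T : Finset ℂ)
    (hT : ∀ p ∈ T, p ∉ L.lattice ∧ IsAlgebraic ℚ p ∧ IsAlgebraic ℚ (zetaL L p) ∧
      Module.finrank ℚ (IntermediateField.adjoin ℚ {L.g₂, L.g₃, p, zetaL L p} :
        IntermediateField ℚ ℂ) ≤ D) :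
    T.card ≤ 10 ^ 12 * D ^ 12 := by
  classical
  obtain ⟨d2, hd2, hi2⟩ := TA_clear _ (Scale_alg (-1 / 4) h2)
  obtain ⟨d3, hd3, hi3⟩ := TA_clear _ (Scale_alg (-1 / 4) h3)
  set m : ℕ := d2 * d3 with hm
  have hm0 : 0 < m := Nat.mul_pos hd2 hd3
  have hmC : (m : ℂ) ≠ 0 := by exact_mod_cast hm0.ne'
  have hmQ : (m : ℚ) ≠ 0 := by exact_mod_cast hm0.ne'
  obtain ⟨L', hL1, hL2, hL3, hL4⟩ := scale L m hm0
  set r1 : ℚ := -(m : ℚ) ^ 4 / 4 with hr1
  set r2 : ℚ := -(m : ℚ) ^ 6 / 4 with hr2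
  have ha : IsIntegral ℤ ((r1 : ℂ) * L.g₂) := by
    have e : (r1 : ℂ) * L.g₂ = ((d2 ^ 3 * d3 ^ 4 : ℕ) : ℂ) * ((d2 : ℂ) * (((-1 / 4 : ℚ) : ℂ) * L.g₂)) := by
      rw [hr1, hm]
      push_cast
      ring
    rw [e]
    exact (TA_nat _).mul hi2
  have hb : IsIntegral ℤ ((r2 : ℂ) * L.g₃) := by
    have e : (r2 : ℂ) * L.g₃ = ((d2 ^ 6 * d3 ^ 5 : ℕ) : ℂ) * ((d3 : ℂ) * (((-1 / 4 : ℚ) : ℂ) * L.g₃)) := by
      rw [hr2, hm]
      push_cast
      ring
    rw [e]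
    exact (TA_nat _).mul hi3
  have hinj : Function.Injective (fun p : ℂ => ((1 / m : ℚ) : ℂ) * p) := by
    intro p p' h
    simp only at h
    have h5 : (((1 / m : ℚ)) : ℂ) ≠ 0 := by
      push_cast
      exact div_ne_zero one_ne_zero hmC
    exact mul_left_cancel₀ h5 h
  have hmul : ∀ p : ℂ, (m : ℂ) * (((1 / m : ℚ) : ℂ) * p) = p := by
    intro p
    push_cast
    field_simp
  rw [← Finset.card_image_of_injective T hinj]
  refine (core_count L' _ _ ha hb ?_ ?_ D hD _ ?_).trans (rr_le D hD)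
  · rw [hL2, hr1]
    push_cast
    ring
  · rw [hL3, hr2]
    push_cast
    ring
  · intro p' hp'
    rw [Finset.mem_image] at hp'
    obtain ⟨p, hp, rfl⟩ := hp'
    obtain ⟨hp1, hp2, hp3, hp4⟩ := hT p hp
    have hz : zetaL L' (((1 / m : ℚ) : ℂ) * p) = ((m : ℚ) : ℂ) * zetaL L p := by
      rw [hL4, hmul]
      push_cast
      rfl
    refine ⟨?_, Scale_alg _ hp2, ?_, ?_⟩
    · rw [hL1, hmul]
      exact hp1
    · rw [hz]
      exact Scale_alg _ hp3
    · rw [hz, Scale_adjoin]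
      · exact hp4
      · rw [hr1]
        exact div_ne_zero (neg_ne_zero.2 (pow_ne_zero _ hmQ)) (by norm_num)
      · rw [hr2]
        exact div_ne_zero (neg_ne_zero.2 (pow_ne_zero _ hmQ)) (by norm_num)
      · exact div_ne_zero one_ne_zero hmQ
      · exact hmQ

end Pool.Agent.ZFin
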