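import Pool.Agent.ZFin.DerivG
import Pool.Agent.ZFin.Shift

/-! # Module AddThm: the addition theorem for `℘` -/

namespace Pool.Agent.ZFin
open Pool.Agent.ZCM
open Filter Topology

/-- abstract version of the derivative computation -/
theorem add_deriv_aux (a b : ℂ) (x1 x2 y1 y2 : ℂ → ℂ) (w : ℂ)
    (d1 : HasDerivAt x1 (2 * y1 w) w) (d2 : HasDerivAt x2 (-(2 * y2 w)) w)
    (e1 : HasDerivAt y1 (3 * x1 w ^ 2 + a) w) (e2 : HasDerivAt y2 (-(3 * x2 w ^ 2 + a)) w)
    (c1 : y1 w ^ 2 = x1 w ^ 3 + a * x1 w + b) (c2 : y2 w ^ 2 = x2 w ^ 3 + a * x2 w + b)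
    (hne : x1 w ≠ x2 w) :
    HasDerivAt (fun s => (x2 s * x1 s ^ 2 + (a + x2 s ^ 2) * x1 s - 2 * y1 s * y2 s + 2 * b +
      a * x2 s) / (x1 s - x2 s) ^ 2) 0 w := by
  have hN : HasDerivAt (fun s => x2 s * x1 s ^ 2 + (a + x2 s ^ 2) * x1 s - 2 * y1 s * y2 s + 2 * b +
      a * x2 s)
      (-(2 * y2 w) * x1 w ^ 2 + x2 w * (2 * x1 w * (2 * y1 w)) +
        ((2 * x2 w * (-(2 * y2 w))) * x1 w + (a + x2 w ^ 2) * (2 * y1 w)) -
        (2 * (3 * x1 w ^ 2 + a) * y2 w + 2 * y1 w * (-(3 * x2 w ^ 2 + a))) +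
        a * (-(2 * y2 w))) w := by
    have t1 := d2.fun_mul (d1.fun_pow 2)
    have t2 := ((d2.fun_pow 2).const_add a).fun_mul d1
    have t3 := (e1.const_mul 2).fun_mul e2
    have t4 := ((t1.fun_add t2).fun_sub t3).add_const (2 * b)
    have t5 := t4.fun_add (d2.const_mul a)
    refine t5.congr_deriv ?_
    push_cast
    ring
  have hD : HasDerivAt (fun s => (x1 s - x2 s) ^ 2)
      (2 * (x1 w - x2 w) * (2 * y1 w + 2 * y2 w)) w := by
    have t1 := (d1.fun_sub d2).fun_pow 2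
    refine t1.congr_deriv ?_
    push_cast
    ring
  have hne' : (x1 w - x2 w) ^ 2 ≠ 0 := pow_ne_zero _ (sub_ne_zero.2 hne)
  have h := hN.fun_div hD hne'
  refine h.congr_deriv ?_
  rw [div_eq_zero_iff]
  left
  generalize x1 w = X1 at *
  generalize x2 w = X2 at *
  generalize y1 w = Y1 at *
  generalize y2 w = Y2 at *
  have key : (-(2 * Y2) * X1 ^ 2 + X2 * (2 * X1 * (2 * Y1)) +
        ((2 * X2 * (-(2 * Y2))) * X1 + (a + X2 ^ 2) * (2 * Y1)) -
        (2 * (3 * X1 ^ 2 + a) * Y2 + 2 * Y1 * (-(3 * X2 ^ 2 + a))) +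
        a * (-(2 * Y2))) * (X1 - X2) = 2 * (2 * Y1 + 2 * Y2) *
        (X2 * X1 ^ 2 + (a + X2 ^ 2) * X1 - 2 * Y1 * Y2 + 2 * b + a * X2) := by
    linear_combination (8 * Y2) * c1 + (8 * Y1) * c2
  linear_combination (X1 - X2) * key

/-- numerator of the addition theorem, with `σ`-denominators cleared; the second point is
`c - w` -/
noncomputable def addN (a b c w : ℂ) : ℂ :=
  ev (QQ a b) (c - w) * ev (SS a b) (c - w) ^ 2 * ev (QQ a b) w ^ 2 +
    (a * ev (SS a b) (c - w) ^ 4 + ev (QQ a b) (c - w) ^ 2) * ev (QQ a b) w * ev (SS a b) w ^ 2 -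
    2 * ev (qq a b) (c - w) * ev (SS a b) (c - w) * ev (qq a b) w * ev (SS a b) w +
    (2 * b * ev (SS a b) (c - w) ^ 4 +
      a * ev (QQ a b) (c - w) * ev (SS a b) (c - w) ^ 2) * ev (SS a b) w ^ 4

/-- `S^2 S2^2 (x1 - x2)` -/
noncomputable def addM (a b c w : ℂ) : ℂ :=
  ev (QQ a b) w * ev (SS a b) (c - w) ^ 2 - ev (QQ a b) (c - w) * ev (SS a b) w ^ 2

theorem AddThm_diff {f : PowerSeries ℂ} (hf : Ent f) (c : ℂ) :
    Differentiable ℂ (fun w => ev f (c - w)) :=
  (differentiable_ev hf).comp ((differentiable_const c).sub differentiable_id)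

theorem addN_diff (a b c : ℂ) : Differentiable ℂ (addN a b c) := by
  have dS := differentiable_ev (Link_Ent_SS a b)
  have dQ := differentiable_ev (Link_Ent_QQ a b)
  have dq := differentiable_ev (Link_Ent_qq a b)
  have eS := AddThm_diff (Link_Ent_SS a b) c
  have eQ := AddThm_diff (Link_Ent_QQ a b) c
  have eq := AddThm_diff (Link_Ent_qq a b) c
  have t1 := (eQ.fun_mul (eS.fun_pow 2)).fun_mul (dQ.fun_pow 2)
  have t2 := (((eS.fun_pow 4).const_mul a).fun_add (eQ.fun_pow 2)).fun_mul dQ |>.fun_mul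
    (dS.fun_pow 2)
  have t3 := ((((eq.const_mul 2).fun_mul eS).fun_mul dq).fun_mul dS)
  have t4 := (((eS.fun_pow 4).const_mul (2 * b)).fun_add
    ((eQ.const_mul a).fun_mul (eS.fun_pow 2))).fun_mul (dS.fun_pow 4)
  exact ((t1.fun_add t2).fun_sub t3).fun_add t4

theorem addM_diff (a b c : ℂ) : Differentiable ℂ (addM a b c) := by
  have dS := differentiable_ev (Link_Ent_SS a b)
  have dQ := differentiable_ev (Link_Ent_QQ a b)
  have eS := AddThm_diff (Link_Ent_SS a b) c
  have eQ := AddThm_diff (Link_Ent_QQ a b) c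
  exact (dQ.fun_mul (eS.fun_pow 2)).fun_sub (eQ.fun_mul (dS.fun_pow 2))

/-- the numerator in terms of `℘` -/
noncomputable def addn (a b x1 x2 y1 y2 : ℂ) : ℂ :=
  x2 * x1 ^ 2 + (a + x2 ^ 2) * x1 - 2 * y1 * y2 + 2 * b + a * x2

theorem addN_eq (L : PeriodPair) (a b : ℂ) (h2 : L.g₂ = -4 * a) (h3 : L.g₃ = -4 * b)
    (c w : ℂ) (hw : w ∉ L.lattice) (hz : c - w ∉ L.lattice) :
    addN a b c w = ev (SS a b) w ^ 4 * ev (SS a b) (c - w) ^ 4 * addn a b (L.weierstrassP w)
      (L.weierstrassP (c - w)) (L.derivWeierstrassP w / 2) (L.derivWeierstrassP (c - w) / 2) ∧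
    addM a b c w = ev (SS a b) w ^ 2 * ev (SS a b) (c - w) ^ 2 *
      (L.weierstrassP w - L.weierstrassP (c - w)) := by
  have lQ := link_Q L a b h2 h3 hw
  have lq := link_q L a b h2 h3 hw
  have lQ' := link_Q L a b h2 h3 hz
  have lq' := link_q L a b h2 h3 hz
  unfold addN addM addn
  rw [← lQ, ← lq, ← lQ', ← lq']
  generalize ev (SS a b) w = s1
  generalize ev (SS a b) (c - w) = s2
  generalize L.weierstrassP w = x1
  generalize L.weierstrassP (c - w) = x2
  generalize L.derivWeierstrassP w / 2 = y1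
  generalize L.derivWeierstrassP (c - w) / 2 = y2
  constructor <;> ring

theorem add_curve (L : PeriodPair) (a b : ℂ) (h2 : L.g₂ = -4 * a) (h3 : L.g₃ = -4 * b) (z : ℂ)
    (hz : z ∉ L.lattice) :
    (L.derivWeierstrassP z / 2) ^ 2 = L.weierstrassP z ^ 3 + a * L.weierstrassP z + b := by
  have h := L.derivWeierstrassP_sq z hz
  rw [h2, h3] at h
  linear_combination h / 4

/-- `N / M^2` has derivative zero -/
theorem add_deriv (L : PeriodPair) (a b : ℂ) (h2 : L.g₂ = -4 * a) (h3 : L.g₃ = -4 * b)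
    (c w : ℂ) (hw : w ∉ L.lattice) (hz : c - w ∉ L.lattice)
    (hne : L.weierstrassP w ≠ L.weierstrassP (c - w)) :
    HasDerivAt (fun w => addn a b (L.weierstrassP w)
      (L.weierstrassP (c - w)) (L.derivWeierstrassP w / 2) (L.derivWeierstrassP (c - w) / 2) /
      (L.weierstrassP w - L.weierstrassP (c - w)) ^ 2) 0 w := by
  have hsub : HasDerivAt (fun w => c - w) (-1) w := by
    simpa using (hasDerivAt_id w).const_sub c
  have hR : HasDerivAt (fun w => L.weierstrassP (c - w))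
      (-(2 * (L.derivWeierstrassP (c - w) / 2))) w := by
    have h := HasDerivAt.comp w (hasDerivAt_P L hz) hsub
    refine h.congr_deriv ?_
    ring
  have hR' : HasDerivAt (fun w => L.derivWeierstrassP (c - w) / 2)
      (-(3 * L.weierstrassP (c - w) ^ 2 + a)) w := by
    have h := HasDerivAt.comp w (hasDerivAt_P' L a b h2 h3 hz) hsub
    refine h.congr_deriv ?_
    ring
  exact add_deriv_aux a b L.weierstrassP (fun w => L.weierstrassP (c - w))
    (fun w => L.derivWeierstrassP w / 2) (fun w => L.derivWeierstrassP (c - w) / 2) w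
    (hasDerivAt_P L hw) hR (hasDerivAt_P' L a b h2 h3 hw) hR' (add_curve L a b h2 h3 w hw)
    (add_curve L a b h2 h3 (c - w) hz) hne

theorem Q_zero (L : PeriodPair) (a b : ℂ) (h2 : L.g₂ = -4 * a) (h3 : L.g₃ = -4 * b) :
    ev (QQ a b) 0 = 1 := by
  rw [Q_lattice L a b h2 h3 (Submodule.zero_mem _), R_zero, one_pow]

/-- the addition theorem in terms of entire functions -/
theorem add_entire (L : PeriodPair) (a b : ℂ) (h2 : L.g₂ = -4 * a) (h3 : L.g₃ = -4 * b)
    (c : ℂ) (hc : c ∉ L.lattice) (w : ℂ) :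
    addN a b c w = L.weierstrassP c * addM a b c w ^ 2 := by
  have hN := addN_diff a b c
  have hM := addM_diff a b c
  have hS0 : ev (SS a b) c ≠ 0 := fun h => hc ((S_eq_zero_iff L a b h2 h3 c).1 h)
  have hM0 : addM a b c 0 ≠ 0 := by
    unfold addM
    rw [sub_zero, S_zero, Q_zero L a b h2 h3]
    simpa using hS0
  have hN0 : addN a b c 0 = L.weierstrassP c * addM a b c 0 ^ 2 := by
    unfold addN addM
    rw [sub_zero, S_zero, Q_zero L a b h2 h3, ← link_Q L a b h2 h3 hc]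
    ring
  -- a ball where everything is fine
  have hev : ∀ᶠ s in 𝓝 (0 : ℂ), addM a b c s ≠ 0 ∧ c - s ∉ L.lattice := by
    have e1 : ∀ᶠ s in 𝓝 (0 : ℂ), addM a b c s ≠ 0 :=
      hM.continuous.continuousAt.eventually_ne hM0
    have e2 : ∀ᶠ s in 𝓝 (0 : ℂ), c - s ∈ ((L.lattice : Set ℂ)ᶜ) := by
      have hcont : ContinuousAt (fun s : ℂ => c - s) 0 := by fun_prop
      refine hcont.eventually_mem ?_
      rw [sub_zero]
      exact (isOpen_compl L).mem_nhds hc
    exact e1.and e2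
  obtain ⟨ε, hε, hball⟩ := Metric.eventually_nhds_iff_ball.1 hev
  have hG : DifferentiableOn ℂ (fun s => addN a b c s / addM a b c s ^ 2) (Metric.ball 0 ε) := by
    intro s hs
    exact ((hN s).div ((hM s).fun_pow 2)
      (pow_ne_zero _ (hball s hs).1)).differentiableWithinAt
  have hoff : ∀ s ∈ Metric.ball (0 : ℂ) ε, s ∉ L.lattice →
      deriv (fun s => addN a b c s / addM a b c s ^ 2) s = 0 := by
    intro s hs hsL
    obtain ⟨h4, h5⟩ := hball s hs
    have h6 := addN_eq L a b h2 h3 c s hsL h5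
    have hne : L.weierstrassP s ≠ L.weierstrassP (c - s) := by
      intro h
      apply h4
      rw [h6.2, h, sub_self, mul_zero]
    have hd := add_deriv L a b h2 h3 c s hsL h5 hne
    have heq : (fun s => addN a b c s / addM a b c s ^ 2) =ᶠ[𝓝 s]
        (fun w => addn a b (L.weierstrassP w)
          (L.weierstrassP (c - w)) (L.derivWeierstrassP w / 2) (L.derivWeierstrassP (c - w) / 2) /
          (L.weierstrassP w - L.weierstrassP (c - w)) ^ 2) := by
      have e1 : ∀ᶠ t in 𝓝 s, t ∈ ((L.lattice : Set ℂ)ᶜ) := (isOpen_compl L).mem_nhds hsL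
      have e2 : ∀ᶠ t in 𝓝 s, c - t ∈ ((L.lattice : Set ℂ)ᶜ) := by
        have hcont : ContinuousAt (fun s : ℂ => c - s) s := by fun_prop
        exact hcont.eventually_mem ((isOpen_compl L).mem_nhds h5)
      filter_upwards [e1, e2] with t ht1 ht2
      have h7 := addN_eq L a b h2 h3 c t ht1 ht2
      have hS1 : ev (SS a b) t ≠ 0 := fun h => ht1 ((S_eq_zero_iff L a b h2 h3 t).1 h)
      have hS2 : ev (SS a b) (c - t) ≠ 0 :=
        fun h => ht2 ((S_eq_zero_iff L a b h2 h3 (c - t)).1 h)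
      rw [h7.1, h7.2]
      generalize addn a b (L.weierstrassP t) (L.weierstrassP (c - t)) (L.derivWeierstrassP t / 2)
        (L.derivWeierstrassP (c - t) / 2) = A
      generalize L.weierstrassP t - L.weierstrassP (c - t) = B
      rw [show (ev (SS a b) t ^ 2 * ev (SS a b) (c - t) ^ 2 * B) ^ 2 =
        ev (SS a b) t ^ 4 * ev (SS a b) (c - t) ^ 4 * B ^ 2 by ring]
      exact mul_div_mul_left _ _ (mul_ne_zero (pow_ne_zero _ hS1) (pow_ne_zero _ hS2))
    rw [heq.deriv_eq, hd.deriv]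
  have hderiv : ∀ s ∈ Metric.ball (0 : ℂ) ε,
      deriv (fun s => addN a b c s / addM a b c s ^ 2) s = 0 := by
    intro s hs
    by_cases hsL : s ∈ L.lattice
    · have hA : AnalyticAt ℂ (deriv (fun s => addN a b c s / addM a b c s ^ 2)) s :=
        (hG.analyticAt (Metric.isOpen_ball.mem_nhds hs)).deriv
      have hfr : ∃ᶠ t in 𝓝[≠] s, deriv (fun s => addN a b c s / addM a b c s ^ 2) t = 0 := by
        have e1 : ∀ᶠ t in 𝓝[≠] s, t ∈ Metric.ball (0 : ℂ) ε :=
          nhdsWithin_le_nhds (Metric.isOpen_ball.mem_nhds hs)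
        have e2 := eventually_notMem' L s hsL
        refine Eventually.frequently ?_
        filter_upwards [e1, e2] with t ht1 ht2
        exact hoff t ht1 ht2
      exact (hA.frequently_zero_iff_eventually_zero.1 hfr).self_of_nhds
    · exact hoff s hs hsL
  have hconst : ∀ s ∈ Metric.ball (0 : ℂ) ε, addN a b c s / addM a b c s ^ 2 =
      addN a b c 0 / addM a b c 0 ^ 2 := fun s hs =>
    Metric.isOpen_ball.is_const_of_deriv_eq_zero (convex_ball (0 : ℂ) ε).isPreconnected hG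
      (fun t ht => hderiv t ht) hs (Metric.mem_ball_self hε)
  have hloc : (fun w => addN a b c w) =ᶠ[𝓝 0] fun w => L.weierstrassP c * addM a b c w ^ 2 := by
    filter_upwards [Metric.ball_mem_nhds (0 : ℂ) hε] with s hs
    have h4 := hconst s hs
    rw [hN0, mul_div_assoc, div_self (pow_ne_zero _ hM0), mul_one,
      div_eq_iff (pow_ne_zero _ (hball s hs).1)] at h4
    exact h4
  have hA : AnalyticOnNhd ℂ (fun w => addN a b c w) Set.univ := fun w _ => hN.analyticAt w
  have hB : AnalyticOnNhd ℂ (fun w => L.weierstrassP c * addM a b c w ^ 2) Set.univ := fun w _ =>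
    ((hM.fun_pow 2).const_mul _).analyticAt w
  exact congrFun (hA.eq_of_eventuallyEq hB hloc) w

/-- the addition theorem -/
theorem add_thm (L : PeriodPair) (a b : ℂ) (h2 : L.g₂ = -4 * a) (h3 : L.g₃ = -4 * b)
    (w z : ℂ) (hw : w ∉ L.lattice) (hz : z ∉ L.lattice) (hwz : w + z ∉ L.lattice) :
    addn a b (L.weierstrassP w) (L.weierstrassP z) (L.derivWeierstrassP w / 2)
      (L.derivWeierstrassP z / 2) =
    L.weierstrassP (w + z) * (L.weierstrassP w - L.weierstrassP z) ^ 2 := by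
  have e : w + z - w = z := by ring
  have h := add_entire L a b h2 h3 (w + z) hwz w
  have h6 := addN_eq L a b h2 h3 (w + z) w hw (by rw [e]; exact hz)
  rw [h6.1, h6.2, e] at h
  have hS1 : ev (SS a b) w ≠ 0 := fun h => hw ((S_eq_zero_iff L a b h2 h3 w).1 h)
  have hS2 : ev (SS a b) z ≠ 0 := fun h => hz ((S_eq_zero_iff L a b h2 h3 z).1 h)
  have hne : ev (SS a b) w ^ 4 * ev (SS a b) z ^ 4 ≠ 0 :=
    mul_ne_zero (pow_ne_zero _ hS1) (pow_ne_zero _ hS2)
  apply mul_left_cancel₀ hne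
  rw [h]
  ring

end Pool.Agent.ZFin
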