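import Pool.Agent.ZFin.AlgT

/-! # Module AlgK: algebra of `gk` -/

namespace Pool.Agent.ZFin
open Pool.Agent.ZCM

section
variable {k : Type*} [Field k] {K : Type*} [Field K] [Algebra k K] {q : ℕ}

theorem gk_add (a b : k) (β c : K) (t : ℕ) (p p' : Idx q → Polynomial k) :
    gk a b β c t (p + p') = gk a b β c t p + gk a b β c t p' :=
  map_add (gkl a b β c t) p p'

theorem gk_smul (a b : k) (β c : K) (t : ℕ) (r : k) (p : Idx q → Polynomial k) :
    gk a b β c t (r • p) = r • gk a b β c t p :=
  map_smul (gkl a b β c t) r p

/-- Leibniz for the multiplication by a polynomial in `z` -/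
theorem gk_mul (a b : k) (β c : K) (t : ℕ) (φ : Polynomial k) (p : Idx q → Polynomial k) :
    gk a b β c t (fun i => φ * p i) = ∑ s ∈ Finset.range (t + 1),
      ((t.choose s : K) * Polynomial.aeval β ((⇑Polynomial.derivative)^[s] φ)) •
        gk a b β c (t - s) p := by
  have h1 : bc K (fun i => φ * p i) = fun i => φ.map (algebraMap k K) * bc K p i := by
    funext i
    simp only [bc, Polynomial.map_mul]
  unfold gk
  rw [h1, mv_mul, gt_mul]
  refine Finset.sum_congr rfl fun s _ => ?_
  rw [gt_X0]
  have h2 : ((⇑Polynomial.derivative)^[s] (φ.map (algebraMap k K))).eval β =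
      Polynomial.aeval β ((⇑Polynomial.derivative)^[s] φ) := by
    rw [Polynomial.iterate_derivative_map, Polynomial.eval_map_algebraMap]
  rw [h2, Algebra.smul_def, map_mul, map_natCast, mul_assoc]

/-- if all derivatives of order `< m` vanish, the same holds after multiplication -/
theorem gk_van_mul (a b : k) (β c : K) (m : ℕ) (φ : Polynomial k) (p : Idx q → Polynomial k)
    (h : ∀ t < m, gk a b β c t p = 0) : ∀ t < m, gk a b β c t (fun i => φ * p i) = 0 := by
  intro t ht
  rw [gk_mul]
  refine Finset.sum_eq_zero fun s _ => ?_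
  rw [h (t - s) (by omega), smul_zero]

/-- division by a polynomial which does not vanish at `β` -/
theorem gk_van_div (a b : k) (β c : K) (m : ℕ) (φ : Polynomial k) (hφ : Polynomial.aeval β φ ≠ 0)
    (p : Idx q → Polynomial k) (h : ∀ t < m, gk a b β c t (fun i => φ * p i) = 0) :
    ∀ t < m, gk a b β c t p = 0 := by
  intro t
  induction t using Nat.strong_induction_on with
  | _ t ih =>
    intro ht
    have h1 := h t ht
    rw [gk_mul, Finset.sum_range_succ', Finset.sum_eq_zero, zero_add] at h1
    · rw [Nat.choose_zero_right, Nat.cast_one, one_mul, Function.iterate_zero, id_eq,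
        Nat.sub_zero] at h1
      rw [← inv_smul_smul₀ hφ (gk a b β c t p), h1, smul_zero]
    · intro s hs
      rw [Finset.mem_range] at hs
      rw [ih (t - (s + 1)) (by omega) (by omega), smul_zero]

/-- order at `β` of `φ^n p` if `φ(β) = 0`, `φ'(β) ≠ 0` and `p` does not vanish at `(β,c)` -/
theorem gk_pow (a b : k) (β c : K) (n : ℕ) (φ : Polynomial k) (h0 : Polynomial.aeval β φ = 0)
    (p : Idx q → Polynomial k) :
    (∀ t < n, gk a b β c t (fun i => φ ^ n * p i) = 0) ∧
    gk a b β c n (fun i => φ ^ n * p i) =
      ((n.factorial : K) * Polynomial.aeval β (Polynomial.derivative φ) ^ n) •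
        gk a b β c 0 p := by
  induction n with
  | zero =>
    refine ⟨fun t ht => absurd ht (Nat.not_lt_zero t), ?_⟩
    have e : (fun i => φ ^ 0 * p i) = p := by
      funext i
      rw [pow_zero, one_mul]
    rw [e, Nat.factorial_zero, Nat.cast_one, pow_zero, one_mul, one_smul]
  | succ n ih =>
    obtain ⟨ih1, ih2⟩ := ih
    have e : (fun i => φ ^ (n + 1) * p i) = fun i => φ * (fun i => φ ^ n * p i) i := by
      funext i
      rw [pow_succ]
      ring
    rw [e]
    refine ⟨fun t ht => ?_, ?_⟩
    · rw [gk_mul, Finset.sum_range_succ', Finset.sum_eq_zero, zero_add]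
      · rw [Function.iterate_zero, id_eq, h0, mul_zero, zero_smul]
      · intro s hs
        rw [Finset.mem_range] at hs
        rw [ih1 (t - (s + 1)) (by omega), smul_zero]
    · rw [gk_mul, Finset.sum_range_succ', Finset.sum_range_succ', Finset.sum_eq_zero, zero_add]
      · rw [Function.iterate_zero, id_eq, h0, mul_zero, zero_smul, add_zero, zero_add,
          Nat.choose_one_right, Function.iterate_one, Nat.add_sub_cancel, ih2, smul_smul]
        congr 1
        rw [Nat.factorial_succ]
        push_cast
        ring
      · intro s hs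
        rw [Finset.mem_range] at hs
        rw [ih1 (n + 1 - (s + 1 + 1)) (by omega), smul_zero]

/-- transport to another field -/
theorem gk_hom {E : Type*} [Field E] [Algebra k E] (σ : K →ₐ[k] E) (a b : k) (β c : K) (t : ℕ)
    (p : Idx q → Polynomial k) :
    (gk a b (σ β) (σ c) t p).re = (gk a b β c t p).re.map (σ : K →+* E) ∧
    (gk a b (σ β) (σ c) t p).im = (gk a b β c t p).im.map (σ : K →+* E) := by
  have h1 := gt_map (σ : K →+* E) (algebraMap k K a) (algebraMap k K b) β c t (mv q (bc K p))
  have h2 : MvPolynomial.map (σ : K →+* E) (mv q (bc K p)) = mv q (bc E p) := by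
    rw [mv_map]
    congr 1
    funext i
    simp only [bc]
    rw [Polynomial.map_map, AlgHom.comp_algebraMap]
  have ha : (σ : K →+* E) (algebraMap k K a) = algebraMap k E a := σ.commutes a
  have hb : (σ : K →+* E) (algebraMap k K b) = algebraMap k E b := σ.commutes b
  rw [h2, ha, hb] at h1
  exact h1

end

end Pool.Agent.ZFin
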