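import Pool.Agent.ZFin.Defs
import Pool.Agent.ZCM.Size

/-! # Module AlgT: algebra of `gt`, `mv` -/

namespace Pool.Agent.ZFin
open Pool.Agent.ZCM

section
variable {A : Type*} [CommRing A]

private theorem AlgT_iter {B : Type*} [CommRing B] [Algebra A B] (D : Derivation A B B) (n : ℕ)
    (P Q : B) : (⇑D)^[n] (P * Q) = ∑ ij ∈ Finset.HasAntidiagonal.antidiagonal n,
      n.choose ij.1 • ((⇑D)^[ij.1] P * (⇑D)^[ij.2] Q) := by
  induction n with
  | zero => simp
  | succ n ih =>
    rw [Finset.sum_antidiagonal_choose_succ_nsmul (M := B)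
      (fun i j => (⇑D)^[i] P * (⇑D)^[j] Q) n]
    rw [Function.iterate_succ_apply', ih, map_sum, ← Finset.sum_add_distrib]
    refine Finset.sum_congr rfl fun ⟨i, j⟩ hij => ?_
    have h1 : n.choose i = n.choose j :=
      n.choose_symm_of_eq_add (Finset.HasAntidiagonal.mem_antidiagonal.1 hij).symm
    simp only
    rw [map_nsmul, Derivation.leibniz, Function.iterate_succ_apply', Function.iterate_succ_apply',
      ← h1, smul_add, smul_eq_mul, smul_eq_mul, mul_comm ((⇑D)^[j] Q)]

/-- Leibniz for the iterates of `D4` -/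
theorem D4_iterate_mul (a : A) (n : ℕ) (P Q : MvPolynomial (Fin 4) A) :
    (⇑(D4 a))^[n] (P * Q) = ∑ s ∈ Finset.range (n + 1),
      (n.choose s : MvPolynomial (Fin 4) A) * ((⇑(D4 a))^[s] P * (⇑(D4 a))^[n - s] Q) := by
  rw [AlgT_iter, Finset.Nat.sum_antidiagonal_eq_sum_range_succ
    (fun i j => n.choose i • ((⇑(D4 a))^[i] P * (⇑(D4 a))^[j] Q)) n]
  refine Finset.sum_congr rfl fun s _ => ?_
  rw [nsmul_eq_mul]

theorem gt_mul (a b β c : A) (t : ℕ) (P Q : MvPolynomial (Fin 4) A) :
    gt a b β c t (P * Q) = ∑ s ∈ Finset.range (t + 1),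
      (t.choose s : RR a b) * (gt a b β c s P * gt a b β c (t - s) Q) := by
  simp only [gt, D4_iterate_mul, map_sum, map_mul, map_natCast]

private theorem AlgT_D4_aeval (a : A) (φ : Polynomial A) :
    D4 a (Polynomial.aeval (MvPolynomial.X 0 : MvPolynomial (Fin 4) A) φ) =
      Polynomial.aeval (MvPolynomial.X 0 : MvPolynomial (Fin 4) A)
        (Polynomial.derivative φ) := by
  rw [Derivation.map_aeval]
  have h : D4 a (MvPolynomial.X 0) = 1 := by
    rw [D4, MvPolynomial.mkDerivation_X]
    rfl
  rw [h, smul_eq_mul, mul_one]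

/-- the iterates of `D4` on polynomials in `z` -/
theorem D4_iterate_X0 (a : A) (φ : Polynomial A) (s : ℕ) :
    (⇑(D4 a))^[s] (Polynomial.aeval (MvPolynomial.X 0 : MvPolynomial (Fin 4) A) φ) =
      Polynomial.aeval (MvPolynomial.X 0 : MvPolynomial (Fin 4) A)
        ((⇑Polynomial.derivative)^[s] φ) := by
  induction s generalizing φ with
  | zero => rfl
  | succ n ih =>
    rw [Function.iterate_succ_apply, Function.iterate_succ_apply, AlgT_D4_aeval, ih]

theorem gt_X0 (a b β c : A) (φ : Polynomial A) (s : ℕ) :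
    gt a b β c s (Polynomial.aeval (MvPolynomial.X 0 : MvPolynomial (Fin 4) A) φ) =
      algebraMap A (RR a b) (((⇑Polynomial.derivative)^[s] φ).eval β) := by
  rw [gt, D4_iterate_X0, ← Polynomial.aeval_algHom_apply, MvPolynomial.aeval_X]
  change Polynomial.aeval (algebraMap A (RR a b) β) _ = _
  rw [Polynomial.aeval_algebraMap_apply, Polynomial.coe_aeval_eq_eval]

/-- `evR` is a ring homomorphism at a point of the curve -/
theorem evR_mul {a b : A} (g h : RR a b) (x0 y0 : A) (hy : y0 ^ 2 = x0 ^ 3 + a * x0 + b) :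
    evR (g * h) x0 y0 = evR g x0 y0 * evR h x0 y0 := by
  have hf : (ff a b).eval x0 = y0 ^ 2 := by
    rw [hy]
    simp [ff]
  simp only [evR, QuadraticAlgebra.re_mul, QuadraticAlgebra.im_mul, Polynomial.eval_add,
    Polynomial.eval_mul, Polynomial.eval_zero, hf]
  ring

/-- the evaluation as an algebra homomorphism -/
private noncomputable def AlgT_ev (a b x0 y0 : A) (hy : y0 ^ 2 = x0 ^ 3 + a * x0 + b) : RR a b →ₐ[A] A where
  toFun g := evR g x0 y0
  map_one' := by
    simp [evR, QuadraticAlgebra.re_one, QuadraticAlgebra.im_one]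
  map_mul' g h := evR_mul g h x0 y0 hy
  map_zero' := by
    simp [evR]
  map_add' g h := by
    simp only [evR, QuadraticAlgebra.re_add, QuadraticAlgebra.im_add, Polynomial.eval_add]
    ring
  commutes' r := by
    have h1 : (algebraMap A (RR a b) r).re = Polynomial.C r := rfl
    have h2 : (algebraMap A (RR a b) r).im = 0 := rfl
    simp only [evR, h1, h2, Polynomial.eval_C, Polynomial.eval_zero, zero_mul, add_zero]
    rfl

theorem evR_gt (a b β c : A) (t : ℕ) (P : MvPolynomial (Fin 4) A) (x0 y0 : A)
    (h : y0 ^ 2 = x0 ^ 3 + a * x0 + b) :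
    evR (gt a b β c t P) x0 y0 = MvPolynomial.eval ![β, x0, y0, c] ((⇑(D4 a))^[t] P) := by
  have h1 : evR (gt a b β c t P) x0 y0 = AlgT_ev a b x0 y0 h (gt a b β c t P) := rfl
  rw [h1, gt, MvPolynomial.comp_aeval_apply, MvPolynomial.aeval_eq_eval]
  congr 1
  congr 1
  funext i
  fin_cases i
  · exact (AlgT_ev a b x0 y0 h).commutes β
  · change evR (xx a b) x0 y0 = x0
    have h2 : (xx a b).re = Polynomial.X := rfl
    have h3 : (xx a b).im = 0 := rfl
    simp [evR, h2, h3]
  · change evR (yy a b) x0 y0 = y0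
    have h2 : (yy a b).re = 0 := rfl
    have h3 : (yy a b).im = 1 := rfl
    simp [evR, h2, h3]
  · exact (AlgT_ev a b x0 y0 h).commutes c

/-- base change as a ring homomorphism -/
private noncomputable def AlgT_bc {B : Type*} [CommRing B] (f : A →+* B) (a b : A) :
    RR a b →+* RR (f a) (f b) where
  toFun g := ⟨g.re.map f, g.im.map f⟩
  map_one' := by
    ext1 <;> simp [QuadraticAlgebra.re_one, QuadraticAlgebra.im_one]
  map_mul' g h := by
    have hf : (ff a b).map f = ff (f a) (f b) := by simp [ff]
    ext1 <;> simp only [QuadraticAlgebra.re_mul, QuadraticAlgebra.im_mul, Polynomial.map_add,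
      Polynomial.map_mul, Polynomial.map_zero, hf]
  map_zero' := by
    ext1 <;> simp
  map_add' g h := by
    ext1 <;> simp

/-- naturality in the base ring -/
theorem gt_map {B : Type*} [CommRing B] (f : A →+* B) (a b β c : A) (t : ℕ)
    (P : MvPolynomial (Fin 4) A) :
    (gt (f a) (f b) (f β) (f c) t (MvPolynomial.map f P)).re = (gt a b β c t P).re.map f ∧
    (gt (f a) (f b) (f β) (f c) t (MvPolynomial.map f P)).im = (gt a b β c t P).im.map f := by
  have key : AlgT_bc f a b (gt a b β c t P) =
      gt (f a) (f b) (f β) (f c) t (MvPolynomial.map f P) := by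
    rw [gt, gt, ← map_D4_iterate, MvPolynomial.map_aeval, MvPolynomial.aeval_def,
      MvPolynomial.eval₂_map]
    change MvPolynomial.eval₂ _ _ _ = _
    congr 1
    · refine RingHom.ext fun r => ?_
      ext1
      · change Polynomial.map f (Polynomial.C r) = Polynomial.C (f r)
        rw [Polynomial.map_C]
      · change Polynomial.map f 0 = 0
        rw [Polynomial.map_zero]
    · funext i
      fin_cases i
      · change AlgT_bc f a b (algebraMap A (RR a b) β) = algebraMap B _ (f β)
        ext1
        · change Polynomial.map f (Polynomial.C β) = Polynomial.C (f β)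
          rw [Polynomial.map_C]
        · change Polynomial.map f 0 = 0
          rw [Polynomial.map_zero]
      · change AlgT_bc f a b (xx a b) = xx (f a) (f b)
        ext1
        · change Polynomial.map f Polynomial.X = Polynomial.X
          rw [Polynomial.map_X]
        · change Polynomial.map f 0 = 0
          rw [Polynomial.map_zero]
      · change AlgT_bc f a b (yy a b) = yy (f a) (f b)
        ext1
        · change Polynomial.map f 0 = 0
          rw [Polynomial.map_zero]
        · change Polynomial.map f 1 = 1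
          rw [Polynomial.map_one]
      · change AlgT_bc f a b (algebraMap A (RR a b) c) = algebraMap B _ (f c)
        ext1
        · change Polynomial.map f (Polynomial.C c) = Polynomial.C (f c)
          rw [Polynomial.map_C]
        · change Polynomial.map f 0 = 0
          rw [Polynomial.map_zero]
  rw [← key]
  exact ⟨rfl, rfl⟩

theorem mv_map {B : Type*} [CommRing B] (f : A →+* B) (q : ℕ) (p : Idx q → Polynomial A) :
    MvPolynomial.map f (mv q p) = mv q fun i => (p i).map f := by
  simp only [mv, map_sum, map_mul, map_pow, MvPolynomial.map_X]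
  refine Finset.sum_congr rfl fun i _ => ?_
  congr 3
  rw [Polynomial.aeval_def, Polynomial.aeval_def, Polynomial.eval₂_map, Polynomial.hom_eval₂,
    MvPolynomial.map_X]
  congr 1
  refine RingHom.ext fun r => ?_
  simp [MvPolynomial.algebraMap_eq]

theorem mv_mul (q : ℕ) (φ : Polynomial A) (p : Idx q → Polynomial A) :
    mv q (fun i => φ * p i) =
      Polynomial.aeval (MvPolynomial.X 0 : MvPolynomial (Fin 4) A) φ * mv q p := by
  simp only [mv, map_mul, Finset.mul_sum, mul_assoc]

/-- `mv` as a sum of monomials -/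
private theorem AlgT_mv_eq (q l : ℕ) (p : Idx q → Polynomial A) (h : ∀ i, (p i).natDegree ≤ l) :
    mv q p = ∑ i : Idx q, ∑ n ∈ Finset.range (l + 1),
      MvPolynomial.monomial (Finsupp.single 0 n + Finsupp.single 1 (i.1 : ℕ) +
        Finsupp.single 2 (i.2.1 : ℕ) + Finsupp.single 3 (i.2.2 : ℕ)) ((p i).coeff n) := by
  unfold mv
  refine Finset.sum_congr rfl fun i _ => ?_
  rw [Polynomial.aeval_def, Polynomial.eval₂_eq_sum_range' _ (Nat.lt_succ_of_le (h i)),
    Finset.sum_mul, Finset.sum_mul, Finset.sum_mul]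
  refine Finset.sum_congr rfl fun n _ => ?_
  rw [MvPolynomial.algebraMap_eq, MvPolynomial.X_pow_eq_monomial, MvPolynomial.X_pow_eq_monomial,
    MvPolynomial.X_pow_eq_monomial, MvPolynomial.X_pow_eq_monomial, MvPolynomial.C_mul_monomial,
    MvPolynomial.monomial_mul, MvPolynomial.monomial_mul, MvPolynomial.monomial_mul,
    mul_one, mul_one, mul_one, mul_one]

theorem totalDegree_mv_le (q l : ℕ) (p : Idx q → Polynomial A) (h : ∀ i, (p i).natDegree ≤ l) :
    (mv q p).totalDegree ≤ l + ((q + 1) ^ 2 + 1 + q) := by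
  rw [AlgT_mv_eq q l p h]
  refine MvPolynomial.totalDegree_finsetSum_le fun i _ =>
    MvPolynomial.totalDegree_finsetSum_le fun n hn => ?_
  rw [Finset.mem_range] at hn
  refine (MvPolynomial.totalDegree_monomial_le _ _).trans ?_
  change (Finsupp.single (0 : Fin 4) n + Finsupp.single 1 (i.1 : ℕ) +
        Finsupp.single 2 (i.2.1 : ℕ) + Finsupp.single 3 (i.2.2 : ℕ)).degree ≤ _
  rw [map_add, map_add, map_add, Finsupp.degree_single, Finsupp.degree_single,
    Finsupp.degree_single, Finsupp.degree_single]
  have h1 := i.1.2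
  have h2 := i.2.1.2
  have h3 := i.2.2.2
  omega

theorem degreeOf_zero_mv_le (q l : ℕ) (p : Idx q → Polynomial A)
    (h : ∀ i, (p i).natDegree ≤ l) : (mv q p).degreeOf 0 ≤ l := by
  classical
  rw [AlgT_mv_eq q l p h]
  refine (MvPolynomial.degreeOf_sum_le _ _ _).trans (Finset.sup_le fun i _ => ?_)
  refine (MvPolynomial.degreeOf_sum_le _ _ _).trans (Finset.sup_le fun n hn => ?_)
  rw [Finset.mem_range] at hn
  rw [MvPolynomial.degreeOf_le_iff]
  intro m hm
  have := MvPolynomial.support_monomial_subset hm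
  rw [Finset.mem_singleton] at this
  rw [this]
  simp only [Finsupp.add_apply, Finsupp.single_apply, if_pos, Fin.isValue, one_ne_zero, if_false]
  rw [if_neg (by decide), if_neg (by decide)]
  omega

theorem degreeOf_three_mv_le (q : ℕ) (p : Idx q → Polynomial A) :
    (mv q p).degreeOf 3 ≤ q := by
  classical
  obtain ⟨l, hl⟩ : ∃ l : ℕ, ∀ i, (p i).natDegree ≤ l :=
    ⟨Finset.univ.sup fun i => (p i).natDegree, fun i =>
      Finset.le_sup (f := fun i => (p i).natDegree) (Finset.mem_univ i)⟩
  rw [AlgT_mv_eq q l p hl]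
  refine (MvPolynomial.degreeOf_sum_le _ _ _).trans (Finset.sup_le fun i _ => ?_)
  refine (MvPolynomial.degreeOf_sum_le _ _ _).trans (Finset.sup_le fun n hn => ?_)
  rw [MvPolynomial.degreeOf_le_iff]
  intro m hm
  have := MvPolynomial.support_monomial_subset hm
  rw [Finset.mem_singleton] at this
  rw [this]
  simp only [Finsupp.add_apply, Finsupp.single_apply, if_pos, Fin.isValue]
  rw [if_neg (by decide), if_neg (by decide), if_neg (by decide)]
  have := i.2.2.2
  omega

end

end Pool.Agent.ZFin
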