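import Pool.Agent.ZFin.RRdom
import Pool.Agent.ZCM.PoleDeg

/-! # Module Leaf: values on the leaf `(z,℘,℘'/2)` (section 2.5) -/

namespace Pool.Agent.ZFin
open Polynomial Pool.Agent.ZCM

/-- value of `u ∈ ℂ[x,y]/(y^2-f)[z]` on the leaf `(z, ℘(z), ℘'(z)/2)` -/
noncomputable def leaf (L : PeriodPair) {a b : ℂ} (u : (RR a b)[X]) (z : ℂ) : ℂ :=
  u.sum fun l g => evR g (L.weierstrassP z) (L.derivWeierstrassP z / 2) * z ^ l

private theorem Leaf_evR_zero {a b : ℂ} (x0 y0 : ℂ) : evR (0 : RR a b) x0 y0 = 0 := by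
  simp [evR]

private theorem Leaf_evR_add {a b : ℂ} (g h : RR a b) (x0 y0 : ℂ) :
    evR (g + h) x0 y0 = evR g x0 y0 + evR h x0 y0 := by
  simp only [evR, QuadraticAlgebra.re_add, QuadraticAlgebra.im_add, eval_add]
  ring

private theorem Leaf_add (L : PeriodPair) {a b : ℂ} (u v : (RR a b)[X]) (z : ℂ) :
    leaf L (u + v) z = leaf L u z + leaf L v z := by
  unfold leaf
  rw [Polynomial.sum_add_index]
  · intro i
    rw [Leaf_evR_zero, zero_mul]
  · intro i g h
    rw [Leaf_evR_add, add_mul]

private theorem Leaf_monomial (L : PeriodPair) {a b : ℂ} (l : ℕ) (g : RR a b) (z : ℂ) :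
    leaf L (monomial l g) z =
      evR g (L.weierstrassP z) (L.derivWeierstrassP z / 2) * z ^ l := by
  unfold leaf
  rw [Polynomial.sum_monomial_index]
  rw [Leaf_evR_zero, zero_mul]

private theorem Leaf_zero {z0 w : ℂ} (Q : Polynomial ℂ) (hw : w ≠ 0)
    (h : ∀ n : ℕ, Q.eval (z0 + n * w) = 0) : Q = 0 := by
  apply Polynomial.eq_zero_of_infinite_isRoot
  apply Set.infinite_of_injective_forall_mem (f := fun n : ℕ => z0 + n * w)
  · intro m n hmn
    have h1 : (m : ℂ) * w = n * w := by
      have : z0 + (m : ℂ) * w = z0 + n * w := hmn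
      exact add_left_cancel this
    have h2 := mul_right_cancel₀ hw h1
    exact_mod_cast h2
  · intro n
    exact h n

/-- an element which vanishes on the leaf is `0` -/
theorem leaf_ne (L : PeriodPair) (a b : ℂ) (h2 : L.g₂ = -4 * a) (h3 : L.g₃ = -4 * b)
    (u : (RR a b)[X]) (hu : u ≠ 0) : ∃ z, z ∉ L.lattice ∧ leaf L u z ≠ 0 := by
  by_contra hcon
  push Not at hcon
  apply hu
  have hw1 : L.ω₁ ≠ 0 := by
    have := L.indep.ne_zero 0
    simpa using this
  have hcoef : ∀ z0, z0 ∉ L.lattice → ∀ l,
      evR (u.coeff l) (L.weierstrassP z0) (L.derivWeierstrassP z0 / 2) = 0 := by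
    intro z0 hz0
    set x0 : ℂ := L.weierstrassP z0 with hx0
    set y0 : ℂ := L.derivWeierstrassP z0 / 2 with hy0
    set Q : Polynomial ℂ := ∑ l ∈ Finset.range (u.natDegree + 1),
      monomial l (evR (u.coeff l) x0 y0) with hQ
    have hQ0 : Q = 0 := by
      apply Leaf_zero (z0 := z0) (w := L.ω₁) Q hw1
      intro n
      have hmem : ((n • (⟨L.ω₁, L.ω₁_mem_lattice⟩ : L.lattice) : L.lattice) : ℂ) =
          n * L.ω₁ := by
        simp
      have hnot : z0 + ((n • (⟨L.ω₁, L.ω₁_mem_lattice⟩ : L.lattice) : L.lattice) : ℂ) ∉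
          L.lattice := by
        intro h
        apply hz0
        have := L.lattice.sub_mem h (n • (⟨L.ω₁, L.ω₁_mem_lattice⟩ : L.lattice)).2
        simpa using this
      have h1 := hcon _ hnot
      unfold leaf at h1
      rw [L.weierstrassP_add_coe, L.derivWeierstrassP_add_coe, hmem] at h1
      rw [Polynomial.sum_over_range _ (fun l => by rw [Leaf_evR_zero, zero_mul])] at h1
      rw [hQ, Polynomial.eval_finsetSum]
      simp only [Polynomial.eval_monomial]
      exact h1
    intro l
    by_cases hl : l < u.natDegree + 1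
    · have h1 : Q.coeff l = evR (u.coeff l) x0 y0 := by
        rw [hQ, Polynomial.finsetSum_coeff]
        simp only [Polynomial.coeff_monomial]
        rw [Finset.sum_ite_eq' (Finset.range (u.natDegree + 1)) l]
        rw [if_pos (Finset.mem_range.2 hl)]
      rw [← h1, hQ0, Polynomial.coeff_zero]
    · rw [Polynomial.coeff_eq_zero_of_natDegree_lt (by omega), Leaf_evR_zero]
  ext1 l
  rw [Polynomial.coeff_zero]
  have h := pole_zero L a b h2 h3 (u.coeff l).re (u.coeff l).im (by
    filter_upwards [eventually_notMem L] with z hz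
    exact hcoef z hz l)
  apply QuadraticAlgebra.ext
  · rw [h.1]; rfl
  · rw [h.2]; rfl

private theorem Leaf_eval_aeval (v : Fin 3 → ℂ) (p : ℂ[X]) :
    MvPolynomial.eval v (Polynomial.aeval (MvPolynomial.X 1 : MvPolynomial (Fin 3) ℂ) p) =
      p.eval (v 1) := by
  induction p using Polynomial.induction_on' with
  | add p q hp hq => rw [map_add, map_add, hp, hq, Polynomial.eval_add]
  | monomial n c =>
    rw [Polynomial.aeval_monomial, map_mul, map_pow, MvPolynomial.eval_X,
      Polynomial.eval_monomial]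
    congr 1
    exact MvPolynomial.eval_C c

/-- elements of `ℂ[x,y]/(y^2-f)[z]` come from polynomials in `z, X, y` -/
theorem leaf_lift (L : PeriodPair) (a b : ℂ) (h2 : L.g₂ = -4 * a) (h3 : L.g₃ = -4 * b)
    (u : (RR a b)[X]) : ∃ U : MvPolynomial (Fin 3) ℂ, ∀ z, z ∉ L.lattice →
      MvPolynomial.eval (v3 L z) U = leaf L u z ∧
      MvPolynomial.eval (v3 L z) (D3 a U) = leaf L (Dz (dR a b) u) z := by
  induction u using Polynomial.induction_on' with
  | add u v hu hv =>
    obtain ⟨U, hU⟩ := hu
    obtain ⟨V, hV⟩ := hv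
    refine ⟨U + V, fun z hz => ?_⟩
    rw [map_add, map_add, map_add, map_add, Leaf_add, Leaf_add, (hU z hz).1, (hU z hz).2,
      (hV z hz).1, (hV z hz).2]
    exact ⟨rfl, rfl⟩
  | monomial l g =>
    refine ⟨(Polynomial.aeval (MvPolynomial.X 1 : MvPolynomial (Fin 3) ℂ) g.re +
      Polynomial.aeval (MvPolynomial.X 1 : MvPolynomial (Fin 3) ℂ) g.im * MvPolynomial.X 2) *
        MvPolynomial.X 0 ^ l, fun z hz => ⟨?_, ?_⟩⟩
    · rw [Leaf_monomial, map_mul, map_add, map_mul, map_pow, Leaf_eval_aeval, Leaf_eval_aeval,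
        MvPolynomial.eval_X, MvPolynomial.eval_X]
      rfl
    · have hode := ode L a b h2 h3 hz
      have hD0 : D3 a (MvPolynomial.X 0 : MvPolynomial (Fin 3) ℂ) = 1 := by
        simp [D3]
      have hD1 : D3 a (MvPolynomial.X 1 : MvPolynomial (Fin 3) ℂ) = 2 * MvPolynomial.X 2 := by
        simp [D3]
      have hD2 : D3 a (MvPolynomial.X 2 : MvPolynomial (Fin 3) ℂ) =
          3 * MvPolynomial.X 1 ^ 2 + MvPolynomial.C a := by
        simp [D3]
      have hDz : Dz (dR a b) (monomial l g) =
          monomial l (dR a b g) + monomial (l - 1) (g * (l : RR a b)) := by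
        rw [Dz_apply, Polynomial.derivative_monomial]
        congr 1
        ext1 i
        rw [cw_coeff, Polynomial.coeff_monomial, Polynomial.coeff_monomial]
        split_ifs
        · rfl
        · exact map_zero _
      rw [hDz, Leaf_add, Leaf_monomial, Leaf_monomial]
      simp only [Derivation.leibniz, map_add, Derivation.map_aeval, Derivation.leibniz_pow,
        hD0, hD1, hD2, smul_eq_mul, map_mul, map_pow, Leaf_eval_aeval, MvPolynomial.eval_X,
        map_natCast, MvPolynomial.eval_C, map_ofNat, map_one, nsmul_eq_mul]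
      have e1 : v3 L z 0 = z := rfl
      have e2 : v3 L z 1 = L.weierstrassP z := rfl
      have e3 : v3 L z 2 = L.derivWeierstrassP z / 2 := rfl
      rw [e1, e2, e3]
      set x0 : ℂ := L.weierstrassP z with hx0
      set y0 : ℂ := L.derivWeierstrassP z / 2 with hy0
      have e4 : evR (dR a b g) x0 y0 =
          2 * (derivative g.im).eval x0 * (x0 ^ 3 + a * x0 + b) +
            g.im.eval x0 * (3 * x0 ^ 2 + a) + 2 * (derivative g.re).eval x0 * y0 := by
        have h5 : (dR a b g).re = 2 * derivative g.im * ff a b + g.im * derivative (ff a b) := rfl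
        have h6 : (dR a b g).im = 2 * derivative g.re := rfl
        rw [evR, h5, h6]
        simp only [ff, eval_add, eval_mul, eval_pow, eval_X, eval_C, derivative_add,
          derivative_X_pow, derivative_C_mul, derivative_X, derivative_C, eval_ofNat,
          mul_one, add_zero]
        simp
      have e5 : evR (g * (l : RR a b)) x0 y0 = evR g x0 y0 * l := by
        have h5 : (g * (l : RR a b)).re = g.re * (l : ℂ[X]) := by
          simp [QuadraticAlgebra.re_mul]
        have h6 : (g * (l : RR a b)).im = g.im * (l : ℂ[X]) := by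
          simp [QuadraticAlgebra.im_mul]
        rw [evR, h5, h6, evR, eval_mul, eval_mul, eval_natCast]
        ring
      rw [e4, e5, evR]
      rw [← hode]
      ring

end Pool.Agent.ZFin
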