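import Pool.Agent.ZFin.Star
import Pool.Agent.ZFin.Leaf
import Pool.Agent.ZCM.Claim2

/-! # Module Hyp: hypothesis (H) for `ℂ[x,y]/(y^2-f)` (section 2.5) -/

namespace Pool.Agent.ZFin
open Polynomial Pool.Agent.ZCM

/-- evaluation at a point of the curve is a ring homomorphism -/
noncomputable def Hyp_hom (a b x0 y0 : ℂ) (h : y0 ^ 2 = x0 ^ 3 + a * x0 + b) : RR a b →+* ℂ where
  toFun g := evR g x0 y0
  map_one' := by
    simp [evR, QuadraticAlgebra.re_one, QuadraticAlgebra.im_one]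
  map_zero' := by
    simp [evR, QuadraticAlgebra.re_zero, QuadraticAlgebra.im_zero]
  map_add' g g' := by
    simp only [evR, QuadraticAlgebra.re_add, QuadraticAlgebra.im_add, eval_add]
    ring
  map_mul' g g' := by
    simp only [evR, QuadraticAlgebra.re_mul, QuadraticAlgebra.im_mul, eval_add, eval_mul,
      zero_mul, add_zero, ff, eval_pow, eval_X, eval_C]
    linear_combination (-(g.im.eval x0 * g'.im.eval x0)) * h

theorem Hyp_leaf (L : PeriodPair) {a b : ℂ} (z : ℂ)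
    (h : (L.derivWeierstrassP z / 2) ^ 2 = L.weierstrassP z ^ 3 + a * L.weierstrassP z + b)
    (u : (RR a b)[X]) :
    leaf L u z = u.eval₂ (Hyp_hom a b (L.weierstrassP z) (L.derivWeierstrassP z / 2) h) z := by
  rw [eval₂_eq_sum]
  rfl

/-- hypothesis (H), from `Pool.Agent.ZCM.claim2` -/
theorem hypH (L : PeriodPair) (a b : ℂ) (h2 : L.g₂ = -4 * a) (h3 : L.g₃ = -4 * b) :
    HypH (dR a b) (xx a b) := by
  intro n hn u v hv heq
  obtain ⟨U, hU⟩ := leaf_lift L a b h2 h3 u
  obtain ⟨V, hV⟩ := leaf_lift L a b h2 h3 v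
  obtain ⟨z0, hz0, hne⟩ := leaf_ne L a b h2 h3 v hv
  have hn' : (n : ℂ) ≠ 0 := by
    exact_mod_cast (by omega : n ≠ 0)
  refine claim2 L a b h2 h3 U V n hn' ⟨z0, hz0, ?_⟩ ?_
  · rw [(hV z0 hz0).1]
    exact hne
  · intro z hz
    have h := ode L a b h2 h3 hz
    have e := congrArg
      (eval₂ (Hyp_hom a b (L.weierstrassP z) (L.derivWeierstrassP z / 2) h) z) heq
    have hx : Hyp_hom a b (L.weierstrassP z) (L.derivWeierstrassP z / 2) h (xx a b)
        = L.weierstrassP z := by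
      change evR (xx a b) (L.weierstrassP z) (L.derivWeierstrassP z / 2) = _
      simp [evR, xx]
    rw [eval₂_sub, eval₂_sub, eval₂_mul, eval₂_mul, eval₂_mul, eval₂_mul, eval₂_pow, eval₂_C,
      eval₂_zero, hx, eval₂_natCast, ← Hyp_leaf, ← Hyp_leaf, ← Hyp_leaf, ← Hyp_leaf,
      ← (hU z hz).1, ← (hU z hz).2, ← (hV z hz).1, ← (hV z hz).2] at e
    rw [map_sub, map_sub, map_mul, map_mul, map_mul, map_mul, map_pow, MvPolynomial.eval_C,
      MvPolynomial.eval_X]
    have h1 : v3 L z 1 = L.weierstrassP z := rfl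
    rw [h1]
    exact e

end Pool.Agent.ZFin
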