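import Pool.Agent.ZFin.ZE
import Pool.Agent.ZFin.Hyp
import Pool.Agent.ZFin.Alg

/-! # Module Big: the zero estimate for `P = ∑ p_i(z) X^j y^ε Y^κ` over `ℂ` (section 2.5) -/

namespace Pool.Agent.ZFin
open Polynomial Pool.Agent.ZCM

/-- the map `ℂ[z,X,y,Y] → R[z][Y]`, `R = ℂ[x,y]/(y^2-f)` -/
noncomputable def big {F : Type*} [Field F] (a b : F) :
    MvPolynomial (Fin 4) F →ₐ[F] (RR a b)[X][X] :=
  MvPolynomial.aeval ![C X, C (C (xx a b)), C (C (yy a b)), X]

theorem Big_alg {F : Type*} [Field F] (a b r : F) :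
    algebraMap F (RR a b)[X][X] r = C (C (algebraMap F (RR a b) r)) := rfl

theorem Big_gen {F : Type*} [Field F] (a b : F) (i : Fin 4) :
    DD (dR a b) (xx a b) (big a b (MvPolynomial.X i)) = big a b (D4 a (MvPolynomial.X i)) := by
  unfold big D4
  rw [MvPolynomial.mkDerivation_X, MvPolynomial.aeval_X]
  have e2 : (C (C (2 : RR a b)) : (RR a b)[X][X]) = 2 := by rw [map_ofNat, map_ofNat]
  have e3 : (C (C (3 : RR a b)) : (RR a b)[X][X]) = 3 := by rw [map_ofNat, map_ofNat]
  fin_cases i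
  · simp [DD_C, Dz_X]
  · simp [DD_C, Dz_C, dR_xx, e2]
  · simp [DD_C, Dz_C, dR_yy, e3]
  · simp [DD_X]

theorem DD_big {F : Type*} [Field F] (a b : F) (P : MvPolynomial (Fin 4) F) :
    DD (dR a b) (xx a b) (big a b P) = big a b (D4 a P) := by
  induction P using MvPolynomial.induction_on with
  | C r =>
    have h1 : big a b (MvPolynomial.C r) = algebraMap F (RR a b)[X][X] r :=
      (big a b).commutes r
    rw [h1, Derivation.map_algebraMap]
    have h2 : D4 a (MvPolynomial.C r) = 0 := Derivation.map_algebraMap _ r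
    rw [h2, map_zero]
  | add p q hp hq => rw [map_add, map_add, hp, hq, map_add, map_add]
  | mul_X p i hp =>
    rw [map_mul, Derivation.leibniz, hp, Big_gen, Derivation.leibniz, smul_eq_mul, smul_eq_mul,
      smul_eq_mul, smul_eq_mul, map_add, map_mul, map_mul]

theorem Big_iter {F : Type*} [Field F] (a b : F) (t : ℕ) (P : MvPolynomial (Fin 4) F) :
    (⇑(DD (dR a b) (xx a b)))^[t] (big a b P) = big a b ((⇑(D4 a))^[t] P) := by
  induction t generalizing P with
  | zero => rfl
  | succ n ih => rw [Function.iterate_succ_apply, Function.iterate_succ_apply, DD_big, ih]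

theorem Big_evalX {F : Type*} [Field F] (a b β c : F) (i : Fin 4) :
    evalEval (algebraMap F (RR a b) β) (algebraMap F (RR a b) c) (big a b (MvPolynomial.X i)) =
      ![algebraMap F (RR a b) β, xx a b, yy a b, algebraMap F (RR a b) c] i := by
  unfold big
  rw [MvPolynomial.aeval_X]
  fin_cases i <;> simp [evalEval]

theorem Big_eval {F : Type*} [Field F] (a b β c : F) (Q : MvPolynomial (Fin 4) F) :
    evalEval (algebraMap F (RR a b) β) (algebraMap F (RR a b) c) (big a b Q) =
      MvPolynomial.aeval ![algebraMap F (RR a b) β, xx a b, yy a b, algebraMap F (RR a b) c] Q := by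
  induction Q using MvPolynomial.induction_on with
  | C r =>
    have h1 : big a b (MvPolynomial.C r) = algebraMap F (RR a b)[X][X] r :=
      (big a b).commutes r
    rw [h1, Big_alg, MvPolynomial.aeval_C]
    simp [evalEval]
  | add p q hp hq => rw [map_add, map_add, ← hp, ← hq, evalEval_add]
  | mul_X p i hp =>
    rw [map_mul, evalEval_mul, hp, map_mul, MvPolynomial.aeval_X, Big_evalX]

theorem evalEval_big {F : Type*} [Field F] (a b β c : F) (t : ℕ) (P : MvPolynomial (Fin 4) F) :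
    evalEval (algebraMap F (RR a b) β) (algebraMap F (RR a b) c)
      ((⇑(DD (dR a b) (xx a b)))^[t] (big a b P)) = gt a b β c t P := by
  rw [Big_iter, Big_eval]
  rfl

theorem Big_aeval {F : Type*} [Field F] (a b : F) (p : F[X]) :
    big a b (Polynomial.aeval (MvPolynomial.X 0 : MvPolynomial (Fin 4) F) p) =
      C (p.map (algebraMap F (RR a b))) := by
  rw [← Polynomial.aeval_algHom_apply]
  have h1 : big a b (MvPolynomial.X 0) = algebraMap (RR a b)[X] (RR a b)[X][X] X := by
    unfold big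
    rw [MvPolynomial.aeval_X]
    rfl
  rw [h1, Polynomial.aeval_algebraMap_apply, Polynomial.aeval_X_left_eq_map]
  rfl

/-- the image of `mv q p` -/
theorem Big_mv {F : Type*} [Field F] (a b : F) (q : ℕ) (p : Idx q → F[X]) :
    big a b (mv q p) = ∑ i : Idx q, C ((p i).map (algebraMap F (RR a b)) *
      C (xx a b ^ (i.1 : ℕ) * yy a b ^ (i.2.1 : ℕ))) * X ^ (i.2.2 : ℕ) := by
  unfold mv
  rw [map_sum]
  refine Finset.sum_congr rfl (fun i _ => ?_)
  have h1 : big a b (MvPolynomial.X 1) = C (C (xx a b)) := by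
    unfold big
    rw [MvPolynomial.aeval_X]
    rfl
  have h2 : big a b (MvPolynomial.X 2) = C (C (yy a b)) := by
    unfold big
    rw [MvPolynomial.aeval_X]
    rfl
  have h3 : big a b (MvPolynomial.X 3) = X := by
    unfold big
    rw [MvPolynomial.aeval_X]
    rfl
  rw [map_mul, map_mul, map_mul, map_pow, map_pow, map_pow, Big_aeval, h1, h2, h3]
  simp only [map_mul, map_pow]
  ring

theorem Big_coeff {F : Type*} [Field F] (a b : F) (q : ℕ) (p : Idx q → F[X]) (κ : ℕ) :
    (big a b (mv q p)).coeff κ = ∑ i : Idx q, if κ = (i.2.2 : ℕ) then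
      (p i).map (algebraMap F (RR a b)) * C (xx a b ^ (i.1 : ℕ) * yy a b ^ (i.2.1 : ℕ)) else 0 := by
  rw [Big_mv, finsetSum_coeff]
  refine Finset.sum_congr rfl (fun i _ => ?_)
  rw [coeff_C_mul_X_pow]

theorem big_mv_ne {F : Type*} [Field F] (a b : F) (q : ℕ) (p : Idx q → F[X]) (hp : p ≠ 0) :
    big a b (mv q p) ≠ 0 := by
  intro h
  apply hp
  funext i
  rw [Pi.zero_apply]
  ext l
  rw [coeff_zero]
  have h1 := congrArg (fun P => (P.coeff (i.2.2 : ℕ)).coeff l) h
  simp only [Big_coeff, coeff_zero] at h1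
  rw [finsetSum_coeff] at h1
  have h2 : ∑ i' : Fin ((q + 1) ^ 2) × Fin 2, algebraMap F (RR a b)
      ((p (i'.1, i'.2, i.2.2)).coeff l) * xx a b ^ (i'.1 : ℕ) * yy a b ^ (i'.2 : ℕ) = 0 := by
    rw [← h1, Fintype.sum_prod_type, Fintype.sum_prod_type]
    refine Finset.sum_congr rfl (fun j _ => ?_)
    rw [Fintype.sum_prod_type]
    refine Finset.sum_congr rfl (fun e _ => ?_)
    rw [Finset.sum_eq_single i.2.2]
    · rw [if_pos rfl, coeff_mul_C, coeff_map]
      ring
    · intro κ _ hκ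
      rw [if_neg (fun hh => hκ (Fin.ext hh.symm)), coeff_zero]
    · intro hh
      exact absurd (Finset.mem_univ _) hh
  have h3 := RR_indep a b ((q + 1) ^ 2) (fun i' => (p (i'.1, i'.2, i.2.2)).coeff l) h2
  exact congrFun h3 (i.1, i.2.1)

theorem big_mv_deg {F : Type*} [Field F] (a b : F) (q d : ℕ) (p : Idx q → F[X])
    (hd : ∀ i, (p i).natDegree ≤ d) :
    (big a b (mv q p)).natDegree ≤ q ∧ ∀ i, ((big a b (mv q p)).coeff i).natDegree ≤ d := by
  constructor
  · rw [Big_mv]
    refine natDegree_sum_le_of_forall_le _ _ (fun i _ => ?_)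
    refine (natDegree_C_mul_X_pow_le _ _).trans ?_
    exact Nat.lt_succ_iff.mp i.2.2.2
  · intro κ
    rw [Big_coeff]
    refine natDegree_sum_le_of_forall_le _ _ (fun i _ => ?_)
    split_ifs
    · refine (natDegree_mul_C_le _ _).trans ?_
      exact natDegree_map_le.trans (hd i)
    · simp

/-- the zero estimate (A) -/
theorem zero_est (L : PeriodPair) (a b : ℂ) (h2 : L.g₂ = -4 * a) (h3 : L.g₃ = -4 * b)
    (q m d : ℕ) (p : Idx q → ℂ[X]) (hp : p ≠ 0) (hd : ∀ i, (p i).natDegree ≤ d) (hm : q ≤ m)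
    (S : Finset (ℂ × ℂ)) (hS : ∀ β, (S.filter fun π => π.1 = β).card ≤ q + 1)
    (hv : ∀ π ∈ S, ∀ t < m, gt a b π.1 π.2 t (mv q p) = 0) :
    S.card * (m - q) ≤ (q + 1) * d := by
  have hdom : IsDomain (RR a b) := RR_isDomain a b
  obtain ⟨h4, h5⟩ := big_mv_deg a b q d p hd
  refine zero_est_abs (dR a b) (xx a b) (hypH L a b h2 h3) (big a b (mv q p)) (big_mv_ne a b q p hp)
    q d m h4 h5 hm S hS (fun π hπ t ht => ?_)
  rw [evalEval_big]
  exact hv π hπ t ht

end Pool.Agent.ZFin
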