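import Pool.Agent.ZFin.Defs

/-! # Module Convex: section 3.3 and its consequence -/

namespace Pool.Agent.ZFin

variable {k : Type*} [Field k] {ι : Type*} [Fintype ι] (N : Submodule k (ι → Polynomial k))

lemma Convex_mem_Amb {l : ℕ} {p : ι → Polynomial k} :
    p ∈ Amb k ι l ↔ ∀ i, p i ∈ Polynomial.degreeLT k l := by
  simp [Amb, Submodule.mem_pi]

/-- vectors of polynomials of degree `< l` are families of elements of `degreeLT` -/
def Convex_equiv (l : ℕ) : ↥(Amb k ι l) ≃ₗ[k] (ι → ↥(Polynomial.degreeLT k l)) where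
  toFun p i := ⟨(p : ι → Polynomial k) i, Convex_mem_Amb.1 p.2 i⟩
  invFun p := ⟨fun i => (p i : Polynomial k), Convex_mem_Amb.2 fun i => (p i).2⟩
  map_add' _ _ := rfl
  map_smul' _ _ := rfl
  left_inv _ := rfl
  right_inv _ := rfl

lemma Convex_Amb_finite (l : ℕ) : FiniteDimensional k ↥(Amb k ι l) := by
  have : FiniteDimensional k ↥(Polynomial.degreeLT k l) :=
    Module.Finite.equiv (Polynomial.degreeLTEquiv k l).symm
  exact Module.Finite.equiv (Convex_equiv l).symm

theorem Amb_finite (l : ℕ) : FiniteDimensional k ↥(N ⊓ Amb k ι l) := by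
  have := Convex_Amb_finite (k := k) (ι := ι) l
  exact Submodule.finiteDimensional_of_le inf_le_right

theorem finrank_Amb (l : ℕ) : Module.finrank k ↥(Amb k ι l) = Fintype.card ι * l := by
  have : FiniteDimensional k ↥(Polynomial.degreeLT k l) :=
    Module.Finite.equiv (Polynomial.degreeLTEquiv k l).symm
  rw [(Convex_equiv l).finrank_eq, Module.finrank_pi_fintype]
  simp only [(Polynomial.degreeLTEquiv k l).finrank_eq, Module.finrank_fin_fun,
    Finset.sum_const, Finset.card_univ, smul_eq_mul]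

lemma Convex_Amb_mono {l l' : ℕ} (h : l ≤ l') : Amb k ι l ≤ Amb k ι l' := by
  intro p hp
  rw [Convex_mem_Amb] at hp ⊢
  exact fun i => Polynomial.degreeLT_mono h (hp i)

theorem fl_mono {l l' : ℕ} (h : l ≤ l') : fl N l ≤ fl N l' := by
  have := Amb_finite N l'
  exact Submodule.finrank_mono (inf_le_inf_left N (Convex_Amb_mono h))

/-- the vector of the coefficients of degree `l` -/
noncomputable def Convex_top (k ι : Type*) [Field k] (l : ℕ) : (ι → Polynomial k) →ₗ[k] (ι → k) :=
  LinearMap.pi fun i => (Polynomial.lcoeff k l).comp (LinearMap.proj i)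

lemma Convex_top_apply (l : ℕ) (p : ι → Polynomial k) (i : ι) :
    Convex_top k ι l p i = (p i).coeff l := rfl

lemma Convex_rank (l : ℕ) : Module.finrank k ↥((N ⊓ Amb k ι (l + 1)).map (Convex_top k ι l)) +
    fl N l = fl N (l + 1) := by
  have := Amb_finite N (l + 1)
  have h1 := LinearMap.finrank_range_add_finrank_ker
    ((Convex_top k ι l).domRestrict (N ⊓ Amb k ι (l + 1)))
  rw [LinearMap.range_domRestrict] at h1
  have h2 : (LinearMap.ker ((Convex_top k ι l).domRestrict (N ⊓ Amb k ι (l + 1)))).map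
      (N ⊓ Amb k ι (l + 1)).subtype = N ⊓ Amb k ι l := by
    ext p
    constructor
    · rintro ⟨⟨q, hq⟩, hq', rfl⟩
      refine ⟨hq.1, Convex_mem_Amb.2 fun i => ?_⟩
      have h3 := Convex_mem_Amb.1 hq.2 i
      rw [Polynomial.mem_degreeLT] at h3 ⊢
      have h4 : (q i).coeff l = 0 := congrFun hq' i
      rw [Polynomial.degree_lt_iff_coeff_zero] at h3 ⊢
      intro m hm
      rcases Nat.eq_or_lt_of_le hm with rfl | hm
      · exact h4
      · exact h3 m hm
    · intro hp
      refine ⟨⟨p, hp.1, Convex_Amb_mono (Nat.le_succ l) hp.2⟩, ?_, rfl⟩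
      funext i
      have h3 := Convex_mem_Amb.1 hp.2 i
      rw [Polynomial.mem_degreeLT, Polynomial.degree_lt_iff_coeff_zero] at h3
      exact h3 l le_rfl
  have h3 := Submodule.finrank_map_subtype_eq (N ⊓ Amb k ι (l + 1))
    (LinearMap.ker ((Convex_top k ι l).domRestrict (N ⊓ Amb k ι (l + 1))))
  rw [h2] at h3
  rw [fl, fl, h3, h1]

lemma Convex_le (hX : ∀ p ∈ N, (fun i => Polynomial.X * p i) ∈ N) (l : ℕ) :
    (N ⊓ Amb k ι (l + 1)).map (Convex_top k ι l) ≤
      (N ⊓ Amb k ι (l + 2)).map (Convex_top k ι (l + 1)) := by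
  rintro _ ⟨p, hp, rfl⟩
  refine ⟨fun i => Polynomial.X * p i, ⟨hX p hp.1, Convex_mem_Amb.2 fun i => ?_⟩, ?_⟩
  · have h3 := Convex_mem_Amb.1 hp.2 i
    rw [Polynomial.mem_degreeLT, Polynomial.degree_lt_iff_coeff_zero] at h3 ⊢
    intro m hm
    obtain ⟨m, rfl⟩ : ∃ m', m = m' + 1 := ⟨m - 1, by omega⟩
    rw [Polynomial.coeff_X_mul]
    exact h3 m (by omega)
  · funext i
    rw [Convex_top_apply, Convex_top_apply, Polynomial.coeff_X_mul]

theorem fl_convex (hX : ∀ p ∈ N, (fun i => Polynomial.X * p i) ∈ N) (l : ℕ) :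
    2 * fl N (l + 1) ≤ fl N l + fl N (l + 2) := by
  have h1 := Convex_rank N l
  have h2 : Module.finrank k ↥((N ⊓ Amb k ι (l + 2)).map (Convex_top k ι (l + 1))) +
    fl N (l + 1) = fl N (l + 2) := Convex_rank N (l + 1)
  have h3 := Submodule.finrank_mono (Convex_le N hX l)
  omega

/-- if `f(d0) = 0` then all increments from `L1` on are at least `f(L1)/(L1-d0)` -/
theorem fl_incr (hX : ∀ p ∈ N, (fun i => Polynomial.X * p i) ∈ N) (d0 L1 l : ℕ)
    (h0 : fl N d0 = 0) (h1 : d0 ≤ L1) (h2 : L1 ≤ l) :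
    fl N L1 ≤ (fl N (l + 1) - fl N l) * (L1 - d0) := by
  have hinc : ∀ a b : ℕ, a ≤ b → fl N (a + 1) - fl N a ≤ fl N (b + 1) - fl N b := by
    intro a b hab
    induction b, hab using Nat.le_induction with
    | base => exact le_rfl
    | succ b hab ih =>
      refine ih.trans ?_
      have h3 := fl_convex N hX b
      have h4 := fl_mono N (Nat.le_succ b)
      have h5 := fl_mono N (Nat.le_succ (b + 1))
      show fl N (b + 1) - fl N b ≤ fl N (b + 2) - fl N (b + 1)
      have h6 : fl N (b + 1) ≤ fl N (b + 2) := h5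
      omega
  obtain ⟨e, rfl⟩ := Nat.exists_eq_add_of_le h1
  rw [Nat.add_sub_cancel_left]
  have h3 : ∀ e : ℕ, d0 + e ≤ l → fl N (d0 + e) ≤ (fl N (l + 1) - fl N l) * e := by
    intro e
    induction e with
    | zero => intro _; simp [h0]
    | succ e ih =>
      intro he
      have h4 := ih (by omega)
      have h5 := hinc (d0 + e) l (by omega)
      have h6 := fl_mono N (Nat.le_succ (d0 + e))
      rw [Nat.mul_succ]
      have h7 : d0 + (e + 1) = d0 + e + 1 := by ring
      rw [h7]
      omega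
  exact h3 e h2

end Pool.Agent.ZFin
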