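import Pool.Agent.ZFin.Defs

/-! # Module WtRank: the space of elements of weight `≤ d = 2j+3` has dimension `≤ d` -/

namespace Pool.Agent.ZFin

/-- the coefficients of `U + V y` up to degree `j+1` (for `U`) and `j` (for `V`) -/
private noncomputable def wtRankCoef {F0 K : Type*} [Field F0] [Field K] [Algebra F0 K]
    (a b : K) (j : ℕ) : RR a b →ₗ[F0] ((Fin (j + 2) ⊕ Fin (j + 1)) → K) where
  toFun x := Sum.elim (fun i => x.re.coeff i) (fun i => x.im.coeff i)
  map_add' x y := by
    funext i
    rcases i with i | i
    · simp
    · simp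
  map_smul' r x := by
    funext i
    rcases i with i | i
    · simp
    · simp

/-- if `g` maps `W` into elements of weight `≤ 2j+3` then it loses at most `(2j+3) [K:F0]`
dimensions -/
theorem wt_rank {F0 K : Type*} [Field F0] [Field K] [Algebra F0 K] [FiniteDimensional F0 K]
    (a b : K) {V : Type*} [AddCommGroup V] [Module F0 V] (W : Submodule F0 V)
    [FiniteDimensional F0 W] (g : V →ₗ[F0] RR a b) (j : ℕ) (h : ∀ v ∈ W, WtLE (2 * j + 3) (g v)) :
    Module.finrank F0 W ≤ Module.finrank F0 ↥(W ⊓ LinearMap.ker g) +
      (2 * j + 3) * Module.finrank F0 K := by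
  set ψ : W →ₗ[F0] ((Fin (j + 2) ⊕ Fin (j + 1)) → K) :=
    (wtRankCoef a b j).comp (g.comp W.subtype) with hψ
  have hrn := LinearMap.finrank_range_add_finrank_ker ψ
  have hrange : Module.finrank F0 (LinearMap.range ψ) ≤ (2 * j + 3) * Module.finrank F0 K := by
    have h1 := Submodule.finrank_le (LinearMap.range ψ)
    have h2 : Module.finrank F0 ((Fin (j + 2) ⊕ Fin (j + 1)) → K) =
        (2 * j + 3) * Module.finrank F0 K := by
      rw [Module.finrank_pi_fintype]
      simp only [Finset.sum_const, Finset.card_univ, Fintype.card_sum, Fintype.card_fin,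
        smul_eq_mul]
      ring
    rw [h2] at h1
    exact h1
  have hker : (LinearMap.ker ψ).map W.subtype = W ⊓ LinearMap.ker g := by
    ext v
    simp only [Submodule.mem_map, LinearMap.mem_ker, Submodule.subtype_apply, Submodule.mem_inf]
    constructor
    · rintro ⟨w, hw, rfl⟩
      refine ⟨w.2, ?_⟩
      have hwt := h w w.2
      have hc : ∀ i, ψ w i = 0 := fun i => by rw [hw]; rfl
      have hre : (g w).re = 0 := by
        ext i
        rw [Polynomial.coeff_zero]
        by_cases hi : i < j + 2
        · exact hc (Sum.inl ⟨i, hi⟩)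
        · apply Polynomial.coeff_eq_zero_of_natDegree_lt
          have := hwt.1
          omega
      have him : (g w).im = 0 := by
        by_contra hne
        have h3 := hwt.2 hne
        apply hne
        ext i
        rw [Polynomial.coeff_zero]
        by_cases hi : i < j + 1
        · exact hc (Sum.inr ⟨i, hi⟩)
        · apply Polynomial.coeff_eq_zero_of_natDegree_lt
          omega
      exact QuadraticAlgebra.ext hre him
    · rintro ⟨hv, hg⟩
      refine ⟨⟨v, hv⟩, ?_, rfl⟩
      simp only [hψ, LinearMap.comp_apply, Submodule.subtype_apply, hg, map_zero]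
  have hk : Module.finrank F0 (LinearMap.ker ψ) = Module.finrank F0 ↥(W ⊓ LinearMap.ker g) := by
    rw [← hker, Submodule.finrank_map_subtype_eq]
  omega

end Pool.Agent.ZFin
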