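import Pool.Agent.ZFin.Weight
import Pool.Agent.ZFin.WtRank

/-! # Module LevStep: each level loses at most `δ [K_i : F0]` dimensions -/

namespace Pool.Agent.ZFin

/-- the levels `(i, t)` below `i m + t + 1` are those below `i m + t` and `(i, t)` itself -/
theorem LevStep_succ {k F0 : Type} [Field k] [Field F0] [Algebra F0 k] {r : ℕ} {K : Fin r → Type}
    [∀ i, Field (K i)] [∀ i, Algebra k (K i)]
    (a b : k) (q : ℕ) (β c : ∀ i, K i) (m : ℕ)
    {V : Type} [AddCommGroup V] [Module F0 V] (Φ : V →ₗ[F0] (Idx q → Polynomial k))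
    (E : Submodule F0 V) (i : Fin r) (t : ℕ) (ht : t < m) (v : V) :
    v ∈ Wlev q a b β c m Φ E ((i : ℕ) * m + t + 1) ↔
      v ∈ Wlev q a b β c m Φ E ((i : ℕ) * m + t) ∧ gk a b (β i) (c i) t (Φ v) = 0 := by
  rw [mem_Wlev, mem_Wlev]
  constructor
  · rintro ⟨h1, h2⟩
    exact ⟨⟨h1, fun i' t' ht' hs => h2 i' t' ht' (by omega)⟩, h2 i t ht (by omega)⟩
  · rintro ⟨⟨h1, h2⟩, h3⟩
    refine ⟨h1, fun i' t' ht' hs => ?_⟩
    rcases Nat.lt_or_ge ((i' : ℕ) * m + t') ((i : ℕ) * m + t) with hlt | hge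
    · exact h2 i' t' ht' hlt
    · have heq : (i' : ℕ) * m + t' = (i : ℕ) * m + t := by omega
      have hii : (i' : ℕ) = i := by
        have e1 : ((i' : ℕ) * m + t') / m = i' := by
          rw [mul_comm, Nat.mul_add_div (by omega), Nat.div_eq_of_lt ht', add_zero]
        have e2 : ((i : ℕ) * m + t) / m = i := by
          rw [mul_comm, Nat.mul_add_div (by omega), Nat.div_eq_of_lt ht, add_zero]
        rw [← e1, ← e2, heq]
      have hi : i' = i := Fin.ext hii
      subst hi
      have htt : t' = t := by omega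
      subst htt
      exact h3

/-- `Wlev (i m + t + 1)` has codimension `≤ δ [K_i:F0]` in `Wlev (i m + t)` -/
theorem lev_step {k F0 : Type} [Field k] [Field F0] [Algebra F0 k] {r : ℕ} {K : Fin r → Type}
    [∀ i, Field (K i)] [∀ i, Algebra k (K i)] [∀ i, Algebra F0 (K i)]
    [∀ i, IsScalarTower F0 k (K i)] [∀ i, FiniteDimensional F0 (K i)]
    [Algebra k ℂ] [∀ i, Algebra (K i) ℂ] [∀ i, IsScalarTower k (K i) ℂ]
    (L : PeriodPair) (a b : k) (h2 : L.g₂ = -4 * algebraMap k ℂ a)
    (h3 : L.g₃ = -4 * algebraMap k ℂ b) (q : ℕ) (β c : ∀ i, K i) (m : ℕ)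
    {V : Type} [AddCommGroup V] [Module F0 V] (Φ : V →ₗ[F0] (Idx q → Polynomial k))
    (E : Submodule F0 V) [FiniteDimensional F0 E] (i : Fin r) (t : ℕ) (ht : t < m) :
    Module.finrank F0 ↥(Wlev q a b β c m Φ E ((i : ℕ) * m + t)) ≤
      Module.finrank F0 ↥(Wlev q a b β c m Φ E ((i : ℕ) * m + t + 1)) +
        dl q * Module.finrank F0 (K i) := by
  set W := Wlev q a b β c m Φ E ((i : ℕ) * m + t) with hW
  have hWE : W ≤ E := fun v hv => (mem_Wlev.mp hv).1
  have : FiniteDimensional F0 W := Submodule.finiteDimensional_of_le hWE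
  let g : V →ₗ[F0] RR (algebraMap k (K i) a) (algebraMap k (K i) b) :=
    ((gkl a b (β i) (c i) t).restrictScalars F0).comp Φ
  have hg : ∀ v, g v = gk a b (β i) (c i) t (Φ v) := fun v => rfl
  have hj : dl q = 2 * (q ^ 2 + 3 * q) + 3 := by
    unfold dl
    ring
  have key := wt_rank (algebraMap k (K i) a) (algebraMap k (K i) b) W g (q ^ 2 + 3 * q) (by
    intro v hv
    rw [hg, ← hj]
    refine gk_weight_le L a b h2 h3 q (β i) (c i) (Φ v) t (fun t' ht' => ?_)
    exact (mem_Wlev.mp hv).2 i t' (by omega) (by omega))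
  rw [← hj] at key
  have hsucc : W ⊓ LinearMap.ker g = Wlev q a b β c m Φ E ((i : ℕ) * m + t + 1) := by
    ext v
    rw [LevStep_succ a b q β c m Φ E i t ht v, Submodule.mem_inf, LinearMap.mem_ker, hg]
  rw [hsucc] at key
  exact key

/-- a product of submodules -/
noncomputable def LevStep_pi (k : Type*) [Field k] (ι : Type*) (l : ℕ) :
    ↥(Amb k ι l) ≃ₗ[k] (ι → ↥(Polynomial.degreeLT k l)) where
  toFun v i := ⟨v.1 i, (Submodule.mem_pi.mp v.2) i (Set.mem_univ i)⟩
  map_add' u v := by
    funext i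
    rfl
  map_smul' c v := by
    funext i
    rfl
  invFun w := ⟨fun i => (w i).1, Submodule.mem_pi.mpr fun i _ => (w i).2⟩
  left_inv v := by
    apply Subtype.ext
    rfl
  right_inv w := by
    funext i
    apply Subtype.ext
    rfl

theorem LevStep_finrank_Amb (k : Type*) [Field k] (ι : Type*) [Fintype ι] (l : ℕ) :
    Module.finrank k ↥(Amb k ι l) = Fintype.card ι * l := by
  rw [LinearEquiv.finrank_eq (LevStep_pi k ι l), Module.finrank_pi_fintype]
  rw [Finset.sum_const, Finset.card_univ, smul_eq_mul,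
    LinearEquiv.finrank_eq (Polynomial.degreeLTEquiv k l), Module.finrank_fin_fun]

theorem LevStep_finite_Amb (k : Type*) [Field k] (ι : Type*) [Fintype ι] (l : ℕ) :
    FiniteDimensional k ↥(Amb k ι l) := by
  have : FiniteDimensional k ↥(Polynomial.degreeLT k l) :=
    LinearEquiv.finiteDimensional (Polynomial.degreeLTEquiv k l).symm
  exact LinearEquiv.finiteDimensional (LevStep_pi k ι l).symm

/-- section 3.1: `f(l) ≥ M l - δ m ∑ [K_i:k]` -/
theorem fl_lower {k : Type} [Field k] {r : ℕ} {K : Fin r → Type}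
    [∀ i, Field (K i)] [∀ i, Algebra k (K i)] [∀ i, FiniteDimensional k (K i)]
    [Algebra k ℂ] [∀ i, Algebra (K i) ℂ] [∀ i, IsScalarTower k (K i) ℂ]
    (L : PeriodPair) (a b : k) (h2 : L.g₂ = -4 * algebraMap k ℂ a)
    (h3 : L.g₃ = -4 * algebraMap k ℂ b) (q : ℕ) (β c : ∀ i, K i) (m l : ℕ) :
    2 * (q + 1) ^ 3 * l ≤ fl (LamS q a b β c m) l +
      dl q * m * ∑ i, Module.finrank k (K i) := by
  have : FiniteDimensional k ↥(Amb k (Idx q) l) := LevStep_finite_Amb k (Idx q) l
  set E : Submodule k (Idx q → Polynomial k) := Amb k (Idx q) l with hE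
  let Φ : (Idx q → Polynomial k) →ₗ[k] (Idx q → Polynomial k) := LinearMap.id
  have h0 : Wlev q a b β c m Φ E 0 = E := by
    ext v
    rw [mem_Wlev]
    exact ⟨fun h => h.1, fun h => ⟨h, fun i t ht hs => absurd hs (Nat.not_lt_zero _)⟩⟩
  have hend : Wlev q a b β c m Φ E (r * m) = LamS q a b β c m ⊓ E := by
    ext v
    rw [mem_Wlev, Submodule.mem_inf, mem_LamS]
    constructor
    · rintro ⟨h1, h2⟩
      refine ⟨fun i t ht => h2 i t ht ?_, h1⟩
      have hi : (i : ℕ) + 1 ≤ r := i.2
      calc (i : ℕ) * m + t < (i : ℕ) * m + m := by omega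
        _ = ((i : ℕ) + 1) * m := by ring
        _ ≤ r * m := Nat.mul_le_mul_right m hi
    · rintro ⟨h1, h2⟩
      exact ⟨h2, fun i t ht _ => h1 i t ht⟩
  have hstep : ∀ (i : Fin r) (t : ℕ), t ≤ m →
      Module.finrank k ↥(Wlev q a b β c m Φ E ((i : ℕ) * m)) ≤
        Module.finrank k ↥(Wlev q a b β c m Φ E ((i : ℕ) * m + t)) +
          dl q * t * Module.finrank k (K i) := by
    intro i t
    induction t with
    | zero => intro _; simp
    | succ t ih =>
      intro ht
      have h4 := ih (by omega)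
      have h5 := lev_step L a b h2 h3 q β c m Φ E i t (by omega)
      have h6 : dl q * (t + 1) * Module.finrank k (K i) =
        dl q * t * Module.finrank k (K i) + dl q * Module.finrank k (K i) := by ring
      rw [h6]
      have h7 : (i : ℕ) * m + (t + 1) = (i : ℕ) * m + t + 1 := by ring
      rw [h7]
      omega
  let fr : ℕ → ℕ := fun i => if h : i < r then Module.finrank k (K ⟨i, h⟩) else 0
  have hall : ∀ n ≤ r, Module.finrank k ↥(Wlev q a b β c m Φ E 0) ≤
      Module.finrank k ↥(Wlev q a b β c m Φ E (n * m)) +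
        dl q * m * ∑ i ∈ Finset.range n, fr i := by
    intro n
    induction n with
    | zero =>
      intro _
      rw [zero_mul]
      exact Nat.le_add_right _ _
    | succ n ih =>
      intro hn
      have h4 := ih (by omega)
      have h5 := hstep ⟨n, by omega⟩ m le_rfl
      have h6 : (⟨n, by omega⟩ : Fin r).val * m + m = (n + 1) * m := by
        change n * m + m = (n + 1) * m
        ring
      rw [h6] at h5
      change Module.finrank k ↥(Wlev q a b β c m Φ E (n * m)) ≤ _ at h5
      have h7 : fr n = Module.finrank k (K ⟨n, by omega⟩) := by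
        simp only [fr]
        rw [dif_pos (by omega)]
      rw [Finset.sum_range_succ, mul_add, h7]
      omega
  have hfin := hall r le_rfl
  rw [h0, hend] at hfin
  have hsum : ∑ i ∈ Finset.range r, fr i = ∑ i, Module.finrank k (K i) := by
    rw [Finset.sum_range]
    apply Finset.sum_congr rfl
    intro i _
    simp only [fr]
    rw [dif_pos i.2]
  rw [hsum, hE, LevStep_finrank_Amb] at hfin
  have hcard : Fintype.card (Idx q) = 2 * (q + 1) ^ 3 := by
    simp only [Idx, Fintype.card_prod, Fintype.card_fin]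
    ring
  rw [hcard] at hfin
  exact hfin

end Pool.Agent.ZFin
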