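import Pool.Agent.ZFin.Conj
import Pool.Agent.ZFin.Big

/-! # Module Vanish: no solutions of small degree (section 3.2) -/

namespace Pool.Agent.ZFin

theorem Vanish_bc_ne {k : Type*} [Field k] {K : Type*} [Field K] [Algebra k K] {q : ℕ}
    (p : Idx q → Polynomial k) (h0 : p ≠ 0) : bc K p ≠ 0 := by
  intro h
  apply h0
  funext i
  have h1 : (p i).map (algebraMap k K) = 0 := congrFun h i
  exact (Polynomial.map_eq_zero_iff (algebraMap k K).injective).1 h1

theorem Vanish_gk_zero {k : Type*} [Field k] {K : Type*} [Field K] [Algebra k K] {q : ℕ}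
    {E : Type*} [Field E] [Algebra k E] (σ : K →ₐ[k] E) (a b : k) (β c : K) (t : ℕ)
    (p : Idx q → Polynomial k) (h : gk a b β c t p = 0) :
    gk a b (σ β) (σ c) t p = 0 := by
  obtain ⟨h1, h2⟩ := gk_hom σ a b β c t p
  rw [h] at h1 h2
  rw [QuadraticAlgebra.re_zero, Polynomial.map_zero] at h1
  rw [QuadraticAlgebra.im_zero, Polynomial.map_zero] at h2
  ext1
  · rw [h1, QuadraticAlgebra.re_zero]
  · rw [h2, QuadraticAlgebra.im_zero]

section
variable {k : Type} [Field k] [CharZero k] {r : ℕ} {K : Fin r → Type}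
    [∀ i, Field (K i)] [∀ i, Algebra k (K i)] [∀ i, FiniteDimensional k (K i)] [Algebra k ℂ]
    (L : PeriodPair) (a b : k) (h2 : L.g₂ = -4 * algebraMap k ℂ a)
    (h3 : L.g₃ = -4 * algebraMap k ℂ b)
    (β c : ∀ i, K i) (hgen : ∀ i, IntermediateField.adjoin k {β i, c i} = ⊤)
    (hinj : ∀ i j, minpoly k (β i) = minpoly k (β j) → i = j) (q : ℕ)
    (hq : ∀ i, Module.finrank k (K i) ≤ q + 1)
include h2 h3 hgen hinj hq

theorem lam_deg (m d : ℕ) (hm : q ≤ m) (p : Idx q → Polynomial k)
    (hp : p ∈ LamS q a b β c m) (h0 : p ≠ 0) (hd : ∀ i, (p i).natDegree ≤ d) :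
    (∑ i, Module.finrank k (K i)) * (m - q) ≤ (q + 1) * d := by
  obtain ⟨S, hS1, hS2, hS3⟩ := conj_pairs β c hgen hinj q hq
  rw [← hS1]
  refine zero_est L (algebraMap k ℂ a) (algebraMap k ℂ b) h2 h3 q m d (bc ℂ p)
    (Vanish_bc_ne p h0) (fun i => (Polynomial.natDegree_map_le).trans (hd i)) hm S hS2 ?_
  intro π hπ t ht
  obtain ⟨i, σ, rfl⟩ := hS3 π hπ
  exact Vanish_gk_zero σ a b (β i) (c i) t p (mem_LamS.1 hp i t ht)

theorem fl_zero (m : ℕ) (hm : q ≤ m) :
    fl (LamS q a b β c m) ((∑ i, Module.finrank k (K i)) * (m - q) / (q + 1)) = 0 := by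
  set d0 := (∑ i, Module.finrank k (K i)) * (m - q) / (q + 1) with hd0
  have hbot : LamS q a b β c m ⊓ Amb k (Idx q) d0 = ⊥ := by
    rw [Submodule.eq_bot_iff]
    rintro p ⟨hp1, hp2⟩
    by_contra hp0
    have hdeg : ∀ i, p i ∈ Polynomial.degreeLT k d0 := fun i => by
      have := (Submodule.mem_pi.1 hp2) i (Set.mem_univ i)
      exact this
    rcases Nat.eq_zero_or_pos d0 with h | h
    · apply hp0
      funext i
      have h1 := hdeg i
      rw [h, Polynomial.mem_degreeLT] at h1
      by_contra h2'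
      have h3' := Polynomial.zero_le_degree_iff.2 h2'
      exact absurd h1 (not_lt.2 (by exact_mod_cast h3'))
    · have hnd : ∀ i, (p i).natDegree ≤ d0 - 1 := by
        intro i
        have h1 := hdeg i
        rw [Polynomial.mem_degreeLT] at h1
        by_cases hz : p i = 0
        · rw [hz, Polynomial.natDegree_zero]
          exact Nat.zero_le _
        · have := (Polynomial.natDegree_lt_iff_degree_lt hz).2 h1
          omega
      have h4 := lam_deg L a b h2 h3 β c hgen hinj q hq m (d0 - 1) hm p hp1 hp0 hnd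
      have h5 : (q + 1) * d0 ≤ (∑ i, Module.finrank k (K i)) * (m - q) := by
        rw [hd0]
        exact Nat.mul_div_le _ _
      have h6 : (q + 1) * (d0 - 1) < (q + 1) * d0 :=
        Nat.mul_lt_mul_of_pos_left (Nat.sub_lt h Nat.one_pos) (Nat.succ_pos q)
      omega
  unfold fl
  rw [hbot]
  exact finrank_bot k _

end

end Pool.Agent.ZFin
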