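import Pool.Agent.ZFin.CntA
import Pool.Agent.ZFin.Vanish
import Pool.Agent.ZFin.LevStep
import Pool.Agent.ZFin.Convex

/-! # Module Cnt: large increments (section 3.4) -/

namespace Pool.Agent.ZFin

/-- section 3.4 -/
theorem fl_big {D : ℕ} (hD : 1 ≤ D) {k : Type} [Field k] [CharZero k] {K : Fin (rr D) → Type}
    [∀ i, Field (K i)] [∀ i, Algebra k (K i)] [∀ i, FiniteDimensional k (K i)]
    [Algebra k ℂ] [∀ i, Algebra (K i) ℂ] [∀ i, IsScalarTower k (K i) ℂ]
    (L : PeriodPair) (a b : k) (h2 : L.g₂ = -4 * algebraMap k ℂ a)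
    (h3 : L.g₃ = -4 * algebraMap k ℂ b)
    (β c : ∀ i, K i) (hgen : ∀ i, IntermediateField.adjoin k {β i, c i} = ⊤)
    (hinj : ∀ i j, minpoly k (β i) = minpoly k (β j) → i = j)
    (hκ : ∀ i, Module.finrank k (K i) ≤ D) :
    ∃ m0 : ℕ, ∀ m ≥ m0, ∀ l ≥ r4 D * m,
      fl (LamS (8 * D) a b β c m) l + 2 * (8 * D) * (8 * D + 1) ^ 2 <
        fl (LamS (8 * D) a b β c m) (l + 1) := by
  have hN : (∑ i, Module.finrank k (K i)) ≤ rr D * D := by
    calc (∑ i, Module.finrank k (K i)) ≤ ∑ _i : Fin (rr D), D :=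
          Finset.sum_le_sum fun i _ => hκ i
      _ = rr D * D := by simp
  obtain ⟨m0, hm0⟩ := cnt_arith D (∑ i, Module.finrank k (K i)) hD hN
  refine ⟨m0, fun m hm l hl => ?_⟩
  obtain ⟨h8, hd0, hmain⟩ := hm0 m hm
  have hq : ∀ i, Module.finrank k (K i) ≤ 8 * D + 1 := fun i => (hκ i).trans (by omega)
  have hX : ∀ p ∈ LamS (8 * D) a b β c m,
      (fun i => Polynomial.X * p i) ∈ LamS (8 * D) a b β c m := by
    intro p hp
    rw [mem_LamS] at hp ⊢
    intro i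
    exact gk_van_mul a b (β i) (c i) m Polynomial.X p (hp i)
  have hz := fl_zero L a b h2 h3 β c hgen hinj (8 * D) hq m h8
  have hlow := fl_lower L a b h2 h3 (8 * D) β c m (r4 D * m)
  have hinc := fl_incr (LamS (8 * D) a b β c m) hX _ (r4 D * m) l hz hd0 hl
  have hg := hmain _ _ hlow hinc
  omega

end Pool.Agent.ZFin
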