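import Pool.Agent.ZFin.Defs

/-! # Module CntA: the arithmetic of section 3.4 -/

namespace Pool.Agent.ZFin

/-- the final contradiction of `cnt_arith`, over the integers -/
private lemma CntA_aux (q N ρ m k d f g : ℤ) (hq : 1 ≤ q) (hN0 : 0 ≤ N) (hρ : 1 ≤ ρ)
    (hm : m = q + k) (hN : 2 * N ≤ ρ * q) (hg0 : g ≤ 2 * q * (q + 1) ^ 2)
    (hd2 : N * k + 1 ≤ (q + 1) * (d + 1)) (hw : d ≤ ρ * m)
    (h1 : 2 * (q + 1) ^ 3 * (ρ * m) ≤ f + (2 * (q + 1) ^ 2 + 1 + 2 * q) * m * N)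
    (h2 : f ≤ g * (ρ * m - d)) (hbig : q + 2 * q ^ 2 * (q + 1) * (N + 1) + 1 ≤ m) : False := by
  have hm0 : 0 ≤ m := by
    have : 0 ≤ 2 * q ^ 2 * (q + 1) * (N + 1) := by positivity
    linarith
  have a1 : f ≤ 2 * q * (q + 1) ^ 2 * (ρ * m - d) :=
    h2.trans (mul_le_mul_of_nonneg_right hg0 (by linarith))
  have a2 : 2 * q * (q + 1) * (N * k + 1) ≤ 2 * q * (q + 1) * ((q + 1) * (d + 1)) :=
    mul_le_mul_of_nonneg_left hd2 (by positivity)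
  have a3 : (4 * q + 3) * m * (2 * N) ≤ (4 * q + 3) * m * (ρ * q) :=
    mul_le_mul_of_nonneg_left hN (by positivity)
  have hk : k = m - q := by linarith
  subst hk
  have a4 : ρ * m * (5 * q + 4) ≤ 4 * q ^ 2 * (q + 1) * N + 4 * q * (q + 1) ^ 2 := by
    nlinarith [a1, a2, a3, h1]
  have a5 : m * (5 * q + 4) ≤ ρ * m * (5 * q + 4) := by
    have : 0 ≤ m * (5 * q + 4) := by positivity
    nlinarith
  have a6 : (q + 2 * q ^ 2 * (q + 1) * (N + 1) + 1) * 4 ≤ m * (5 * q + 4) := by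
    have : 0 ≤ m * (5 * q) := by positivity
    nlinarith
  have a7 : 4 * q * (q + 1) ^ 2 ≤ 8 * q ^ 2 * (q + 1) := by
    have : 0 ≤ 4 * q * (q + 1) * (q - 1) := by
      have := sub_nonneg.mpr hq
      positivity
    nlinarith
  have a8 : 0 ≤ 4 * q ^ 2 * (q + 1) * N := by positivity
  nlinarith

/-- the arithmetic of section 3.4: `q = 8D`, `N ≤ rD`, `L1 = (r/4) m`, `d0 = N(m-q)/(q+1)`;
`M L1 ≤ f1 + δ m N` and `f1 ≤ g (L1 - d0)` force `g > 2 q (q+1)^2 = M - 2h`. -/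
theorem cnt_arith (D N : ℕ) (hD : 1 ≤ D) (hN : N ≤ rr D * D) : ∃ m0 : ℕ, ∀ m ≥ m0,
    8 * D ≤ m ∧ N * (m - 8 * D) / (8 * D + 1) ≤ r4 D * m ∧
    ∀ f1 g : ℕ, 2 * (8 * D + 1) ^ 3 * (r4 D * m) ≤ f1 + dl (8 * D) * m * N →
      f1 ≤ g * (r4 D * m - N * (m - 8 * D) / (8 * D + 1)) →
      2 * (8 * D) * (8 * D + 1) ^ 2 < g := by
  have hD0 : 0 < D := hD
  have hρ : 0 < r4 D := by unfold r4 E2 dl; positivity
  have hN' : 2 * N ≤ r4 D * (8 * D) := by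
    unfold rr at hN
    nlinarith
  have hq : 1 ≤ 8 * D := by omega
  have hdl : dl (8 * D) = 2 * (8 * D + 1) ^ 2 + 1 + 2 * (8 * D) := rfl
  generalize 8 * D = q at *
  generalize r4 D = ρ at *
  refine ⟨q + 2 * q ^ 2 * (q + 1) * (N + 1) + 1, fun m hm => ?_⟩
  have hqm : q ≤ m := by
    have : 0 ≤ 2 * q ^ 2 * (q + 1) * (N + 1) := Nat.zero_le _
    omega
  obtain ⟨k, rfl⟩ : ∃ k, m = q + k := ⟨m - q, by omega⟩
  rw [Nat.add_sub_cancel_left]
  have hd1 : (q + 1) * (N * k / (q + 1)) ≤ N * k := Nat.mul_div_le _ _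
  have hd2 : N * k < (q + 1) * (N * k / (q + 1) + 1) := Nat.lt_mul_div_succ _ (Nat.succ_pos q)
  generalize N * k / (q + 1) = d at *
  have hdρ : d ≤ ρ * (q + k) := by
    by_contra hcon
    push Not at hcon
    have h1 : 2 * ((q + 1) * d) ≤ ρ * q * k := by
      calc 2 * ((q + 1) * d) ≤ 2 * (N * k) := Nat.mul_le_mul_left _ hd1
        _ = 2 * N * k := by ring
        _ ≤ ρ * q * k := Nat.mul_le_mul_right _ hN'
    have h2 : (q + 1) * (ρ * (q + k)) < (q + 1) * d := Nat.mul_lt_mul_of_pos_left hcon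
      (Nat.succ_pos q)
    nlinarith
  refine ⟨hqm, hdρ, fun f1 g h1 h2 => ?_⟩
  by_contra hg
  push Not at hg
  rw [hdl] at h1
  refine CntA_aux q N ρ (q + k) k d f1 g (by exact_mod_cast hq) (by positivity)
    (by exact_mod_cast hρ) rfl (by exact_mod_cast hN') (by exact_mod_cast hg)
    (by exact_mod_cast hd2) (by exact_mod_cast hdρ) (by exact_mod_cast h1) ?_
    (by exact_mod_cast hm)
  have h3 : ((f1 : ℕ) : ℤ) ≤ ((g * (ρ * (q + k) - d) : ℕ) : ℤ) := by exact_mod_cast h2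
  rw [Nat.cast_mul, Nat.cast_sub hdρ] at h3
  push_cast at h3
  exact h3

end Pool.Agent.ZFin
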