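import Pool.Agent.ZFin.Defs

/-! # Module Conj: the set of all conjugate pairs (section 3.2) -/

namespace Pool.Agent.ZFin

/-- the pairs `(σ β_i, σ c_i)`, `σ : K_i → ℂ` over `k`: their number is `∑ [K_i:k]` since the
`β_i` are pairwise non-conjugate and `K_i = k(β_i,c_i)`, and at most `max [K_i:k]` of them have
the same first coordinate. -/
theorem conj_pairs {k : Type} [Field k] [CharZero k] {r : ℕ} {K : Fin r → Type}
    [∀ i, Field (K i)] [∀ i, Algebra k (K i)] [∀ i, FiniteDimensional k (K i)] [Algebra k ℂ]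
    (β c : ∀ i, K i) (hgen : ∀ i, IntermediateField.adjoin k {β i, c i} = ⊤)
    (hinj : ∀ i j, minpoly k (β i) = minpoly k (β j) → i = j) (q : ℕ)
    (hq : ∀ i, Module.finrank k (K i) ≤ q + 1) :
    ∃ S : Finset (ℂ × ℂ), S.card = ∑ i, Module.finrank k (K i) ∧
      (∀ z : ℂ, (S.filter fun π => π.1 = z).card ≤ q + 1) ∧
      ∀ π ∈ S, ∃ (i : Fin r) (σ : K i →ₐ[k] ℂ), π = (σ (β i), σ (c i)) := by
  classical
  let f : ∀ i, (K i →ₐ[k] ℂ) → ℂ × ℂ := fun i σ => (σ (β i), σ (c i))
  have hf : ∀ i, Function.Injective (f i) := by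
    intro i σ τ h
    have h1 : σ (β i) = τ (β i) := congrArg Prod.fst h
    have h2 : σ (c i) = τ (c i) := congrArg Prod.snd h
    have hle : IntermediateField.adjoin k {β i, c i} ≤
        (AlgHom.equalizer σ τ).toIntermediateField (fun x hx => by
          simp only [AlgHom.mem_equalizer] at hx ⊢
          rw [map_inv₀, map_inv₀, hx]) := by
      rw [IntermediateField.adjoin_le_iff]
      rintro x (rfl | rfl)
      · exact h1
      · exact h2
    rw [hgen i] at hle
    ext x
    exact hle (IntermediateField.mem_top)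
  have hmin : ∀ i (σ : K i →ₐ[k] ℂ), minpoly k (σ (β i)) = minpoly k (β i) := fun i σ =>
    minpoly.algHom_eq σ σ.toRingHom.injective (β i)
  have hij : ∀ i j (σ : K i →ₐ[k] ℂ) (τ : K j →ₐ[k] ℂ), σ (β i) = τ (β j) → i = j := by
    intro i j σ τ h
    apply hinj
    rw [← hmin i σ, ← hmin j τ, h]
  let A : Fin r → Finset (ℂ × ℂ) := fun i => Finset.univ.image (f i)
  have hA : ∀ i, (A i).card = Module.finrank k (K i) := by
    intro i
    rw [Finset.card_image_of_injective _ (hf i), Finset.card_univ]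
    exact AlgHom.card k (K i) ℂ
  refine ⟨Finset.univ.biUnion A, ?_, ?_, ?_⟩
  · rw [Finset.card_biUnion]
    · exact Finset.sum_congr rfl fun i _ => hA i
    · intro i _ j _ hne
      rw [Function.onFun, Finset.disjoint_left]
      intro π h1 h2
      obtain ⟨σ, -, hσ⟩ := Finset.mem_image.mp h1
      obtain ⟨τ, -, hτ⟩ := Finset.mem_image.mp h2
      exact hne (hij i j σ τ (congrArg Prod.fst (hσ.trans hτ.symm)))
  · intro z
    by_cases hz : ∃ i, ∃ σ : K i →ₐ[k] ℂ, σ (β i) = z
    · obtain ⟨i, σ, hσ⟩ := hz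
      have hsub : ((Finset.univ.biUnion A).filter fun π => π.1 = z) ⊆ A i := by
        intro π hπ
        rw [Finset.mem_filter, Finset.mem_biUnion] at hπ
        obtain ⟨⟨j, -, hj⟩, hz'⟩ := hπ
        obtain ⟨τ, -, hτ⟩ := Finset.mem_image.mp hj
        have : i = j := by
          apply hij i j σ τ
          rw [hσ, ← hz', ← hτ]
        subst this
        exact hj
      calc _ ≤ (A i).card := Finset.card_le_card hsub
        _ = _ := hA i
        _ ≤ q + 1 := hq i
    · have : ((Finset.univ.biUnion A).filter fun π => π.1 = z) = ∅ := by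
        rw [Finset.filter_eq_empty_iff]
        intro π hπ hz'
        obtain ⟨j, -, hj⟩ := Finset.mem_biUnion.mp hπ
        obtain ⟨τ, -, hτ⟩ := Finset.mem_image.mp hj
        exact hz ⟨j, τ, by rw [← hz', ← hτ]⟩
      rw [this]
      simp
  · intro π hπ
    obtain ⟨j, -, hj⟩ := Finset.mem_biUnion.mp hπ
    obtain ⟨τ, -, hτ⟩ := Finset.mem_image.mp hj
    exact ⟨j, τ, hτ.symm⟩

end Pool.Agent.ZFin
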