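import Pool.Agent.ZFin.Theta
import Pool.Agent.ZFin.Schneider

/-! # Module Core: the contradiction (section 8) -/

namespace Pool.Agent.ZFin
open Pool.Agent.ZCM

theorem core {D : ℕ} (hD : 1 ≤ D) {k : Type} [Field k] [NumberField k]
    {K : Fin (rr D) → Type} [∀ i, Field (K i)] [∀ i, NumberField (K i)] [∀ i, Algebra k (K i)]
    [Algebra k ℂ] [∀ i, Algebra (K i) ℂ] [∀ i, IsScalarTower k (K i) ℂ]
    {K0 : Type} [Field K0] [NumberField K0] [Algebra k K0] [Algebra K0 ℂ] [IsScalarTower k K0 ℂ]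
    (L : PeriodPair) (a b : k) (ha : IsIntegral ℤ a) (hb : IsIntegral ℤ b)
    (h2 : L.g₂ = -4 * algebraMap k ℂ a) (h3 : L.g₃ = -4 * algebraMap k ℂ b)
    (β c : ∀ i, K i) (β0 c0 : K0) (hβ : ∀ i, algebraMap (K i) ℂ (β i) ∉ L.lattice)
    (hc : ∀ i, zetaL L (algebraMap (K i) ℂ (β i)) = algebraMap (K i) ℂ (c i))
    (hβ0 : algebraMap K0 ℂ β0 ∉ L.lattice)
    (hc0 : zetaL L (algebraMap K0 ℂ β0) = algebraMap K0 ℂ c0)
    (hgen : ∀ i, IntermediateField.adjoin k {β i, c i} = ⊤)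
    (hinj : ∀ i j, minpoly k (β i) = minpoly k (β j) → i = j)
    (hne : ∀ i, minpoly k β0 ≠ minpoly k (β i))
    (hκ : ∀ i, Module.finrank k (K i) ≤ D) (hκ0 : Module.finrank ℚ K0 ≤ D) : False := by
  have hfd : ∀ i, FiniteDimensional k (K i) := fun i =>
    Module.Finite.of_restrictScalars_finite ℚ k (K i)
  have hfd0 : FiniteDimensional k K0 := Module.Finite.of_restrictScalars_finite ℚ k K0
  have hκ0' : Module.finrank k K0 ≤ D := by
    have h1 : Module.finrank ℚ k * Module.finrank k K0 = Module.finrank ℚ K0 :=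
      Module.finrank_mul_finrank ℚ k K0
    have h2 : 0 < Module.finrank ℚ k := Module.finrank_pos
    calc Module.finrank k K0 = 1 * Module.finrank k K0 := (one_mul _).symm
      _ ≤ Module.finrank ℚ k * Module.finrank k K0 := Nat.mul_le_mul_right _ h2
      _ = Module.finrank ℚ K0 := h1
      _ ≤ D := hκ0
  have hgap : GapHyp D a b β c β0 c0 :=
    gap hD L a b h2 h3 β c hgen hinj hκ β0 c0 hκ0' hne
  have hsmall := small hD L a b ha hb h2 h3 β c β0 c0 hκ hgap
  have hinj' : ∀ i j, algebraMap (K i) ℂ (β i) = algebraMap (K j) ℂ (β j) → i = j := by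
    intro i j hij
    apply hinj
    have e1 : minpoly k (algebraMap (K i) ℂ (β i)) = minpoly k (β i) :=
      minpoly.algebraMap_eq (algebraMap (K i) ℂ).injective (β i)
    have e2 : minpoly k (algebraMap (K j) ℂ (β j)) = minpoly k (β j) :=
      minpoly.algebraMap_eq (algebraMap (K j) ℂ).injective (β j)
    rw [← e1, ← e2, hij]
  have hθ : IsAlgebraic ℚ (L.weierstrassP (algebraMap K0 ℂ β0)) :=
    theta_alg hD L a b ha hb h2 h3 β c β0 c0 hβ hinj' hc hβ0 hc0 hκ0 hsmall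
  have hia : IsIntegral ℤ (algebraMap k ℂ a) := ha.map ((algebraMap k ℂ).toIntAlgHom)
  have hib : IsIntegral ℤ (algebraMap k ℂ b) := hb.map ((algebraMap k ℂ).toIntAlgHom)
  have hβa : IsAlgebraic ℚ (algebraMap K0 ℂ β0) := by
    have h1 : IsAlgebraic ℚ β0 := Algebra.IsAlgebraic.isAlgebraic β0
    exact h1.algHom ((algebraMap K0 ℂ).toRatAlgHom)
  exact schneider L (algebraMap k ℂ a) (algebraMap k ℂ b) hia hib h2 h3
    (algebraMap K0 ℂ β0) hβ0 hβa hθ

end Pool.Agent.ZFin
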