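import Pool.Agent.ZFin.ThetaU
import Pool.Agent.ZFin.Per

/-! # Module CoreU: `℘(z0)` is algebraic, and the final contradiction -/

namespace Pool.Agent.ZFin
open Pool.Agent.ZCM

theorem coreU {D : ℕ} (hD : 1 ≤ D) {k : Type} [Field k] [NumberField k]
    {K : Fin (rr D) → Type} [∀ i, Field (K i)] [∀ i, NumberField (K i)] [∀ i, Algebra k (K i)]
    [Algebra k ℂ] [∀ i, Algebra (K i) ℂ] [∀ i, IsScalarTower k (K i) ℂ]
    {K0 : Type} [Field K0] [NumberField K0] [Algebra k K0] [Algebra K0 ℂ] [IsScalarTower k K0 ℂ]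
    (L : PeriodPair) (a b : k) (ha : IsIntegral ℤ a) (hb : IsIntegral ℤ b)
    (h2 : L.g₂ = -4 * algebraMap k ℂ a) (h3 : L.g₃ = -4 * algebraMap k ℂ b) (u v : ℂ)
    (z : Fin (rr D) → ℂ) (z0 : ℂ)
    (β c : ∀ i, K i) (β0 c0 : K0) (hz : ∀ i, z i ∉ L.lattice)
    (hβ : ∀ i, algebraMap (K i) ℂ (β i) = z i - u)
    (hc : ∀ i, algebraMap (K i) ℂ (c i) = zetaL L (z i) - v)
    (hz0 : z0 ∉ L.lattice)
    (hβ0 : algebraMap K0 ℂ β0 = z0 - u)
    (hc0 : algebraMap K0 ℂ c0 = zetaL L z0 - v)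
    (hgen : ∀ i, IntermediateField.adjoin k {β i, c i} = ⊤)
    (hinj : ∀ i j, minpoly k (β i) = minpoly k (β j) → i = j)
    (hne : ∀ i, minpoly k β0 ≠ minpoly k (β i))
    (hκ : ∀ i, Module.finrank k (K i) ≤ D) (hκ0 : Module.finrank ℚ K0 ≤ D) :
    IsAlgebraic ℚ (L.weierstrassP z0) := by
  have hfd : ∀ i, FiniteDimensional k (K i) := fun i =>
    Module.Finite.of_restrictScalars_finite ℚ k (K i)
  have hfd0 : FiniteDimensional k K0 := Module.Finite.of_restrictScalars_finite ℚ k K0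
  have hκ0' : Module.finrank k K0 ≤ D := by
    have h1 : Module.finrank ℚ k * Module.finrank k K0 = Module.finrank ℚ K0 :=
      Module.finrank_mul_finrank ℚ k K0
    have h2 : 0 < Module.finrank ℚ k := Module.finrank_pos
    calc Module.finrank k K0 = 1 * Module.finrank k K0 := (one_mul _).symm
      _ ≤ Module.finrank ℚ k * Module.finrank k K0 := Nat.mul_le_mul_right _ h2
      _ = Module.finrank ℚ K0 := h1
      _ ≤ D := hκ0
  have hgap : GapHyp D a b β c β0 c0 :=
    gap hD L a b h2 h3 β c hgen hinj hκ β0 c0 hκ0' hne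
  have hsmall := small hD L a b ha hb h2 h3 β c β0 c0 hκ hgap
  have hinj' : Function.Injective z := by
    intro i j hij
    apply hinj
    have e1 : minpoly k (algebraMap (K i) ℂ (β i)) = minpoly k (β i) :=
      minpoly.algebraMap_eq (algebraMap (K i) ℂ).injective (β i)
    have e2 : minpoly k (algebraMap (K j) ℂ (β j)) = minpoly k (β j) :=
      minpoly.algebraMap_eq (algebraMap (K j) ℂ).injective (β j)
    rw [← e1, ← e2, hβ, hβ, hij]
  exact thetaU_alg hD L a b ha hb h2 h3 u v z z0 β c β0 c0 hz hinj' hβ hc hz0 hβ0 hc0 hκ0 hsmall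

/-- algebraic elements: a root of a quotient -/
theorem CoreU_alg (a b x1 x2 y1 y2 X : ℂ) (ha : IsAlgebraic ℚ a) (hb : IsAlgebraic ℚ b)
    (hx1 : IsAlgebraic ℚ x1) (hx2 : IsAlgebraic ℚ x2) (hy1 : IsAlgebraic ℚ y1)
    (hy2 : IsAlgebraic ℚ y2) (hne : x1 ≠ x2)
    (h : addn a b x1 x2 y1 y2 = X * (x1 - x2) ^ 2) : IsAlgebraic ℚ X := by
  have h0 : (x1 - x2) ^ 2 ≠ 0 := pow_ne_zero _ (sub_ne_zero.2 hne)
  have h1 : X = addn a b x1 x2 y1 y2 * ((x1 - x2) ^ 2)⁻¹ := by
    rw [h]
    field_simp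
  have n2 : IsAlgebraic ℚ (2 : ℂ) := by
    have := isAlgebraic_algebraMap (R := ℚ) (A := ℂ) 2
    simpa using this
  rw [h1]
  refine IsAlgebraic.mul ?_ (((hx1.sub hx2).pow 2).inv)
  unfold addn
  exact (((((hx2.mul (hx1.pow 2)).add ((ha.add (hx2.pow 2)).mul hx1)).sub
    ((n2.mul hy1).mul hy2)).add (n2.mul hb))).add (ha.mul hx2)

/-- the square root of an algebraic number is algebraic -/
theorem CoreU_sqrt (a b x y : ℂ) (ha : IsAlgebraic ℚ a) (hb : IsAlgebraic ℚ b)
    (hx : IsAlgebraic ℚ x) (h : y ^ 2 = x ^ 3 + a * x + b) : IsAlgebraic ℚ y := by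
  have h1 : IsAlgebraic ℚ (y ^ 2) := by
    rw [h]
    exact ((hx.pow 3).add (ha.mul hx)).add hb
  exact h1.of_pow two_pos

/-- no three points: if `℘(z_i)` is algebraic and the differences are algebraic and non-zero,
contradiction -/
theorem three_points (L : PeriodPair) (a b : ℂ) (ha : IsIntegral ℤ a) (hb : IsIntegral ℤ b)
    (h2 : L.g₂ = -4 * a) (h3 : L.g₃ = -4 * b) (z : Fin 3 → ℂ) (hz : ∀ i, z i ∉ L.lattice)
    (hinj : ∀ i j, z i = z j → i = j) (hd : ∀ i j, IsAlgebraic ℚ (z i - z j))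
    (hP : ∀ i, IsAlgebraic ℚ (L.weierstrassP (z i))) : False := by
  have haQ : IsAlgebraic ℚ a := ha.tower_top.isAlgebraic
  have hbQ : IsAlgebraic ℚ b := hb.tower_top.isAlgebraic
  -- differences are not in the lattice
  have hL : ∀ i j, i ≠ j → z i - z j ∉ L.lattice := by
    intro i j hij hmem
    refine no_alg_period L a b ha hb h2 h3 _ hmem ?_ (hd i j)
    exact sub_ne_zero.2 fun h => hij (hinj i j h)
  -- all `℘(z_i)` are equal
  have hx : ∀ i j, L.weierstrassP (z i) = L.weierstrassP (z j) := by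
    intro i j
    by_contra hne
    have hij : i ≠ j := by
      rintro rfl
      exact hne rfl
    have hnj : -z j ∉ L.lattice := fun h => hz j (by simpa using L.lattice.neg_mem h)
    have hadd := add_thm L a b h2 h3 (z i) (-z j) (hz i) hnj (by
      rw [← sub_eq_add_neg]
      exact hL i j hij)
    rw [L.weierstrassP_neg, ← sub_eq_add_neg] at hadd
    have hy : ∀ w, w ∉ L.lattice → IsAlgebraic ℚ (L.weierstrassP w) →
        IsAlgebraic ℚ (L.derivWeierstrassP w / 2) := fun w hw hPw =>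
      CoreU_sqrt a b _ _ haQ hbQ hPw (add_curve L a b h2 h3 w hw)
    have hPnj : IsAlgebraic ℚ (L.weierstrassP (-z j)) := by
      rw [L.weierstrassP_neg]
      exact hP j
    have halg := CoreU_alg a b _ _ _ _ _ haQ hbQ (hP i) (hP j) (hy _ (hz i) (hP i))
      (hy _ hnj hPnj) hne hadd
    exact schneider L a b ha hb h2 h3 (z i - z j) (hL i j hij) (hd i j) halg
  -- all `℘'(z_i)` are equal up to sign
  have hy : ∀ i j, L.derivWeierstrassP (z i) = L.derivWeierstrassP (z j) ∨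
      L.derivWeierstrassP (z i) = -L.derivWeierstrassP (z j) := by
    intro i j
    have e1 := add_curve L a b h2 h3 (z i) (hz i)
    have e2 := add_curve L a b h2 h3 (z j) (hz j)
    rw [hx i j] at e1
    have e3 : L.derivWeierstrassP (z i) ^ 2 = L.derivWeierstrassP (z j) ^ 2 := by
      linear_combination 4 * e1 - 4 * e2
    exact sq_eq_sq_iff_eq_or_eq_neg.1 e3
  have key : ∀ i j, i ≠ j → L.derivWeierstrassP (z i) ≠ L.derivWeierstrassP (z j) := by
    intro i j hij h
    exact hL i j hij (same_point L a b h2 h3 _ _ (hz i) (hz j) (hx i j) h)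
  have h01 := (hy 0 1).resolve_left (key 0 1 (by decide))
  have h02 := (hy 0 2).resolve_left (key 0 2 (by decide))
  refine key 1 2 (by decide) ?_
  rw [h02] at h01
  exact (neg_injective h01).symm

end Pool.Agent.ZFin
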