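import Mathlib
import Pool.Agent.ZCM.Defs

/-!
# Common definitions for the project ZFin (MP_c9768e_nt: finitely many p with p, zeta(p) algebraic
of bounded degree, all lattices)
FINAL: do not change.
-/

namespace Pool.Agent.ZFin

open Pool.Agent.ZCM

noncomputable section

/-- index set of the monomials `X^j y^ε Y^κ`, `j < (q+1)^2`, `ε < 2`, `κ ≤ q`. -/
abbrev Idx (q : ℕ) : Type := Fin ((q + 1) ^ 2) × Fin 2 × Fin (q + 1)

/-- `δ = 2 (q+1)^2 + 1 + 2 q` -/
def dl (q : ℕ) : ℕ := 2 * (q + 1) ^ 2 + 1 + 2 * q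

section ring
variable {A : Type*} [CommRing A]

/-- the cubic `X^3 + a X + b` -/
def ff (a b : A) : Polynomial A := Polynomial.X ^ 3 + Polynomial.C a * Polynomial.X + Polynomial.C b

/-- the ring `A[x,y]/(y^2 - x^3 - a x - b)`; the element `U + V y` is `⟨U, V⟩`. -/
abbrev RR (a b : A) : Type _ := QuadraticAlgebra (Polynomial A) (ff a b) 0

/-- the coordinate `x` -/
def xx (a b : A) : RR a b := algebraMap (Polynomial A) (RR a b) Polynomial.X

/-- the coordinate `y` -/
def yy (a b : A) : RR a b := QuadraticAlgebra.omega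

/-- the value of `g = U + V y` at a point `(x0, y0)` -/
def evR {a b : A} (g : RR a b) (x0 y0 : A) : A := g.re.eval x0 + g.im.eval x0 * y0

/-- `D^t P` at `z = β`, `Y = c`, as an element of `A[x,y]/(y^2-f)`. -/
def gt (a b β c : A) (t : ℕ) (P : MvPolynomial (Fin 4) A) : RR a b :=
  MvPolynomial.aeval
    ![algebraMap A (RR a b) β, xx a b, yy a b, algebraMap A (RR a b) c] ((⇑(D4 a))^[t] P)

/-- the polynomial `∑ p_{jεκ}(z) X^j y^ε Y^κ` (`z = X 0`, `X = X 1`, `y = X 2`, `Y = X 3`). -/
def mv (q : ℕ) (p : Idx q → Polynomial A) : MvPolynomial (Fin 4) A :=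
  ∑ i : Idx q, Polynomial.aeval (MvPolynomial.X 0 : MvPolynomial (Fin 4) A) (p i) *
    MvPolynomial.X 1 ^ (i.1 : ℕ) * MvPolynomial.X 2 ^ (i.2.1 : ℕ) * MvPolynomial.X 3 ^ (i.2.2 : ℕ)

/-- the derivation `x ↦ 2y`, `y ↦ 3x^2+a` of `A[x,y]/(y^2-f)`. -/
def dR (a b : A) : Derivation A (RR a b) (RR a b) where
  toFun g := ⟨2 * Polynomial.derivative g.im * ff a b + g.im * Polynomial.derivative (ff a b),
    2 * Polynomial.derivative g.re⟩
  map_add' g h := by
    ext1 <;> simp only [QuadraticAlgebra.re_add, QuadraticAlgebra.im_add, map_add] <;> ring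
  map_smul' r g := by
    ext1 <;> simp only [QuadraticAlgebra.re_smul, QuadraticAlgebra.im_smul,
      RingHom.id_apply, Polynomial.smul_eq_C_mul, Polynomial.derivative_mul,
      Polynomial.derivative_C] <;> ring
  map_one_eq_zero' := by
    ext1 <;> simp [QuadraticAlgebra.re_one, QuadraticAlgebra.im_one]
  leibniz' g h := by
    ext1 <;> simp only [LinearMap.coe_mk, AddHom.coe_mk, smul_eq_mul, QuadraticAlgebra.re_add,
      QuadraticAlgebra.im_add, QuadraticAlgebra.re_mul, QuadraticAlgebra.im_mul,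
      Polynomial.derivative_mul, Polynomial.derivative_add, zero_mul, add_zero] <;> ring

/-- weight at most `d`: `2 deg U ≤ d`, and `2 deg V + 3 ≤ d` if `V ≠ 0` (`g = U + V y`). -/
def WtLE {a b : A} (d : ℕ) (g : RR a b) : Prop :=
  2 * g.re.natDegree ≤ d ∧ (g.im ≠ 0 → 2 * g.im.natDegree + 3 ≤ d)

theorem D4_iterate_add (a : A) (t : ℕ) (P Q : MvPolynomial (Fin 4) A) :
    (⇑(D4 a))^[t] (P + Q) = (⇑(D4 a))^[t] P + (⇑(D4 a))^[t] Q := by
  induction t generalizing P Q with
  | zero => rfl
  | succ n ih => rw [Function.iterate_succ_apply, Function.iterate_succ_apply,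
      Function.iterate_succ_apply, map_add, ih]

theorem D4_iterate_smul (a r : A) (t : ℕ) (P : MvPolynomial (Fin 4) A) :
    (⇑(D4 a))^[t] (r • P) = r • (⇑(D4 a))^[t] P := by
  induction t generalizing P with
  | zero => rfl
  | succ n ih => rw [Function.iterate_succ_apply, Function.iterate_succ_apply,
      Derivation.map_smul, ih]

/-- `gt` as a linear map -/
def gtl (a b β c : A) (t : ℕ) : MvPolynomial (Fin 4) A →ₗ[A] RR a b where
  toFun := gt a b β c t
  map_add' P Q := by simp only [gt, D4_iterate_add, map_add]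
  map_smul' r P := by simp only [gt, D4_iterate_smul, map_smul, RingHom.id_apply]

/-- `mv` as a linear map -/
def mvl (q : ℕ) : (Idx q → Polynomial A) →ₗ[A] MvPolynomial (Fin 4) A where
  toFun := mv q
  map_add' P Q := by
    simp only [mv, Pi.add_apply, map_add, add_mul, Finset.sum_add_distrib]
  map_smul' r P := by
    simp only [mv, Pi.smul_apply, map_smul, RingHom.id_apply, Finset.smul_sum, smul_mul_assoc]

end ring

section ext
variable {k : Type*} [Field k] (K : Type*) [Field K] [Algebra k K]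

/-- extension of scalars -/
def bc {q : ℕ} (p : Idx q → Polynomial k) : Idx q → Polynomial K :=
  fun i => (p i).map (algebraMap k K)

variable {K}

/-- `(D^t P)(β, x, y, c)` for `P = ∑ p_i(z) X^j y^ε Y^κ` over `k` and `β, c ∈ K`. -/
def gk {q : ℕ} (a b : k) (β c : K) (t : ℕ) (p : Idx q → Polynomial k) :
    RR (algebraMap k K a) (algebraMap k K b) :=
  gt (algebraMap k K a) (algebraMap k K b) β c t (mv q (bc K p))

variable (K) in
/-- `bc` as a linear map -/
def bcl (q : ℕ) : (Idx q → Polynomial k) →ₗ[k] (Idx q → Polynomial K) where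
  toFun := bc K
  map_add' P Q := by
    funext i
    simp only [bc, Pi.add_apply, Polynomial.map_add]
  map_smul' r P := by
    funext i
    simp only [bc, Pi.smul_apply, RingHom.id_apply, Polynomial.smul_eq_C_mul, Polynomial.map_mul,
      Polynomial.map_C]
    rw [Algebra.smul_def]
    rfl

/-- `gk` as a `k`-linear map -/
def gkl {q : ℕ} (a b : k) (β c : K) (t : ℕ) :
    (Idx q → Polynomial k) →ₗ[k] RR (algebraMap k K a) (algebraMap k K b) :=
  ((gtl (algebraMap k K a) (algebraMap k K b) β c t).restrictScalars k).comp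
    (((mvl q).restrictScalars k).comp (bcl K q))

theorem gkl_apply {q : ℕ} (a b : k) (β c : K) (t : ℕ) (p : Idx q → Polynomial k) :
    gkl a b β c t p = gk a b β c t p := rfl

end ext

/-- the vectors `p` with `(D^t P)(β,x,y,c) = 0` for `t < m` -/
def VanS {k : Type*} [Field k] {K : Type*} [Field K] [Algebra k K] (q : ℕ) (a b : k) (β c : K)
    (m : ℕ) : Submodule k (Idx q → Polynomial k) :=
  ⨅ t : Fin m, LinearMap.ker (gkl a b β c (t : ℕ))

theorem mem_VanS {k : Type*} [Field k] {K : Type*} [Field K] [Algebra k K] {q : ℕ} {a b : k}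
    {β c : K} {m : ℕ} {p : Idx q → Polynomial k} :
    p ∈ VanS q a b β c m ↔ ∀ t < m, gk a b β c t p = 0 := by
  simp only [VanS, Submodule.mem_iInf, LinearMap.mem_ker, gkl_apply]
  exact ⟨fun h t ht => h ⟨t, ht⟩, fun h t => h t t.2⟩

/-- the vectors `p` with `(D^t P)(β_i,x,y,c_i) = 0` for `t < m` and all `i` -/
def LamS {k : Type*} [Field k] {r : ℕ} {K : Fin r → Type*} [∀ i, Field (K i)]
    [∀ i, Algebra k (K i)] (q : ℕ) (a b : k) (β c : ∀ i, K i) (m : ℕ) :
    Submodule k (Idx q → Polynomial k) :=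
  ⨅ i, VanS q a b (β i) (c i) m

theorem mem_LamS {k : Type*} [Field k] {r : ℕ} {K : Fin r → Type*} [∀ i, Field (K i)]
    [∀ i, Algebra k (K i)] {q : ℕ} {a b : k} {β c : ∀ i, K i} {m : ℕ}
    {p : Idx q → Polynomial k} :
    p ∈ LamS q a b β c m ↔ ∀ i, ∀ t < m, gk a b (β i) (c i) t p = 0 := by
  simp only [LamS, Submodule.mem_iInf, mem_VanS]

/-- the elements `v` of `E` with `(D^t P)(β_i,x,y,c_i) = 0`, `P = Φ v`, for all levels
`i * m + t < s` (`t < m`) -/
def Wlev {F0 k : Type*} [Field F0] [Field k] [Algebra F0 k] {r : ℕ} {K : Fin r → Type*}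
    [∀ i, Field (K i)] [∀ i, Algebra k (K i)] {V : Type*} [AddCommGroup V] [Module F0 V]
    (q : ℕ) (a b : k) (β c : ∀ i, K i) (m : ℕ) (Φ : V →ₗ[F0] (Idx q → Polynomial k))
    (E : Submodule F0 V) (s : ℕ) : Submodule F0 V :=
  E ⊓ ⨅ i : Fin r, ⨅ t : Fin m, ⨅ _ : (i : ℕ) * m + t < s,
    ((LinearMap.ker (gkl a b (β i) (c i) (t : ℕ))).restrictScalars F0).comap Φ

theorem mem_Wlev {F0 k : Type*} [Field F0] [Field k] [Algebra F0 k] {r : ℕ} {K : Fin r → Type*}
    [∀ i, Field (K i)] [∀ i, Algebra k (K i)] {V : Type*} [AddCommGroup V] [Module F0 V]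
    {q : ℕ} {a b : k} {β c : ∀ i, K i} {m : ℕ} {Φ : V →ₗ[F0] (Idx q → Polynomial k)}
    {E : Submodule F0 V} {s : ℕ} {v : V} :
    v ∈ Wlev q a b β c m Φ E s ↔ v ∈ E ∧ ∀ i : Fin r, ∀ t < m, (i : ℕ) * m + t < s →
      gk a b (β i) (c i) t (Φ v) = 0 := by
  simp only [Wlev, Submodule.mem_inf, Submodule.mem_iInf, Submodule.mem_comap,
    Submodule.restrictScalars_mem, LinearMap.mem_ker, gkl_apply]
  exact ⟨fun h => ⟨h.1, fun i t ht hs => h.2 i ⟨t, ht⟩ hs⟩,
    fun h => ⟨h.1, fun i t hs => h.2 i t t.2 hs⟩⟩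

/-! ## Parameters -/

/-- `E / 2 = 50 D^2 δ` with `δ = dl (8 D)` -/
def E2 (D : ℕ) : ℕ := 50 * D ^ 2 * dl (8 * D)

/-- `X_1 = E δ D` -/
def X1 (D : ℕ) : ℕ := 2 * E2 D * dl (8 * D) * D

/-- `r / 4 = E^2 δ D / 2` -/
def r4 (D : ℕ) : ℕ := 2 * E2 D ^ 2 * dl (8 * D) * D

/-- `r = 2 E^2 δ D` -/
def rr (D : ℕ) : ℕ := 4 * r4 D

/-- `L = (r/4 + D X_1) m` -/
def LL (D m : ℕ) : ℕ := (r4 D + D * X1 D) * m

/-- vectors of polynomials of degree `< l` -/
def Amb (k : Type*) [Field k] (ι : Type*) (l : ℕ) : Submodule k (ι → Polynomial k) :=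
  Submodule.pi Set.univ fun _ => Polynomial.degreeLT k l

/-- dimension of the elements of `N` of degree `< l` -/
def fl {k : Type*} [Field k] {ι : Type*} (N : Submodule k (ι → Polynomial k)) (l : ℕ) : ℕ :=
  Module.finrank k ↥(N ⊓ Amb k ι l)

/-- integer coordinates of a vector of polynomials of degree `< L` -/
abbrev II (q L κ : ℕ) : Type := Fin L × Idx q × Fin κ

/-- the vector of polynomials with coordinates `v` with respect to `ω` -/
def pv {k : Type*} [Field k] [CharZero k] {q L κ : ℕ} (ω : Fin κ → k) (v : II q L κ → ℚ) :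
    Idx q → Polynomial k :=
  fun i => ∑ l : Fin L, Polynomial.C (∑ μ : Fin κ, (v (l, i, μ) : k) * ω μ) * Polynomial.X ^ (l : ℕ)

/-! ## The zero estimate: derivations on `A[z]` and `A[z][Y]` -/

section ze
variable {F : Type*} [CommRing F] {A : Type*} [CommRing A] [Algebra F A]

set_option backward.isDefEq.respectTransparency false in
/-- the derivation of `A[X]` acting coefficientwise by `d` -/
def cw (d : Derivation F A A) : Derivation F (Polynomial A) (Polynomial A) :=
  PolynomialModule.equivPolynomialSelf.compDer d.mapCoeffs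

/-- the derivation of `A[X]` extending `d`, with `X ↦ w`. -/
def dlift (d : Derivation F A A) (w : Polynomial A) :
    Derivation F (Polynomial A) (Polynomial A) :=
  cw d + w • (Polynomial.derivative' (R := A)).restrictScalars F

/-- the derivation of `A[z]` extending `d`, `z ↦ 1` -/
def Dz (d : Derivation F A A) : Derivation F (Polynomial A) (Polynomial A) := dlift d 1

/-- the derivation of `A[z][Y]` extending `Dz d`, `Y ↦ -x` -/
def DD (d : Derivation F A A) (x : A) :
    Derivation F (Polynomial (Polynomial A)) (Polynomial (Polynomial A)) :=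
  dlift (Dz d) (-Polynomial.C (Polynomial.C x))

theorem cw_coeff (d : Derivation F A A) (p : Polynomial A) (i : ℕ) :
    (cw d p).coeff i = d (p.coeff i) := rfl

theorem dlift_apply (d : Derivation F A A) (w p : Polynomial A) :
    dlift d w p = cw d p + w * Polynomial.derivative p := rfl

theorem Dz_apply (d : Derivation F A A) (p : Polynomial A) :
    Dz d p = cw d p + Polynomial.derivative p := by
  rw [Dz, dlift_apply, one_mul]

theorem Dz_coeff (d : Derivation F A A) (p : Polynomial A) (i : ℕ) :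
    (Dz d p).coeff i = d (p.coeff i) + (i + 1) * p.coeff (i + 1) := by
  rw [Dz_apply, Polynomial.coeff_add, cw_coeff, Polynomial.coeff_derivative, mul_comm]

theorem DD_apply (d : Derivation F A A) (x : A) (P : Polynomial (Polynomial A)) :
    DD d x P = cw (Dz d) P - Polynomial.C (Polynomial.C x) * Polynomial.derivative P := by
  rw [DD, dlift_apply]
  ring

theorem DD_coeff (d : Derivation F A A) (x : A) (P : Polynomial (Polynomial A)) (i : ℕ) :
    (DD d x P).coeff i =
      Dz d (P.coeff i) - (i + 1) * Polynomial.C x * P.coeff (i + 1) := by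
  rw [DD_apply, Polynomial.coeff_sub, cw_coeff, Polynomial.coeff_C_mul,
    Polynomial.coeff_derivative]
  ring

theorem cw_C (d : Derivation F A A) (c : A) : cw d (Polynomial.C c) = Polynomial.C (d c) := by
  ext i
  rw [cw_coeff, Polynomial.coeff_C, Polynomial.coeff_C]
  split_ifs <;> simp

theorem cw_X (d : Derivation F A A) : cw d (Polynomial.X : Polynomial A) = 0 := by
  ext i
  rw [cw_coeff, Polynomial.coeff_X]
  split_ifs <;> simp

theorem Dz_C (d : Derivation F A A) (c : A) : Dz d (Polynomial.C c) = Polynomial.C (d c) := by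
  rw [Dz_apply, cw_C, Polynomial.derivative_C, add_zero]

theorem Dz_X (d : Derivation F A A) : Dz d (Polynomial.X) = 1 := by
  rw [Dz_apply, cw_X, Polynomial.derivative_X, zero_add]

theorem DD_C (d : Derivation F A A) (x : A) (u : Polynomial A) :
    DD d x (Polynomial.C u) = Polynomial.C (Dz d u) := by
  rw [DD_apply, cw_C, Polynomial.derivative_C, mul_zero, sub_zero]

theorem DD_X (d : Derivation F A A) (x : A) :
    DD d x (Polynomial.X) = -Polynomial.C (Polynomial.C x) := by
  rw [DD_apply, cw_X, Polynomial.derivative_X, mul_one, zero_sub]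

end ze

end

end Pool.Agent.ZFin
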