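import Pool.Agent.ZFin.Defs

/-! # Module Star: the determinant does not vanish (section 2.1) -/

namespace Pool.Agent.ZFin
open Polynomial

/-- hypothesis (H): no `g` in the fraction field of `A[z]` with `g' = n x`, `n ≥ 1` -/
def HypH {F : Type*} [Field F] {A : Type*} [CommRing A] [Algebra F A] (d : Derivation F A A)
    (x : A) : Prop :=
  ∀ (n : ℕ), 1 ≤ n → ∀ u v : A[X], v ≠ 0 →
    Dz d u * v - u * Dz d v - (n : A[X]) * C x * v ^ 2 ≠ 0

/-- the matrix of the `Y`-coefficients of `P, DD P, ..., DD^n P` -/
noncomputable def Mat {F : Type*} [Field F] {A : Type*} [CommRing A] [Algebra F A]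
    (d : Derivation F A A) (x : A) (P : A[X][X]) (n : ℕ) : Matrix (Fin (n + 1)) (Fin (n + 1)) A[X] :=
  Matrix.of fun j k => ((⇑(DD d x))^[(j : ℕ)] P).coeff (k : ℕ)

section aux

variable {F : Type*} [Field F] {A : Type*} [CommRing A] [Algebra F A]

private theorem Star_natDegree_DD (d : Derivation F A A) (x : A) (P : A[X][X]) :
    (DD d x P).natDegree ≤ P.natDegree := by
  rw [Polynomial.natDegree_le_iff_coeff_eq_zero]
  intro i hi
  rw [DD_coeff, Polynomial.coeff_eq_zero_of_natDegree_lt hi,
    Polynomial.coeff_eq_zero_of_natDegree_lt (Nat.lt_succ_of_lt hi), map_zero, mul_zero, sub_zero]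

/-- `DD` does not increase the degree in `Y` -/
theorem natDegree_DD_iterate {F : Type*} [Field F] {A : Type*} [CommRing A] [Algebra F A]
    (d : Derivation F A A) (x : A) (P : A[X][X]) (t : ℕ) :
    ((⇑(DD d x))^[t] P).natDegree ≤ P.natDegree := by
  induction t with
  | zero => exact le_rfl
  | succ t ih =>
    rw [Function.iterate_succ_apply']
    exact (Star_natDegree_DD d x _).trans ih

/-- `P* = f DD P - f' P` -/
private noncomputable def Star_ps (d : Derivation F A A) (x : A) (P : A[X][X]) : A[X][X] :=
  C (P.coeff P.natDegree) * DD d x P - C (Dz d (P.coeff P.natDegree)) * P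

private theorem Star_rel (d : Derivation F A A) (x : A) (P : A[X][X]) (i : ℕ) :
    ∃ c : ℕ → A[X], (⇑(DD d x))^[i] (Star_ps d x P) =
      C (P.coeff P.natDegree) * (⇑(DD d x))^[i + 1] P +
        ∑ l ∈ Finset.range (i + 1), C (c l) * (⇑(DD d x))^[l] P := by
  induction i with
  | zero =>
    refine ⟨fun _ => -Dz d (P.coeff P.natDegree), ?_⟩
    simp only [Star_ps, Function.iterate_zero, id, Function.iterate_one, zero_add,
      Finset.range_one, Finset.sum_singleton, C_neg]
    ring
  | succ i ih =>
    obtain ⟨c, hc⟩ := ih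
    set f := P.coeff P.natDegree with hf
    refine ⟨fun l => (if l < i + 1 then Dz d (c l) else Dz d f) + (if l = 0 then 0 else c (l - 1)), ?_⟩
    rw [Function.iterate_succ_apply', hc, map_add, map_sum]
    have h1 : DD d x (C f * (⇑(DD d x))^[i + 1] P) =
        C f * (⇑(DD d x))^[i + 1 + 1] P + C (Dz d f) * (⇑(DD d x))^[i + 1] P := by
      rw [Derivation.leibniz, DD_C, Function.iterate_succ_apply' _ (i + 1)]
      simp only [smul_eq_mul]
      ring
    have h2 : ∀ l, DD d x (C (c l) * (⇑(DD d x))^[l] P) =
        C (Dz d (c l)) * (⇑(DD d x))^[l] P + C (c l) * (⇑(DD d x))^[l + 1] P := by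
      intro l
      rw [Derivation.leibniz, DD_C, Function.iterate_succ_apply' _ l]
      simp only [smul_eq_mul]
      ring
    rw [h1]
    simp only [h2]
    rw [Finset.sum_add_distrib]
    have h3 : ∑ l ∈ Finset.range (i + 1 + 1),
        C ((if l < i + 1 then Dz d (c l) else Dz d f) + (if l = 0 then 0 else c (l - 1))) *
          (⇑(DD d x))^[l] P =
        ∑ l ∈ Finset.range (i + 1 + 1), C (if l < i + 1 then Dz d (c l) else Dz d f) * (⇑(DD d x))^[l] P +
        ∑ l ∈ Finset.range (i + 1 + 1), C (if l = 0 then 0 else c (l - 1)) * (⇑(DD d x))^[l] P := by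
      rw [← Finset.sum_add_distrib]
      refine Finset.sum_congr rfl fun l _ => ?_
      rw [C_add, add_mul]
    rw [h3, Finset.sum_range_succ _ (i + 1), if_neg (lt_irrefl _), Finset.sum_range_succ' _ (i + 1), if_pos rfl,
      C_0, zero_mul, add_zero]
    have h4 : ∑ l ∈ Finset.range (i + 1), C (if l < i + 1 then Dz d (c l) else Dz d f) * (⇑(DD d x))^[l] P =
        ∑ l ∈ Finset.range (i + 1), C (Dz d (c l)) * (⇑(DD d x))^[l] P := by
      refine Finset.sum_congr rfl fun l hl => ?_
      rw [if_pos (Finset.mem_range.1 hl)]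
    have h5 : ∑ l ∈ Finset.range (i + 1), C (if l + 1 = 0 then 0 else c (l + 1 - 1)) * (⇑(DD d x))^[l + 1] P =
        ∑ l ∈ Finset.range (i + 1), C (c l) * (⇑(DD d x))^[l + 1] P := by
      refine Finset.sum_congr rfl fun l _ => ?_
      rw [if_neg (Nat.succ_ne_zero l), Nat.add_sub_cancel]
    rw [h4, h5]
    ring

private theorem Star_ps_coeff (d : Derivation F A A) (x : A) (P : A[X][X]) (n : ℕ)
    (hn : P.natDegree = n + 1) :
    (Star_ps d x P).coeff n = Dz d (P.coeff n) * P.coeff (n + 1) - P.coeff n * Dz d (P.coeff (n + 1)) -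
      ((n + 1 : ℕ) : A[X]) * C x * P.coeff (n + 1) ^ 2 := by
  rw [Star_ps, hn, coeff_sub, coeff_C_mul, coeff_C_mul, DD_coeff]
  push_cast
  ring

private theorem Star_ps_natDegree (d : Derivation F A A) (x : A) (hH : HypH d x) (P : A[X][X])
    (hP : P ≠ 0) (n : ℕ) (hn : P.natDegree = n + 1) :
    (Star_ps d x P).coeff n ≠ 0 ∧ (Star_ps d x P).natDegree = n := by
  have hf : P.coeff (n + 1) ≠ 0 := by
    rw [← hn]
    exact leadingCoeff_ne_zero.2 hP
  have h0 : (Star_ps d x P).coeff n ≠ 0 := by
    rw [Star_ps_coeff d x P n hn]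
    exact hH (n + 1) (by omega) _ _ hf
  refine ⟨h0, le_antisymm ?_ (le_natDegree_of_ne_zero h0)⟩
  rw [natDegree_le_iff_coeff_eq_zero]
  intro i hi
  rw [Star_ps, coeff_sub, coeff_C_mul, coeff_C_mul, DD_coeff]
  rcases Nat.lt_or_ge (n + 1) i with h | h
  · rw [coeff_eq_zero_of_natDegree_lt (by omega : P.natDegree < i),
      coeff_eq_zero_of_natDegree_lt (by omega : P.natDegree < i + 1)]
    simp
  · have hi' : i = n + 1 := by omega
    subst hi'
    rw [hn, coeff_eq_zero_of_natDegree_lt (by omega : P.natDegree < n + 1 + 1)]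
    ring

end aux

theorem det_Mat_ne_zero {F : Type*} [Field F] {A : Type*} [CommRing A] [IsDomain A] [Algebra F A]
    (d : Derivation F A A) (x : A) (hH : HypH d x) (P : A[X][X]) (hP : P ≠ 0) :
    (Mat d x P P.natDegree).det ≠ 0 := by
  obtain ⟨n, hn⟩ : ∃ n, P.natDegree = n := ⟨_, rfl⟩
  rw [hn]
  induction n generalizing P with
  | zero =>
    have h1 : (Mat d x P 0).det = P.coeff 0 := by
      rw [Matrix.det_fin_one]
      rfl
    rw [h1, ← hn]
    exact leadingCoeff_ne_zero.2 hP
  | succ n ih =>
    obtain ⟨h0, hd⟩ := Star_ps_natDegree d x hH P hP n hn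
    have hps : Star_ps d x P ≠ 0 := by
      intro h
      rw [h, coeff_zero] at h0
      exact h0 rfl
    have hdet := ih (Star_ps d x P) hps hd
    have hf : P.coeff (n + 1) ≠ 0 := by
      rw [← hn]
      exact leadingCoeff_ne_zero.2 hP
    choose c hc using Star_rel d x P
    rw [hn] at hc
    set f := P.coeff (n + 1) with hfdef
    -- triangular matrix
    set T' : ℕ → ℕ → A[X] := fun i j =>
      if j < i then c (i - 1) j else if j = i then (if i = 0 then 1 else f) else 0 with hT'
    set T : Matrix (Fin (n + 1 + 1)) (Fin (n + 1 + 1)) A[X] := Matrix.of fun i j => T' i j with hT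
    have hTdet : T.det ≠ 0 := by
      rw [Matrix.det_of_isLowerTriangular T, Finset.prod_ne_zero_iff]
      · intro i _
        show T' i i ≠ 0
        simp only [hT', lt_irrefl, if_false, if_true]
        split_ifs
        · exact one_ne_zero
        · exact hf
      · intro i j hij
        have hij' : (i : ℕ) < (j : ℕ) := hij
        show T' i j = 0
        simp only [hT']
        rw [if_neg (by omega), if_neg (by omega)]
    intro hzero
    have hprod : (T * Mat d x P (n + 1)).det = 0 := by
      rw [Matrix.det_mul, hzero, mul_zero]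
    obtain ⟨w, hw0, hw⟩ := (Matrix.exists_vecMul_eq_zero_iff).2 hprod
    -- the entries of the product
    have hsum : ∀ (i : ℕ) (hi : i < n + 1 + 1) (g : ℕ → A[X]),
        ∑ j : Fin (n + 1 + 1), T' i j * g j =
          ∑ j ∈ Finset.range i, c (i - 1) j * g j + (if i = 0 then 1 else f) * g i := by
      intro i hi g
      rw [Fin.sum_univ_eq_sum_range (fun j => T' i j * g j) (n + 1 + 1),
        ← Finset.sum_subset (Finset.range_subset_range.2 (Nat.succ_le_of_lt hi) :
          Finset.range (i + 1) ⊆ Finset.range (n + 1 + 1)), Finset.sum_range_succ]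
      · congr 1
        · refine Finset.sum_congr rfl fun j hj => ?_
          simp only [hT']
          rw [if_pos (Finset.mem_range.1 hj)]
        · simp only [hT', lt_irrefl, if_false, if_true]
      · intro j _ hj
        rw [Finset.mem_range, not_lt] at hj
        simp only [hT']
        rw [if_neg (by omega), if_neg (by omega), zero_mul]
    have hrow0 : ∀ k : Fin (n + 1 + 1), (T * Mat d x P (n + 1)) 0 k = P.coeff k := by
      intro k
      rw [Matrix.mul_apply]
      have := hsum 0 (by omega) (fun j => ((⇑(DD d x))^[j] P).coeff (k : ℕ))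
      simp only [Finset.range_zero, Finset.sum_empty, if_true, one_mul, zero_add,
        Function.iterate_zero, id] at this
      exact this
    have hrow : ∀ (i : Fin (n + 1)) (k : Fin (n + 1 + 1)),
        (T * Mat d x P (n + 1)) i.succ k = ((⇑(DD d x))^[(i : ℕ)] (Star_ps d x P)).coeff k := by
      intro i k
      rw [Matrix.mul_apply]
      have := hsum (i + 1) (by omega) (fun j => ((⇑(DD d x))^[j] P).coeff (k : ℕ))
      rw [if_neg (Nat.succ_ne_zero _), Nat.add_sub_cancel] at this
      refine this.trans ?_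
      rw [hc i, coeff_add, finsetSum_coeff, coeff_C_mul, add_comm]
      simp only [coeff_C_mul]
    -- the last column
    have hw1 : w 0 = 0 := by
      have := congrFun hw (Fin.last (n + 1))
      simp only [Matrix.vecMul, dotProduct, Pi.zero_apply] at this
      rw [Fin.sum_univ_succ, hrow0] at this
      have hz : ∑ i : Fin (n + 1), w i.succ * (T * Mat d x P (n + 1)) i.succ (Fin.last (n + 1)) = 0 := by
        refine Finset.sum_eq_zero fun i _ => ?_
        rw [hrow, coeff_eq_zero_of_natDegree_lt, mul_zero]
        refine lt_of_le_of_lt (natDegree_DD_iterate d x _ _) ?_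
        rw [hd]
        simp
      rw [hz, add_zero, Fin.val_last] at this
      exact (mul_eq_zero.1 this).resolve_right hf
    refine hdet ((Matrix.exists_vecMul_eq_zero_iff).1 ⟨fun i => w i.succ, ?_, ?_⟩)
    · intro h
      refine hw0 (funext fun i => ?_)
      refine Fin.cases hw1 (fun i => ?_) i
      exact congrFun h i
    · funext k
      have := congrFun hw k.castSucc
      simp only [Matrix.vecMul, dotProduct, Pi.zero_apply] at this ⊢
      rw [Fin.sum_univ_succ, hw1, zero_mul, zero_add] at this
      rw [← this]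
      refine Finset.sum_congr rfl fun i _ => ?_
      rw [hrow]
      rfl

end Pool.Agent.ZFin
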