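import Pool.Agent.ZFin.Tay

/-! # Module TayDvd: the order at `β` of a polynomial in `z` (section 2.3) -/

namespace Pool.Agent.ZFin
open Polynomial

section
variable {F : Type*} [Field F] [CharZero F] {A : Type*} [CommRing A] [Algebra F A]
  (d : Derivation F A A)

omit [CharZero F] in
private theorem TayDvd_Dz_L (β : F) : Dz d (X - C (algebraMap F A β)) = 1 := by
  rw [map_sub, Dz_X, Dz_C, Derivation.map_algebraMap, map_zero, sub_zero]

omit [CharZero F] in
private theorem TayDvd_iter (β : F) (w : A[X]) (t : ℕ) :
    (⇑(Dz d))^[t + 1] ((X - C (algebraMap F A β)) * w) =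
      (X - C (algebraMap F A β)) * (⇑(Dz d))^[t + 1] w + ((t + 1 : ℕ) : A[X]) * (⇑(Dz d))^[t] w := by
  induction t with
  | zero =>
    simp only [zero_add, Function.iterate_one, Function.iterate_zero, id_eq, Nat.cast_one, one_mul]
    rw [Derivation.leibniz, TayDvd_Dz_L, smul_eq_mul, smul_eq_mul, mul_one]
  | succ n ih =>
    rw [Function.iterate_succ_apply', ih, map_add, Derivation.leibniz, Derivation.leibniz,
      TayDvd_Dz_L, Derivation.map_natCast, Function.iterate_succ_apply' (⇑(Dz d)) (n + 1) w,
      Function.iterate_succ_apply' (⇑(Dz d)) n w]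
    simp only [smul_eq_mul, smul_zero, mul_zero, add_zero, mul_one]
    push_cast
    ring

/-- `s^e | Tay_β(u)` iff `(z-β)^e | u`, for `u ∈ A[z]` -/
theorem pow_dvd_iff_Dz (β : F) (e : ℕ) (u : A[X]) :
    (X - C (algebraMap F A β)) ^ e ∣ u ↔
      ∀ t < e, ((⇑(Dz d))^[t] u).eval (algebraMap F A β) = 0 := by
  induction e generalizing u with
  | zero => simp
  | succ e ih =>
    constructor
    · rintro ⟨w, rfl⟩ t ht
      have h : (X - C (algebraMap F A β)) ^ (e + 1) * w =
          (X - C (algebraMap F A β)) * ((X - C (algebraMap F A β)) ^ e * w) := by ring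
      rw [h]
      cases t with
      | zero => simp
      | succ s =>
        rw [TayDvd_iter, eval_add, eval_mul, eval_mul, (ih _).mp (Dvd.intro _ rfl) s (by omega)]
        simp
    · intro h
      have h0 : (X - C (algebraMap F A β)) ∣ u := by
        rw [dvd_iff_isRoot]
        exact h 0 (by omega)
      obtain ⟨w, rfl⟩ := h0
      have hw : (X - C (algebraMap F A β)) ^ e ∣ w := by
        rw [ih]
        intro s hs
        have h1 := h (s + 1) (by omega)
        rw [TayDvd_iter, eval_add, eval_mul, eval_mul] at h1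
        simp only [eval_sub, eval_X, eval_C, sub_self, zero_mul, zero_add, eval_natCast] at h1
        have h2 : algebraMap F A ((((s + 1 : ℕ) : F))⁻¹) * (((s + 1 : ℕ) : A) *
            ((⇑(Dz d))^[s] w).eval (algebraMap F A β)) = 0 := by
          rw [h1, mul_zero]
        rw [← mul_assoc, ← map_natCast (algebraMap F A), ← map_mul,
          inv_mul_cancel₀ (Nat.cast_ne_zero.mpr (Nat.succ_ne_zero s)), map_one, one_mul] at h2
        exact h2
      rw [pow_succ, mul_comm]
      exact mul_dvd_mul_left _ hw

end

end Pool.Agent.ZFin
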