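import Pool.Agent.ZFin.Tay
import Pool.Agent.ZFin.TayDvd
import Pool.Agent.ZFin.Star

/-! # Module DetDvd: divisibility and degree of the determinant (sections 2.2, 2.4) -/

namespace Pool.Agent.ZFin
open Polynomial

private theorem DetDvd_Dz_deg {F : Type*} [Field F] {A : Type*} [CommRing A] [Algebra F A]
    (d : Derivation F A A) (u : A[X]) (dz : ℕ) (h : u.natDegree ≤ dz) :
    (Dz d u).natDegree ≤ dz := by
  rw [Polynomial.natDegree_le_iff_coeff_eq_zero]
  intro j hj
  rw [Dz_coeff, Polynomial.coeff_eq_zero_of_natDegree_lt (lt_of_le_of_lt h hj),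
    Polynomial.coeff_eq_zero_of_natDegree_lt (lt_of_le_of_lt h (Nat.lt_succ_of_lt hj))]
  simp

private theorem DetDvd_DD_deg {F : Type*} [Field F] {A : Type*} [CommRing A] [Algebra F A]
    (d : Derivation F A A) (x : A) (P : A[X][X]) (dz : ℕ) (h : ∀ i, (P.coeff i).natDegree ≤ dz)
    (i : ℕ) : ((DD d x P).coeff i).natDegree ≤ dz := by
  rw [DD_coeff]
  refine (Polynomial.natDegree_sub_le _ _).trans (max_le (DetDvd_Dz_deg d _ dz (h i)) ?_)
  have e : ((i : A[X]) + 1) * C x * P.coeff (i + 1) =
      C (((i : A) + 1) * x) * P.coeff (i + 1) := by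
    simp [C_mul]
  rw [e]
  exact (Polynomial.natDegree_C_mul_le _ _).trans (h (i + 1))

private theorem DetDvd_iter_deg {F : Type*} [Field F] {A : Type*} [CommRing A] [Algebra F A]
    (d : Derivation F A A) (x : A) (P : A[X][X]) (dz : ℕ) (h : ∀ i, (P.coeff i).natDegree ≤ dz)
    (t : ℕ) : ∀ i, (((⇑(DD d x))^[t] P).coeff i).natDegree ≤ dz := by
  induction t with
  | zero => exact h
  | succ t ih =>
    intro i
    rw [Function.iterate_succ_apply']
    exact DetDvd_DD_deg d x _ dz ih i

/-- `z`-degree of the determinant -/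
theorem natDegree_det_Mat {F : Type*} [Field F] {A : Type*} [CommRing A] [Algebra F A]
    (d : Derivation F A A) (x : A) (P : A[X][X]) (n dz : ℕ) (h : ∀ i, (P.coeff i).natDegree ≤ dz) :
    (Mat d x P n).det.natDegree ≤ (n + 1) * dz := by
  rw [Matrix.det_apply]
  refine Polynomial.natDegree_sum_le_of_forall_le _ _ fun σ _ => ?_
  have h1 : (∏ i, Mat d x P n (σ i) i).natDegree ≤ (n + 1) * dz := by
    refine (Polynomial.natDegree_prod_le _ _).trans ?_
    refine (Finset.sum_le_card_nsmul _ _ dz fun i _ => ?_).trans ?_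
    · exact DetDvd_iter_deg d x P dz h _ _
    · simp
  refine le_trans ?_ h1
  rw [Units.smul_def, zsmul_eq_mul]
  rcases Int.units_eq_one_or (Equiv.Perm.sign σ) with hs | hs <;> rw [hs] <;> simp

private theorem DetDvd_col {R : Type*} [CommRing R] {n : ℕ} (M : Matrix (Fin n) (Fin n) R)
    (w : Fin n → R) (h : ∀ j l, w l ∣ M j l) : (∏ l, w l) ∣ M.det := by
  rw [Matrix.det_apply]
  refine Finset.dvd_sum fun σ _ => ?_
  rw [Units.smul_def, zsmul_eq_mul]
  refine Dvd.dvd.mul_left ?_ _
  exact Finset.prod_dvd_prod_of_dvd _ _ fun i _ => h _ _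

/-- order of the determinant at `β` -/
theorem pow_dvd_det_Mat {F : Type*} [Field F] [CharZero F] {A : Type*} [CommRing A] [IsDomain A]
    [Algebra F A] (d : Derivation F A A) (x : A) (P : A[X][X]) (n m : ℕ) (hn : P.natDegree ≤ n)
    (hm : n ≤ m) (β : F) (T : Finset F) (hT : T.card ≤ n + 1)
    (hv : ∀ c ∈ T, ∀ t < m,
      evalEval (algebraMap F A β) (algebraMap F A c) ((⇑(DD d x))^[t] P) = 0) :
    (X - C (algebraMap F A β)) ^ (T.card * (m - n)) ∣ (Mat d x P n).det := by
  classical
  choose φ hφ using fun c : F => exists_tay d x β c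
  -- the homomorphism on `A[z]`
  let ψ : A[X] →+* PowerSeries A := (φ 0).comp C
  have hψc : ∀ (u : A[X]) (t : ℕ), PowerSeries.coeff t (ψ u) =
      ((t.factorial : F)⁻¹) • ((⇑(Dz d))^[t] u).eval (algebraMap F A β) := by
    intro u t
    show PowerSeries.coeff t (φ 0 (C u)) = _
    rw [hφ, DD_iterate_C]
    simp [evalEval]
  have hφC : ∀ (c : F) (u : A[X]), φ c (C u) = ψ u := by
    intro c u
    ext t
    rw [hψc, hφ, DD_iterate_C]
    simp [evalEval]
  let η : PowerSeries A := φ 0 X
  have hφX : ∀ c : F, φ c X = algebraMap F (PowerSeries A) c + η := by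
    intro c
    ext t
    rw [map_add, hφ]
    show _ = _ + PowerSeries.coeff t (φ 0 X)
    rw [hφ, PowerSeries.algebraMap_apply]
    cases t with
    | zero => simp [evalEval]
    | succ t =>
      rw [DD_iterate_X, PowerSeries.coeff_C]
      simp [evalEval]
  have hφP : ∀ (c : F) (Q : A[X][X]), Q.natDegree ≤ n → φ c Q =
      ∑ k : Fin (n + 1), ψ (Q.coeff k) * (algebraMap F (PowerSeries A) c + η) ^ (k : ℕ) := by
    intro c Q hQ
    conv_lhs => rw [Polynomial.as_sum_range' Q (n + 1) (Nat.lt_succ_of_le hQ)]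
    rw [map_sum, Finset.sum_range]
    refine Finset.sum_congr rfl fun k _ => ?_
    rw [← Polynomial.C_mul_X_pow_eq_monomial, map_mul, map_pow, hφC, hφX]
  -- distinct points
  obtain ⟨T', hTT', hT'⟩ := Infinite.exists_superset_card_eq T (n + 1) hT
  let e := T'.equivFinOfCardEq hT'
  let c : Fin (n + 1) → F := fun l => ((e.symm l : T') : F)
  have hc : Function.Injective c := fun l l' h => e.symm.injective (Subtype.ext h)
  let V : Matrix (Fin (n + 1)) (Fin (n + 1)) (PowerSeries A) :=
    (Matrix.vandermonde fun l => algebraMap F (PowerSeries A) (c l) + η).transpose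
  have hV : IsUnit V.det := by
    rw [Matrix.det_transpose, Matrix.det_vandermonde]
    refine IsUnit.prod_iff.2 fun i _ => IsUnit.prod_iff.2 fun j hj => ?_
    have : algebraMap F (PowerSeries A) (c j) + η - (algebraMap F (PowerSeries A) (c i) + η) =
        algebraMap F (PowerSeries A) (c j - c i) := by
      rw [map_sub]; ring
    rw [this]
    refine (IsUnit.mk0 _ ?_).map _
    rw [sub_ne_zero]
    exact fun h => (Finset.mem_Ioi.1 hj).ne' (hc h)
  have hent : ∀ j l, ((Mat d x P n).map ψ * V) j l = φ (c l) ((⇑(DD d x))^[(j : ℕ)] P) := by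
    intro j l
    rw [hφP _ _ ((natDegree_DD_iterate d x P j).trans hn), Matrix.mul_apply]
    refine Finset.sum_congr rfl fun k _ => ?_
    rw [Matrix.map_apply]
    have hVk : V k l = (algebraMap F (PowerSeries A) (c l) + η) ^ (k : ℕ) := by
      show (Matrix.vandermonde fun l => algebraMap F (PowerSeries A) (c l) + η) l k = _
      rw [Matrix.vandermonde_apply]
    rw [hVk]
    rfl
  have hdvd : (∏ l, (PowerSeries.X : PowerSeries A) ^ (if c l ∈ T then m - n else 0)) ∣
      ((Mat d x P n).map ψ * V).det := by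
    refine DetDvd_col _ _ fun j l => ?_
    rw [hent]
    split_ifs with hl
    · rw [PowerSeries.X_pow_dvd_iff]
      intro t ht
      rw [hφ, ← Function.iterate_add_apply, hv _ hl _ (by have := j.2; omega), smul_zero]
    · simp
  have hexp : (∏ l, (PowerSeries.X : PowerSeries A) ^ (if c l ∈ T then m - n else 0)) =
      PowerSeries.X ^ (T.card * (m - n)) := by
    rw [Finset.prod_pow_eq_pow_sum]
    congr 1
    have h1 : ∑ l : Fin (n + 1), (if c l ∈ T then m - n else 0) =
        ∑ a : T', (if (a : F) ∈ T then m - n else 0) :=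
      Equiv.sum_comp e.symm (fun a : T' => if (a : F) ∈ T then m - n else 0)
    rw [h1, Finset.sum_coe_sort T' (fun a => if a ∈ T then m - n else 0), Finset.sum_ite_mem,
      Finset.inter_eq_right.2 hTT', Finset.sum_const, smul_eq_mul]
  rw [hexp, Matrix.det_mul, hV.dvd_mul_right] at hdvd
  have hmd : ((Mat d x P n).map ψ).det = ψ (Mat d x P n).det := by
    rw [RingHom.map_det]; rfl
  rw [hmd, PowerSeries.X_pow_dvd_iff] at hdvd
  rw [pow_dvd_iff_Dz]
  intro t ht
  have h1 := hdvd t ht
  rw [hψc] at h1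
  have h2 : ((t.factorial : F)⁻¹) ≠ 0 := inv_ne_zero (Nat.cast_ne_zero.2 t.factorial_ne_zero)
  have h3 := congrArg (fun y => (t.factorial : F) • y) h1
  simpa [smul_smul, mul_inv_cancel₀ (Nat.cast_ne_zero.2 t.factorial_ne_zero : (t.factorial : F) ≠ 0)]
    using h3

end Pool.Agent.ZFin
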