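import Pool.Agent.ZFin.Alg
import Pool.Agent.ZFin.Convex

/-! # Module Drop: section 3.6 -/

namespace Pool.Agent.ZFin
open Polynomial

/-- independence of `φ^t p` modulo the vectors with large order -/
private theorem Drop_indep {k K : Type} [Field k] [CharZero k] [Field K] [Algebra k K]
    [FiniteDimensional k K] (a b : k) (β c : K) (q X : ℕ) (p : Idx q → k[X])
    (h0 : gk a b β c 0 p ≠ 0) (cf : Fin X → k)
    (h : (∑ t : Fin X, cf t • (fun i => (minpoly k β) ^ (t : ℕ) * p i : Idx q → k[X])) ∈
      VanS q a b β c X) : cf = 0 := by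
  have hint : IsIntegral k β := IsIntegral.of_finite k β
  have hd : aeval β (derivative (minpoly k β)) ≠ 0 :=
    (minpoly.irreducible hint).separable.aeval_derivative_ne_zero (minpoly.aeval k β)
  have hchar : CharZero K := charZero_of_injective_algebraMap (algebraMap k K).injective
  have key : ∀ n : ℕ, ∀ hn : n < X, cf ⟨n, hn⟩ = 0 := by
    intro n
    induction n using Nat.strong_induction_on with
    | _ n ih =>
      intro hn
      have h1 := mem_VanS.1 h n hn
      rw [← gkl_apply, map_sum, Finset.sum_eq_single ⟨n, hn⟩] at h1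
      · rw [map_smul, gkl_apply] at h1
        simp only at h1
        rw [(gk_pow a b β c n (minpoly k β) (minpoly.aeval k β) p).2] at h1
        by_contra hne
        have h2 : ((n.factorial : K) * aeval β (derivative (minpoly k β)) ^ n) •
            gk a b β c 0 p = 0 := by
          rw [← inv_smul_smul₀ hne (((n.factorial : K) *
            aeval β (derivative (minpoly k β)) ^ n) • gk a b β c 0 p), h1, smul_zero]
        have h3 : ((n.factorial : K) * aeval β (derivative (minpoly k β)) ^ n) ≠ 0 :=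
          mul_ne_zero (Nat.cast_ne_zero.2 (Nat.factorial_ne_zero n)) (pow_ne_zero _ hd)
        apply h0
        rw [← inv_smul_smul₀ h3 (gk a b β c 0 p), h2, smul_zero]
      · intro t _ ht
        rw [map_smul, gkl_apply]
        rcases lt_trichotomy (t : ℕ) n with h4 | h4 | h4
        · rw [ih t h4 t.2]
          simp
        · exact absurd (Fin.ext h4) ht
        · rw [(gk_pow a b β c t (minpoly k β) (minpoly.aeval k β) p).1 n h4, smul_zero]
      · intro h5
        exact absurd (Finset.mem_univ _) h5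
  funext t
  exact key t t.2

theorem drop {k K : Type} [Field k] [CharZero k] [Field K] [Algebra k K]
    [FiniteDimensional k K] (a b : k) (β c : K) (q l l' X : ℕ)
    (N : Submodule k (Idx q → k[X])) (hmul : ∀ (φ : k[X]), ∀ p ∈ N, (fun i => φ * p i) ∈ N)
    (p : Idx q → k[X]) (hp : p ∈ N ⊓ Amb k (Idx q) (l + (minpoly k β).natDegree))
    (h0 : gk a b β c 0 p ≠ 0) (hl : l + (minpoly k β).natDegree * X ≤ l') :
    fl (N ⊓ VanS q a b β c X) l' + X ≤ fl N l' := by
  classical
  have hint : IsIntegral k β := IsIntegral.of_finite k β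
  obtain ⟨hpN, hpA⟩ := Submodule.mem_inf.1 hp
  have hv : ∀ t : Fin X, (fun i => (minpoly k β) ^ (t : ℕ) * p i : Idx q → k[X]) ∈
      N ⊓ Amb k (Idx q) l' := by
    intro t
    refine Submodule.mem_inf.2 ⟨hmul _ p hpN, ?_⟩
    unfold Amb
    rw [Submodule.mem_pi]
    intro i _
    rw [Polynomial.mem_degreeLT]
    by_cases hi : p i = 0
    · rw [hi, mul_zero, Polynomial.degree_zero]
      exact WithBot.bot_lt_coe _
    · have h1 := hpA
      unfold Amb at h1
      rw [Submodule.mem_pi] at h1
      have h2 := h1 i (Set.mem_univ _)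
      rw [Polynomial.mem_degreeLT, ← Polynomial.natDegree_lt_iff_degree_lt hi] at h2
      have h3 : (minpoly k β) ^ (t : ℕ) ≠ 0 := pow_ne_zero _ (minpoly.ne_zero hint)
      rw [← Polynomial.natDegree_lt_iff_degree_lt (mul_ne_zero h3 hi),
        Polynomial.natDegree_mul h3 hi, Polynomial.natDegree_pow]
      have h4 : ((t : ℕ) + 1) * (minpoly k β).natDegree ≤ (minpoly k β).natDegree * X := by
        rw [mul_comm (minpoly k β).natDegree]
        exact Nat.mul_le_mul_right _ t.2
      have h5 : ((t : ℕ) + 1) * (minpoly k β).natDegree =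
          (t : ℕ) * (minpoly k β).natDegree + (minpoly k β).natDegree := by ring
      omega
  have h6 : FiniteDimensional k ↥(N ⊓ Amb k (Idx q) l') := Amb_finite N l'
  have h7 : FiniteDimensional k ↥((N ⊓ VanS q a b β c X) ⊓ Amb k (Idx q) l') :=
    Amb_finite (N ⊓ VanS q a b β c X) l'
  have hle : (N ⊓ VanS q a b β c X) ⊓ Amb k (Idx q) l' ≤ N ⊓ Amb k (Idx q) l' :=
    inf_le_inf_right _ inf_le_left
  let Ψ : (Fin X → k) →ₗ[k] ↥(N ⊓ Amb k (Idx q) l') :=
    Fintype.linearCombination k (fun t => (⟨_, hv t⟩ : ↥(N ⊓ Amb k (Idx q) l')))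
  let Φ : (↥((N ⊓ VanS q a b β c X) ⊓ Amb k (Idx q) l') × (Fin X → k)) →ₗ[k]
      ↥(N ⊓ Amb k (Idx q) l') := (Submodule.inclusion hle).coprod Ψ
  have hΨ : ∀ cf : Fin X → k, ((Ψ cf : ↥(N ⊓ Amb k (Idx q) l')) : Idx q → k[X]) =
      ∑ t : Fin X, cf t • (fun i => (minpoly k β) ^ (t : ℕ) * p i : Idx q → k[X]) := by
    intro cf
    simp only [Ψ, Fintype.linearCombination_apply, Submodule.coe_sum, Submodule.coe_smul]
  have hinj : Function.Injective Φ := by
    rw [← LinearMap.ker_eq_bot, LinearMap.ker_eq_bot']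
    rintro ⟨w, cf⟩ hw
    have h8 : (w : Idx q → k[X]) +
        ∑ t : Fin X, cf t • (fun i => (minpoly k β) ^ (t : ℕ) * p i : Idx q → k[X]) = 0 := by
      rw [← hΨ]
      have h9 := congrArg (fun z : ↥(N ⊓ Amb k (Idx q) l') => (z : Idx q → k[X])) hw
      simpa [Φ] using h9
    have h10 : (∑ t : Fin X, cf t • (fun i => (minpoly k β) ^ (t : ℕ) * p i : Idx q → k[X])) ∈
        VanS q a b β c X := by
      rw [← neg_eq_of_add_eq_zero_right h8]
      exact Submodule.neg_mem _ (Submodule.mem_inf.1 (Submodule.mem_inf.1 w.2).1).2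
    have h11 := Drop_indep a b β c q X p h0 cf h10
    subst h11
    have h12 : (w : Idx q → k[X]) = 0 := by simpa using h8
    have h13 : w = 0 := Subtype.ext h12
    rw [h13]
    rfl
  have h14 := LinearMap.finrank_le_finrank_of_injective hinj
  rw [Module.finrank_prod, Module.finrank_fintype_fun_eq_card, Fintype.card_fin] at h14
  exact h14

end Pool.Agent.ZFin
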