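import Pool.Agent.ZFin.Defs
import Pool.Agent.ZFin.TA

/-! # Module RRdom: `RR a b` over a field is a domain; coordinates -/

namespace Pool.Agent.ZFin
open Pool.Agent.ZCM

private theorem RRdom_norm {F : Type*} [Field F] (a b : F) {z : RR a b}
    (h : QuadraticAlgebra.norm z = 0) : z = 0 := by
  by_contra hz
  have h1 : ¬ (z.re = 0 ∧ z.im = 0) := by
    intro h2
    exact hz (QuadraticAlgebra.ext h2.1 h2.2)
  refine TA_ne z.re z.im (ff a b) (TA_f a b) h1 ?_
  rw [QuadraticAlgebra.norm_def] at h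
  linear_combination h

/-- `U^2 - V^2 f ≠ 0` for `(U,V) ≠ (0,0)` (degrees), hence `F[x,y]/(y^2-f)` is a domain. -/
theorem RR_isDomain {F : Type*} [Field F] (a b : F) : IsDomain (RR a b) := by
  have h1 : NoZeroDivisors (RR a b) := ⟨fun {z w} h => by
    have h2 : QuadraticAlgebra.norm z * QuadraticAlgebra.norm w = 0 := by
      rw [← map_mul, h, QuadraticAlgebra.norm_zero]
    rcases mul_eq_zero.mp h2 with h3 | h3
    · exact Or.inl (RRdom_norm a b h3)
    · exact Or.inr (RRdom_norm a b h3)⟩
  exact NoZeroDivisors.to_isDomain _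

private theorem RRdom_xpow {A : Type*} [CommRing A] (a b w : A) (j : ℕ) :
    algebraMap A (RR a b) w * xx a b ^ j =
      algebraMap (Polynomial A) (RR a b) (Polynomial.C w * Polynomial.X ^ j) := by
  rw [map_mul, map_pow]
  rfl

/-- the elements `x^j y^ε` are linearly independent: if `∑ w_{jε} x^j y^ε = 0` then `w = 0` -/
theorem RR_indep {F : Type*} [Field F] (a b : F) (n : ℕ) (w : Fin n × Fin 2 → F)
    (h : ∑ i, algebraMap F (RR a b) (w i) * xx a b ^ (i.1 : ℕ) * yy a b ^ (i.2 : ℕ) = 0) :
    w = 0 := by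
  have h1 : algebraMap (Polynomial F) (RR a b)
        (∑ j : Fin n, Polynomial.C (w (j, 0)) * Polynomial.X ^ (j : ℕ)) +
      algebraMap (Polynomial F) (RR a b)
        (∑ j : Fin n, Polynomial.C (w (j, 1)) * Polynomial.X ^ (j : ℕ)) * yy a b = 0 := by
    rw [← h, Fintype.sum_prod_type, map_sum, map_sum, Finset.sum_mul, ← Finset.sum_add_distrib]
    refine Finset.sum_congr rfl fun j _ => ?_
    rw [Fin.sum_univ_two, ← RRdom_xpow, ← RRdom_xpow]
    simp
  have h2 := congrArg QuadraticAlgebra.re h1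
  have h3 := congrArg QuadraticAlgebra.im h1
  simp only [QuadraticAlgebra.re_add, QuadraticAlgebra.im_add, QuadraticAlgebra.re_mul,
    QuadraticAlgebra.im_mul, QuadraticAlgebra.algebraMap_re, QuadraticAlgebra.algebraMap_im, yy,
    QuadraticAlgebra.omega_re, QuadraticAlgebra.omega_im, QuadraticAlgebra.re_zero,
    QuadraticAlgebra.im_zero, mul_zero, add_zero, zero_add, mul_one] at h2 h3
  have key : ∀ v : Fin n → F,
      ∑ j : Fin n, Polynomial.C (v j) * (Polynomial.X : Polynomial F) ^ (j : ℕ) = 0 →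
        ∀ j, v j = 0 := by
    intro v hv j
    have h4 := congrArg (fun p => Polynomial.coeff p (j : ℕ)) hv
    simp only [Polynomial.finsetSum_coeff, Polynomial.coeff_C_mul, Polynomial.coeff_X_pow,
      Polynomial.coeff_zero] at h4
    rw [Finset.sum_eq_single j] at h4
    · simpa using h4
    · intro i _ hij
      rw [if_neg, mul_zero]
      intro h5
      exact hij (Fin.ext h5.symm)
    · intro h5
      exact absurd (Finset.mem_univ j) h5
  funext i
  obtain ⟨j, e⟩ := i
  fin_cases e
  · exact key (fun j => w (j, 0)) h2 j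
  · exact key (fun j => w (j, 1)) h3 j

/-- `x ↦ 2y`, `y ↦ 3x^2+a` -/
theorem dR_xx {F : Type*} [Field F] (a b : F) : dR a b (xx a b) = 2 * yy a b := by
  have e : dR a b (xx a b) = ⟨2 * Polynomial.derivative (xx a b).im * ff a b
      + (xx a b).im * Polynomial.derivative (ff a b), 2 * Polynomial.derivative (xx a b).re⟩ := rfl
  rw [e]
  ext1
  · simp [xx, yy, QuadraticAlgebra.re_mul, QuadraticAlgebra.im_ofNat]
  · simp [xx, yy, QuadraticAlgebra.im_mul, QuadraticAlgebra.re_ofNat]

theorem dR_yy {F : Type*} [Field F] (a b : F) :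
    dR a b (yy a b) = 3 * xx a b ^ 2 + algebraMap F (RR a b) a := by
  have e : dR a b (yy a b) = ⟨2 * Polynomial.derivative (yy a b).im * ff a b
      + (yy a b).im * Polynomial.derivative (ff a b), 2 * Polynomial.derivative (yy a b).re⟩ := rfl
  have e2 : (3 : RR a b) * xx a b ^ 2 + algebraMap F (RR a b) a =
      algebraMap (Polynomial F) (RR a b) (3 * Polynomial.X ^ 2 + Polynomial.C a) := by
    rw [map_add, map_mul, map_pow, map_ofNat]
    rfl
  rw [e, e2]
  ext1
  · rw [QuadraticAlgebra.algebraMap_re]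
    have e3 : (Polynomial.C (2 : F) : Polynomial F) = 2 := rfl
    simp [yy, ff, e3]
    ring
  · rw [QuadraticAlgebra.algebraMap_im]
    simp [yy]

end Pool.Agent.ZFin
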