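import Pool.Agent.ZFin.Alg
import Pool.Agent.ZFin.RRdom
import Pool.Agent.ZFin.Convex

/-! # Module Star2: a solution not vanishing at the extra point (section 3.5) -/

namespace Pool.Agent.ZFin
open Polynomial

/-- the value of `gk` at `t = 0` -/
private theorem Star2_gk_zero {k K : Type} [Field k] [Field K] [Algebra k K]
    (a b : k) (β c : K) (q : ℕ) (p : Idx q → k[X]) :
    gk a b β c 0 p = ∑ i : Idx q,
      algebraMap K (RR (algebraMap k K a) (algebraMap k K b)) (aeval β (p i)) *
        xx (algebraMap k K a) (algebraMap k K b) ^ (i.1 : ℕ) *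
        yy (algebraMap k K a) (algebraMap k K b) ^ (i.2.1 : ℕ) *
        algebraMap K (RR (algebraMap k K a) (algebraMap k K b)) c ^ (i.2.2 : ℕ) := by
  unfold gk gt mv
  rw [Function.iterate_zero, id, map_sum]
  refine Finset.sum_congr rfl fun i _ => ?_
  rw [map_mul, map_mul, map_mul, map_pow, map_pow, map_pow, MvPolynomial.aeval_X,
    MvPolynomial.aeval_X, MvPolynomial.aeval_X]
  have h1 : (MvPolynomial.aeval
      ![algebraMap K (RR (algebraMap k K a) (algebraMap k K b)) β,
        xx (algebraMap k K a) (algebraMap k K b), yy (algebraMap k K a) (algebraMap k K b),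
        algebraMap K (RR (algebraMap k K a) (algebraMap k K b)) c])
      ((aeval (MvPolynomial.X 0 : MvPolynomial (Fin 4) K)) (bc K p i)) =
      algebraMap K (RR (algebraMap k K a) (algebraMap k K b)) (aeval β (p i)) := by
    rw [← Polynomial.aeval_algHom_apply, MvPolynomial.aeval_X]
    show aeval (algebraMap K (RR (algebraMap k K a) (algebraMap k K b)) β) (bc K p i) = _
    rw [Polynomial.aeval_algebraMap_apply, bc, Polynomial.aeval_map_algebraMap]
  rw [h1]
  rfl

/-- the relations given by `gk = 0` at `t = 0` -/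
private theorem Star2_rel {k K : Type} [Field k] [Field K] [Algebra k K]
    (a b : k) (β c : K) (q : ℕ) (p : Idx q → k[X]) (h : gk a b β c 0 p = 0)
    (j : Fin ((q + 1) ^ 2)) (e : Fin 2) :
    ∑ s : Fin (q + 1), aeval β (p (j, e, s)) * c ^ (s : ℕ) = 0 := by
  rw [Star2_gk_zero] at h
  have h2 := RR_indep (algebraMap k K a) (algebraMap k K b) ((q + 1) ^ 2)
    (fun i => ∑ s : Fin (q + 1), aeval β (p (i.1, i.2, s)) * c ^ (s : ℕ)) (by
      rw [← h, Fintype.sum_prod_type, Fintype.sum_prod_type]
      refine Finset.sum_congr rfl fun j _ => ?_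
      rw [Fintype.sum_prod_type]
      refine Finset.sum_congr rfl fun e _ => ?_
      rw [map_sum, Finset.sum_mul, Finset.sum_mul]
      refine Finset.sum_congr rfl fun s _ => ?_
      rw [map_mul, map_pow]
      ring)
  exact congrFun h2 (j, e)

theorem exists_star {k K : Type} [Field k] [CharZero k] [Field K] [Algebra k K]
    [FiniteDimensional k K] (a b : k) (β c : K) (q l : ℕ)
    (N : Submodule k (Idx q → k[X]))
    (hmul : ∀ p ∈ N, (fun i => minpoly k β * p i) ∈ N)
    (hdiv : ∀ p : Idx q → k[X], (fun i => minpoly k β * p i) ∈ N → p ∈ N)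
    (hinc : fl N l + (minpoly k β).natDegree * (2 * q * (q + 1) ^ 2) <
      fl N (l + (minpoly k β).natDegree)) :
    ∃ p ∈ N ⊓ Amb k (Idx q) (l + (minpoly k β).natDegree), gk a b β c 0 p ≠ 0 := by
  classical
  by_contra hcon
  push Not at hcon
  have hint : IsIntegral k β := Algebra.IsIntegral.isIntegral β
  have hne : minpoly k β ≠ 0 := minpoly.ne_zero hint
  set a0 := (minpoly k β).natDegree with ha0
  have fd1 : FiniteDimensional k ↥(N ⊓ Amb k (Idx q) (l + a0)) := Amb_finite N (l + a0)
  have fd2 : FiniteDimensional k ↥(N ⊓ Amb k (Idx q) l) := Amb_finite N l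
  -- the map to the values
  let psi0 : (Idx q → k[X]) →ₗ[k]
      ((Fin ((q + 1) ^ 2) × Fin 2 × Fin q) → IntermediateField.adjoin k {β}) :=
    { toFun := fun p i => aeval (IntermediateField.AdjoinSimple.gen k β) (p (i.1, i.2.1, i.2.2.succ))
      map_add' := fun x y => by
        funext i
        simp only [Pi.add_apply, map_add]
      map_smul' := fun r x => by
        funext i
        simp only [Pi.smul_apply, map_smul, RingHom.id_apply] }
  let psi : ↥(N ⊓ Amb k (Idx q) (l + a0)) →ₗ[k]
      ((Fin ((q + 1) ^ 2) × Fin 2 × Fin q) → IntermediateField.adjoin k {β}) :=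
    psi0.comp (N ⊓ Amb k (Idx q) (l + a0)).subtype
  -- multiplication by the minimal polynomial
  let mu0 : (Idx q → k[X]) →ₗ[k] (Idx q → k[X]) :=
    { toFun := fun p i => minpoly k β * p i
      map_add' := fun x y => by
        funext i
        simp only [Pi.add_apply, mul_add]
      map_smul' := fun r x => by
        funext i
        simp only [Pi.smul_apply, mul_smul_comm, RingHom.id_apply] }
  let mu : ↥(N ⊓ Amb k (Idx q) l) →ₗ[k] (Idx q → k[X]) :=
    mu0.comp (N ⊓ Amb k (Idx q) l).subtype
  -- the kernel
  have hker : (LinearMap.ker psi).map (N ⊓ Amb k (Idx q) (l + a0)).subtype ≤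
      LinearMap.range mu := by
    rintro _ ⟨⟨p, hp⟩, hpk, rfl⟩
    have hpk' : ∀ i : Fin ((q + 1) ^ 2) × Fin 2 × Fin q,
        aeval (IntermediateField.AdjoinSimple.gen k β) (p (i.1, i.2.1, i.2.2.succ)) = 0 := by
      intro i
      exact congrFun (LinearMap.mem_ker.1 hpk) i
    have hval : ∀ i : Fin ((q + 1) ^ 2) × Fin 2 × Fin q,
        aeval β (p (i.1, i.2.1, i.2.2.succ)) = 0 := by
      intro i
      have h3 := congrArg (algebraMap (IntermediateField.adjoin k {β}) K) (hpk' i)
      rw [map_zero, ← Polynomial.aeval_algebraMap_apply,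
        IntermediateField.AdjoinSimple.algebraMap_gen] at h3
      exact h3
    have hrel := Star2_rel a b β c q p (hcon p hp)
    have hall : ∀ i : Idx q, aeval β (p i) = 0 := by
      rintro ⟨j, e, s⟩
      refine Fin.cases ?_ (fun s' => hval (j, e, s')) s
      have h4 := hrel j e
      rw [Fin.sum_univ_succ] at h4
      have h5 : ∑ s : Fin q, aeval β (p (j, e, s.succ)) * c ^ ((s.succ : Fin (q + 1)) : ℕ) = 0 :=
        Finset.sum_eq_zero fun s _ => by rw [hval (j, e, s), zero_mul]
      rw [h5, add_zero, Fin.val_zero, pow_zero, mul_one] at h4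
      exact h4
    have hdvd : ∀ i, minpoly k β ∣ p i := fun i => minpoly.dvd k β (hall i)
    choose r hr using hdvd
    have hpr : p = fun i => minpoly k β * r i := funext hr
    refine ⟨⟨r, ?_, ?_⟩, ?_⟩
    · exact hdiv r (hpr ▸ hp.1)
    · intro i _
      have h6 : p i ∈ degreeLT k (l + a0) := hp.2 i (Set.mem_univ i)
      show r i ∈ degreeLT k l
      rw [mem_degreeLT] at h6 ⊢
      by_cases hri : r i = 0
      · rw [hri, degree_zero]
        exact WithBot.bot_lt_coe l
      · rw [hr i, degree_mul, degree_eq_natDegree hne, degree_eq_natDegree hri] at h6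
        rw [degree_eq_natDegree hri]
        have h7 : (minpoly k β).natDegree + (r i).natDegree < l + a0 := by exact_mod_cast h6
        have h8 : (r i).natDegree < l := by omega
        exact_mod_cast h8
    · exact hpr.symm
  have hk1 : Module.finrank k (LinearMap.ker psi) ≤ fl N l := by
    have e1 : Module.finrank k
        ((LinearMap.ker psi).map (N ⊓ Amb k (Idx q) (l + a0)).subtype) =
        Module.finrank k (LinearMap.ker psi) :=
      LinearEquiv.finrank_eq
        (Submodule.equivMapOfInjective _ (Submodule.injective_subtype _) _).symm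
    rw [← e1]
    exact (Submodule.finrank_mono hker).trans (LinearMap.finrank_range_le mu)
  have fd3 : FiniteDimensional k (IntermediateField.adjoin k {β}) :=
    IntermediateField.adjoin.finiteDimensional hint
  have hr1 : Module.finrank k (LinearMap.range psi) ≤ a0 * (2 * q * (q + 1) ^ 2) := by
    refine (Submodule.finrank_le _).trans ?_
    rw [Module.finrank_pi_fintype]
    simp only [Finset.sum_const, Finset.card_univ, Fintype.card_prod, Fintype.card_fin, smul_eq_mul]
    rw [IntermediateField.adjoin.finrank hint]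
    apply le_of_eq
    ring
  have hrn := LinearMap.finrank_range_add_finrank_ker psi
  have hfl : Module.finrank k ↥(N ⊓ Amb k (Idx q) (l + a0)) = fl N (l + a0) := rfl
  rw [hfl] at hrn
  omega

end Pool.Agent.ZFin
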