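import Pool.Agent.ZFin.Cnt
import Pool.Agent.ZFin.Star2
import Pool.Agent.ZFin.Drop
import Pool.Agent.ZFin.AlgK

/-! # Module Gap: end of section 3 -/

namespace Pool.Agent.ZFin

/-- hypothesis for the small solution: the conditions at the extra point `(β0,c0)` of order
`< X_1 m` cost at least `X_1 m` dimensions -/
def GapHyp (D : ℕ) {k : Type} [Field k] {K : Fin (rr D) → Type}
    [∀ i, Field (K i)] [∀ i, Algebra k (K i)] {K0 : Type} [Field K0] [Algebra k K0]
    (a b : k) (β c : ∀ i, K i) (β0 c0 : K0) : Prop :=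
  ∃ m0 : ℕ, ∀ m ≥ m0,
    fl (LamS (8 * D) a b β c m ⊓ VanS (8 * D) a b β0 c0 (X1 D * m)) (LL D m) + X1 D * m ≤
      fl (LamS (8 * D) a b β c m) (LL D m)

theorem Gap_incr {k : Type} [Field k] {ι : Type} (N : Submodule k (ι → Polynomial k)) (l0 g : ℕ)
    (h : ∀ l ≥ l0, fl N l + g < fl N (l + 1)) (j : ℕ) :
    fl N l0 + (j + 1) * g < fl N (l0 + (j + 1)) := by
  induction j with
  | zero => simpa using h l0 le_rfl
  | succ j ih =>
    have h1 := h (l0 + (j + 1)) (by omega)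
    have e : l0 + (j + 1 + 1) = l0 + (j + 1) + 1 := by omega
    rw [e]
    have e2 : (j + 1 + 1) * g = (j + 1) * g + g := by ring
    omega

theorem Gap_aeval {k : Type} [Field k] {K K0 : Type} [Field K] [Algebra k K]
    [FiniteDimensional k K] [Field K0] [Algebra k K0] [FiniteDimensional k K0]
    (β : K) (β0 : K0) (hne : minpoly k β0 ≠ minpoly k β) :
    Polynomial.aeval β (minpoly k β0) ≠ 0 := by
  intro h
  have h0 : IsIntegral k β0 := Algebra.IsIntegral.isIntegral β0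
  exact hne (minpoly.eq_of_irreducible_of_monic (minpoly.irreducible h0) h (minpoly.monic h0))

theorem gap {D : ℕ} (hD : 1 ≤ D) {k : Type} [Field k] [CharZero k] {K : Fin (rr D) → Type}
    [∀ i, Field (K i)] [∀ i, Algebra k (K i)] [∀ i, FiniteDimensional k (K i)]
    [Algebra k ℂ] [∀ i, Algebra (K i) ℂ] [∀ i, IsScalarTower k (K i) ℂ]
    {K0 : Type} [Field K0] [Algebra k K0] [FiniteDimensional k K0]
    (L : PeriodPair) (a b : k) (h2 : L.g₂ = -4 * algebraMap k ℂ a)
    (h3 : L.g₃ = -4 * algebraMap k ℂ b)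
    (β c : ∀ i, K i) (hgen : ∀ i, IntermediateField.adjoin k {β i, c i} = ⊤)
    (hinj : ∀ i j, minpoly k (β i) = minpoly k (β j) → i = j)
    (hκ : ∀ i, Module.finrank k (K i) ≤ D) (β0 c0 : K0) (hκ0 : Module.finrank k K0 ≤ D)
    (hne : ∀ i, minpoly k β0 ≠ minpoly k (β i)) :
    GapHyp D a b β c β0 c0 := by
  obtain ⟨m0, hm0⟩ := fl_big hD L a b h2 h3 β c hgen hinj hκ
  refine ⟨m0, fun m hm => ?_⟩
  have hbig := hm0 m hm
  have h0 : IsIntegral k β0 := Algebra.IsIntegral.isIntegral β0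
  have ha0 : 0 < (minpoly k β0).natDegree := minpoly.natDegree_pos h0
  have haD : (minpoly k β0).natDegree ≤ D := (minpoly.natDegree_le β0).trans hκ0
  have hmul : ∀ (φ : Polynomial k), ∀ p ∈ LamS (8 * D) a b β c m,
      (fun i => φ * p i) ∈ LamS (8 * D) a b β c m := by
    intro φ p hp
    rw [mem_LamS] at hp ⊢
    exact fun i => gk_van_mul a b (β i) (c i) m φ p (hp i)
  have hdiv : ∀ p : Idx (8 * D) → Polynomial k,
      (fun i => minpoly k β0 * p i) ∈ LamS (8 * D) a b β c m → p ∈ LamS (8 * D) a b β c m := by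
    intro p hp
    rw [mem_LamS] at hp ⊢
    exact fun i => gk_van_div a b (β i) (c i) m (minpoly k β0)
      (Gap_aeval (β i) β0 (hne i)) p (hp i)
  have hinc : fl (LamS (8 * D) a b β c m) (r4 D * m) +
      (minpoly k β0).natDegree * (2 * (8 * D) * (8 * D + 1) ^ 2) <
      fl (LamS (8 * D) a b β c m) (r4 D * m + (minpoly k β0).natDegree) := by
    obtain ⟨j, hj⟩ : ∃ j, (minpoly k β0).natDegree = j + 1 := ⟨_, (Nat.succ_pred_eq_of_pos ha0).symm⟩
    rw [hj]
    exact Gap_incr _ _ _ hbig j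
  obtain ⟨p, hp, hp0⟩ := exists_star a b β0 c0 (8 * D) (r4 D * m) (LamS (8 * D) a b β c m)
    (fun p hp => hmul _ p hp) hdiv hinc
  refine drop a b β0 c0 (8 * D) (r4 D * m) (LL D m) (X1 D * m) (LamS (8 * D) a b β c m) hmul p hp
    hp0 ?_
  have e : LL D m = r4 D * m + D * (X1 D * m) := by
    rw [LL]; ring
  rw [e]
  exact Nat.add_le_add_left (Nat.mul_le_mul_right _ haD) _

end Pool.Agent.ZFin
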