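import Pool.Agent.ZFin.Defs

/-! # Module GelNum: numerics of section 6 -/

namespace Pool.Agent.ZFin

private theorem GelNum_X1 (D : ℕ) :
    (200 : ℝ) * D ^ 2 * dl (8 * D) * (X1 D : ℝ) = (rr D : ℝ) := by
  have h1 : (200 : ℕ) * D ^ 2 * dl (8 * D) * X1 D = rr D := by
    simp only [X1, rr, r4, E2]
    ring
  exact_mod_cast h1

private theorem GelNum_dl (D : ℕ) : (1 : ℝ) ≤ (dl (8 * D) : ℝ) := by
  have : 1 ≤ dl (8 * D) := by
    unfold dl
    omega
  exact_mod_cast this

private theorem GelNum_rr (D : ℕ) (hD : 1 ≤ D) : (1 : ℝ) ≤ (rr D : ℝ) := by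
  have h : 0 < rr D := by
    have hdl : 0 < dl (8 * D) := by unfold dl; omega
    simp only [rr, r4, E2]
    positivity
  exact_mod_cast h

/-- numerics of section 6 -/
theorem gel_num (D : ℕ) (hD : 1 ≤ D) (C : ℝ) (hC : 0 ≤ C) : ∃ (C' : ℝ) (m0 : ℕ), 0 ≤ C' ∧
    ∀ m ≥ m0, ∀ e : ℕ, e < X1 D * m →
      (X1 D * m * Real.log m + C * m) + (e * Real.log (LL D m + e + 1) + C * (LL D m + e + 1)) ≤
        2 * X1 D * m * Real.log m + C' * m ∧
      -(36 / 100 : ℝ) * rr D * m * Real.log m + C * LL D m +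
        (2 * D - 1) * (2 * X1 D * m * Real.log m + C' * m + C) ≤
        -6 * ((D * dl (8 * D) : ℕ) : ℝ) * (2 * D * (2 * X1 D * m * Real.log m + C' * m + C)) := by
  have hX := GelNum_X1 D
  have hdl := GelNum_dl D
  have hrr := GelNum_rr D hD
  have hDr : (1 : ℝ) ≤ (D : ℝ) := by exact_mod_cast hD
  set δ : ℝ := (dl (8 * D) : ℝ) with hδ
  set x : ℝ := (X1 D : ℝ) with hx
  set r : ℝ := (rr D : ℝ) with hr
  set lam : ℝ := ((r4 D + D * X1 D : ℕ) : ℝ) with hlam
  have hx0 : 0 ≤ x := Nat.cast_nonneg _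
  have hlam0 : 0 ≤ lam := Nat.cast_nonneg _
  set C' : ℝ := C + x * Real.log (lam + x + 1) + C * (lam + x + 1) with hC'
  have hlog0 : 0 ≤ Real.log (lam + x + 1) := Real.log_nonneg (by linarith)
  have hC'0 : 0 ≤ C' := by positivity
  set B : ℝ := C * lam + ((2 * D - 1) + 12 * D ^ 2 * δ) * (C' + C) with hB
  refine ⟨C', max 1 ⌈Real.exp (B / (22 / 100 * r))⌉₊, hC'0, ?_⟩
  intro m hm e he
  have hm1 : 1 ≤ m := le_trans (le_max_left _ _) hm
  have hm2 : ⌈Real.exp (B / (22 / 100 * r))⌉₊ ≤ m := le_trans (le_max_right _ _) hm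
  have hm1r : (1 : ℝ) ≤ (m : ℝ) := by exact_mod_cast hm1
  have hm2r : Real.exp (B / (22 / 100 * r)) ≤ (m : ℝ) :=
    le_trans (Nat.le_ceil _) (by exact_mod_cast hm2)
  have hmpos : (0 : ℝ) < m := by linarith
  have hL : (LL D m : ℝ) = lam * m := by
    rw [hlam, LL]; push_cast; ring
  have her : (e : ℝ) ≤ x * m := by
    have : (e : ℝ) < ((X1 D * m : ℕ) : ℝ) := by exact_mod_cast he
    rw [Nat.cast_mul] at this
    exact this.le
  have he0 : (0 : ℝ) ≤ e := Nat.cast_nonneg _
  have hlogm : 0 ≤ Real.log m := Real.log_nonneg hm1r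
  have hlogB : B / (22 / 100 * r) ≤ Real.log m := by
    rw [Real.le_log_iff_exp_le hmpos]; exact hm2r
  have hsum : lam * m + e + 1 ≤ (lam + x + 1) * m := by nlinarith
  have hsum1 : 1 ≤ lam * m + e + 1 := by
    have : 0 ≤ lam * m := by positivity
    linarith
  have hlog1 : Real.log (lam * m + e + 1) ≤ Real.log (lam + x + 1) + Real.log m := by
    rw [← Real.log_mul (by linarith) (by linarith)]
    exact Real.log_le_log (by linarith) hsum
  have hlog1' : 0 ≤ Real.log (lam * m + e + 1) := Real.log_nonneg hsum1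
  refine ⟨?_, ?_⟩
  · rw [hL]
    have h1 : (e : ℝ) * Real.log (lam * m + e + 1) ≤
        x * m * (Real.log (lam + x + 1) + Real.log m) :=
      mul_le_mul her hlog1 hlog1' (by positivity)
    have h2 : C * (lam * m + e + 1) ≤ C * ((lam + x + 1) * m) :=
      mul_le_mul_of_nonneg_left hsum hC
    have h3 : x * m * (Real.log (lam + x + 1) + Real.log m) =
        x * m * Real.log m + x * Real.log (lam + x + 1) * m := by ring
    have h4 : C' * m = C * m + x * Real.log (lam + x + 1) * m + C * ((lam + x + 1) * m) := by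
      rw [hC']; ring
    rw [h4]
    linarith
  · rw [hL]
    have hD2 : ((D * dl (8 * D) : ℕ) : ℝ) = D * δ := by push_cast; rfl
    rw [hD2]
    -- main inequality
    have hml : 0 ≤ (m : ℝ) * Real.log m := by positivity
    have hkey : 22 / 100 * r ≤ 36 / 100 * r - (2 * D - 1) * (2 * x) - 24 * D ^ 2 * δ * x := by
      have e1 : 24 * (D : ℝ) ^ 2 * δ * x = 12 / 100 * r := by rw [← hX]; ring
      have e2 : (2 * (D : ℝ) - 1) * (2 * x) ≤ 2 / 100 * r := by
        rw [← hX]
        have hDD : (D : ℝ) ≤ D ^ 2 := by nlinarith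
        have hDDd : (D : ℝ) ^ 2 ≤ D ^ 2 * δ := le_mul_of_one_le_right (by positivity) hdl
        have h5 : (2 * (D : ℝ) - 1) * 2 ≤ 4 * (D ^ 2 * δ) := by linarith
        have h5' : (2 * (D : ℝ) - 1) * 2 * x ≤ 4 * (D ^ 2 * δ) * x :=
          mul_le_mul_of_nonneg_right h5 hx0
        have h5'' : (2 : ℝ) / 100 * (200 * D ^ 2 * δ * x) = 4 * (D ^ 2 * δ) * x := by ring
        rw [h5'']
        linarith
      linarith
    have hB2 : B ≤ 22 / 100 * r * Real.log m := by
      have := (div_le_iff₀ (by positivity)).1 hlogB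
      linarith
    have h6 : B * m ≤ (36 / 100 * r - (2 * D - 1) * (2 * x) - 24 * D ^ 2 * δ * x) *
        (m * Real.log m) := by
      have h7 : B * m ≤ 22 / 100 * r * Real.log m * m :=
        mul_le_mul_of_nonneg_right hB2 hmpos.le
      have h7' : 22 / 100 * r * Real.log m * m = 22 / 100 * r * (m * Real.log m) := by ring
      have h8 : 22 / 100 * r * (m * Real.log m) ≤
          (36 / 100 * r - (2 * D - 1) * (2 * x) - 24 * D ^ 2 * δ * x) * (m * Real.log m) :=
        mul_le_mul_of_nonneg_right hkey hml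
      linarith
    have h9 : C * lam * m + ((2 * D - 1) + 12 * D ^ 2 * δ) * (C' * m + C) ≤ B * m := by
      rw [hB]
      have h10 : (0 : ℝ) ≤ (2 * D - 1) + 12 * D ^ 2 * δ := by
        have : (0 : ℝ) ≤ 12 * D ^ 2 * δ := by positivity
        linarith
      have h11 : C ≤ C * m := le_mul_of_one_le_right hC hm1r
      have h12 : ((2 * (D : ℝ) - 1) + 12 * D ^ 2 * δ) * (C' * m + C) ≤
          ((2 * D - 1) + 12 * D ^ 2 * δ) * (C' * m + C * m) :=
        mul_le_mul_of_nonneg_left (by linarith) h10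
      have h13 : (C * lam + ((2 * D - 1) + 12 * D ^ 2 * δ) * (C' + C)) * m =
          C * lam * m + ((2 * D - 1) + 12 * D ^ 2 * δ) * (C' * m + C * m) := by ring
      rw [h13]
      linarith
    have h14 := h9.trans h6
    have h15 : (36 / 100 * r - (2 * D - 1) * (2 * x) - 24 * D ^ 2 * δ * x) *
        (m * Real.log m) = 36 / 100 * r * m * Real.log m -
          (2 * D - 1) * (2 * x * m * Real.log m) -
          6 * (D * δ) * (2 * D * (2 * x * m * Real.log m)) := by ring
    have h16 : ((2 * D - 1) + 12 * D ^ 2 * δ) * (C' * m + C) =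
        (2 * D - 1) * (C' * m + C) + 6 * (D * δ) * (2 * D * (C' * m + C)) := by ring
    rw [h15, h16] at h14
    have h17 : (2 * (D : ℝ) - 1) * (2 * x * m * Real.log m + C' * m + C) =
        (2 * D - 1) * (2 * x * m * Real.log m) + (2 * D - 1) * (C' * m + C) := by ring
    have h18 : -6 * ((D : ℝ) * δ) * (2 * D * (2 * x * m * Real.log m + C' * m + C)) =
        -(6 * (D * δ) * (2 * D * (2 * x * m * Real.log m))) -
          6 * (D * δ) * (2 * D * (C' * m + C)) := by ring
    rw [h17, h18]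
    linarith

end Pool.Agent.ZFin
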