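import Pool.Agent.ZFin.ScaleU
import Pool.Agent.ZCM.Bridge

/-! # Module MainU: the theorem, with translates -/

namespace Pool.Agent.ZFin
open Pool.Agent.ZCM

/-- The theorem. `g2`, `g3`, `zeta` are the invariants and the zeta function of the lattice
`ℤ ω₁ + ℤ ω₂`. -/
theorem mainU (ω₁ ω₂ : ℂ) (him : (ω₂ / ω₁).im ≠ 0) (g2 g3 : ℂ) (zeta : ℂ → ℂ)
    (hg2 : g2 = 60 * ∑' q : ℤ × ℤ,
      if q = 0 then (0 : ℂ) else 1 / ((q.1 : ℂ) * ω₁ + (q.2 : ℂ) * ω₂) ^ 4)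
    (hg3 : g3 = 140 * ∑' q : ℤ × ℤ,
      if q = 0 then (0 : ℂ) else 1 / ((q.1 : ℂ) * ω₁ + (q.2 : ℂ) * ω₂) ^ 6)
    (hzeta : ∀ p, zeta p = 1 / p + ∑' q : ℤ × ℤ,
          if q = 0 then (0 : ℂ) else
            (1 / (p - ((q.1 : ℂ) * ω₁ + (q.2 : ℂ) * ω₂))
              + 1 / ((q.1 : ℂ) * ω₁ + (q.2 : ℂ) * ω₂)
              + p / ((q.1 : ℂ) * ω₁ + (q.2 : ℂ) * ω₂) ^ 2))
    (u v : ℂ) (D : ℕ) (hD : 1 ≤ D) (E : Set ℂ)
    (hE : E = {p : ℂ | (∀ a b : ℤ, p ≠ (a : ℂ) * ω₁ + (b : ℂ) * ω₂) ∧ IsAlgebraic ℚ g2 ∧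
      IsAlgebraic ℚ g3 ∧ IsAlgebraic ℚ (p - u) ∧ IsAlgebraic ℚ (zeta p - v) ∧
      Module.finrank ℚ (IntermediateField.adjoin ℚ {g2, g3, p - u, zeta p - v} :
        IntermediateField ℚ ℂ) ≤ D}) :
    E.Finite ∧ E.ncard ≤ 10 ^ 12 * D ^ 12 := by
  obtain ⟨L, h1, h2⟩ := exists_periodPair ω₁ ω₂ him
  subst h1 h2
  have e2 : g2 = L.g₂ := by rw [hg2, g₂_eq_tsum]
  have e3 : g3 = L.g₃ := by rw [hg3, g₃_eq_tsum]
  have ez : ∀ p, zeta p = zetaL L p := fun p => by rw [hzeta, zetaL_eq_tsum]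
  subst e2 e3
  have key : ∀ T : Finset ℂ, (T : Set ℂ) ⊆ E → T.card ≤ 10 ^ 12 * D ^ 12 := by
    intro T hT
    rcases T.eq_empty_or_nonempty with rfl | ⟨p0, hp0⟩
    · simp
    · have h0 : p0 ∈ E := hT hp0
      rw [hE] at h0
      refine count_pairU L h0.2.1 h0.2.2.1 u v D hD T ?_
      intro p hp
      have hpE : p ∈ E := hT hp
      rw [hE] at hpE
      obtain ⟨ha, -, -, hb, hc, hd⟩ := hpE
      rw [ez] at hc hd
      refine ⟨?_, hb, hc, hd⟩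
      intro hmem
      obtain ⟨m, n, hmn⟩ := (PeriodPair.mem_lattice (L := L)).1 hmem
      exact ha m n hmn.symm
  have hfin : E.Finite := by
    by_contra hinf
    obtain ⟨T, hTE, hTc⟩ := Set.Infinite.exists_subset_card_eq (s := E) hinf (10 ^ 12 * D ^ 12 + 1)
    have := key T hTE
    omega
  refine ⟨hfin, ?_⟩
  rw [Set.ncard_eq_toFinset_card E hfin]
  exact key _ (by simp)

end Pool.Agent.ZFin
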