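import Mathlib

/-! # Module PHrows: greedy choice of rows (section 4.1) -/

namespace Pool.Agent.ZFin

/-- the functional given by a row -/
private def PHrows_f {I : Type} [Fintype I] (c : I → ℚ) : (I → ℚ) →ₗ[ℚ] ℚ where
  toFun v := ∑ i, c i * v i
  map_add' v w := by
    simp only [Pi.add_apply, mul_add, Finset.sum_add_distrib]
  map_smul' t v := by
    simp only [Pi.smul_apply, smul_eq_mul, RingHom.id_apply, Finset.mul_sum]
    exact Finset.sum_congr rfl fun i _ => by ring

private theorem PHrows_drop {I : Type} [Fintype I] (U : Submodule ℚ (I → ℚ))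
    (f : (I → ℚ) →ₗ[ℚ] ℚ) (h : ∃ v ∈ U, f v ≠ 0) :
    Module.finrank ℚ ↥(U ⊓ LinearMap.ker f) + 1 = Module.finrank ℚ U := by
  obtain ⟨v, hv, hfv⟩ := h
  have hg : f.comp U.subtype ≠ 0 := by
    intro h0
    have := LinearMap.congr_fun h0 ⟨v, hv⟩
    exact hfv this
  have h1 := Module.Dual.finrank_ker_add_one_of_ne_zero hg
  rw [LinearMap.ker_comp] at h1
  rw [← Submodule.map_comap_subtype, Submodule.finrank_map_subtype_eq]
  exact h1

/-- a subfamily of functionals with the same common kernel on `U`, as small as possible -/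
private theorem PHrows_sel {I J : Type} [Fintype I] [DecidableEq J]
    (φ : J → (I → ℚ) →ₗ[ℚ] ℚ) (U : Submodule ℚ (I → ℚ)) (F : Finset J) :
    ∃ R ⊆ F, R.card + Module.finrank ℚ ↥(U ⊓ ⨅ j ∈ F, LinearMap.ker (φ j)) =
      Module.finrank ℚ U ∧ ∀ v ∈ U, (∀ j ∈ R, φ j v = 0) → ∀ j ∈ F, φ j v = 0 := by
  induction F using Finset.induction_on with
  | empty =>
    refine ⟨∅, Finset.Subset.refl _, ?_, ?_⟩
    · have h0 : (U ⊓ ⨅ j ∈ (∅ : Finset J), LinearMap.ker (φ j)) = U := by
        ext v
        simp only [Submodule.mem_inf, Submodule.mem_iInf, Finset.notMem_empty, false_imp_iff,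
          implies_true, and_true]
      rw [h0, Finset.card_empty, zero_add]
    · intro v _ _ j hj
      exact absurd hj (Finset.notMem_empty j)
  | insert j F hj ih =>
    obtain ⟨R, hRF, hcard, hR⟩ := ih
    have hset : (U ⊓ ⨅ i ∈ insert j F, LinearMap.ker (φ i)) =
        (U ⊓ ⨅ i ∈ F, LinearMap.ker (φ i)) ⊓ LinearMap.ker (φ j) := by
      rw [Finset.iInf_insert, inf_assoc, inf_comm (⨅ i ∈ F, LinearMap.ker (φ i))]
    have hmem : ∀ v, v ∈ (U ⊓ ⨅ i ∈ F, LinearMap.ker (φ i)) ↔
        v ∈ U ∧ ∀ i ∈ F, φ i v = 0 := by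
      intro v
      simp only [Submodule.mem_inf, Submodule.mem_iInf, LinearMap.mem_ker]
    by_cases h : ∃ v ∈ (U ⊓ ⨅ i ∈ F, LinearMap.ker (φ i)), φ j v ≠ 0
    · refine ⟨insert j R, Finset.insert_subset_insert j hRF, ?_, ?_⟩
      · have h1 := PHrows_drop _ (φ j) h
        have hjR : j ∉ R := fun h2 => hj (hRF h2)
        rw [hset, Finset.card_insert_of_notMem hjR]
        omega
      · intro v hv hvR i hi
        rcases Finset.mem_insert.mp hi with rfl | hi
        · exact hvR i (Finset.mem_insert_self _ _)
        · exact hR v hv (fun i' hi' => hvR i' (Finset.mem_insert_of_mem hi')) i hi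
    · push Not at h
      have h1 : (U ⊓ ⨅ i ∈ F, LinearMap.ker (φ i)) ⊓ LinearMap.ker (φ j) =
          (U ⊓ ⨅ i ∈ F, LinearMap.ker (φ i)) := inf_eq_left.mpr fun v hv => h v hv
      refine ⟨R, hRF.trans (Finset.subset_insert _ _), ?_, ?_⟩
      · rw [hset, h1]
        exact hcard
      · intro v hv hvR i hi
        have h2 := hR v hv hvR
        rcases Finset.mem_insert.mp hi with rfl | hi
        · exact h v ((hmem v).mpr ⟨hv, h2⟩)
        · exact h2 i hi

/-- greedy choice of rows, level by level -/
theorem choose_rows {I J : Type} [Fintype I] [Fintype J] [DecidableEq J] (A : J → I → ℚ)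
    (lev : J → ℕ) (T : ℕ) (hlev : ∀ j, lev j < T) (W : ℕ → Submodule ℚ (I → ℚ))
    (hW : ∀ s v, v ∈ W s ↔ ∀ j, lev j < s → ∑ i, A j i * v i = 0) (ρ : ℕ → ℕ)
    (hρ : ∀ s < T, Module.finrank ℚ (W s) ≤ Module.finrank ℚ (W (s + 1)) + ρ s) :
    ∃ J' : Finset J, J'.card + Module.finrank ℚ (W T) = Fintype.card I ∧
      (∀ s < T, (J'.filter fun j => lev j = s).card ≤ ρ s) ∧
      ∀ v : I → ℚ, (∀ j ∈ J', ∑ i, A j i * v i = 0) → v ∈ W T := by
  have key : ∀ s, s ≤ T → ∃ J' : Finset J, (∀ j ∈ J', lev j < s) ∧
      J'.card + Module.finrank ℚ (W s) = Fintype.card I ∧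
      (∀ s' < s, (J'.filter fun j => lev j = s').card ≤ ρ s') ∧
      ∀ v : I → ℚ, (∀ j ∈ J', ∑ i, A j i * v i = 0) → v ∈ W s := by
    intro s
    induction s with
    | zero =>
      intro _
      have h0 : W 0 = ⊤ := by
        rw [eq_top_iff]
        intro v _
        rw [hW]
        intro j hj
        omega
      refine ⟨∅, by simp, ?_, by simp, ?_⟩
      · rw [h0, finrank_top, Module.finrank_fintype_fun_eq_card, Finset.card_empty, zero_add]
      · intro v _
        rw [h0]
        exact Submodule.mem_top
    | succ s ih =>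
      intro hs
      obtain ⟨J', hJlev, hJcard, hJρ, hJW⟩ := ih (by omega)
      obtain ⟨R, hRF, hRcard, hR⟩ := PHrows_sel (fun j => PHrows_f (A j)) (W s)
        (Finset.univ.filter fun j => lev j = s)
      have hRlev : ∀ j ∈ R, lev j = s := fun j hj => (Finset.mem_filter.mp (hRF hj)).2
      have hWs : (W s ⊓ ⨅ j ∈ Finset.univ.filter (fun j => lev j = s),
          LinearMap.ker (PHrows_f (A j))) = W (s + 1) := by
        ext v
        simp only [Submodule.mem_inf, Submodule.mem_iInf, LinearMap.mem_ker, Finset.mem_filter,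
          Finset.mem_univ, true_and]
        rw [hW, hW]
        constructor
        · rintro ⟨h1, h2⟩ j hj
          rcases Nat.lt_succ_iff_lt_or_eq.mp hj with h3 | h3
          · exact h1 j h3
          · exact h2 j h3
        · intro h
          exact ⟨fun j hj => h j (by omega), fun j hj => h j (by omega)⟩
      rw [hWs] at hRcard
      have hdisj : Disjoint J' R := by
        rw [Finset.disjoint_left]
        intro j h1 h2
        have := hJlev j h1
        have := hRlev j h2
        omega
      refine ⟨J' ∪ R, ?_, ?_, ?_, ?_⟩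
      · intro j hj
        rcases Finset.mem_union.mp hj with h | h
        · have := hJlev j h
          omega
        · have := hRlev j h
          omega
      · rw [Finset.card_union_of_disjoint hdisj]
        omega
      · intro s' hs'
        rw [Finset.filter_union]
        rcases Nat.lt_succ_iff_lt_or_eq.mp hs' with h | h
        · have h1 : (R.filter fun j => lev j = s') = ∅ := by
            rw [Finset.filter_eq_empty_iff]
            intro j hj
            have := hRlev j hj
            omega
          rw [h1, Finset.union_empty]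
          exact hJρ s' h
        · subst h
          have h1 : (J'.filter fun j => lev j = s') = ∅ := by
            rw [Finset.filter_eq_empty_iff]
            intro j hj
            have := hJlev j hj
            omega
          rw [h1, Finset.empty_union]
          refine (Finset.card_filter_le _ _).trans ?_
          have := hρ s' (by omega)
          omega
      · intro v hv
        rw [← hWs]
        have h1 : v ∈ W s := hJW v fun j hj => hv j (Finset.mem_union_left _ hj)
        have h2 := hR v h1 fun j hj => hv j (Finset.mem_union_right _ hj)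
        simp only [Submodule.mem_inf, Submodule.mem_iInf, LinearMap.mem_ker]
        exact ⟨h1, fun j hj => h2 j hj⟩
  obtain ⟨J', -, h2, h3, h4⟩ := key T le_rfl
  exact ⟨J', h2, h3, h4⟩

end Pool.Agent.ZFin
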