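import Pool.Agent.ZFin.PHbox
import Pool.Agent.ZFin.PHrows

/-! # Module PH: pigeonhole with levels (section 4.1) -/

namespace Pool.Agent.ZFin

/-- number of values of the chosen rows -/
private theorem PH_logcard {J : Type} [DecidableEq J] (J' : Finset J) (lev : J → ℕ) (T : ℕ)
    (hlev : ∀ j, lev j < T) (N : ℝ) (hN : 1 ≤ N) (B : ℕ → ℝ) (hB1 : ∀ s, 1 ≤ B s) (ρ : ℕ → ℕ)
    (hJ : ∀ s < T, (J'.filter fun j => lev j = s).card ≤ ρ s) (X : ℕ) :
    Real.log (((∏ j ∈ J', (2 * ⌊N * B (lev j) * X⌋₊ + 1) : ℕ)) : ℝ) ≤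
      ∑ s ∈ Finset.range T, (ρ s : ℝ) * Real.log (3 * N * B s) + J'.card * Real.log (X + 1) := by
  have h0 : ∀ s, 1 ≤ N * B s := fun s => by nlinarith [hB1 s]
  have h1 : ∀ s, 0 ≤ Real.log (3 * N * B s) := fun s => by
    apply Real.log_nonneg
    nlinarith [h0 s]
  have hX : (0 : ℝ) ≤ X := Nat.cast_nonneg X
  have h2 : ∀ s, Real.log (((2 * ⌊N * B s * X⌋₊ + 1 : ℕ) : ℝ)) ≤
      Real.log (3 * N * B s) + Real.log (X + 1) := by
    intro s
    rw [← Real.log_mul (by nlinarith [h0 s]) (by positivity)]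
    apply Real.log_le_log (by positivity)
    push_cast
    have h3 : (⌊N * B s * X⌋₊ : ℝ) ≤ N * B s * X :=
      Nat.floor_le (mul_nonneg (by linarith [h0 s]) hX)
    nlinarith [h0 s, mul_nonneg (le_trans zero_le_one (h0 s)) hX]
  rw [Nat.cast_prod, Real.log_prod (fun i _ => by positivity)]
  refine (Finset.sum_le_sum fun j _ => h2 (lev j)).trans ?_
  rw [Finset.sum_add_distrib, Finset.sum_const, nsmul_eq_mul]
  refine add_le_add ?_ le_rfl
  rw [← Finset.sum_fiberwise_of_maps_to (s := J') (t := Finset.range T) (g := lev)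
    (fun j _ => Finset.mem_range.mpr (hlev j))]
  refine Finset.sum_le_sum fun s hs => ?_
  rw [Finset.sum_congr rfl (g := fun _ => Real.log (3 * N * B s))
    (fun j hj => by rw [(Finset.mem_filter.mp hj).2]), Finset.sum_const, nsmul_eq_mul]
  exact mul_le_mul_of_nonneg_right (by exact_mod_cast hJ s (Finset.mem_range.mp hs)) (h1 s)

/-- the pigeonhole principle with levels -/
theorem pigeon_levels {I J : Type} [Fintype I] [Fintype J] (A : J → I → ℤ)
    (lev : J → ℕ) (T : ℕ) (hlev : ∀ j, lev j < T) (B : ℕ → ℝ) (hB1 : ∀ s, 1 ≤ B s)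
    (hB : ∀ j i, |(A j i : ℝ)| ≤ B (lev j)) (W : ℕ → Submodule ℚ (I → ℚ))
    (hW : ∀ s v, v ∈ W s ↔ ∀ j, lev j < s → ∑ i, (A j i : ℚ) * v i = 0) (ρ : ℕ → ℕ)
    (hρ : ∀ s < T, Module.finrank ℚ (W s) ≤ Module.finrank ℚ (W (s + 1)) + ρ s)
    (V : Submodule ℚ (I → ℚ)) (hV : V ≤ W T) (K : ℕ)
    (hK : Module.finrank ℚ V + K ≤ Module.finrank ℚ (W T)) (X : ℕ)
    (hX : ∑ s ∈ Finset.range T, (ρ s : ℝ) * Real.log (3 * Fintype.card I * B s) +
      Fintype.card I * Real.log 2 < K * Real.log (X + 1)) :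
    ∃ v : I → ℤ, (∀ i, |v i| ≤ (X : ℤ)) ∧ (fun i => (v i : ℚ)) ∈ W T ∧
      (fun i => (v i : ℚ)) ∉ V := by
  classical
  have _ := hV
  obtain ⟨J', hJ1, hJ2, hJ3⟩ := choose_rows (fun j i => (A j i : ℚ)) lev T hlev W hW ρ hρ
  by_contra hcon
  push Not at hcon
  have hVN : Module.finrank ℚ V ≤ Fintype.card I := by
    have := Submodule.finrank_le V
    rwa [Module.finrank_fintype_fun_eq_card] at this
  rcases Nat.eq_zero_or_pos (Fintype.card I) with hN0 | hN0
  · have hK0 : K = 0 := by omega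
    rw [hN0, hK0] at hX
    simp at hX
  have hN1 : (1 : ℝ) ≤ (Fintype.card I : ℝ) := by exact_mod_cast hN0
  set N : ℝ := (Fintype.card I : ℝ) with hN
  have hX0 : (0 : ℝ) ≤ X := Nat.cast_nonneg X
  -- the box and the map
  set box : Finset (I → ℤ) := Fintype.piFinset (fun _ => Finset.Icc (0 : ℤ) X) with hbox
  have hboxc : box.card = (X + 1) ^ Fintype.card I := by
    rw [hbox, Fintype.card_piFinset, Finset.prod_const, Finset.card_univ, Int.card_Icc]
    congr 1
  set f : (I → ℤ) → (J' → ℤ) := fun v j => ∑ i, A j i * v i with hf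
  set n : ℕ → ℕ := fun s => ⌊N * B s * X⌋₊ with hn
  set tgt : Finset (J' → ℤ) :=
    Fintype.piFinset (fun j : J' => Finset.Icc (-(n (lev j) : ℤ)) (n (lev j) : ℤ)) with htgt
  have htgtc : tgt.card = ∏ j ∈ J', (2 * ⌊N * B (lev j) * X⌋₊ + 1) := by
    rw [htgt, Fintype.card_piFinset, ← Finset.prod_coe_sort J']
    refine Finset.prod_congr rfl fun j _ => ?_
    rw [Int.card_Icc]
    simp only [hn]
    omega
  have hmaps : ∀ v ∈ box, f v ∈ tgt := by
    intro v hv
    rw [htgt, Fintype.mem_piFinset]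
    intro j
    have h1 : |((∑ i, A j i * v i : ℤ) : ℝ)| ≤ N * B (lev j) * X := by
      push_cast
      refine (Finset.abs_sum_le_sum_abs _ _).trans ?_
      have h2 : ∀ i ∈ (Finset.univ : Finset I), |(A j i : ℝ) * (v i : ℝ)| ≤ B (lev j) * X := by
        intro i _
        rw [abs_mul]
        have h3 := (Finset.mem_Icc.mp ((Fintype.mem_piFinset.mp hv) i))
        have h4 : |(v i : ℝ)| ≤ X := by
          rw [abs_of_nonneg (by exact_mod_cast h3.1)]
          exact_mod_cast h3.2
        exact mul_le_mul (hB j i) h4 (abs_nonneg _) (le_trans zero_le_one (hB1 _))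
      refine (Finset.sum_le_sum h2).trans ?_
      rw [Finset.sum_const, Finset.card_univ, nsmul_eq_mul, hN, mul_assoc]
    have h5 : |(∑ i, A j i * v i : ℤ)| ≤ (n (lev j) : ℤ) := by
      have h6 : (|(∑ i, A j i * v i : ℤ)|).toNat ≤ n (lev j) := by
        apply Nat.le_floor
        have h7 : (((|(∑ i, A j i * v i : ℤ)|).toNat : ℕ) : ℝ) = |((∑ i, A j i * v i : ℤ) : ℝ)| := by
          rw [← Int.cast_abs, ← Int.cast_natCast (R := ℝ) (Int.toNat _),
            Int.toNat_of_nonneg (abs_nonneg _)]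
        rw [h7]
        exact h1
      have h8 := abs_nonneg (∑ i, A j i * v i : ℤ)
      omega
    rw [Finset.mem_Icc]
    exact ⟨(abs_le.mp h5).1, (abs_le.mp h5).2⟩
  -- the counting inequality
  have hcount : tgt.card * (2 * X + 1) ^ Module.finrank ℚ V < box.card := by
    have hP := PH_logcard J' lev T hlev N hN1 B hB1 ρ hJ2 X
    have hpos : (0 : ℝ) < (((∏ j ∈ J', (2 * ⌊N * B (lev j) * X⌋₊ + 1) : ℕ)) : ℝ) := by
      have : 0 < ∏ j ∈ J', (2 * ⌊N * B (lev j) * X⌋₊ + 1) := Finset.prod_pos fun _ _ => by omega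
      exact_mod_cast this
    rw [htgtc, hboxc]
    have hgoal : ((((∏ j ∈ J', (2 * ⌊N * B (lev j) * X⌋₊ + 1) : ℕ)) : ℝ) *
        (2 * X + 1) ^ Module.finrank ℚ V) < ((X : ℝ) + 1) ^ Fintype.card I := by
      rw [← Real.log_lt_log_iff (by positivity) (by positivity),
        Real.log_mul hpos.ne' (by positivity), Real.log_pow, Real.log_pow]
      have hl0 : 0 ≤ Real.log ((X : ℝ) + 1) := Real.log_nonneg (by linarith)
      have h2X : Real.log (2 * (X : ℝ) + 1) ≤ Real.log 2 + Real.log (X + 1) := by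
        rw [← Real.log_mul (by norm_num) (by positivity)]
        exact Real.log_le_log (by positivity) (by linarith)
      have hD0 : (0 : ℝ) ≤ (Module.finrank ℚ V : ℝ) := Nat.cast_nonneg _
      have e1 : (Module.finrank ℚ V : ℝ) * Real.log (2 * (X : ℝ) + 1) ≤
          Module.finrank ℚ V * Real.log 2 + Module.finrank ℚ V * Real.log (X + 1) := by
        have := mul_le_mul_of_nonneg_left h2X hD0
        linarith
      have e2 : (Module.finrank ℚ V : ℝ) * Real.log 2 ≤ N * Real.log 2 := by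
        have : (Module.finrank ℚ V : ℝ) ≤ N := by
          rw [hN]; exact_mod_cast hVN
        exact mul_le_mul_of_nonneg_right this (Real.log_nonneg (by norm_num))
      have e3 : ((J'.card : ℝ) + Module.finrank ℚ V + K) * Real.log (X + 1) ≤
          N * Real.log (X + 1) := by
        have : (J'.card : ℝ) + Module.finrank ℚ V + K ≤ N := by
          rw [hN]
          have : J'.card + Module.finrank ℚ V + K ≤ Fintype.card I := by omega
          exact_mod_cast this
        exact mul_le_mul_of_nonneg_right this hl0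
      have e4 : ((J'.card : ℝ) + Module.finrank ℚ V + K) * Real.log (X + 1) =
        J'.card * Real.log (X + 1) + Module.finrank ℚ V * Real.log (X + 1) +
          K * Real.log (X + 1) := by ring
      linarith
    exact_mod_cast hgoal
  obtain ⟨y, _, hy⟩ := Finset.exists_lt_card_fiber_of_mul_lt_card_of_maps_to hmaps hcount
  set fib : Finset (I → ℤ) := box.filter (fun v => f v = y) with hfib
  have hne : fib.Nonempty := Finset.card_pos.mp (by omega)
  obtain ⟨v0, hv0⟩ := hne
  have hcard : (fib.image (fun v => v - v0)).card = fib.card :=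
    Finset.card_image_of_injective _ (sub_left_injective)
  have hle := card_box_le V X (fib.image (fun v => v - v0)) (by
    intro u hu
    obtain ⟨v, hv, rfl⟩ := Finset.mem_image.mp hu
    have hvb := (Finset.mem_filter.mp hv)
    have hvb0 := (Finset.mem_filter.mp hv0)
    have hb : ∀ i, |(v - v0) i| ≤ (X : ℤ) := by
      intro i
      have h3 := (Finset.mem_Icc.mp ((Fintype.mem_piFinset.mp hvb.1) i))
      have h4 := (Finset.mem_Icc.mp ((Fintype.mem_piFinset.mp hvb0.1) i))
      rw [Pi.sub_apply, abs_le]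
      constructor <;> omega
    refine ⟨hcon _ hb ?_, hb⟩
    apply hJ3
    intro j hj
    have h5 : f v ⟨j, hj⟩ = f v0 ⟨j, hj⟩ := by rw [hvb.2, hvb0.2]
    simp only [hf] at h5
    have h6 : (∑ i, A j i * (v - v0) i : ℤ) = 0 := by
      simp only [Pi.sub_apply, mul_sub, Finset.sum_sub_distrib]
      rw [h5, sub_self]
    exact_mod_cast h6)
  rw [hcard] at hle
  omega

end Pool.Agent.ZFin
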