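import Mathlib

/-! # Module PHbox: integer points of a subspace in a box -/

namespace Pool.Agent.ZFin

/-- a subspace of `ℚ^I` of dimension `d` has at most `(2X+1)^d` integer points with `|v_i| ≤ X` -/
theorem card_box_le {I : Type} [Fintype I] [DecidableEq I] (V : Submodule ℚ (I → ℚ)) (X : ℕ)
    (S : Finset (I → ℤ)) (h : ∀ v ∈ S, (fun i => (v i : ℚ)) ∈ V ∧ ∀ i, |v i| ≤ (X : ℤ)) :
    S.card ≤ (2 * X + 1) ^ Module.finrank ℚ V := by
  classical
  -- coordinate functionals on `V`
  let c : I → Module.Dual ℚ V := fun i => (LinearMap.proj i : (I → ℚ) →ₗ[ℚ] ℚ).comp V.subtype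
  obtain ⟨κ, a, ha, hspan, hli⟩ := exists_linearIndependent' ℚ c
  haveI : Fintype κ := Fintype.ofInjective a ha
  have hcard : Fintype.card κ ≤ Module.finrank ℚ V := by
    have h1 := hli.fintype_card_le_finrank
    rwa [Subspace.dual_finrank_eq] at h1
  -- a vector of `V` is determined by the chosen coordinates
  have hdet : ∀ v : V, (∀ k, c (a k) v = 0) → v = 0 := by
    intro v hv
    have h2 : ∀ g ∈ Submodule.span ℚ (Set.range c), g v = 0 := by
      intro g hg
      rw [← hspan] at hg
      induction hg using Submodule.span_induction with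
      | mem x hx =>
        obtain ⟨k, rfl⟩ := hx
        exact hv k
      | zero => rfl
      | add x y _ _ hx hy => rw [LinearMap.add_apply, hx, hy, add_zero]
      | smul r x _ hx => rw [LinearMap.smul_apply, hx, smul_zero]
    apply Subtype.ext
    funext i
    exact h2 (c i) (Submodule.subset_span ⟨i, rfl⟩)
  -- injection into the box of the chosen coordinates
  let B : Finset (κ → ℤ) := Fintype.piFinset (fun _ => Finset.Icc (-(X : ℤ)) X)
  have hB : B.card = (2 * X + 1) ^ Fintype.card κ := by
    rw [Fintype.card_piFinset, Finset.prod_const, Finset.card_univ, Int.card_Icc]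
    congr 1
    omega
  have hle : S.card ≤ B.card := by
    refine Finset.card_le_card_of_injOn (fun v k => v (a k)) ?_ ?_
    · intro v hv
      rw [Finset.mem_coe, Fintype.mem_piFinset]
      intro k
      rw [Finset.mem_Icc]
      exact abs_le.mp ((h v hv).2 (a k))
    · intro v hv w hw hvw
      have hv' := (h v hv).1
      have hw' := (h w hw).1
      have h3 : (⟨_, V.sub_mem hv' hw'⟩ : V) = 0 := by
        apply hdet
        intro k
        have h4 : v (a k) = w (a k) := congrFun hvw k
        change (v (a k) : ℚ) - (w (a k) : ℚ) = 0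
        rw [h4, sub_self]
      have h5 : (fun i => (v i : ℚ)) - (fun i => (w i : ℚ)) = 0 := congrArg Subtype.val h3
      funext i
      have h6 : (v i : ℚ) - (w i : ℚ) = 0 := congrFun h5 i
      have h7 : (v i : ℚ) = (w i : ℚ) := by linarith
      exact_mod_cast h7
  rw [hB] at hle
  exact hle.trans (Nat.pow_le_pow_right (by omega) hcard)

end Pool.Agent.ZFin
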