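import Pool.Agent.ZFin.Alg
import Pool.Agent.ZFin.RRdom
import Pool.Agent.ZCM.Reduce

/-! # Module PolyAB: integrality and size of `M0^(l+q) (D^t P)(β,x,y,c)` -/

namespace Pool.Agent.ZFin
open Polynomial NumberField Pool.Agent.ZCM

/-- a polynomial in `X, y` vanishing on the curve is zero -/
theorem PolyAB_zero (a b : ℂ) (U V : ℂ[X])
    (h : ∀ x y : ℂ, y ^ 2 = x ^ 3 + a * x + b → U.eval x + V.eval x * y = 0) :
    U = 0 ∧ V = 0 := by
  have hU : ∀ x : ℂ, U.eval x = 0 := by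
    intro x
    obtain ⟨y, hy⟩ := IsAlgClosed.exists_pow_nat_eq (x ^ 3 + a * x + b) (n := 2) (by norm_num)
    have h1 := h x y hy
    have h2 := h x (-y) (by rw [neg_pow_two]; exact hy)
    linear_combination (1 / 2 : ℂ) * h1 + (1 / 2 : ℂ) * h2
  have hU0 : U = 0 := Polynomial.funext fun x => by rw [hU x, Polynomial.eval_zero]
  refine ⟨hU0, ?_⟩
  have hf : (X ^ 3 + C a * X + C b : ℂ[X]) ≠ 0 := by
    intro h0
    have := TA_f a b
    rw [h0] at this
    simp at this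
  have hVf : V * (X ^ 3 + C a * X + C b : ℂ[X]) = 0 := by
    refine Polynomial.funext fun x => ?_
    obtain ⟨y, hy⟩ := IsAlgClosed.exists_pow_nat_eq (x ^ 3 + a * x + b) (n := 2) (by norm_num)
    have h1 := h x y hy
    rw [hU x, zero_add] at h1
    rw [Polynomial.eval_mul, Polynomial.eval_zero]
    have h2 : (X ^ 3 + C a * X + C b : ℂ[X]).eval x = y ^ 2 := by
      rw [hy]; simp
    rw [h2, pow_two, ← mul_assoc, h1, zero_mul]
  exact (mul_eq_zero.mp hVf).resolve_right hf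

/-- lifting a polynomial with integral coefficients -/
theorem PolyAB_lift {k K : Type} [Field k] [Field K] [NumberField K] [Algebra k K] (p : k[X])
    (hp : ∀ n, IsIntegral ℤ (p.coeff n)) :
    ∃ P : (𝓞 K)[X], P.map (algebraMap (𝓞 K) K) = p.map (algebraMap k K) ∧
      P.natDegree ≤ p.natDegree := by
  have hint : ∀ n, IsIntegral ℤ (algebraMap k K (p.coeff n)) := fun n =>
    (hp n).map ((algebraMap k K).toIntAlgHom)
  let cc : ℕ → 𝓞 K := fun n => ⟨algebraMap k K (p.coeff n), hint n⟩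
  refine ⟨∑ n ∈ Finset.range (p.natDegree + 1), monomial n (cc n), ?_, ?_⟩
  · rw [Polynomial.map_sum]
    ext n
    rw [Polynomial.finsetSum_coeff, Polynomial.coeff_map]
    simp only [Polynomial.map_monomial, Polynomial.coeff_monomial]
    rw [Finset.sum_ite_eq' (Finset.range (p.natDegree + 1)) n]
    split_ifs with hn
    · rfl
    · rw [Polynomial.coeff_eq_zero_of_natDegree_lt, map_zero]
      rw [Finset.mem_range] at hn
      omega
  · refine Polynomial.natDegree_sum_le_of_forall_le _ _ fun n hn => ?_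
    refine (Polynomial.natDegree_monomial_le _).trans ?_
    rw [Finset.mem_range] at hn
    omega

/-- size of a polynomial in `z` -/
theorem PolyAB_nm_aeval (φ : ℂ[X]) (l : ℕ) (H : ℝ) (hH : 0 ≤ H) (hl : φ.natDegree ≤ l)
    (h : ∀ n, ‖φ.coeff n‖ ≤ H) :
    nm (Polynomial.aeval (MvPolynomial.X 0 : MvPolynomial (Fin 4) ℂ) φ) ≤ (l + 1) * H := by
  have h1 : Polynomial.aeval (MvPolynomial.X 0 : MvPolynomial (Fin 4) ℂ) φ =
      ∑ n ∈ Finset.range (l + 1), MvPolynomial.C (φ.coeff n) * MvPolynomial.X 0 ^ n := by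
    rw [Polynomial.aeval_def, Polynomial.eval₂_eq_sum_range' _ (Nat.lt_succ_of_le hl)]
    rfl
  rw [h1]
  refine (nm_sum_le _ _).trans ?_
  have h2 : ∀ n ∈ Finset.range (l + 1),
      nm (MvPolynomial.C (φ.coeff n) * MvPolynomial.X 0 ^ n : MvPolynomial (Fin 4) ℂ) ≤ H := by
    intro n _
    refine (nm_mul_le _ _).trans ?_
    rw [nm_C]
    have h3 := nm_pow_le (MvPolynomial.X 0 : MvPolynomial (Fin 4) ℂ) n
    rw [nm_X, one_pow] at h3
    calc ‖φ.coeff n‖ * nm (MvPolynomial.X 0 ^ n : MvPolynomial (Fin 4) ℂ)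
        ≤ H * 1 := mul_le_mul (h n) h3 (nm_nonneg _) hH
      _ = H := mul_one H
  refine (Finset.sum_le_sum h2).trans ?_
  rw [Finset.sum_const, Finset.card_range, nsmul_eq_mul]
  push_cast
  exact le_rfl

/-- size of `mv q p` -/
theorem PolyAB_nm_mv (q l : ℕ) (p : Idx q → ℂ[X]) (H : ℝ) (hH : 0 ≤ H)
    (hl : ∀ i, (p i).natDegree ≤ l) (h : ∀ i n, ‖(p i).coeff n‖ ≤ H) :
    nm (mv q p) ≤ Fintype.card (Idx q) * ((l + 1) * H) := by
  unfold mv
  refine (nm_sum_le _ _).trans ?_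
  have hpow : ∀ (j : Fin 4) (n : ℕ), nm (MvPolynomial.X j ^ n : MvPolynomial (Fin 4) ℂ) ≤ 1 := by
    intro j n
    have h3 := nm_pow_le (MvPolynomial.X j : MvPolynomial (Fin 4) ℂ) n
    rwa [nm_X, one_pow] at h3
  have h2 : ∀ i ∈ (Finset.univ : Finset (Idx q)),
      nm (Polynomial.aeval (MvPolynomial.X 0 : MvPolynomial (Fin 4) ℂ) (p i) *
        MvPolynomial.X 1 ^ (i.1 : ℕ) * MvPolynomial.X 2 ^ (i.2.1 : ℕ) *
        MvPolynomial.X 3 ^ (i.2.2 : ℕ)) ≤ (l + 1) * H := by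
    intro i _
    have e0 : nm (Polynomial.aeval (MvPolynomial.X 0 : MvPolynomial (Fin 4) ℂ) (p i)) ≤
        (l + 1) * H := PolyAB_nm_aeval _ l H hH (hl i) (h i)
    have e1 : ∀ (P : MvPolynomial (Fin 4) ℂ) (j : Fin 4) (n : ℕ), nm P ≤ (l + 1) * H →
        nm (P * MvPolynomial.X j ^ n) ≤ (l + 1) * H := by
      intro P j n hP
      refine (nm_mul_le _ _).trans ?_
      calc nm P * nm (MvPolynomial.X j ^ n : MvPolynomial (Fin 4) ℂ)
          ≤ nm P * 1 := mul_le_mul_of_nonneg_left (hpow j n) (nm_nonneg _)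
        _ = nm P := mul_one _
        _ ≤ _ := hP
    exact e1 _ _ _ (e1 _ _ _ (e1 _ _ _ e0))
  refine (Finset.sum_le_sum h2).trans ?_
  rw [Finset.sum_const, Finset.card_univ, nsmul_eq_mul]

/-- use `Pool.Agent.ZCM.reduce`, `Pool.Agent.ZCM.nm_D4_iterate_le`, `totalDegree_mv_le` -/
theorem poly_AB {k K : Type} [Field k] [NumberField k] [Field K] [NumberField K] [Algebra k K]
    (a b : k) (ha : IsIntegral ℤ a) (hb : IsIntegral ℤ b) (β c : K) (q : ℕ) :
    ∃ (M0 : ℕ) (C : ℝ), 0 < M0 ∧ 0 ≤ C ∧ ∀ (l t : ℕ) (H : ℝ) (p : Idx q → k[X]), 0 ≤ H →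
      (∀ i, (p i).natDegree ≤ l) → (∀ i n, IsIntegral ℤ ((p i).coeff n)) →
      (∀ i n, ∀ σ : k →+* ℂ, ‖σ ((p i).coeff n)‖ ≤ H) →
      ∃ A B : (𝓞 K)[X],
        A.map (algebraMap (𝓞 K) K) = ((M0 : K) ^ (l + q)) • (gk a b β c t p).re ∧
        B.map (algebraMap (𝓞 K) K) = ((M0 : K) ^ (l + q)) • (gk a b β c t p).im ∧
        ∀ σ : K →+* ℂ,
          nm1 (A.map (oc σ)) ≤ H * Real.exp (t * Real.log (l + t + 1) + C * (l + t + 1)) ∧
          nm1 (B.map (oc σ)) ≤ H * Real.exp (t * Real.log (l + t + 1) + C * (l + t + 1)) := by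
  classical
  obtain ⟨M0, hM0, hβ, hc⟩ := TA_den β c
  have hia : IsIntegral ℤ (algebraMap k K a) := ha.map ((algebraMap k K).toIntAlgHom)
  have hib : IsIntegral ℤ (algebraMap k K b) := hb.map ((algebraMap k K).toIntAlgHom)
  obtain ⟨a', ha'⟩ : ∃ a' : 𝓞 K, algebraMap (𝓞 K) K a' = algebraMap k K a := ⟨⟨_, hia⟩, rfl⟩
  obtain ⟨b', hb'⟩ : ∃ b' : 𝓞 K, algebraMap (𝓞 K) K b' = algebraMap k K b := ⟨⟨_, hib⟩, rfl⟩
  obtain ⟨C0, hC0, hred⟩ := reduce a' b' β c M0 hM0 hβ hc
  set w0 : ℕ := (q + 1) ^ 2 + 1 + q with hw0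
  set S : ℝ := 3 + ∑ σ : K →+* ℂ, ‖oc σ a'‖ with hS
  have hSσ : ∀ σ : K →+* ℂ, 3 + ‖oc σ a'‖ ≤ S := by
    intro σ
    have := Finset.single_le_sum (f := fun σ : K →+* ℂ => ‖oc σ a'‖)
      (fun τ _ => norm_nonneg _) (Finset.mem_univ σ)
    have h' : ‖oc σ a'‖ ≤ ∑ σ : K →+* ℂ, ‖oc σ a'‖ := this
    rw [hS]; linarith
  have hS3 : 3 ≤ S := by
    have : 0 ≤ ∑ σ : K →+* ℂ, ‖oc σ a'‖ := Finset.sum_nonneg fun τ _ => norm_nonneg _
    rw [hS]; linarith
  have hSw : 1 ≤ S * (w0 + 1) := by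
    have : (0 : ℝ) ≤ w0 := Nat.cast_nonneg _
    nlinarith
  set cI : ℝ := ((Fintype.card (Idx q) : ℕ) : ℝ) with hcI
  have hcI0 : 0 ≤ cI := Nat.cast_nonneg _
  refine ⟨M0, Real.log (S * (w0 + 1)) + cI + 1 + C0 * (q + w0 + 2), hM0, ?_, ?_⟩
  · have := Real.log_nonneg hSw
    positivity
  intro l t H p hH hdeg hint hsize
  choose P0 hP0 hP0d using fun i => PolyAB_lift (K := K) (p i) (hint i)
  have hP0l : ∀ i, (P0 i).natDegree ≤ l := fun i => (hP0d i).trans (hdeg i)
  set g : MvPolynomial (Fin 4) (𝓞 K) := (⇑(D4 a'))^[t] (mv q P0) with hg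
  have hg0 : g.degreeOf 0 ≤ l :=
    (degreeOf_zero_D4_iterate_le a' _ t).trans (degreeOf_zero_mv_le q l P0 hP0l)
  have hg3 : g.degreeOf 3 ≤ q :=
    (degreeOf_three_D4_iterate_le a' _ t).trans (degreeOf_three_mv_le q P0)
  have hgt : g.totalDegree ≤ l + w0 + t :=
    (totalDegree_D4_iterate_le a' _ t).trans
      (Nat.add_le_add_right (totalDegree_mv_le q l P0 hP0l) t)
  set H' : ℝ := (S * (l + w0 + t)) ^ t * (cI * ((l + 1) * H)) with hH'
  have hH'0 : 0 ≤ H' := by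
    rw [hH']; positivity
  have hcoef : ∀ (σ : K →+* ℂ) (i : Idx q), (P0 i).map (oc σ) = (p i).map (σ.comp (algebraMap k K)) := by
    intro σ i
    have h1 : (P0 i).map (oc σ) = ((P0 i).map (algebraMap (𝓞 K) K)).map σ := by
      rw [Polynomial.map_map]
    rw [h1, hP0 i, Polynomial.map_map]
  have hnm : ∀ σ : K →+* ℂ, nm (MvPolynomial.map (oc σ) g) ≤ H' := by
    intro σ
    rw [hg, map_D4_iterate, mv_map]
    refine (nm_D4_iterate_le _ _ t).trans ?_
    have hd1 : ∀ i, ((P0 i).map (oc σ)).natDegree ≤ l := fun i =>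
      (Polynomial.natDegree_map_le).trans (hP0l i)
    have h1 : ((mv q fun i => (P0 i).map (oc σ)).totalDegree : ℝ) ≤ l + w0 := by
      exact_mod_cast totalDegree_mv_le q l _ hd1
    have h2 : nm (mv q fun i => (P0 i).map (oc σ)) ≤ cI * ((l + 1) * H) := by
      refine PolyAB_nm_mv q l _ H hH hd1 ?_
      intro i n
      rw [hcoef σ i, Polynomial.coeff_map]
      exact hsize i n (σ.comp (algebraMap k K))
    rw [hH']
    refine mul_le_mul ?_ h2 (nm_nonneg _) (by positivity)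
    refine pow_le_pow_left₀ (by positivity) ?_ t
    refine mul_le_mul (hSσ σ) ?_ (by positivity) (by positivity)
    linarith
  obtain ⟨A, B, hAB, hsz⟩ := hred l q (l + w0 + t) g H' hg0 hg3 hgt hH'0 hnm
  -- the size
  have hbound : H' * Real.exp (C0 * (l + q + (l + w0 + t : ℕ) + 1)) ≤
      H * Real.exp (t * Real.log (l + t + 1) +
        (Real.log (S * (w0 + 1)) + cI + 1 + C0 * (q + w0 + 2)) * (l + t + 1)) := by
    have hl0 : (0 : ℝ) ≤ l := Nat.cast_nonneg _
    have ht0 : (0 : ℝ) ≤ t := Nat.cast_nonneg _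
    have hq0 : (0 : ℝ) ≤ q := Nat.cast_nonneg _
    have hw00 : (0 : ℝ) ≤ w0 := Nat.cast_nonneg _
    have hN : (1 : ℝ) ≤ l + t + 1 := by linarith
    have e1 : (S * (l + w0 + t)) ^ t ≤
        Real.exp (t * Real.log (l + t + 1) + Real.log (S * (w0 + 1)) * (l + t + 1)) := by
      have h1 : S * (l + w0 + t) ≤ (S * (w0 + 1)) * (l + t + 1) := by
        have : (l : ℝ) + w0 + t ≤ (w0 + 1) * (l + t + 1) := by nlinarith
        calc S * (l + w0 + t) ≤ S * ((w0 + 1) * (l + t + 1)) :=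
              mul_le_mul_of_nonneg_left this (by linarith)
          _ = _ := by ring
      have h2 : (S * (l + w0 + t)) ^ t ≤ ((S * (w0 + 1)) * (l + t + 1)) ^ t :=
        pow_le_pow_left₀ (by positivity) h1 t
      have h3 : ((S * (w0 + 1)) * (l + t + 1 : ℝ)) ^ t =
          Real.exp (t * Real.log (l + t + 1) + Real.log (S * (w0 + 1)) * t) := by
        rw [mul_pow, Real.exp_add, mul_comm (Real.log (S * (w0 + 1))) (t : ℝ), Real.exp_nat_mul,
          Real.exp_nat_mul, Real.exp_log (by linarith), Real.exp_log (by linarith), mul_comm]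
      rw [h3] at h2
      refine h2.trans (Real.exp_le_exp.mpr ?_)
      have := Real.log_nonneg hSw
      nlinarith
    have e2 : cI ≤ Real.exp (cI * (l + t + 1)) := by
      have h1 : cI ≤ Real.exp cI := by
        have := Real.add_one_le_exp cI
        linarith
      exact h1.trans (Real.exp_le_exp.mpr (by nlinarith))
    have e3 : (l : ℝ) + 1 ≤ Real.exp (1 * (l + t + 1)) := by
      have := Real.add_one_le_exp (1 * ((l : ℝ) + t + 1))
      linarith
    have e4 : Real.exp (C0 * (l + q + (l + w0 + t : ℕ) + 1)) ≤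
        Real.exp (C0 * (q + w0 + 2) * (l + t + 1)) := by
      refine Real.exp_le_exp.mpr ?_
      push_cast
      rw [mul_assoc]
      refine mul_le_mul_of_nonneg_left ?_ hC0
      nlinarith
    have e5 : Real.exp (t * Real.log (l + t + 1) +
        (Real.log (S * (w0 + 1)) + cI + 1 + C0 * (q + w0 + 2)) * (l + t + 1)) =
        Real.exp (t * Real.log (l + t + 1) + Real.log (S * (w0 + 1)) * (l + t + 1)) *
          (Real.exp (cI * (l + t + 1)) * Real.exp (1 * (l + t + 1))) *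
          Real.exp (C0 * (q + w0 + 2) * (l + t + 1)) := by
      rw [← Real.exp_add, ← Real.exp_add, ← Real.exp_add]
      congr 1
      ring
    rw [e5, hH']
    calc (S * (l + w0 + t)) ^ t * (cI * ((l + 1) * H)) *
          Real.exp (C0 * (l + q + (l + w0 + t : ℕ) + 1))
        = H * ((S * (l + w0 + t)) ^ t * (cI * (l + 1)) *
          Real.exp (C0 * (l + q + (l + w0 + t : ℕ) + 1))) := by ring
      _ ≤ _ := by
        refine mul_le_mul_of_nonneg_left ?_ hH
        refine mul_le_mul ?_ e4 (Real.exp_pos _).le (by positivity)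
        refine mul_le_mul e1 ?_ (by positivity) (by positivity)
        exact mul_le_mul e2 e3 (by positivity) (by positivity)
  -- the identification
  obtain ⟨σ₀⟩ : Nonempty (K →+* ℂ) := inferInstance
  have hkey : ∀ x y : ℂ, y ^ 2 = x ^ 3 + σ₀ (algebraMap k K a) * x + σ₀ (algebraMap k K b) →
      (A.map (oc σ₀) - (C ((M0 : ℂ) ^ (l + q))) * (gk a b β c t p).re.map σ₀).eval x +
      (B.map (oc σ₀) - (C ((M0 : ℂ) ^ (l + q))) * (gk a b β c t p).im.map σ₀).eval x * y = 0 := by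
    intro x y hxy
    have h1 := hAB σ₀ x y (by
      have e1 : oc σ₀ a' = σ₀ (algebraMap k K a) := by
        show σ₀ (algebraMap (𝓞 K) K a') = _
        rw [ha']
      have e2 : oc σ₀ b' = σ₀ (algebraMap k K b) := by
        show σ₀ (algebraMap (𝓞 K) K b') = _
        rw [hb']
      rw [e1, e2]; exact hxy)
    have h2 : MvPolynomial.map (oc σ₀) g =
        (⇑(D4 (σ₀ (algebraMap k K a))))^[t] (MvPolynomial.map σ₀ (mv q (bc K p))) := by
      rw [hg, map_D4_iterate, mv_map, mv_map]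
      have e1 : oc σ₀ a' = σ₀ (algebraMap k K a) := by
        show σ₀ (algebraMap (𝓞 K) K a') = _
        rw [ha']
      rw [e1]
      congr 2
      funext i
      rw [hcoef σ₀ i]
      simp only [bc, Polynomial.map_map]
    have h3 := evR_gt (σ₀ (algebraMap k K a)) (σ₀ (algebraMap k K b)) (σ₀ β) (σ₀ c) t
      (MvPolynomial.map σ₀ (mv q (bc K p))) x y hxy
    obtain ⟨h4, h5⟩ := gt_map σ₀ (algebraMap k K a) (algebraMap k K b) β c t (mv q (bc K p))
    rw [h2, ← h3] at h1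
    unfold evR at h1
    rw [h4, h5] at h1
    simp only [Polynomial.eval_sub, Polynomial.eval_mul, Polynomial.eval_C]
    unfold gk
    linear_combination h1
  obtain ⟨hA0, hB0⟩ := PolyAB_zero _ _ _ _ hkey
  have hinj : Function.Injective (Polynomial.map σ₀ : K[X] → ℂ[X]) :=
    Polynomial.map_injective σ₀ σ₀.injective
  have hoc : ∀ Q : (𝓞 K)[X], Q.map (oc σ₀) = (Q.map (algebraMap (𝓞 K) K)).map σ₀ := by
    intro Q
    rw [Polynomial.map_map]
  refine ⟨A, B, ?_, ?_, fun σ => ?_⟩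
  · apply hinj
    have h1 := sub_eq_zero.mp hA0
    rw [hoc] at h1
    have h2 : σ₀ ((M0 : K) ^ (l + q)) = (M0 : ℂ) ^ (l + q) := by
      rw [map_pow, map_natCast]
    rw [h1, Polynomial.smul_eq_C_mul, Polynomial.map_mul, Polynomial.map_C, h2]
  · apply hinj
    have h1 := sub_eq_zero.mp hB0
    rw [hoc] at h1
    have h2 : σ₀ ((M0 : K) ^ (l + q)) = (M0 : ℂ) ^ (l + q) := by
      rw [map_pow, map_natCast]
    rw [h1, Polynomial.smul_eq_C_mul, Polynomial.map_mul, Polynomial.map_C, h2]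
  · exact ⟨(hsz σ).1.trans hbound, (hsz σ).2.trans hbound⟩

end Pool.Agent.ZFin
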