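import Pool.Agent.ZFin.Defs

/-! # Module PvL: the coordinates `pv` (section 4.2) -/

namespace Pool.Agent.ZFin
open Polynomial NumberField Pool.Agent.ZCM

private theorem PvL_coeff {k : Type} [Field k] [CharZero k] {q L κ : ℕ} (ω : Fin κ → k)
    (v : II q L κ → ℚ) (i : Idx q) (n : ℕ) :
    (pv ω v i).coeff n = if h : n < L then ∑ μ : Fin κ, v (⟨n, h⟩, i, μ) • ω μ else 0 := by
  have h1 : (pv ω v i).coeff n =
      ∑ l : Fin L, if n = (l : ℕ) then ∑ μ : Fin κ, (v (l, i, μ) : k) * ω μ else 0 := by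
    rw [pv, finsetSum_coeff]
    exact Finset.sum_congr rfl (fun l _ => coeff_C_mul_X_pow _ _ _)
  rw [h1]
  split_ifs with h
  · rw [Finset.sum_eq_single (⟨n, h⟩ : Fin L)]
    · rw [if_pos rfl]
      exact Finset.sum_congr rfl (fun μ _ => (Rat.smul_def _ _).symm)
    · intro l _ hl
      rw [if_neg]
      intro hn
      exact hl (Fin.ext hn.symm)
    · intro hn
      exact absurd (Finset.mem_univ _) hn
  · refine Finset.sum_eq_zero (fun l _ => ?_)
    rw [if_neg]
    intro hn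
    exact h (hn ▸ l.2)

/-- `pv ω` is `ℚ`-linear -/
theorem exists_pvl {k : Type} [Field k] [NumberField k] {q L κ : ℕ} (ω : Fin κ → k) :
    ∃ Φ : (II q L κ → ℚ) →ₗ[ℚ] (Idx q → k[X]), ∀ v, Φ v = pv ω v := by
  refine ⟨{ toFun := pv ω, map_add' := ?_, map_smul' := ?_ }, fun v => rfl⟩
  · intro v w
    funext i
    ext n
    rw [Pi.add_apply, coeff_add, PvL_coeff, PvL_coeff, PvL_coeff]
    split_ifs with h
    · rw [← Finset.sum_add_distrib]
      exact Finset.sum_congr rfl (fun μ _ => by rw [Pi.add_apply, add_smul])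
    · rw [add_zero]
  · intro c v
    funext i
    ext n
    rw [RingHom.id_apply, Pi.smul_apply, coeff_smul, PvL_coeff, PvL_coeff]
    split_ifs with h
    · rw [Finset.smul_sum]
      exact Finset.sum_congr rfl (fun μ _ => by rw [Pi.smul_apply, smul_eq_mul, mul_smul])
    · rw [smul_zero]

private theorem PvL_mem {k : Type} [Field k] {q L : ℕ} (p : Idx q → k[X]) :
    p ∈ Amb k (Idx q) L ↔ ∀ i n, L ≤ n → (p i).coeff n = 0 := by
  rw [Amb, Submodule.mem_pi]
  constructor
  · intro h i n hn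
    have h1 := mem_degreeLT.mp (h i (Set.mem_univ _))
    exact (degree_lt_iff_coeff_zero _ _).mp h1 n hn
  · intro h i _
    rw [mem_degreeLT]
    exact (degree_lt_iff_coeff_zero _ _).mpr (h i)

/-- `pv ω` is a bijection onto the vectors of degree `< L` if `ω` is a basis of `k/ℚ` -/
theorem pv_bij {k : Type} [Field k] [NumberField k] {q L κ : ℕ}
    (ω : Module.Basis (Fin κ) ℚ k) :
    (∀ v : II q L κ → ℚ, pv ω v ∈ Amb k (Idx q) L) ∧
    (∀ v v' : II q L κ → ℚ, pv ω v = pv ω v' → v = v') ∧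
    ∀ p ∈ Amb k (Idx q) L, ∃ v : II q L κ → ℚ, pv ω v = p := by
  refine ⟨?_, ?_, ?_⟩
  · intro v
    rw [PvL_mem]
    intro i n hn
    rw [PvL_coeff, dif_neg (not_lt.mpr hn)]
  · intro v v' h
    funext ⟨l, i, μ⟩
    have h1 : (pv ω v i).coeff (l : ℕ) = (pv ω v' i).coeff (l : ℕ) := by rw [h]
    rw [PvL_coeff, PvL_coeff, dif_pos l.2, dif_pos l.2] at h1
    have h2 : ω.equivFun.symm (fun μ => v (l, i, μ)) = ω.equivFun.symm (fun μ => v' (l, i, μ)) := by
      rw [ω.equivFun_symm_apply, ω.equivFun_symm_apply]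
      exact h1
    exact congrFun (ω.equivFun.symm.injective h2) μ
  · intro p hp
    rw [PvL_mem] at hp
    refine ⟨fun j => ω.repr ((p j.2.1).coeff (j.1 : ℕ)) j.2.2, ?_⟩
    funext i
    ext n
    rw [PvL_coeff]
    split_ifs with h
    · exact ω.sum_repr ((p i).coeff n)
    · exact (hp i n (not_lt.mp h)).symm

end Pool.Agent.ZFin
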