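import Pool.Agent.ZFin.PolyAB
import Pool.Agent.ZFin.PvL
import Pool.Agent.ZCM.Count

/-! # Module Rows: the conditions as integer rows (section 4.2) -/

namespace Pool.Agent.ZFin
open Polynomial NumberField Pool.Agent.ZCM

/-- a rational combination of algebraic integers vanishes iff all its coordinates do -/
theorem Rows_coord {K : Type*} [Field K] [NumberField K] {S : Type*} (f : 𝓞 K →+ (S → ℤ))
    (hf : Function.Injective f) {I : Type*} [Fintype I] (y : I → 𝓞 K) (v : I → ℚ) :
    (∑ i, (v i : K) * (y i : K) = 0) ↔ ∀ s, ∑ i, (f (y i) s : ℚ) * v i = 0 := by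
  classical
  obtain ⟨N, hN0, w, hw⟩ : ∃ N : ℤ, N ≠ 0 ∧ ∃ w : I → ℤ, ∀ i, (N : ℚ) * v i = w i := by
    refine ⟨∏ i, ((v i).den : ℤ), ?_, fun i => (v i).num * ∏ j ∈ Finset.univ.erase i, ((v j).den : ℤ),
      fun i => ?_⟩
    · refine Finset.prod_ne_zero_iff.mpr fun i _ => ?_
      exact_mod_cast (v i).den_ne_zero
    · rw [← Finset.mul_prod_erase Finset.univ (fun j => ((v j).den : ℤ)) (Finset.mem_univ i)]
      push_cast
      have h1 : ((v i).den : ℚ) * v i = (v i).num := Rat.den_mul_eq_num (v i)
      calc ((v i).den : ℚ) * (∏ j ∈ Finset.univ.erase i, ((v j).den : ℚ)) * v i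
          = (((v i).den : ℚ) * v i) * ∏ j ∈ Finset.univ.erase i, ((v j).den : ℚ) := by ring
        _ = _ := by rw [h1]
  have hNK : (N : K) ≠ 0 := by exact_mod_cast hN0
  have hNQ : (N : ℚ) ≠ 0 := by exact_mod_cast hN0
  have e1 : (N : K) * ∑ i, (v i : K) * (y i : K) = ((∑ i, w i • y i : 𝓞 K) : K) := by
    rw [Finset.mul_sum]
    have : ((∑ i, w i • y i : 𝓞 K) : K) = ∑ i, (w i : K) * (y i : K) := by
      change algebraMap (𝓞 K) K (∑ i, w i • y i) = ∑ i, (w i : K) * algebraMap (𝓞 K) K (y i)
      rw [map_sum]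
      refine Finset.sum_congr rfl fun i _ => ?_
      rw [zsmul_eq_mul, map_mul, map_intCast]
    rw [this]
    refine Finset.sum_congr rfl fun i _ => ?_
    rw [← mul_assoc]
    congr 1
    have h2 := congrArg (fun x : ℚ => (x : K)) (hw i)
    simpa using h2
  have e2 : ∀ s, (N : ℚ) * ∑ i, (f (y i) s : ℚ) * v i = ((f (∑ i, w i • y i) s : ℤ) : ℚ) := by
    intro s
    rw [map_sum, Finset.sum_apply, Finset.mul_sum]
    push_cast
    refine Finset.sum_congr rfl fun i _ => ?_
    rw [map_zsmul, Pi.smul_apply, smul_eq_mul]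
    push_cast
    rw [← hw i]; ring
  constructor
  · intro h s
    rw [h, mul_zero] at e1
    have h3 : (∑ i, w i • y i : 𝓞 K) = 0 := by
      apply RingOfIntegers.coe_injective
      exact e1.symm.trans (map_zero (algebraMap (𝓞 K) K)).symm
    have h4 := e2 s
    rw [h3, map_zero] at h4
    have h5 : (N : ℚ) * ∑ i, (f (y i) s : ℚ) * v i = 0 := by rw [h4]; simp
    exact (mul_eq_zero.mp h5).resolve_left hNQ
  · intro h
    have h3 : f (∑ i, w i • y i) = 0 := by
      funext s
      have h4 := e2 s
      rw [h s, mul_zero] at h4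
      exact_mod_cast h4.symm
    have h5 : (∑ i, w i • y i : 𝓞 K) = 0 := hf (by rw [h3, map_zero])
    rw [h5] at e1
    have h6 : (N : K) * ∑ i, (v i : K) * (y i : K) = 0 := by rw [e1]; exact map_zero _
    exact (mul_eq_zero.mp h6).resolve_left hNK

/-- an additive functional of `v : I → ℚ` with values in a field of characteristic 0 -/
theorem Rows_additive {K : Type*} [Field K] [CharZero K] {I : Type*} [Fintype I] [DecidableEq I]
    (F : (I → ℚ) →+ K) (v : I → ℚ) : F v = ∑ i, (v i : K) * F (Pi.single i 1) := by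
  have h1 : v = ∑ i, v i • (Pi.single i (1 : ℚ) : I → ℚ) := by
    funext j
    rw [Finset.sum_apply]
    simp [Pi.single_apply]
  conv_lhs => rw [h1]
  rw [map_sum]
  refine Finset.sum_congr rfl fun i _ => ?_
  rw [map_rat_smul, Rat.smul_def]

/-- coefficient of the real part -/
def Rows_re {K : Type*} [Field K] {a b : K} (d : ℕ) : RR a b →+ K where
  toFun g := g.re.coeff d
  map_zero' := by simp
  map_add' g h := by simp

/-- coefficient of the imaginary part -/
def Rows_im {K : Type*} [Field K] {a b : K} (d : ℕ) : RR a b →+ K where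
  toFun g := g.im.coeff d
  map_zero' := by simp
  map_add' g h := by simp

/-- coordinates (`Pool.Agent.ZCM.Count_coord`) of all coefficients of `M0^(L+q) gk(pv ω e_i)` -/
theorem rows {k K : Type} [Field k] [NumberField k] [Field K] [NumberField K] [Algebra k K]
    (a b : k) (ha : IsIntegral ℤ a) (hb : IsIntegral ℤ b) (β c : K) (q : ℕ) {κ : ℕ}
    (ω : Fin κ → k) (hω : ∀ μ, IsIntegral ℤ (ω μ)) :
    ∃ C : ℝ, 0 ≤ C ∧ ∀ L t : ℕ, ∃ (n : ℕ) (A : Fin n → II q L κ → ℤ),
      (∀ j i, |(A j i : ℝ)| ≤ Real.exp (t * Real.log (L + t + 1) + C * (L + t + 1))) ∧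
      ∀ v : II q L κ → ℚ, (∀ j, ∑ i, (A j i : ℚ) * v i = 0) ↔ gk a b β c t (pv ω v) = 0 := by
  classical
  obtain ⟨M0, C1, hM0, hC1, hAB⟩ := poly_AB a b ha hb β c q
  obtain ⟨c2, f, hc2, hf, hfb⟩ := Count_coord K
  obtain ⟨H0, hH0⟩ := (Set.finite_range
    (fun s : (k →+* ℂ) × Fin κ => ‖s.1 (ω s.2)‖)).bddAbove
  set H : ℝ := max H0 0 with hH
  have hHnn : 0 ≤ H := le_max_right _ _
  have hHb : ∀ (σ : k →+* ℂ) (μ : Fin κ), ‖σ (ω μ)‖ ≤ H := fun σ μ =>
    (hH0 ⟨(σ, μ), rfl⟩).trans (le_max_left _ _)
  refine ⟨C1 + Real.log (c2 * H + 1), ?_, fun L t => ?_⟩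
  · have : 0 ≤ Real.log (c2 * H + 1) := Real.log_nonneg (by nlinarith [mul_nonneg hc2 hHnn])
    linarith
  -- the basis vectors
  let e : II q L κ → (II q L κ → ℚ) := fun i => Pi.single i 1
  have hpe : ∀ (i : II q L κ) (s : Idx q),
      pv ω (e i) s = if i.2.1 = s then C (ω i.2.2) * X ^ (i.1 : ℕ) else 0 := by
    intro i s
    obtain ⟨l, s', μ⟩ := i
    simp only [pv, e]
    split_ifs with h
    · subst h
      rw [Finset.sum_eq_single l]
      · congr 2
        rw [Finset.sum_eq_single μ]
        · simp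
        · intro μ' _ hμ
          rw [Pi.single_apply, if_neg]
          · simp
          · intro h; apply hμ; simpa using h
        · simp
      · intro l' _ hl
        have : ∑ μ' : Fin κ, (((Pi.single (l, s', μ) (1 : ℚ) : II q L κ → ℚ) (l', s', μ') : ℚ) : k) *
            ω μ' = 0 := by
          refine Finset.sum_eq_zero fun μ' _ => ?_
          rw [Pi.single_apply, if_neg]
          · simp
          · intro h; apply hl; simp at h; exact h.1
        rw [this, C_0, zero_mul]
      · simp
    · refine Finset.sum_eq_zero fun l' _ => ?_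
      have : ∑ μ' : Fin κ, (((Pi.single (l, s', μ) (1 : ℚ) : II q L κ → ℚ) (l', s, μ') : ℚ) : k) *
          ω μ' = 0 := by
        refine Finset.sum_eq_zero fun μ' _ => ?_
        rw [Pi.single_apply, if_neg]
        · simp
        · intro h'; apply h; simp at h'; exact h'.2.1.symm
      rw [this, C_0, zero_mul]
  -- integrality and size of the basis vectors
  have hdeg : ∀ i s, (pv ω (e i) s).natDegree ≤ L := by
    intro i s
    rw [hpe]
    split_ifs
    · exact (natDegree_C_mul_X_pow_le _ _).trans i.1.2.le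
    · simp
  have hint : ∀ i s n, IsIntegral ℤ ((pv ω (e i) s).coeff n) := by
    intro i s n
    rw [hpe]
    split_ifs
    · rw [coeff_C_mul_X_pow]
      split_ifs
      · exact hω _
      · exact isIntegral_zero
    · rw [coeff_zero]; exact isIntegral_zero
  have hsz : ∀ i s n, ∀ σ : k →+* ℂ, ‖σ ((pv ω (e i) s).coeff n)‖ ≤ H := by
    intro i s n σ
    rw [hpe]
    split_ifs
    · rw [coeff_C_mul_X_pow]
      split_ifs
      · exact hHb _ _
      · rw [map_zero, norm_zero]; exact hHnn
    · rw [coeff_zero, map_zero, norm_zero]; exact hHnn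
  choose PA PB hPA hPB hPsz using fun i : II q L κ =>
    hAB L t H (pv ω (e i)) hHnn (hdeg i) (hint i) (hsz i)
  -- a degree bound
  obtain ⟨D, hD⟩ : ∃ D : ℕ, ∀ i, (PA i).natDegree ≤ D ∧ (PB i).natDegree ≤ D := by
    refine ⟨∑ i, ((PA i).natDegree + (PB i).natDegree), fun i => ?_⟩
    have h1 : (PA i).natDegree + (PB i).natDegree ≤
        ∑ i, ((PA i).natDegree + (PB i).natDegree) :=
      Finset.single_le_sum (f := fun i => (PA i).natDegree + (PB i).natDegree)
        (fun _ _ => Nat.zero_le _) (Finset.mem_univ i)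
    exact ⟨by omega, by omega⟩
  -- the index set of the rows
  let R : Type := Fin (D + 1) × Bool × (K →+* ℂ)
  let E : Fin (Fintype.card R) ≃ R := (Fintype.equivFin R).symm
  let row : R → II q L κ → ℤ := fun r i =>
    f (if r.2.1 then (PA i).coeff r.1 else (PB i).coeff r.1) r.2.2
  refine ⟨Fintype.card R, fun j => row (E j), ?_, ?_⟩
  · intro j i
    set r := E j with hr
    have hLt : (0 : ℝ) ≤ (L : ℝ) + t := by positivity
    set B : ℝ := H * Real.exp (t * Real.log (L + t + 1) + C1 * (L + t + 1)) with hB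
    have hB0 : 0 ≤ B := by positivity
    have hy : ∀ σ : K →+* ℂ, ‖σ (((if r.2.1 then (PA i).coeff r.1 else (PB i).coeff r.1 : 𝓞 K)) : K)‖
        ≤ B := by
      intro σ
      have h1 := hPsz i σ
      have key : ∀ (P : (𝓞 K)[X]) (d : ℕ), ‖σ ((P.coeff d : 𝓞 K) : K)‖ ≤ nm1 (P.map (oc σ)) := by
        intro P d
        have h2 : (P.map (oc σ)).coeff d = σ ((P.coeff d : 𝓞 K) : K) := by
          rw [coeff_map]; rfl
        rw [← h2]
        by_cases hm : d ∈ (P.map (oc σ)).support
        · exact Finset.single_le_sum (f := fun m => ‖(P.map (oc σ)).coeff m‖)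
            (fun _ _ => norm_nonneg _) hm
        · rw [Polynomial.notMem_support_iff.mp hm, norm_zero]
          exact nm1_nonneg _
      split_ifs
      · exact (key _ _).trans h1.1
      · exact (key _ _).trans h1.2
    have h2 := hfb B hB0 _ hy r.2.2
    refine h2.trans ?_
    have h3 : c2 * H ≤ Real.exp (Real.log (c2 * H + 1) * (L + t + 1)) := by
      have hpos : 0 < c2 * H + 1 := by nlinarith [mul_nonneg hc2 hHnn]
      have hl : 0 ≤ Real.log (c2 * H + 1) :=
        Real.log_nonneg (by nlinarith [mul_nonneg hc2 hHnn])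
      calc c2 * H ≤ c2 * H + 1 := by linarith
        _ = Real.exp (Real.log (c2 * H + 1)) := (Real.exp_log hpos).symm
        _ ≤ _ := by
            rw [Real.exp_le_exp]
            nlinarith
    calc c2 * B = (c2 * H) * Real.exp (t * Real.log (L + t + 1) + C1 * (L + t + 1)) := by
          rw [hB]; ring
      _ ≤ Real.exp (Real.log (c2 * H + 1) * (L + t + 1)) *
          Real.exp (t * Real.log (L + t + 1) + C1 * (L + t + 1)) :=
          mul_le_mul_of_nonneg_right h3 (Real.exp_nonneg _)
      _ = _ := by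
          rw [← Real.exp_add]; congr 1; ring
  · intro v
    obtain ⟨Φ, hΦ⟩ := exists_pvl (q := q) (L := L) ω
    set z : K := (M0 : K) ^ (L + q) with hz
    have hz0 : z ≠ 0 := pow_ne_zero _ (by exact_mod_cast hM0.ne')
    -- additive functionals
    let G : (II q L κ → ℚ) →+ RR (algebraMap k K a) (algebraMap k K b) :=
      (gkl a b β c t).toAddMonoidHom.comp Φ.toAddMonoidHom
    have hG : ∀ w, G w = gk a b β c t (pv ω w) := by
      intro w
      change gkl a b β c t (Φ w) = _
      rw [gkl_apply, hΦ]
    have hre : ∀ d, z * (gk a b β c t (pv ω v)).re.coeff d =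
        ∑ i, (v i : K) * (((PA i).coeff d : 𝓞 K) : K) := by
      intro d
      have h1 := Rows_additive ((Rows_re d).comp G) v
      change (G v).re.coeff d = ∑ i, (v i : K) * (G (Pi.single i 1)).re.coeff d at h1
      rw [hG] at h1
      rw [h1, Finset.mul_sum]
      refine Finset.sum_congr rfl fun i _ => ?_
      rw [hG]
      have h2 := congrArg (fun P : K[X] => P.coeff d) (hPA i)
      simp only [coeff_map, coeff_smul, smul_eq_mul] at h2
      change z * ((v i : K) * (gk a b β c t (pv ω (e i))).re.coeff d) = _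
      rw [mul_left_comm, ← h2]
    have him : ∀ d, z * (gk a b β c t (pv ω v)).im.coeff d =
        ∑ i, (v i : K) * (((PB i).coeff d : 𝓞 K) : K) := by
      intro d
      have h1 := Rows_additive ((Rows_im d).comp G) v
      change (G v).im.coeff d = ∑ i, (v i : K) * (G (Pi.single i 1)).im.coeff d at h1
      rw [hG] at h1
      rw [h1, Finset.mul_sum]
      refine Finset.sum_congr rfl fun i _ => ?_
      rw [hG]
      have h2 := congrArg (fun P : K[X] => P.coeff d) (hPB i)
      simp only [coeff_map, coeff_smul, smul_eq_mul] at h2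
      change z * ((v i : K) * (gk a b β c t (pv ω (e i))).im.coeff d) = _
      rw [mul_left_comm, ← h2]
    constructor
    · intro h
      have hrow : ∀ r : R, ∑ i, (row r i : ℚ) * v i = 0 := by
        intro r
        have := h (E.symm r)
        simpa using this
      have hA0 : ∀ d, ∑ i, (v i : K) * (((PA i).coeff d : 𝓞 K) : K) = 0 := by
        intro d
        by_cases hd : d ≤ D
        · rw [Rows_coord f hf]
          intro s
          have := hrow (⟨d, by omega⟩, true, s)
          simpa [row] using this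
        · refine Finset.sum_eq_zero fun i _ => ?_
          rw [coeff_eq_zero_of_natDegree_lt (lt_of_le_of_lt (hD i).1 (by omega))]
          simp
      have hB0 : ∀ d, ∑ i, (v i : K) * (((PB i).coeff d : 𝓞 K) : K) = 0 := by
        intro d
        by_cases hd : d ≤ D
        · rw [Rows_coord f hf]
          intro s
          have := hrow (⟨d, by omega⟩, false, s)
          simpa [row] using this
        · refine Finset.sum_eq_zero fun i _ => ?_
          rw [coeff_eq_zero_of_natDegree_lt (lt_of_le_of_lt (hD i).2 (by omega))]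
          simp
      ext1
      · ext d
        have h1 := hre d
        rw [hA0 d] at h1
        rw [(mul_eq_zero.mp h1).resolve_left hz0]
        simp
      · ext d
        have h1 := him d
        rw [hB0 d] at h1
        rw [(mul_eq_zero.mp h1).resolve_left hz0]
        simp
    · intro h j
      obtain ⟨d, s, σ, hr⟩ : ∃ d s σ, E j = (d, s, σ) := ⟨(E j).1, (E j).2.1, (E j).2.2, rfl⟩
      change ∑ i, (row (E j) i : ℚ) * v i = 0
      rw [hr]
      cases s
      · have h1 := him d
        rw [h, QuadraticAlgebra.im_zero, coeff_zero, mul_zero] at h1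
        exact (Rows_coord f hf _ v).mp h1.symm σ
      · have h1 := hre d
        rw [h, QuadraticAlgebra.re_zero, coeff_zero, mul_zero] at h1
        exact (Rows_coord f hf _ v).mp h1.symm σ

end Pool.Agent.ZFin
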