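import Pool.Agent.ZFin.TA
import Pool.Agent.ZCM.Size

/-! # Module SchInt: integrality and size for section 7.2

`P = PP L N0 p` with `p i j k = 0` for `k ≠ 0`, i.e. `P = ∑ p_ij z^i X^j`. -/

namespace Pool.Agent.ZFin
open Polynomial NumberField Pool.Agent.ZCM

theorem SchInt_degreeOf {A : Type*} [CommRing A] (L N0 : ℕ) (p : ℕ → ℕ → ℕ → ℤ)
    (hp : ∀ i j k, k ≠ 0 → p i j k = 0) : (PP A L N0 p).degreeOf 3 ≤ 0 := by
  classical
  unfold PP
  refine (MvPolynomial.degreeOf_sum_le _ _ _).trans (Finset.sup_le fun i hi => ?_)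
  refine (MvPolynomial.degreeOf_sum_le _ _ _).trans (Finset.sup_le fun j hj => ?_)
  refine (MvPolynomial.degreeOf_sum_le _ _ _).trans (Finset.sup_le fun k hk => ?_)
  by_cases hk0 : k = 0
  · subst hk0
    rw [Size_term_mono, MvPolynomial.degreeOf_le_iff]
    intro m hm
    have := MvPolynomial.support_monomial_subset hm
    rw [Finset.mem_singleton] at this
    rw [this]
    simp
  · rw [hp i j k hk0]
    simp

/-- `D4`-derivatives of a polynomial without `Y` do not depend on `Y` -/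
theorem PP_indep {A : Type*} [CommRing A] (a : A) (L N0 : ℕ) (p : ℕ → ℕ → ℕ → ℤ)
    (hp : ∀ i j k, k ≠ 0 → p i j k = 0) (t : ℕ) (z x y u u' : A) :
    MvPolynomial.eval ![z, x, y, u] ((⇑(D4 a))^[t] (PP A L N0 p)) =
      MvPolynomial.eval ![z, x, y, u'] ((⇑(D4 a))^[t] (PP A L N0 p)) := by
  have hd : ((⇑(D4 a))^[t] (PP A L N0 p)).degreeOf 3 ≤ 0 :=
    (degreeOf_three_D4_iterate_le a _ t).trans (SchInt_degreeOf L N0 p hp)
  rw [MvPolynomial.eval_eq', MvPolynomial.eval_eq']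
  refine Finset.sum_congr rfl fun m hm => ?_
  have h3 : m 3 = 0 := by
    have := MvPolynomial.monomial_le_degreeOf 3 hm
    omega
  congr 1
  refine Finset.prod_congr rfl fun i _ => ?_
  fin_cases i
  · rfl
  · rfl
  · rfl
  · change u ^ m 3 = u' ^ m 3
    rw [h3, pow_zero, pow_zero]

/-- integrality of the derivatives -/
theorem sch_int {K : Type} [Field K] [NumberField K] (a : 𝓞 K) (N0 : ℕ) (z x y : K) :
    ∃ M : ℕ, 0 < M ∧ ∀ (L t : ℕ) (p : ℕ → ℕ → ℕ → ℤ),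
      IsIntegral ℤ ((M : K) ^ (L + 2 * N0 + t) *
        MvPolynomial.eval ![z, x, y, 0] ((⇑(D4 (a : K)))^[t] (PP K L N0 p))) := by
  obtain ⟨M, hM, hMi⟩ := TA_mult (K := K) ![z, x, y, 0]
  refine ⟨M, hM, fun L t p => ?_⟩
  have h1 : MvPolynomial.map (algebraMap (𝓞 K) K) ((⇑(D4 a))^[t] (PP (𝓞 K) L N0 p)) =
      (⇑(D4 (a : K)))^[t] (PP K L N0 p) := by
    rw [map_D4_iterate, map_PP]
  rw [← h1]
  apply TA_int _ _ M hMi
  refine (totalDegree_D4_iterate_le _ _ _).trans ?_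
  have := totalDegree_PP_le (R := 𝓞 K) L N0 p
  omega

theorem SchInt_size_aux (A M : ℝ) (hA : 0 ≤ A) (hM : 1 ≤ M) (N0 : ℕ) :
    ∃ C : ℝ, 0 ≤ C ∧ ∀ L t : ℕ,
      ((3 + A) * ((L + 2 * N0 : ℕ) + t : ℝ)) ^ t * (L * (N0 : ℝ) ^ 2) * M ^ (L + 2 * N0 + t) ≤
        Real.exp (t * Real.log (L + t + 1) + C * (L + t + 1)) := by
  set c1 : ℝ := (3 + A) * (2 * N0 + 1) with hc1
  have hN : (0 : ℝ) ≤ N0 := Nat.cast_nonneg _
  have hc1' : 1 ≤ c1 := by
    rw [hc1]; nlinarith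
  have hlc : 0 ≤ Real.log c1 := Real.log_nonneg hc1'
  have hlM : 0 ≤ Real.log M := Real.log_nonneg hM
  refine ⟨Real.log c1 + 1 + (N0 : ℝ) ^ 2 + (2 * N0 + 1) * Real.log M, by positivity,
    fun L t => ?_⟩
  have hL : (0 : ℝ) ≤ L := Nat.cast_nonneg _
  have ht : (0 : ℝ) ≤ t := Nat.cast_nonneg _
  have hpos : (0 : ℝ) < L + t + 1 := by positivity
  -- first factor
  have h1 : ((3 + A) * ((L + 2 * N0 : ℕ) + t : ℝ)) ^ t ≤
      Real.exp (t * Real.log (L + t + 1) + Real.log c1 * (L + t + 1)) := by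
    have e1 : (3 + A) * ((L + 2 * N0 : ℕ) + t : ℝ) ≤ c1 * (L + t + 1) := by
      rw [hc1]; push_cast
      have : (L : ℝ) + 2 * N0 + t ≤ (2 * N0 + 1) * (L + t + 1) := by nlinarith [mul_nonneg hN hL, mul_nonneg hN ht]
      nlinarith
    have e2 : ((3 + A) * ((L + 2 * N0 : ℕ) + t : ℝ)) ^ t ≤ (c1 * (L + t + 1)) ^ t :=
      pow_le_pow_left₀ (by positivity) e1 _
    refine e2.trans ?_
    have e3 : (c1 * (L + t + 1)) ^ t = Real.exp (t * Real.log (L + t + 1) + t * Real.log c1) := by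
      rw [← Real.exp_log (show (0 : ℝ) < (c1 * (L + t + 1)) ^ t by positivity), Real.log_pow,
        Real.log_mul (by positivity) (by positivity)]
      congr 1; ring
    rw [e3, Real.exp_le_exp]
    nlinarith
  have h2 : (L : ℝ) * (N0 : ℝ) ^ 2 ≤ Real.exp ((1 + (N0 : ℝ) ^ 2) * (L + t + 1)) := by
    have e1 : (L : ℝ) ≤ Real.exp (L + t + 1) := by
      have := Real.add_one_le_exp ((L : ℝ) + t + 1)
      linarith
    have e2 : (N0 : ℝ) ^ 2 ≤ Real.exp ((N0 : ℝ) ^ 2 * (L + t + 1)) := by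
      have := Real.add_one_le_exp ((N0 : ℝ) ^ 2 * (L + t + 1))
      have h3 : (N0 : ℝ) ^ 2 ≤ (N0 : ℝ) ^ 2 * (L + t + 1) := by
        nlinarith [sq_nonneg (N0 : ℝ), mul_nonneg (sq_nonneg (N0 : ℝ)) hL,
          mul_nonneg (sq_nonneg (N0 : ℝ)) ht]
      linarith
    calc (L : ℝ) * (N0 : ℝ) ^ 2 ≤ Real.exp (L + t + 1) * Real.exp ((N0 : ℝ) ^ 2 * (L + t + 1)) :=
          mul_le_mul e1 e2 (by positivity) (by positivity)
      _ = Real.exp ((1 + (N0 : ℝ) ^ 2) * (L + t + 1)) := by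
          rw [← Real.exp_add]; congr 1; ring
  have h3 : M ^ (L + 2 * N0 + t) ≤ Real.exp ((2 * N0 + 1) * Real.log M * (L + t + 1)) := by
    have e1 : M ^ (L + 2 * N0 + t) = Real.exp (((L + 2 * N0 + t : ℕ) : ℝ) * Real.log M) := by
      rw [← Real.exp_log (show (0 : ℝ) < M ^ (L + 2 * N0 + t) by positivity), Real.log_pow]
    rw [e1, Real.exp_le_exp]
    push_cast
    have : (L : ℝ) + 2 * N0 + t ≤ (2 * N0 + 1) * (L + t + 1) := by nlinarith [mul_nonneg hN hL, mul_nonneg hN ht]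
    nlinarith
  calc ((3 + A) * ((L + 2 * N0 : ℕ) + t : ℝ)) ^ t * (L * (N0 : ℝ) ^ 2) * M ^ (L + 2 * N0 + t)
      ≤ Real.exp (t * Real.log (L + t + 1) + Real.log c1 * (L + t + 1)) *
        Real.exp ((1 + (N0 : ℝ) ^ 2) * (L + t + 1)) *
        Real.exp ((2 * N0 + 1) * Real.log M * (L + t + 1)) := by
        refine mul_le_mul (mul_le_mul h1 h2 (by positivity) (by positivity)) h3 (by positivity)
          (by positivity)
    _ = _ := by
        rw [← Real.exp_add, ← Real.exp_add]; congr 1; ring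

/-- size of the derivatives (all conjugates) -/
theorem sch_size {K : Type} [Field K] [NumberField K] (a : 𝓞 K) (N0 : ℕ) (z x y : K) :
    ∃ C : ℝ, 0 ≤ C ∧ ∀ (L t : ℕ) (H : ℝ) (p : ℕ → ℕ → ℕ → ℤ), 0 ≤ H →
      (∀ i j k, |(p i j k : ℝ)| ≤ H) → ∀ σ : K →+* ℂ,
      ‖σ (MvPolynomial.eval ![z, x, y, 0] ((⇑(D4 (a : K)))^[t] (PP K L N0 p)))‖ ≤
        H * Real.exp (t * Real.log (L + t + 1) + C * (L + t + 1)) := by
  set v : Fin 4 → K := ![z, x, y, 0] with hv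
  obtain ⟨A0, hA0⟩ := (Set.finite_range (fun σ : K →+* ℂ => ‖σ (a : K)‖)).bddAbove
  obtain ⟨M0, hM0⟩ := (Set.finite_range
    (fun s : (K →+* ℂ) × Fin 4 => ‖s.1 (v s.2)‖)).bddAbove
  obtain ⟨C, hC, hCb⟩ := SchInt_size_aux (max A0 0) (max M0 1) (le_max_right _ _)
    (le_max_right _ _) N0
  refine ⟨C, hC, fun L t H p hH hp σ => ?_⟩
  have hA : ‖σ (a : K)‖ ≤ max A0 0 := (hA0 ⟨σ, rfl⟩).trans (le_max_left _ _)
  have hM : ∀ i, ‖(σ ∘ v) i‖ ≤ max M0 1 := fun i =>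
    (hM0 ⟨(σ, i), rfl⟩).trans (le_max_left _ _)
  have e1 : σ (MvPolynomial.eval v ((⇑(D4 (a : K)))^[t] (PP K L N0 p))) =
      MvPolynomial.eval (σ ∘ v) ((⇑(D4 (σ (a : K))))^[t] (PP ℂ L N0 p)) := by
    rw [← map_PP σ, ← map_D4_iterate, MvPolynomial.eval_map, MvPolynomial.eval₂_comp]
  rw [e1]
  have h1 := norm_eval_le ((⇑(D4 (σ (a : K))))^[t] (PP ℂ L N0 p)) (σ ∘ v) (max M0 1)
    (le_max_right _ _) hM
  have hdeg : (PP ℂ L N0 p).totalDegree ≤ L + 2 * N0 := totalDegree_PP_le L N0 p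
  have h2 := nm_D4_iterate_le (σ (a : K)) (PP ℂ L N0 p) t
  have h3 : nm ((⇑(D4 (σ (a : K))))^[t] (PP ℂ L N0 p)) ≤
      ((3 + max A0 0) * ((L + 2 * N0 : ℕ) + t : ℝ)) ^ t * (H * (L * (N0 : ℝ) ^ 2)) := by
    refine h2.trans (mul_le_mul ?_ (nm_PP_le L N0 p H hH hp) (nm_nonneg _) (by positivity))
    refine pow_le_pow_left₀ (by positivity) ?_ _
    refine mul_le_mul (by linarith) ?_ (by positivity) (by positivity)
    have : ((PP ℂ L N0 p).totalDegree : ℝ) ≤ (L + 2 * N0 : ℕ) := by exact_mod_cast hdeg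
    linarith
  have h4 : (max M0 1) ^ ((⇑(D4 (σ (a : K))))^[t] (PP ℂ L N0 p)).totalDegree ≤
      (max M0 1) ^ (L + 2 * N0 + t) := by
    refine pow_le_pow_right₀ (le_max_right _ _) ?_
    have := totalDegree_D4_iterate_le (σ (a : K)) (PP ℂ L N0 p) t
    omega
  refine h1.trans ?_
  calc nm ((⇑(D4 (σ (a : K))))^[t] (PP ℂ L N0 p)) *
        (max M0 1) ^ ((⇑(D4 (σ (a : K))))^[t] (PP ℂ L N0 p)).totalDegree
      ≤ (((3 + max A0 0) * ((L + 2 * N0 : ℕ) + t : ℝ)) ^ t * (H * (L * (N0 : ℝ) ^ 2))) *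
        (max M0 1) ^ (L + 2 * N0 + t) := by
        refine mul_le_mul h3 h4 (by positivity) (by positivity)
    _ = H * (((3 + max A0 0) * ((L + 2 * N0 : ℕ) + t : ℝ)) ^ t * (L * (N0 : ℝ) ^ 2) *
        (max M0 1) ^ (L + 2 * N0 + t)) := by ring
    _ ≤ _ := mul_le_mul_of_nonneg_left (hCb L t) hH

end Pool.Agent.ZFin
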