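import Pool.Agent.ZFin.SchDup
import Pool.Agent.ZFin.TA

/-! # Module SchPts: many points over one number field (section 7.1) -/

namespace Pool.Agent.ZFin
open Pool.Agent.ZCM

/-- section 7.1: infinitely many points over one number field -/
theorem many_points (L : PeriodPair) (a b : ℂ) (ha : IsIntegral ℤ a) (hb : IsIntegral ℤ b)
    (h2 : L.g₂ = -4 * a) (h3 : L.g₃ = -4 * b) (β : ℂ) (hβ : β ∉ L.lattice)
    (hβa : IsAlgebraic ℚ β) (hP : IsAlgebraic ℚ (L.weierstrassP β)) :
    ∃ (K : Type) (_ : Field K) (_ : NumberField K) (ι : K →+* ℂ)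
      (a' b' : NumberField.RingOfIntegers K) (z x y : ℕ → K),
      a = oc ι a' ∧ b = oc ι b' ∧ Function.Injective z ∧ (∀ n, ι (z n) ∉ L.lattice) ∧
      (∀ n, L.weierstrassP (ι (z n)) = ι (x n)) ∧
      ∀ n, L.derivWeierstrassP (ι (z n)) / 2 = ι (y n) := by
  have hβ0 : β ≠ 0 := by
    rintro rfl
    exact hβ L.lattice.zero_mem
  have hy0 : (L.derivWeierstrassP β / 2) ^ 2 =
      L.weierstrassP β ^ 3 + a * L.weierstrassP β + b := by
    have h := L.derivWeierstrassP_sq β hβ
    rw [h2, h3] at h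
    linear_combination h / 4
  have haQ : IsAlgebraic ℚ a := (ha.tower_top (A := ℚ)).isAlgebraic
  have hbQ : IsAlgebraic ℚ b := (hb.tower_top (A := ℚ)).isAlgebraic
  have hyQ : IsAlgebraic ℚ (L.derivWeierstrassP β / 2) := by
    refine IsAlgebraic.of_pow (n := 2) (by norm_num) ?_
    rw [hy0]
    exact ((hP.pow 3).add (haQ.mul hP)).add hbQ
  set s : Set ℂ := {a, b, β, L.weierstrassP β, L.derivWeierstrassP β / 2} with hs
  set K := IntermediateField.adjoin ℚ s with hK
  have hsK : s ⊆ K := IntermediateField.subset_adjoin ℚ s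
  have haK : a ∈ K := hsK (by simp [hs])
  have hbK : b ∈ K := hsK (by simp [hs])
  have hβK : β ∈ K := hsK (by simp [hs])
  have hxK : L.weierstrassP β ∈ K := hsK (by simp [hs])
  have hyK : L.derivWeierstrassP β / 2 ∈ K := hsK (by simp [hs])
  have hfin : FiniteDimensional ℚ K := by
    have hsf : Finite s := by
      rw [hs]; infer_instance
    refine IntermediateField.finiteDimensional_adjoin ?_
    intro t ht
    rw [hs] at ht
    simp only [Set.mem_insert_iff, Set.mem_singleton_iff] at ht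
    rcases ht with rfl | rfl | rfl | rfl | rfl
    · exact haQ.isIntegral
    · exact hbQ.isIntegral
    · exact hβa.isIntegral
    · exact hP.isIntegral
    · exact hyQ.isIntegral
  have hNF : NumberField K := ⟨⟩
  have haI : IsIntegral ℤ (⟨a, haK⟩ : K) :=
    (isIntegral_algHom_iff (K.val.restrictScalars ℤ) K.val.injective).mp ha
  have hbI : IsIntegral ℤ (⟨b, hbK⟩ : K) :=
    (isIntegral_algHom_iff (K.val.restrictScalars ℤ) K.val.injective).mp hb
  by_cases hcase : ∀ n : ℕ, 2 ^ n * β ∉ L.lattice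
  · have hind : ∀ n : ℕ, ∃ X Y : K, L.weierstrassP (2 ^ n * β) = X ∧
        L.derivWeierstrassP (2 ^ n * β) / 2 = Y := by
      intro n
      induction n with
      | zero => exact ⟨⟨_, hxK⟩, ⟨_, hyK⟩, by simp, by simp⟩
      | succ n ih =>
        obtain ⟨X, Y, hX, hY⟩ := ih
        have e : (2 : ℂ) ^ (n + 1) * β = 2 * (2 ^ n * β) := by ring
        have hn := hcase (n + 1)
        rw [e] at hn
        have h := dup_lat L a b h2 h3 (2 ^ n * β) X Y (hcase n) hn hX.symm hY.symm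
        rw [e, h.1, h.2]
        refine ⟨((3 * X ^ 2 + ⟨a, haK⟩) ^ 2 - 8 * X * Y ^ 2) / (4 * Y ^ 2),
          -((3 * X ^ 2 + ⟨a, haK⟩) ^ 3 - 12 * X * Y ^ 2 * (3 * X ^ 2 + ⟨a, haK⟩) + 8 * Y ^ 4) /
            (8 * Y ^ 3), ?_, ?_⟩ <;> push_cast <;> rfl
    choose x y hx hy using hind
    refine ⟨K, inferInstance, hNF, (K.val : K →+* ℂ), ⟨⟨a, haK⟩, haI⟩, ⟨⟨b, hbK⟩, hbI⟩,
      fun n => 2 ^ n * ⟨β, hβK⟩, x, y, rfl, rfl, ?_, ?_, ?_, ?_⟩
    · intro n m hnm
      have h1 := congrArg (Subtype.val) hnm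
      push_cast at h1
      have h4 := mul_right_cancel₀ hβ0 h1
      have h5 : 2 ^ n = 2 ^ m := by exact_mod_cast h4
      exact Nat.pow_right_injective le_rfl h5
    · intro n
      have e : (K.val : K →+* ℂ) (2 ^ n * ⟨β, hβK⟩) = 2 ^ n * β := by
        rw [map_mul, map_pow, map_ofNat]; rfl
      rw [e]
      exact hcase n
    · intro n
      have e : (K.val : K →+* ℂ) (2 ^ n * ⟨β, hβK⟩) = 2 ^ n * β := by
        rw [map_mul, map_pow, map_ofNat]; rfl
      rw [e]
      exact hx n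
    · intro n
      have e : (K.val : K →+* ℂ) (2 ^ n * ⟨β, hβK⟩) = 2 ^ n * β := by
        rw [map_mul, map_pow, map_ofNat]; rfl
      rw [e]
      exact hy n
  · push Not at hcase
    obtain ⟨k, hk⟩ := hcase
    set ω : ℂ := 2 ^ k * β with hω
    have hω0 : ω ≠ 0 := mul_ne_zero (pow_ne_zero _ two_ne_zero) hβ0
    have hmem : ∀ n : ℕ, (n : ℂ) * ω ∈ L.lattice := by
      intro n
      have h1 := L.lattice.smul_mem (n : ℤ) hk
      rw [zsmul_eq_mul] at h1
      exact_mod_cast h1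
    refine ⟨K, inferInstance, hNF, (K.val : K →+* ℂ), ⟨⟨a, haK⟩, haI⟩, ⟨⟨b, hbK⟩, hbI⟩,
      fun n => ⟨β, hβK⟩ + n * (2 ^ k * ⟨β, hβK⟩), fun _ => ⟨_, hxK⟩, fun _ => ⟨_, hyK⟩,
      rfl, rfl, ?_, ?_, ?_, ?_⟩
    · intro n m hnm
      have h1 := congrArg (Subtype.val) hnm
      push_cast at h1
      have h4 := mul_right_cancel₀ hω0 (add_left_cancel h1)
      exact_mod_cast h4
    · intro n
      have e : (K.val : K →+* ℂ) (⟨β, hβK⟩ + n * (2 ^ k * ⟨β, hβK⟩)) = β + n * ω := by
        rw [map_add, map_mul, map_mul, map_pow, map_ofNat, map_natCast]; rfl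
      rw [e]
      intro hcon
      apply hβ
      have := L.lattice.sub_mem hcon (hmem n)
      rwa [add_sub_cancel_right] at this
    · intro n
      have e : (K.val : K →+* ℂ) (⟨β, hβK⟩ + n * (2 ^ k * ⟨β, hβK⟩)) = β + n * ω := by
        rw [map_add, map_mul, map_mul, map_pow, map_ofNat, map_natCast]; rfl
      rw [e]
      exact L.weierstrassP_add_coe β ⟨_, hmem n⟩
    · intro n
      have e : (K.val : K →+* ℂ) (⟨β, hβK⟩ + n * (2 ^ k * ⟨β, hβK⟩)) = β + n * ω := by
        rw [map_add, map_mul, map_mul, map_pow, map_ofNat, map_natCast]; rfl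
      rw [e]
      have := L.derivWeierstrassP_add_coe β ⟨_, hmem n⟩
      simp only at this
      rw [this]
      rfl

end Pool.Agent.ZFin
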