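import Mathlib

/-! # Module SelA: selection of non-conjugate points -/

namespace Pool.Agent.ZFin

/-- among more than `r D` algebraic numbers of degree `≤ D` over `k` there are `r + 1` with
pairwise different minimal polynomials -/
theorem select {k : Type} [Field k] [Algebra k ℂ] (r D : ℕ) (T : Finset ℂ)
    (hT : r * D < T.card) (h : ∀ p ∈ T, IsIntegral k p ∧ (minpoly k p).natDegree ≤ D) :
    ∃ f : Fin (r + 1) → ℂ, (∀ i, f i ∈ T) ∧
      ∀ i j, minpoly k (f i) = minpoly k (f j) → i = j := by
  classical
  have h1 : T.card ≤ D * (T.image (minpoly k)).card := by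
    refine Finset.card_le_mul_card_image T D fun g hg => ?_
    obtain ⟨p, hp, rfl⟩ := Finset.mem_image.1 hg
    have h2 : {x ∈ T | minpoly k x = minpoly k p} ⊆
        ((minpoly k p).map (algebraMap k ℂ)).roots.toFinset := by
      intro x hx
      obtain ⟨hxT, hx2⟩ := Finset.mem_filter.1 hx
      rw [Multiset.mem_toFinset, Polynomial.mem_roots
        (Polynomial.map_ne_zero (minpoly.ne_zero (h p hp).1)), Polynomial.IsRoot.def,
        Polynomial.eval_map_algebraMap, ← hx2]
      exact minpoly.aeval k x
    calc _ ≤ _ := Finset.card_le_card h2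
      _ ≤ Multiset.card ((minpoly k p).map (algebraMap k ℂ)).roots := Multiset.toFinset_card_le _
      _ ≤ ((minpoly k p).map (algebraMap k ℂ)).natDegree := Polynomial.card_roots' _
      _ ≤ (minpoly k p).natDegree := Polynomial.natDegree_map_le
      _ ≤ D := (h p hp).2
  have h3 : r + 1 ≤ (T.image (minpoly k)).card := by
    by_contra hcon
    have h4 : (T.image (minpoly k)).card ≤ r := by omega
    have h5 := Nat.mul_le_mul_left D h4
    have h6 : D * r = r * D := mul_comm _ _
    omega
  obtain ⟨U, hU, hUc⟩ := Finset.exists_subset_card_eq h3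
  have e := (U.equivFinOfCardEq hUc).symm
  have h7 : ∀ i : Fin (r + 1), ∃ p ∈ T, minpoly k p = (e i : Polynomial k) := fun i =>
    Finset.mem_image.1 (hU (e i).2)
  choose f hf1 hf2 using h7
  refine ⟨f, hf1, fun i j hij => ?_⟩
  rw [hf2, hf2] at hij
  exact e.injective (Subtype.ext hij)

end Pool.Agent.ZFin
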