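import Pool.Agent.ZFin.Core
import Pool.Agent.ZFin.SelA
import Pool.Agent.ZFin.TA

/-! # Module Sel: from a large set of exceptional points to the data of `core` -/

namespace Pool.Agent.ZFin
open Pool.Agent.ZCM

/-- the elements `x`, `y` generate `k(x, y)` over `k` -/
private theorem Sel_gen (k : IntermediateField ℚ ℂ) (x y : ℂ) :
    IntermediateField.adjoin k
      {(⟨x, IntermediateField.subset_adjoin k {x, y} (by simp)⟩ :
          (IntermediateField.adjoin k {x, y} : IntermediateField k ℂ)),
        (⟨y, IntermediateField.subset_adjoin k {x, y} (by simp)⟩ :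
          (IntermediateField.adjoin k {x, y} : IntermediateField k ℂ))} = ⊤ := by
  apply IntermediateField.lift_injective (IntermediateField.adjoin k {x, y} : IntermediateField k ℂ)
  rw [IntermediateField.lift_adjoin, IntermediateField.lift_top]
  congr 1
  rw [Set.image_pair]

/-- degrees -/
private theorem Sel_deg (a b x y : ℂ) (ha : IsAlgebraic ℚ a) (hb : IsAlgebraic ℚ b)
    (hx : IsAlgebraic ℚ x) (hy : IsAlgebraic ℚ y) :
    FiniteDimensional ℚ (IntermediateField.adjoin ℚ {a, b} : IntermediateField ℚ ℂ) ∧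
    FiniteDimensional (IntermediateField.adjoin ℚ {a, b} : IntermediateField ℚ ℂ)
      (IntermediateField.adjoin (IntermediateField.adjoin ℚ {a, b} : IntermediateField ℚ ℂ) {x, y} :
        IntermediateField (IntermediateField.adjoin ℚ {a, b} : IntermediateField ℚ ℂ) ℂ) ∧
    FiniteDimensional ℚ
      (IntermediateField.adjoin (IntermediateField.adjoin ℚ {a, b} : IntermediateField ℚ ℂ) {x, y} :
        IntermediateField (IntermediateField.adjoin ℚ {a, b} : IntermediateField ℚ ℂ) ℂ) ∧
    Module.finrank ℚ
      (IntermediateField.adjoin (IntermediateField.adjoin ℚ {a, b} : IntermediateField ℚ ℂ) {x, y} :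
        IntermediateField (IntermediateField.adjoin ℚ {a, b} : IntermediateField ℚ ℂ) ℂ) =
      Module.finrank ℚ (IntermediateField.adjoin ℚ {a, b, x, y} : IntermediateField ℚ ℂ) ∧
    Module.finrank (IntermediateField.adjoin ℚ {a, b} : IntermediateField ℚ ℂ)
      (IntermediateField.adjoin (IntermediateField.adjoin ℚ {a, b} : IntermediateField ℚ ℂ) {x, y} :
        IntermediateField (IntermediateField.adjoin ℚ {a, b} : IntermediateField ℚ ℂ) ℂ) ≤
      Module.finrank ℚ (IntermediateField.adjoin ℚ {a, b, x, y} : IntermediateField ℚ ℂ) := by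
  have h1 : FiniteDimensional ℚ (IntermediateField.adjoin ℚ {a, b} : IntermediateField ℚ ℂ) := by
    apply IntermediateField.finiteDimensional_adjoin
    intro z hz
    rcases hz with rfl | hz
    · exact ha.isIntegral
    · rw [Set.mem_singleton_iff.mp hz]
      exact hb.isIntegral
  have h2 : FiniteDimensional (IntermediateField.adjoin ℚ {a, b} : IntermediateField ℚ ℂ)
      (IntermediateField.adjoin (IntermediateField.adjoin ℚ {a, b} : IntermediateField ℚ ℂ) {x, y} :
        IntermediateField (IntermediateField.adjoin ℚ {a, b} : IntermediateField ℚ ℂ) ℂ) := by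
    apply IntermediateField.finiteDimensional_adjoin
    intro z hz
    rcases hz with rfl | hz
    · exact hx.isIntegral.tower_top
    · rw [Set.mem_singleton_iff.mp hz]
      exact hy.isIntegral.tower_top
  have h3 : FiniteDimensional ℚ
      (IntermediateField.adjoin (IntermediateField.adjoin ℚ {a, b} : IntermediateField ℚ ℂ) {x, y} :
        IntermediateField (IntermediateField.adjoin ℚ {a, b} : IntermediateField ℚ ℂ) ℂ) :=
    FiniteDimensional.trans ℚ (IntermediateField.adjoin ℚ {a, b} : IntermediateField ℚ ℂ) _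
  have h4 : Module.finrank ℚ
      (IntermediateField.adjoin (IntermediateField.adjoin ℚ {a, b} : IntermediateField ℚ ℂ) {x, y} :
        IntermediateField (IntermediateField.adjoin ℚ {a, b} : IntermediateField ℚ ℂ) ℂ) =
      Module.finrank ℚ (IntermediateField.adjoin ℚ {a, b, x, y} : IntermediateField ℚ ℂ) := by
    have h5 := IntermediateField.adjoin_adjoin_left ℚ ({a, b} : Set ℂ) ({x, y} : Set ℂ)
    have h6 : ({a, b} : Set ℂ) ∪ {x, y} = {a, b, x, y} := by
      ext z
      simp only [Set.mem_union, Set.mem_insert_iff, Set.mem_singleton_iff]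
      tauto
    rw [h6] at h5
    rw [← h5]
    rfl
  refine ⟨h1, h2, h3, h4, ?_⟩
  rw [← h4, ← Module.finrank_mul_finrank ℚ (IntermediateField.adjoin ℚ {a, b} : IntermediateField ℚ ℂ)]
  exact Nat.le_mul_of_pos_left _ Module.finrank_pos

/-- the number of exceptional points of a lattice with `a`, `b` algebraic integers -/
theorem core_count (L : PeriodPair) (a b : ℂ) (ha : IsIntegral ℤ a) (hb : IsIntegral ℤ b)
    (h2 : L.g₂ = -4 * a) (h3 : L.g₃ = -4 * b) (D : ℕ) (hD : 1 ≤ D) (T : Finset ℂ)
    (hT : ∀ p ∈ T, p ∉ L.lattice ∧ IsAlgebraic ℚ p ∧ IsAlgebraic ℚ (zetaL L p) ∧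
      Module.finrank ℚ (IntermediateField.adjoin ℚ {a, b, p, zetaL L p} : IntermediateField ℚ ℂ)
        ≤ D) :
    T.card ≤ rr D * D := by
  by_contra hcon
  push Not at hcon
  have haQ : IsAlgebraic ℚ a := ha.tower_top.isAlgebraic
  have hbQ : IsAlgebraic ℚ b := hb.tower_top.isAlgebraic
  have hdeg := fun p (hp : p ∈ T) => Sel_deg a b p (zetaL L p) haQ hbQ (hT p hp).2.1 (hT p hp).2.2.1
  let k : IntermediateField ℚ ℂ := IntermediateField.adjoin ℚ {a, b}
  let KK : ℂ → IntermediateField k ℂ := fun p => IntermediateField.adjoin k {p, zetaL L p}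
  let bb : ∀ p : ℂ, KK p := fun p => ⟨p, IntermediateField.subset_adjoin k {p, zetaL L p} (by simp)⟩
  let cc : ∀ p : ℂ, KK p :=
    fun p => ⟨zetaL L p, IntermediateField.subset_adjoin k {p, zetaL L p} (by simp)⟩
  have hmin : ∀ p : ℂ, minpoly k (bb p) = minpoly k p := fun p =>
    (minpoly.algebraMap_eq (A := k) (algebraMap (KK p) ℂ).injective (bb p)).symm
  obtain ⟨f, hf, hinj⟩ := select (k := k) (rr D) D T hcon (by
    intro p hp
    obtain ⟨h1, h2', h3', h4, h5⟩ := hdeg p hp
    refine ⟨(hT p hp).2.1.isIntegral.tower_top, ?_⟩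
    rw [← hmin p]
    exact (minpoly.natDegree_le (bb p)).trans (h5.trans (hT p hp).2.2.2))
  have hfin : ∀ p ∈ T, NumberField (KK p) := by
    intro p hp
    have h3' := (hdeg p hp).2.2.1
    exact { to_charZero := inferInstance, to_finiteDimensional := by convert h3' }
  have hf0 := hf 0
  have : ∀ i : Fin (rr D), NumberField (KK (f i.succ)) := fun i => hfin _ (hf _)
  have : NumberField (KK (f 0)) := hfin _ (hf _)
  have : NumberField k := by
    have h1' := (hdeg _ hf0).1
    exact { to_charZero := inferInstance, to_finiteDimensional := by convert h1' }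
  refine core hD (k := k) (K := fun i => KK (f i.succ)) (K0 := KK (f 0)) L
    ⟨a, IntermediateField.subset_adjoin ℚ {a, b} (by simp)⟩
    ⟨b, IntermediateField.subset_adjoin ℚ {a, b} (by simp)⟩ ?_ ?_ h2 h3
    (fun i => bb (f i.succ)) (fun i => cc (f i.succ)) (bb (f 0)) (cc (f 0))
    (fun i => (hT _ (hf _)).1) (fun i => rfl) (hT _ hf0).1 rfl
    (fun i => Sel_gen k _ _) ?_ ?_ ?_ ?_
  · exact (isIntegral_algebraMap_iff (algebraMap k ℂ).injective).mp ha
  · exact (isIntegral_algebraMap_iff (algebraMap k ℂ).injective).mp hb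
  · intro i j hij
    rw [hmin, hmin] at hij
    exact Fin.succ_injective _ (hinj _ _ hij)
  · intro i hij
    rw [hmin, hmin] at hij
    exact (Fin.succ_ne_zero i) (hinj _ _ hij).symm
  · intro i
    exact (hdeg _ (hf _)).2.2.2.2.trans (hT _ (hf _)).2.2.2
  · have h6 := (hdeg _ hf0).2.2.2.1.le.trans (hT _ hf0).2.2.2
    convert h6

end Pool.Agent.ZFin
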