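import Pool.Agent.ZFin.CoreU
import Pool.Agent.ZFin.SelA
import Pool.Agent.ZFin.TA

/-! # Module SelU: from a large set of exceptional points to the data of `coreU` -/

namespace Pool.Agent.ZFin
open Pool.Agent.ZCM

/-- the elements `x`, `y` generate `k(x, y)` over `k` -/
theorem SelU_gen (k : IntermediateField ℚ ℂ) (x y : ℂ) :
    IntermediateField.adjoin k
      {(⟨x, IntermediateField.subset_adjoin k {x, y} (by simp)⟩ :
          (IntermediateField.adjoin k {x, y} : IntermediateField k ℂ)),
        (⟨y, IntermediateField.subset_adjoin k {x, y} (by simp)⟩ :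
          (IntermediateField.adjoin k {x, y} : IntermediateField k ℂ))} = ⊤ := by
  apply IntermediateField.lift_injective (IntermediateField.adjoin k {x, y} : IntermediateField k ℂ)
  rw [IntermediateField.lift_adjoin, IntermediateField.lift_top]
  congr 1
  rw [Set.image_pair]

/-- degrees -/
theorem SelU_deg (a b x y : ℂ) (ha : IsAlgebraic ℚ a) (hb : IsAlgebraic ℚ b)
    (hx : IsAlgebraic ℚ x) (hy : IsAlgebraic ℚ y) :
    FiniteDimensional ℚ (IntermediateField.adjoin ℚ {a, b} : IntermediateField ℚ ℂ) ∧
    FiniteDimensional (IntermediateField.adjoin ℚ {a, b} : IntermediateField ℚ ℂ)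
      (IntermediateField.adjoin (IntermediateField.adjoin ℚ {a, b} : IntermediateField ℚ ℂ) {x, y} :
        IntermediateField (IntermediateField.adjoin ℚ {a, b} : IntermediateField ℚ ℂ) ℂ) ∧
    FiniteDimensional ℚ
      (IntermediateField.adjoin (IntermediateField.adjoin ℚ {a, b} : IntermediateField ℚ ℂ) {x, y} :
        IntermediateField (IntermediateField.adjoin ℚ {a, b} : IntermediateField ℚ ℂ) ℂ) ∧
    Module.finrank ℚ
      (IntermediateField.adjoin (IntermediateField.adjoin ℚ {a, b} : IntermediateField ℚ ℂ) {x, y} :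
        IntermediateField (IntermediateField.adjoin ℚ {a, b} : IntermediateField ℚ ℂ) ℂ) =
      Module.finrank ℚ (IntermediateField.adjoin ℚ {a, b, x, y} : IntermediateField ℚ ℂ) ∧
    Module.finrank (IntermediateField.adjoin ℚ {a, b} : IntermediateField ℚ ℂ)
      (IntermediateField.adjoin (IntermediateField.adjoin ℚ {a, b} : IntermediateField ℚ ℂ) {x, y} :
        IntermediateField (IntermediateField.adjoin ℚ {a, b} : IntermediateField ℚ ℂ) ℂ) ≤
      Module.finrank ℚ (IntermediateField.adjoin ℚ {a, b, x, y} : IntermediateField ℚ ℂ) := by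
  have h1 : FiniteDimensional ℚ (IntermediateField.adjoin ℚ {a, b} : IntermediateField ℚ ℂ) := by
    apply IntermediateField.finiteDimensional_adjoin
    intro z hz
    rcases hz with rfl | hz
    · exact ha.isIntegral
    · rw [Set.mem_singleton_iff.mp hz]
      exact hb.isIntegral
  have h2 : FiniteDimensional (IntermediateField.adjoin ℚ {a, b} : IntermediateField ℚ ℂ)
      (IntermediateField.adjoin (IntermediateField.adjoin ℚ {a, b} : IntermediateField ℚ ℂ) {x, y} :
        IntermediateField (IntermediateField.adjoin ℚ {a, b} : IntermediateField ℚ ℂ) ℂ) := by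
    apply IntermediateField.finiteDimensional_adjoin
    intro z hz
    rcases hz with rfl | hz
    · exact hx.isIntegral.tower_top
    · rw [Set.mem_singleton_iff.mp hz]
      exact hy.isIntegral.tower_top
  have h3 : FiniteDimensional ℚ
      (IntermediateField.adjoin (IntermediateField.adjoin ℚ {a, b} : IntermediateField ℚ ℂ) {x, y} :
        IntermediateField (IntermediateField.adjoin ℚ {a, b} : IntermediateField ℚ ℂ) ℂ) :=
    FiniteDimensional.trans ℚ (IntermediateField.adjoin ℚ {a, b} : IntermediateField ℚ ℂ) _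
  have h4 : Module.finrank ℚ
      (IntermediateField.adjoin (IntermediateField.adjoin ℚ {a, b} : IntermediateField ℚ ℂ) {x, y} :
        IntermediateField (IntermediateField.adjoin ℚ {a, b} : IntermediateField ℚ ℂ) ℂ) =
      Module.finrank ℚ (IntermediateField.adjoin ℚ {a, b, x, y} : IntermediateField ℚ ℂ) := by
    have h5 := IntermediateField.adjoin_adjoin_left ℚ ({a, b} : Set ℂ) ({x, y} : Set ℂ)
    have h6 : ({a, b} : Set ℂ) ∪ {x, y} = {a, b, x, y} := by
      ext z
      simp only [Set.mem_union, Set.mem_insert_iff, Set.mem_singleton_iff]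
      tauto
    rw [h6] at h5
    rw [← h5]
    rfl
  refine ⟨h1, h2, h3, h4, ?_⟩
  rw [← h4, ← Module.finrank_mul_finrank ℚ (IntermediateField.adjoin ℚ {a, b} : IntermediateField ℚ ℂ)]
  exact Nat.le_mul_of_pos_left _ Module.finrank_pos

theorem SelU_rr (D : ℕ) (hD : 1 ≤ D) : 2 ≤ rr D := by
  have h1 : 0 < dl (8 * D) := by unfold dl; positivity
  have h2 : 0 < E2 D := by unfold E2; positivity
  have h3 : 0 < r4 D := by unfold r4; positivity
  unfold rr
  omega

/-- the number of exceptional points of a lattice with `a`, `b` algebraic integers -/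
theorem coreU_count (L : PeriodPair) (a b : ℂ) (ha : IsIntegral ℤ a) (hb : IsIntegral ℤ b)
    (h2 : L.g₂ = -4 * a) (h3 : L.g₃ = -4 * b) (u v : ℂ) (D : ℕ) (hD : 1 ≤ D) (T : Finset ℂ)
    (hT : ∀ p ∈ T, p ∉ L.lattice ∧ IsAlgebraic ℚ (p - u) ∧ IsAlgebraic ℚ (zetaL L p - v) ∧
      Module.finrank ℚ (IntermediateField.adjoin ℚ {a, b, p - u, zetaL L p - v} :
        IntermediateField ℚ ℂ) ≤ D) :
    T.card ≤ rr D * D := by
  classical
  by_contra hcon
  push Not at hcon
  have haQ : IsAlgebraic ℚ a := ha.tower_top.isAlgebraic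
  have hbQ : IsAlgebraic ℚ b := hb.tower_top.isAlgebraic
  have hdeg := fun p (hp : p ∈ T) =>
    SelU_deg a b (p - u) (zetaL L p - v) haQ hbQ (hT p hp).2.1 (hT p hp).2.2.1
  let k : IntermediateField ℚ ℂ := IntermediateField.adjoin ℚ {a, b}
  let KK : ℂ → IntermediateField k ℂ :=
    fun p => IntermediateField.adjoin k {p - u, zetaL L p - v}
  let bb : ∀ p : ℂ, KK p :=
    fun p => ⟨p - u, IntermediateField.subset_adjoin k {p - u, zetaL L p - v} (by simp)⟩
  let cc : ∀ p : ℂ, KK p :=
    fun p => ⟨zetaL L p - v, IntermediateField.subset_adjoin k {p - u, zetaL L p - v} (by simp)⟩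
  have hmin : ∀ p : ℂ, minpoly k (bb p) = minpoly k (p - u) := fun p =>
    (minpoly.algebraMap_eq (A := k) (algebraMap (KK p) ℂ).injective (bb p)).symm
  have hTinj : Function.Injective (fun p : ℂ => p - u) := fun p p' h => by
    simpa using h
  have hcon' : rr D * D < (T.image (fun p => p - u)).card := by
    rw [Finset.card_image_of_injective T hTinj]
    exact hcon
  obtain ⟨f, hf, hinj⟩ := select (k := k) (rr D) D (T.image (fun p => p - u)) hcon' (by
    intro p' hp'
    obtain ⟨p, hp, rfl⟩ := Finset.mem_image.1 hp'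
    obtain ⟨h1, h2', h3', h4, h5⟩ := hdeg p hp
    refine ⟨(hT p hp).2.1.isIntegral.tower_top, ?_⟩
    rw [← hmin p]
    exact (minpoly.natDegree_le (bb p)).trans (h5.trans (hT p hp).2.2.2))
  obtain ⟨g, hg⟩ : ∃ g : Fin (rr D + 1) → ℂ, ∀ i, g i = f i + u := ⟨fun i => f i + u, fun i => rfl⟩
  have hgf : ∀ i, g i - u = f i := fun i => by rw [hg]; ring
  have hgT : ∀ i, g i ∈ T := by
    intro i
    obtain ⟨p, hp, hpf⟩ := Finset.mem_image.1 (hf i)
    have : g i = p := by
      have h5 := hgf i
      rw [← hpf] at h5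
      exact hTinj h5
    rw [this]
    exact hp
  have hfin : ∀ p ∈ T, NumberField (KK p) := by
    intro p hp
    have h3' := (hdeg p hp).2.2.1
    exact { to_charZero := inferInstance, to_finiteDimensional := by convert h3' }
  have hP : ∀ j : Fin (rr D + 1), IsAlgebraic ℚ (L.weierstrassP (g j)) := by
    intro j
    have : ∀ i : Fin (rr D), NumberField (KK (g (j.succAbove i))) := fun i => hfin _ (hgT _)
    have : NumberField (KK (g j)) := hfin _ (hgT _)
    have : NumberField k := by
      have h1' := (hdeg _ (hgT j)).1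
      exact { to_charZero := inferInstance, to_finiteDimensional := by convert h1' }
    refine coreU hD (k := k) (K := fun i => KK (g (j.succAbove i))) (K0 := KK (g j)) L
      ⟨a, IntermediateField.subset_adjoin ℚ {a, b} (by simp)⟩
      ⟨b, IntermediateField.subset_adjoin ℚ {a, b} (by simp)⟩ ?_ ?_ h2 h3 u v
      (fun i => g (j.succAbove i)) (g j)
      (fun i => bb (g (j.succAbove i))) (fun i => cc (g (j.succAbove i))) (bb (g j)) (cc (g j))
      (fun i => (hT _ (hgT _)).1) (fun i => rfl) (fun i => rfl) (hT _ (hgT j)).1 rfl rfl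
      (fun i => SelU_gen k _ _) ?_ ?_ ?_ ?_
    · exact (isIntegral_algebraMap_iff (algebraMap k ℂ).injective).mp ha
    · exact (isIntegral_algebraMap_iff (algebraMap k ℂ).injective).mp hb
    · intro i i' hii
      rw [hmin, hmin, hgf, hgf] at hii
      exact Fin.succAbove_right_injective (hinj _ _ hii)
    · intro i hii
      rw [hmin, hmin, hgf, hgf] at hii
      exact (Fin.succAbove_ne j i) (hinj _ _ hii).symm
    · intro i
      exact (hdeg _ (hgT _)).2.2.2.2.trans (hT _ (hgT _)).2.2.2
    · have h6 := (hdeg _ (hgT j)).2.2.2.1.le.trans (hT _ (hgT j)).2.2.2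
      convert h6
  have h3r : 3 ≤ rr D + 1 := by
    have := SelU_rr D hD
    omega
  have hne : ∀ i j, g i = g j → i = j := by
    intro i j hij
    apply hinj
    rw [← hgf, ← hgf, hij]
  refine three_points L a b ha hb h2 h3 (fun i => g (Fin.castLE h3r i))
    (fun i => (hT _ (hgT _)).1) ?_ ?_ (fun i => hP _)
  · intro i j hij
    exact Fin.castLE_injective h3r (hne _ _ hij)
  · intro i j
    have h7 := (hT _ (hgT (Fin.castLE h3r i))).2.1.sub (hT _ (hgT (Fin.castLE h3r j))).2.1
    have h8 : g (Fin.castLE h3r i) - g (Fin.castLE h3r j) =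
        (g (Fin.castLE h3r i) - u) - (g (Fin.castLE h3r j) - u) := by ring
    rw [h8]
    exact h7

end Pool.Agent.ZFin
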