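import Pool.Agent.ZFin.Defs

/-! # Module SmallNum: numerics of section 4.2 -/

namespace Pool.Agent.ZFin

/-- the sum over the levels -/
theorem SmallNum_sum (l N m : ℕ) (hm : 1 ≤ m) (hl : 1 ≤ l) (hN : 1 ≤ N) (C : ℝ) (hC : 0 ≤ C) :
    ∑ t ∈ Finset.range m,
        (Real.log (3 * (l * m * N : ℝ)) +
          (t * Real.log (l * m + t + 1) + C * (l * m + t + 1))) ≤
      (m : ℝ) ^ 2 / 2 * Real.log m +
        (Real.log (3 * (l * N : ℝ)) + 1 + Real.log (l + 1) + C * (l + 1)) * (m : ℝ) ^ 2 := by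
  have hm' : (1 : ℝ) ≤ m := by exact_mod_cast hm
  have hl' : (1 : ℝ) ≤ l := by exact_mod_cast hl
  have hN' : (1 : ℝ) ≤ N := by exact_mod_cast hN
  have hm0 : (0 : ℝ) < m := by linarith
  have hlog : 0 ≤ Real.log m := Real.log_nonneg hm'
  have hlogm : Real.log m ≤ m := by
    have := Real.log_le_sub_one_of_pos hm0
    linarith
  have hlN : (1 : ℝ) ≤ l * N := by nlinarith
  have hK1 : 0 ≤ Real.log (3 * (l * N : ℝ)) := Real.log_nonneg (by linarith)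
  have hK2 : 0 ≤ Real.log ((l : ℝ) + 1) := Real.log_nonneg (by linarith)
  have h1 : ∀ t ∈ Finset.range m,
      (Real.log (3 * (l * m * N : ℝ)) +
          (t * Real.log (l * m + t + 1) + C * (l * m + t + 1))) ≤
      (Real.log (3 * (l * N : ℝ)) + Real.log m) +
        ((t : ℝ) * (Real.log (l + 1) + Real.log m) + C * ((l + 1) * m)) := by
    intro t ht
    have ht' : (t : ℝ) + 1 ≤ m := by exact_mod_cast Finset.mem_range.mp ht
    have ht0 : (0 : ℝ) ≤ t := Nat.cast_nonneg t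
    have e1 : Real.log (3 * (l * m * N : ℝ)) = Real.log (3 * (l * N : ℝ)) + Real.log m := by
      rw [← Real.log_mul (by positivity) (by positivity)]
      congr 1
      ring
    have e2 : Real.log (l * m + t + 1) ≤ Real.log (l + 1) + Real.log m := by
      rw [← Real.log_mul (by positivity) (by positivity)]
      apply Real.log_le_log (by positivity)
      linarith
    have e3 : C * ((l : ℝ) * m + t + 1) ≤ C * ((l + 1) * m) := by
      apply mul_le_mul_of_nonneg_left _ hC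
      linarith
    have e4 : (t : ℝ) * Real.log (l * m + t + 1) ≤ (t : ℝ) * (Real.log (l + 1) + Real.log m) :=
      mul_le_mul_of_nonneg_left e2 ht0
    rw [e1]
    linarith
  refine (Finset.sum_le_sum h1).trans ?_
  have hsum : ∑ t ∈ Finset.range m, (t : ℝ) ≤ (m : ℝ) ^ 2 / 2 := by
    have h2 := Finset.sum_range_id_mul_two m
    have h3 : (∑ t ∈ Finset.range m, (t : ℝ)) * 2 = (m : ℝ) * ((m - 1 : ℕ) : ℝ) := by
      have h2' := congrArg (Nat.cast : ℕ → ℝ) h2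
      rwa [Nat.cast_mul, Nat.cast_sum, Nat.cast_mul, Nat.cast_ofNat] at h2'
    have h4 : ((m - 1 : ℕ) : ℝ) ≤ m := by exact_mod_cast Nat.sub_le m 1
    nlinarith
  have hsplit : ∑ t ∈ Finset.range m, ((Real.log (3 * (l * N : ℝ)) + Real.log m) +
        ((t : ℝ) * (Real.log (l + 1) + Real.log m) + C * ((l + 1) * m))) =
      m * (Real.log (3 * (l * N : ℝ)) + Real.log m) +
        ((∑ t ∈ Finset.range m, (t : ℝ)) * (Real.log (l + 1) + Real.log m) +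
          m * (C * ((l + 1) * m))) := by
    rw [Finset.sum_add_distrib, Finset.sum_add_distrib (f := fun t : ℕ => (t : ℝ) *
      (Real.log (l + 1) + Real.log m)), ← Finset.sum_mul, Finset.sum_const,
      Finset.sum_const, Finset.card_range, nsmul_eq_mul, nsmul_eq_mul]
  rw [hsplit]
  have i1 : (m : ℝ) * (Real.log (3 * (l * N : ℝ)) + Real.log m) ≤
      (Real.log (3 * (l * N : ℝ)) + 1) * (m : ℝ) ^ 2 := by
    have : (m : ℝ) * Real.log (3 * (l * N : ℝ)) ≤ (m : ℝ) ^ 2 * Real.log (3 * (l * N : ℝ)) :=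
      mul_le_mul_of_nonneg_right (by nlinarith) hK1
    nlinarith
  have i2 : (∑ t ∈ Finset.range m, (t : ℝ)) * (Real.log (l + 1) + Real.log m) ≤
      (m : ℝ) ^ 2 / 2 * (Real.log (l + 1) + Real.log m) :=
    mul_le_mul_of_nonneg_right hsum (by linarith)
  have i3 : (m : ℝ) ^ 2 / 2 * (Real.log (l + 1) + Real.log m) ≤
      (m : ℝ) ^ 2 / 2 * Real.log m + Real.log (l + 1) * (m : ℝ) ^ 2 := by
    have : 0 ≤ (m : ℝ) ^ 2 * Real.log ((l : ℝ) + 1) := by positivity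
    nlinarith
  have i4 : (m : ℝ) * (C * ((l + 1) * m)) = C * (l + 1) * (m : ℝ) ^ 2 := by ring
  rw [i4]
  linarith

/-- numerics of 4.2. `κ0 = [k:ℚ]`, `S = ∑ [K_i:ℚ] = κ0 ∑ [K_i:k]`, `κ0 ∑ [K_i:k] ≤ κ0 r D`;
level `s = i m + t` has `ρ = δ [K_i:ℚ]` and `B = exp(t log(L+t+1) + C(L+t+1))`.
Here the sum over the levels is already written as a sum over `t < m`. -/
theorem small_num (D : ℕ) (hD : 1 ≤ D) (κ0 S : ℕ) (hκ0 : 1 ≤ κ0) (hS : S ≤ κ0 * (rr D * D))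
    (C : ℝ) (hC : 0 ≤ C) : ∃ C' : ℝ, 0 ≤ C' ∧ ∃ m0 : ℕ, ∀ m : ℕ, m0 ≤ m →
      (S : ℝ) * dl (8 * D) * ∑ t ∈ Finset.range m,
        (Real.log (3 * (LL D m * (2 * (8 * D + 1) ^ 3) * κ0 : ℕ)) +
          (t * Real.log (LL D m + t + 1) + C * (LL D m + t + 1))) +
      (LL D m * (2 * (8 * D + 1) ^ 3) * κ0 : ℕ) * Real.log 2 <
      (κ0 * (X1 D * m) : ℕ) *
        Real.log (⌊Real.exp (X1 D * m * Real.log m + C' * m)⌋₊ + 1) := by
  obtain ⟨d, hd⟩ : ∃ d : ℕ, d = dl (8 * D) := ⟨_, rfl⟩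
  obtain ⟨l, hl⟩ : ∃ l : ℕ, l = r4 D + D * X1 D := ⟨_, rfl⟩
  obtain ⟨x, hx⟩ : ∃ x : ℕ, x = X1 D := ⟨_, rfl⟩
  obtain ⟨N, hN⟩ : ∃ N : ℕ, N = 2 * (8 * D + 1) ^ 3 * κ0 := ⟨_, rfl⟩
  have hd1 : 1 ≤ d := by rw [hd, dl]; omega
  have hE1 : 1 ≤ E2 D := by
    rw [E2, ← hd]
    exact Nat.succ_le_of_lt (by positivity)
  have hx1 : 1 ≤ x := by
    rw [hx, X1, ← hd]
    exact Nat.succ_le_of_lt (by positivity)
  have hl1 : 1 ≤ l := by
    rw [hl, ← hx]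
    exact Nat.succ_le_of_lt (by positivity)
  have hN1 : 1 ≤ N := by
    rw [hN]
    exact Nat.succ_le_of_lt (by positivity)
  have hkey : (rr D * D * d : ℝ) = 2 * (x : ℝ) ^ 2 := by
    rw [hx, X1, rr, r4, ← hd]
    push_cast
    ring
  obtain ⟨K, hK⟩ : ∃ K : ℝ, K = Real.log (3 * (l * N : ℝ)) + 1 + Real.log (l + 1) + C * (l + 1) :=
    ⟨_, rfl⟩
  have hl' : (1 : ℝ) ≤ l := by exact_mod_cast hl1
  have hN' : (1 : ℝ) ≤ N := by exact_mod_cast hN1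
  have hx' : (1 : ℝ) ≤ x := by exact_mod_cast hx1
  have hd' : (1 : ℝ) ≤ d := by exact_mod_cast hd1
  have hκ' : (1 : ℝ) ≤ κ0 := by exact_mod_cast hκ0
  have hK0 : 0 ≤ K := by
    have hlN : (1 : ℝ) ≤ l * N := by nlinarith
    have hK1 : 0 ≤ Real.log (3 * (l * N : ℝ)) := Real.log_nonneg (by linarith)
    have hK2 : 0 ≤ Real.log ((l : ℝ) + 1) := Real.log_nonneg (by linarith)
    rw [hK]
    positivity
  refine ⟨2 * (x : ℝ) ^ 2 * K + l * N, by positivity, 1, fun m hm => ?_⟩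
  have hm' : (1 : ℝ) ≤ m := by exact_mod_cast hm
  have hm0 : (0 : ℝ) < m := by linarith
  have hlog : 0 ≤ Real.log m := Real.log_nonneg hm'
  have hcast : ((LL D m * (2 * (8 * D + 1) ^ 3) * κ0 : ℕ) : ℝ) = l * m * N := by
    rw [LL, ← hl, hN]
    push_cast
    ring
  have hcast2 : ((LL D m : ℕ) : ℝ) = l * m := by
    rw [LL, ← hl]
    push_cast
    ring
  rw [hcast, hcast2, ← hd, ← hx]
  have hsum := SmallNum_sum l N m hm hl1 hN1 C hC
  rw [← hK] at hsum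
  have hS' : (S : ℝ) * d ≤ κ0 * (2 * (x : ℝ) ^ 2) := by
    have h1 : (S : ℝ) ≤ κ0 * (rr D * D) := by exact_mod_cast hS
    calc (S : ℝ) * d ≤ κ0 * (rr D * D) * d := mul_le_mul_of_nonneg_right h1 (by linarith)
      _ = κ0 * (2 * (x : ℝ) ^ 2) := by rw [← hkey]; ring
  have hT0 : (0 : ℝ) ≤ (m : ℝ) ^ 2 / 2 * Real.log m + K * (m : ℝ) ^ 2 := by positivity
  have hA : (S : ℝ) * d * ∑ t ∈ Finset.range m,
        (Real.log (3 * (l * m * N : ℝ)) +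
          (t * Real.log (l * m + t + 1) + C * (l * m + t + 1))) ≤
      κ0 * (2 * (x : ℝ) ^ 2) * ((m : ℝ) ^ 2 / 2 * Real.log m + K * (m : ℝ) ^ 2) :=
    calc _ ≤ (S : ℝ) * d * ((m : ℝ) ^ 2 / 2 * Real.log m + K * (m : ℝ) ^ 2) :=
          mul_le_mul_of_nonneg_left hsum (by positivity)
      _ ≤ _ := mul_le_mul_of_nonneg_right hS' hT0
  have hB : (l * m * N : ℝ) * Real.log 2 ≤ l * N * (m : ℝ) ^ 2 := by
    have h2 : Real.log 2 ≤ 1 := by linarith [Real.log_two_lt_d9]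
    have h3 : (l * m * N : ℝ) * Real.log 2 ≤ (l * m * N : ℝ) * 1 :=
      mul_le_mul_of_nonneg_left h2 (by positivity)
    have h4 : (l * m * N : ℝ) ≤ l * N * (m : ℝ) ^ 2 := by
      have : (m : ℝ) ≤ (m : ℝ) ^ 2 := by nlinarith
      calc (l * m * N : ℝ) = l * N * m := by ring
        _ ≤ l * N * (m : ℝ) ^ 2 := mul_le_mul_of_nonneg_left this (by positivity)
    linarith
  obtain ⟨y, hy⟩ : ∃ y : ℝ, y = x * m * Real.log m + (2 * (x : ℝ) ^ 2 * K + l * N) * m :=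
    ⟨_, rfl⟩
  have hlt : y < Real.log (⌊Real.exp y⌋₊ + 1) := by
    have h1 : Real.exp y < (⌊Real.exp y⌋₊ : ℝ) + 1 := Nat.lt_floor_add_one _
    calc y = Real.log (Real.exp y) := (Real.log_exp y).symm
      _ < Real.log (⌊Real.exp y⌋₊ + 1) := Real.log_lt_log (Real.exp_pos y) h1
  rw [← hy]
  have hc : ((κ0 * (x * m) : ℕ) : ℝ) = κ0 * (x * m) := by push_cast; ring
  rw [hc]
  have hpos : (0 : ℝ) < κ0 * (x * m) := by positivity
  refine lt_of_le_of_lt ?_ (mul_lt_mul_of_pos_left hlt hpos)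
  refine (add_le_add hA hB).trans ?_
  clear hA hB hsum hlt hpos hcast hcast2 hS' hkey hT0
  generalize Real.log m = Lm at hy hlog ⊢
  have hP0 : 0 ≤ 2 * (x : ℝ) ^ 2 * K := by positivity
  have hQ0 : (0 : ℝ) ≤ l * N := by positivity
  have hm2 : 0 ≤ (m : ℝ) ^ 2 := by positivity
  have h6 : (κ0 : ℝ) ≤ κ0 * x := le_mul_of_one_le_right (by linarith) hx'
  have h7 : (1 : ℝ) ≤ κ0 * x := hκ'.trans h6
  have h8 : κ0 * (2 * (x : ℝ) ^ 2 * K) ≤ (κ0 * x) * (2 * (x : ℝ) ^ 2 * K) :=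
    mul_le_mul_of_nonneg_right h6 hP0
  have h9 : (l * N : ℝ) ≤ (κ0 * x) * (l * N) := le_mul_of_one_le_left hQ0 h7
  have h10 : (κ0 * (2 * (x : ℝ) ^ 2 * K) + l * N) * (m : ℝ) ^ 2 ≤
      ((κ0 * x) * (2 * (x : ℝ) ^ 2 * K) + (κ0 * x) * (l * N)) * (m : ℝ) ^ 2 :=
    mul_le_mul_of_nonneg_right (add_le_add h8 h9) hm2
  have h11 : κ0 * (2 * (x : ℝ) ^ 2) * ((m : ℝ) ^ 2 / 2 * Lm + K * (m : ℝ) ^ 2) +
      l * N * (m : ℝ) ^ 2 = κ0 * (x : ℝ) ^ 2 * (m : ℝ) ^ 2 * Lm +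
        (κ0 * (2 * (x : ℝ) ^ 2 * K) + l * N) * (m : ℝ) ^ 2 := by ring
  have h12 : κ0 * (x * m) * y = κ0 * (x : ℝ) ^ 2 * (m : ℝ) ^ 2 * Lm +
      ((κ0 * x) * (2 * (x : ℝ) ^ 2 * K) + (κ0 * x) * (l * N)) * (m : ℝ) ^ 2 := by
    rw [hy]; ring
  rw [h11, h12]
  exact add_le_add le_rfl h10

end Pool.Agent.ZFin
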