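import Pool.Agent.ZFin.Gap
import Pool.Agent.ZFin.Rows
import Pool.Agent.ZFin.PH
import Pool.Agent.ZFin.SmallNum

/-! # Module Small: the small solution with small order at `(β0,c0)` (section 4) -/

namespace Pool.Agent.ZFin
open Polynomial

/-- the properties of the auxiliary polynomial of index `m` -/
structure SmallSol (D : ℕ) {k : Type} [Field k] {K : Fin (rr D) → Type}
    [∀ i, Field (K i)] [∀ i, Algebra k (K i)] {K0 : Type} [Field K0] [Algebra k K0]
    (a b : k) (β c : ∀ i, K i) (β0 c0 : K0) (C : ℝ) (m e : ℕ) (p : Idx (8 * D) → k[X]) : Prop where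
  deg : p ∈ Amb k (Idx (8 * D)) (LL D m)
  int : ∀ i n, IsIntegral ℤ ((p i).coeff n)
  size : ∀ i n, ∀ σ : k →+* ℂ, ‖σ ((p i).coeff n)‖ ≤ Real.exp (X1 D * m * Real.log m + C * m)
  van : ∀ i, ∀ t < m, gk a b (β i) (c i) t p = 0
  e_lt : e < X1 D * m
  van0 : ∀ t < e, gk a b β0 c0 t p = 0
  ne0 : gk a b β0 c0 e p ≠ 0

private theorem Small_basis (k : Type) [Field k] [NumberField k] :
    ∃ ω : Module.Basis (Fin (Module.finrank ℚ k)) ℚ k, ∀ μ, IsIntegral ℤ (ω μ) := by
  classical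
  have hcard : Fintype.card (Module.Free.ChooseBasisIndex ℤ (NumberField.RingOfIntegers k)) =
      Module.finrank ℚ k := by
    rw [Module.finrank_eq_card_basis (NumberField.integralBasis k)]
  refine ⟨(NumberField.integralBasis k).reindex (Fintype.equivFinOfCardEq hcard), fun μ => ?_⟩
  rw [Module.Basis.reindex_apply, NumberField.integralBasis_apply]
  exact NumberField.RingOfIntegers.isIntegral_coe _

private theorem Small_coeff {k : Type} [Field k] [CharZero k] {q L κ : ℕ} (ω : Fin κ → k)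
    (v : II q L κ → ℚ) (i : Idx q) (n : ℕ) :
    (pv ω v i).coeff n = if h : n < L then ∑ μ : Fin κ, (v (⟨n, h⟩, i, μ) : k) * ω μ else 0 := by
  rw [pv, Polynomial.finsetSum_coeff]
  simp only [Polynomial.coeff_C_mul, Polynomial.coeff_X_pow]
  split_ifs with h
  · rw [Finset.sum_eq_single (⟨n, h⟩ : Fin L)]
    · simp
    · intro l _ hl
      rw [if_neg, mul_zero]
      intro hn
      exact hl (Fin.ext hn.symm)
    · intro h'
      exact absurd (Finset.mem_univ _) h'
  · refine Finset.sum_eq_zero fun l _ => ?_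
    rw [if_neg, mul_zero]
    intro hn
    exact h (hn ▸ l.2)

private theorem Small_int {k : Type} [Field k] [CharZero k] {q L κ : ℕ} (ω : Fin κ → k)
    (hω : ∀ μ, IsIntegral ℤ (ω μ)) (v : II q L κ → ℤ) (i : Idx q) (n : ℕ) :
    IsIntegral ℤ ((pv ω (fun j => (v j : ℚ)) i).coeff n) := by
  rw [Small_coeff]
  split_ifs with h
  · refine IsIntegral.sum _ fun μ _ => ?_
    refine IsIntegral.mul ?_ (hω μ)
    have : (((v (⟨n, h⟩, i, μ) : ℤ) : ℚ) : k) = algebraMap ℤ k (v (⟨n, h⟩, i, μ)) := by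
      simp
    rw [this]
    exact isIntegral_algebraMap
  · exact isIntegral_zero

private theorem Small_size {k : Type} [Field k] [NumberField k] {q L κ : ℕ} (ω : Fin κ → k)
    (v : II q L κ → ℤ) (X : ℕ) (hv : ∀ j, |v j| ≤ (X : ℤ)) (i : Idx q) (n : ℕ) (σ : k →+* ℂ) :
    ‖σ ((pv ω (fun j => (v j : ℚ)) i).coeff n)‖ ≤ X * (1 + ∑ τ : k →+* ℂ, ∑ μ, ‖τ (ω μ)‖) := by
  have h0 : (0:ℝ) ≤ ∑ τ : k →+* ℂ, ∑ μ, ‖τ (ω μ)‖ :=
    Finset.sum_nonneg fun _ _ => Finset.sum_nonneg fun _ _ => norm_nonneg _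
  rw [Small_coeff]
  split_ifs with h
  · rw [map_sum]
    calc ‖∑ μ, σ ((((v (⟨n, h⟩, i, μ) : ℤ) : ℚ) : k) * ω μ)‖
        ≤ ∑ μ, ‖σ ((((v (⟨n, h⟩, i, μ) : ℤ) : ℚ) : k) * ω μ)‖ := norm_sum_le _ _
      _ ≤ ∑ μ, (X : ℝ) * ‖σ (ω μ)‖ := by
          refine Finset.sum_le_sum fun μ _ => ?_
          rw [map_mul, norm_mul]
          refine mul_le_mul_of_nonneg_right ?_ (norm_nonneg _)
          have h1 : σ (((v (⟨n, h⟩, i, μ) : ℤ) : ℚ) : k) = ((v (⟨n, h⟩, i, μ) : ℤ) : ℂ) := by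
            simp
          rw [h1, Complex.norm_intCast]
          have := hv (⟨n, h⟩, i, μ)
          exact_mod_cast this
      _ = X * ∑ μ, ‖σ (ω μ)‖ := by rw [Finset.mul_sum]
      _ ≤ X * (1 + ∑ τ : k →+* ℂ, ∑ μ, ‖τ (ω μ)‖) := by
          refine mul_le_mul_of_nonneg_left ?_ (Nat.cast_nonneg _)
          have : ∑ μ, ‖σ (ω μ)‖ ≤ ∑ τ : k →+* ℂ, ∑ μ, ‖τ (ω μ)‖ :=
            Finset.single_le_sum (f := fun τ : k →+* ℂ => ∑ μ, ‖τ (ω μ)‖)
              (fun _ _ => Finset.sum_nonneg fun _ _ => norm_nonneg _) (Finset.mem_univ σ)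
          linarith
  · rw [map_zero, norm_zero]
    positivity

/-- sums over levels `s = i m + t` -/
private theorem Small_sum (r m : ℕ) (f : ℕ → ℝ) :
    ∑ s ∈ Finset.range (r * m), f s = ∑ i : Fin r, ∑ t ∈ Finset.range m, f ((i : ℕ) * m + t) := by
  rw [← Fin.sum_univ_eq_sum_range f (r * m), ← finProdFinEquiv.sum_comp, Fintype.sum_prod_type]
  refine Finset.sum_congr rfl fun i _ => ?_
  rw [← Fin.sum_univ_eq_sum_range (fun t => f ((i : ℕ) * m + t)) m]
  refine Finset.sum_congr rfl fun t _ => ?_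
  rw [finProdFinEquiv_apply_val, add_comm, mul_comm]

private theorem Small_fin {k : Type} [Field k] [NumberField k] {q L κ : ℕ}
    (ω : Module.Basis (Fin κ) ℚ k) (Φ : (II q L κ → ℚ) →ₗ[ℚ] (Idx q → k[X]))
    (hΦ : ∀ v, Φ v = pv ω v) (N : Submodule k (Idx q → k[X])) :
    Module.finrank ℚ ((N.restrictScalars ℚ).comap Φ) = Module.finrank ℚ k * fl N L := by
  obtain ⟨h1, h2, h3⟩ := pv_bij (q := q) (L := L) ω
  set g : ((N.restrictScalars ℚ).comap Φ) →ₗ[ℚ] ((N ⊓ Amb k (Idx q) L).restrictScalars ℚ) :=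
    (Φ.domRestrict _).codRestrict _ (fun v => ⟨v.2, by
      show Φ v.1 ∈ Amb k (Idx q) L
      rw [hΦ]
      exact h1 _⟩) with hg
  have hgv : ∀ v, ((g v : (N ⊓ Amb k (Idx q) L).restrictScalars ℚ) : Idx q → k[X]) = Φ v.1 :=
    fun v => rfl
  have hb : Function.Bijective g := by
    constructor
    · intro v w hvw
      have := congrArg Subtype.val hvw
      rw [hgv, hgv, hΦ, hΦ] at this
      exact Subtype.ext (h2 _ _ this)
    · rintro ⟨p, hp1, hp2⟩
      obtain ⟨v, hv⟩ := h3 p hp2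
      refine ⟨⟨v, ?_⟩, ?_⟩
      · show Φ v ∈ N
        rw [hΦ, hv]
        exact hp1
      · apply Subtype.ext
        rw [hgv, hΦ, hv]
  rw [(LinearEquiv.ofBijective g hb).finrank_eq, fl]
  exact (Module.finrank_mul_finrank ℚ k ↥(N ⊓ Amb k (Idx q) L)).symm

private theorem Small_min (T : ℕ) (P : ℕ → Prop) (h : ¬ ∀ t < T, P t) :
    ∃ e < T, ¬ P e ∧ ∀ t < e, P t := by
  classical
  have h' : ∃ t, ¬ P t := by
    by_contra h1
    exact h fun t _ => by
      by_contra h2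
      exact h1 ⟨t, h2⟩
  refine ⟨Nat.find h', ?_, Nat.find_spec h', fun t ht => not_not.1 (Nat.find_min h' ht)⟩
  by_contra h2
  exact h fun t ht => not_not.1 (Nat.find_min h' (lt_of_lt_of_le ht (not_lt.1 h2)))

theorem small {D : ℕ} (hD : 1 ≤ D) {k : Type} [Field k] [NumberField k] {K : Fin (rr D) → Type}
    [∀ i, Field (K i)] [∀ i, NumberField (K i)] [∀ i, Algebra k (K i)]
    [Algebra k ℂ] [∀ i, Algebra (K i) ℂ] [∀ i, IsScalarTower k (K i) ℂ]
    {K0 : Type} [Field K0] [NumberField K0] [Algebra k K0]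
    (L : PeriodPair) (a b : k) (ha : IsIntegral ℤ a) (hb : IsIntegral ℤ b)
    (h2 : L.g₂ = -4 * algebraMap k ℂ a) (h3 : L.g₃ = -4 * algebraMap k ℂ b)
    (β c : ∀ i, K i) (β0 c0 : K0) (hκ : ∀ i, Module.finrank k (K i) ≤ D)
    (hgap : GapHyp D a b β c β0 c0) :
    ∃ C : ℝ, 0 ≤ C ∧ ∃ m0 : ℕ, ∀ m ≥ m0, ∃ (e : ℕ) (p : Idx (8 * D) → k[X]),
      SmallSol D a b β c β0 c0 C m e p := by
  classical
  obtain ⟨κ0, hκ0, ω, hω⟩ : ∃ κ0 : ℕ, Module.finrank ℚ k = κ0 ∧
      ∃ ω : Module.Basis (Fin κ0) ℚ k, ∀ μ, IsIntegral ℤ (ω μ) := ⟨_, rfl, Small_basis k⟩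
  have hκ0pos : 1 ≤ κ0 := by
    rw [← hκ0]
    exact Nat.succ_le_of_lt Module.finrank_pos
  obtain ⟨m1, hm1⟩ := hgap
  have hrows := fun i => rows a b ha hb (β i) (c i) (8 * D) (fun μ => ω μ) hω
  choose Cr hCr0 hCr using hrows
  set Cm : ℝ := ∑ i, Cr i with hCm
  have hCm0 : 0 ≤ Cm := Finset.sum_nonneg fun i _ => hCr0 i
  have hCrm : ∀ i, Cr i ≤ Cm := fun i =>
    Finset.single_le_sum (f := Cr) (fun j _ => hCr0 j) (Finset.mem_univ i)
  set S : ℕ := ∑ i, Module.finrank ℚ (K i) with hSdef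
  have hS : S ≤ κ0 * (rr D * D) := by
    have h : ∀ i ∈ (Finset.univ : Finset (Fin (rr D))), Module.finrank ℚ (K i) ≤ κ0 * D := by
      intro i _
      rw [← Module.finrank_mul_finrank ℚ k (K i), hκ0]
      exact Nat.mul_le_mul_left _ (hκ i)
    have := Finset.sum_le_card_nsmul _ _ _ h
    rw [Finset.card_univ, Fintype.card_fin, smul_eq_mul] at this
    calc S ≤ rr D * (κ0 * D) := this
      _ = κ0 * (rr D * D) := by ring
  obtain ⟨C', hC'0, m2, hm2⟩ := small_num D hD κ0 S hκ0pos hS Cm hCm0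
  set Cω : ℝ := 1 + ∑ τ : k →+* ℂ, ∑ μ, ‖τ (ω μ)‖ with hCω
  have hCω1 : 1 ≤ Cω := by
    have h0 : (0:ℝ) ≤ ∑ τ : k →+* ℂ, ∑ μ, ‖τ (ω μ)‖ :=
      Finset.sum_nonneg fun _ _ => Finset.sum_nonneg fun _ _ => norm_nonneg _
    linarith
  have hlogω : 0 ≤ Real.log Cω := Real.log_nonneg hCω1
  refine ⟨C' + Real.log Cω, by linarith, max (max m1 m2) 1, ?_⟩
  intro m hm
  have hmm1 : m1 ≤ m := (le_max_left _ _).trans ((le_max_left _ _).trans hm)
  have hmm2 : m2 ≤ m := (le_max_right _ _).trans ((le_max_left _ _).trans hm)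
  have hmpos : 1 ≤ m := (le_max_right _ _).trans hm
  have hgm := hm1 m hmm1
  have hnum := hm2 m hmm2
  have hAex := fun (i : Fin (rr D)) (t : ℕ) => hCr i (LL D m) t
  choose n A hA1 hA2 using hAex
  obtain ⟨Φ, hΦ⟩ := exists_pvl (q := 8 * D) (L := LL D m) (fun μ => ω μ)
  set N1 := LamS (8 * D) a b β c m with hN1
  set N2 := VanS (8 * D) a b β0 c0 (X1 D * m) with hN2
  set B : ℕ → ℝ := fun s => Real.exp (((s % m : ℕ) : ℝ) * Real.log (LL D m + (s % m : ℕ) + 1) +
    Cm * (LL D m + (s % m : ℕ) + 1)) with hB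
  set ρ : ℕ → ℕ := fun s => if h : s / m < rr D then dl (8 * D) * Module.finrank ℚ (K ⟨s / m, h⟩) else 0
    with hρdef
  have hmod : ∀ i t : ℕ, t < m → (i * m + t) % m = t := by
    intro i t ht
    rw [Nat.add_comm, Nat.add_mul_mod_self_right, Nat.mod_eq_of_lt ht]
  have hdiv : ∀ i t : ℕ, t < m → (i * m + t) / m = i := by
    intro i t ht
    rw [Nat.add_comm, Nat.add_mul_div_right _ _ hmpos, Nat.div_eq_of_lt ht, zero_add]
  have hWT : Wlev (8 * D) a b β c m Φ ⊤ (rr D * m) = (N1.restrictScalars ℚ).comap Φ := by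
    ext v
    rw [mem_Wlev, Submodule.mem_comap, Submodule.restrictScalars_mem, hN1, mem_LamS]
    constructor
    · intro h i t ht
      refine h.2 i t ht ?_
      have := i.2
      calc (i : ℕ) * m + t < (i : ℕ) * m + m := by omega
        _ = ((i : ℕ) + 1) * m := by ring
        _ ≤ rr D * m := Nat.mul_le_mul_right _ this
    · intro h
      exact ⟨Submodule.mem_top, fun i t ht _ => h i t ht⟩
  have hcard : Fintype.card (II (8 * D) (LL D m) κ0) = LL D m * (2 * (8 * D + 1) ^ 3) * κ0 := by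
    simp only [II, Idx, Fintype.card_prod, Fintype.card_fin]
    ring
  have hLLpos : 1 ≤ LL D m := by
    have h1 : 1 ≤ dl (8 * D) := by unfold dl; omega
    have h2 : 1 ≤ E2 D := by
      unfold E2
      have : 1 ≤ D ^ 2 := Nat.one_le_pow _ _ hD
      nlinarith
    have h3 : 1 ≤ r4 D := by
      unfold r4
      have : 1 ≤ E2 D ^ 2 := Nat.one_le_pow _ _ h2
      have h4 : 1 ≤ 2 * E2 D ^ 2 * dl (8 * D) := by nlinarith
      nlinarith
    unfold LL
    exact Nat.mul_pos (Nat.add_pos_left h3 _) hmpos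
  obtain ⟨v, hv1, hv2, hv3⟩ := pigeon_levels
    (J := Σ i : Fin (rr D), Σ t : Fin m, Fin (n i t))
    (fun j => A j.1 j.2.1 j.2.2) (fun j => (j.1 : ℕ) * m + j.2.1) (rr D * m)
    (by
      rintro ⟨i, t, l⟩
      have hi := i.2
      have ht := t.2
      calc (i : ℕ) * m + t < (i : ℕ) * m + m := by omega
        _ = ((i : ℕ) + 1) * m := by ring
        _ ≤ rr D * m := Nat.mul_le_mul_right _ hi)
    B
    (by
      intro s
      simp only [hB]
      refine Real.one_le_exp ?_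
      have h1 : (1:ℝ) ≤ LL D m + (s % m : ℕ) + 1 := by
        have : (0:ℝ) ≤ (LL D m : ℝ) + (s % m : ℕ) := by positivity
        linarith
      have := Real.log_nonneg h1
      positivity)
    (by
      rintro ⟨i, t, l⟩ j
      refine (hA1 i t l j).trans ?_
      simp only [hB]
      rw [hmod i t t.2]
      refine Real.exp_le_exp.2 ?_
      have h1 : (0:ℝ) ≤ (LL D m : ℝ) + (t : ℕ) + 1 := by positivity
      have := mul_le_mul_of_nonneg_right (hCrm i) h1
      linarith)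
    (fun s => Wlev (8 * D) a b β c m Φ ⊤ s)
    (by
      intro s v
      rw [mem_Wlev]
      constructor
      · rintro h ⟨i, t, l⟩ hs
        have := h.2 i t t.2 hs
        rw [hΦ] at this
        exact (hA2 i t v).2 this l
      · intro h
        refine ⟨Submodule.mem_top, fun i t ht hs => ?_⟩
        rw [hΦ]
        exact (hA2 i t v).1 fun l => h ⟨i, ⟨t, ht⟩, l⟩ hs)
    ρ
    (by
      intro s hs
      have hlt : s / m < rr D := Nat.div_lt_of_lt_mul (by rwa [Nat.mul_comm] at hs)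
      have h := lev_step L a b h2 h3 (8 * D) β c m Φ ⊤ ⟨s / m, hlt⟩ (s % m) (Nat.mod_lt _ hmpos)
      have hsm : s / m * m + s % m = s := Nat.div_add_mod' s m
      simp only at h
      rw [hsm] at h
      simp only [hρdef]
      rw [dif_pos hlt]
      exact h)
    (((N1 ⊓ N2).restrictScalars ℚ).comap Φ)
    (by
      show _ ≤ Wlev (8 * D) a b β c m Φ ⊤ (rr D * m)
      rw [hWT]
      intro v hv
      exact hv.1)
    (κ0 * (X1 D * m))
    (by
      show _ ≤ Module.finrank ℚ (Wlev (8 * D) a b β c m Φ ⊤ (rr D * m))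
      rw [hWT, Small_fin ω Φ hΦ, Small_fin ω Φ hΦ, hκ0, ← Nat.mul_add]
      exact Nat.mul_le_mul_left _ hgm)
    ⌊Real.exp (X1 D * m * Real.log m + C' * m)⌋₊
    (by
      refine lt_of_le_of_lt (le_of_eq ?_) hnum
      rw [Small_sum, hcard]
      congr 1
      rw [hSdef]
      push_cast
      rw [Finset.sum_mul, Finset.sum_mul]
      refine Finset.sum_congr rfl fun i _ => ?_
      rw [Finset.mul_sum]
      refine Finset.sum_congr rfl fun t ht => ?_
      have ht' := Finset.mem_range.1 ht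
      have h1 : ρ ((i : ℕ) * m + t) = dl (8 * D) * Module.finrank ℚ (K i) := by
        have hx : ∀ (x : ℕ) (_ : x = i) (h : x < rr D),
            Module.finrank ℚ (K ⟨x, h⟩) = Module.finrank ℚ (K i) := by
          rintro x rfl h
          rfl
        have hlt : ((i : ℕ) * m + t) / m < rr D := by
          rw [hdiv i t ht']
          exact i.2
        simp only [hρdef]
        rw [dif_pos hlt, hx _ (hdiv i t ht') hlt]
      have h2 : Real.log (B ((i : ℕ) * m + t)) = (t : ℝ) * Real.log (LL D m + t + 1) +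
          Cm * (LL D m + t + 1) := by
        simp only [hB]
        rw [Real.log_exp, hmod i t ht']
      have hne : (3 * ((LL D m : ℝ) * (2 * (8 * D + 1) ^ 3) * κ0)) ≠ 0 := by
        have : (0:ℝ) < LL D m := by exact_mod_cast hLLpos
        have h' : (0:ℝ) < κ0 := by exact_mod_cast hκ0pos
        positivity
      rw [h1, Real.log_mul hne (Real.exp_pos _).ne', h2]
      push_cast
      ring)
  -- the order at the extra point
  have hvT : (fun i => (v i : ℚ)) ∈ Wlev (8 * D) a b β c m Φ ⊤ (rr D * m) := hv2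
  have hnot : ¬ ∀ t < X1 D * m, gk a b β0 c0 t (Φ fun i => (v i : ℚ)) = 0 := by
    intro h
    apply hv3
    show Φ _ ∈ N1 ⊓ N2
    rw [hWT] at hvT
    exact ⟨hvT, mem_VanS.2 h⟩
  obtain ⟨e, he1, he2, he3⟩ := Small_min _ _ hnot
  refine ⟨e, pv ω (fun i => (v i : ℚ)), ?_, ?_, ?_, ?_, he1, ?_, ?_⟩
  · exact (pv_bij ω).1 _
  · intro i n
    exact Small_int ω hω v i n
  · intro i n σ
    refine (Small_size ω v _ hv1 i n σ).trans ?_
    have h1 : ((⌊Real.exp (X1 D * m * Real.log m + C' * m)⌋₊ : ℕ) : ℝ) ≤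
        Real.exp (X1 D * m * Real.log m + C' * m) := Nat.floor_le (Real.exp_pos _).le
    have hm' : (1:ℝ) ≤ m := by exact_mod_cast hmpos
    calc (⌊Real.exp (X1 D * m * Real.log m + C' * m)⌋₊ : ℝ) * Cω
        ≤ Real.exp (X1 D * m * Real.log m + C' * m) * Real.exp (Real.log Cω) := by
          rw [Real.exp_log (by linarith)]
          exact mul_le_mul_of_nonneg_right h1 (by linarith)
      _ = Real.exp (X1 D * m * Real.log m + C' * m + Real.log Cω) := by rw [← Real.exp_add]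
      _ ≤ Real.exp (X1 D * m * Real.log m + (C' + Real.log Cω) * m) := by
          refine Real.exp_le_exp.2 ?_
          have h5 := mul_le_mul_of_nonneg_left hm' hlogω
          rw [add_mul]
          linarith
  · intro i t ht
    rw [hWT] at hvT
    have := (mem_LamS.1 hvT) i t ht
    rwa [hΦ] at this
  · intro t ht
    have := he3 t ht
    rwa [hΦ] at this
  · rw [hΦ] at he2
    exact he2

end Pool.Agent.ZFin
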