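import Pool.Agent.ZFin.Defs

/-! # Module Tay: Taylor homomorphisms (section 2.3) -/

namespace Pool.Agent.ZFin
open Polynomial

/-- Leibniz rule for the iterates of a derivation -/
theorem Tay_leibniz {F B : Type*} [CommRing F] [CommRing B] [Algebra F B] (δ : Derivation F B B)
    (p q : B) (n : ℕ) :
    (⇑δ)^[n] (p * q) = ∑ ij ∈ Finset.HasAntidiagonal.antidiagonal n,
      n.choose ij.1 • ((⇑δ)^[ij.1] p * (⇑δ)^[ij.2] q) := by
  induction n with
  | zero => simp
  | succ n ih =>
    rw [Function.iterate_succ_apply', ih, map_sum,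
      Finset.sum_antidiagonal_choose_succ_nsmul (fun i j => (⇑δ)^[i] p * (⇑δ)^[j] q) n,
      ← Finset.sum_add_distrib]
    refine Finset.sum_congr rfl fun ij hij => ?_
    have h1 : n.choose ij.2 = n.choose ij.1 := by
      rw [Finset.HasAntidiagonal.mem_antidiagonal] at hij
      rw [← Nat.choose_symm_of_eq_add hij.symm]
    rw [map_nsmul, Derivation.leibniz, h1, smul_eq_mul, smul_eq_mul, smul_add,
      Function.iterate_succ_apply', Function.iterate_succ_apply', mul_comm ((⇑δ)^[ij.2] q)]

theorem Tay_one {F B : Type*} [CommRing F] [CommRing B] [Algebra F B] (δ : Derivation F B B)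
    (n : ℕ) : (⇑δ)^[n + 1] (1 : B) = 0 := by
  rw [Function.iterate_succ_apply, Derivation.map_one_eq_zero, iterate_map_zero]

section
variable {F : Type*} [Field F] [CharZero F] {A : Type*} [CommRing A] [Algebra F A]
  (d : Derivation F A A) (x : A)

/-- `P ↦ ∑ ev(DD^t P) s^t / t!` is a ring homomorphism -/
theorem exists_tay (β c : F) : ∃ φ : A[X][X] →+* PowerSeries A, ∀ (P : A[X][X]) (t : ℕ),
    PowerSeries.coeff t (φ P) =
      ((t.factorial : F)⁻¹) • evalEval (algebraMap F A β) (algebraMap F A c) ((⇑(DD d x))^[t] P) := by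
  refine ⟨{ toFun := fun P => PowerSeries.mk fun t => ((t.factorial : F)⁻¹) •
              evalEval (algebraMap F A β) (algebraMap F A c) ((⇑(DD d x))^[t] P)
            map_one' := ?_
            map_mul' := ?_
            map_zero' := ?_
            map_add' := ?_ }, ?_⟩
  · ext t
    rw [PowerSeries.coeff_mk, PowerSeries.coeff_one]
    cases t with
    | zero => simp
    | succ t => rw [Tay_one]; simp
  · intro P Q
    ext t
    rw [PowerSeries.coeff_mul, PowerSeries.coeff_mk, Tay_leibniz]
    rw [← coe_evalEvalRingHom, map_sum, Finset.smul_sum]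
    refine Finset.sum_congr rfl fun ij hij => ?_
    rw [Finset.HasAntidiagonal.mem_antidiagonal] at hij
    rw [PowerSeries.coeff_mk, PowerSeries.coeff_mk, map_nsmul, map_mul, smul_mul_smul_comm,
      ← Nat.cast_smul_eq_nsmul F, smul_smul]
    congr 1
    have h1 := Nat.add_choose_mul_factorial_mul_factorial ij.1 ij.2
    rw [hij, ← Nat.choose_symm_of_eq_add hij.symm] at h1
    have h2 : ((t.choose ij.1 : ℕ) : F) * (ij.1.factorial : F) * (ij.2.factorial : F) =
        (t.factorial : F) := by exact_mod_cast congrArg (fun n : ℕ => (n : F)) h1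
    have h3 : (ij.1.factorial : F) ≠ 0 := by exact_mod_cast ij.1.factorial_ne_zero
    have h4 : (ij.2.factorial : F) ≠ 0 := by exact_mod_cast ij.2.factorial_ne_zero
    have h5 : (t.factorial : F) ≠ 0 := by exact_mod_cast t.factorial_ne_zero
    field_simp
    rw [← h2]
  · ext t
    rw [PowerSeries.coeff_mk, iterate_map_zero]
    simp
  · intro P Q
    ext t
    rw [PowerSeries.coeff_mk, iterate_map_add, map_add, PowerSeries.coeff_mk, PowerSeries.coeff_mk,
      ← coe_evalEvalRingHom, map_add, smul_add]
  · intro P t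
    rw [RingHom.coe_mk, MonoidHom.coe_mk, OneHom.coe_mk, PowerSeries.coeff_mk]

omit [CharZero F] in
/-- on polynomials in `z` the iterates do not see `Y` -/
theorem DD_iterate_C (u : A[X]) (t : ℕ) :
    (⇑(DD d x))^[t] (C u) = C ((⇑(Dz d))^[t] u) := by
  induction t with
  | zero => rfl
  | succ t ih => rw [Function.iterate_succ_apply', ih, DD_C, ← Function.iterate_succ_apply' (⇑(Dz d))]

omit [CharZero F] in
/-- `DD^(t+1) Y = -d^t x` -/
theorem DD_iterate_X (t : ℕ) :
    (⇑(DD d x))^[t + 1] (X : A[X][X]) = -C (C ((⇑d)^[t] x)) := by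
  induction t with
  | zero =>
    rw [Function.iterate_succ_apply', Function.iterate_zero_apply, DD_X]
    rfl
  | succ t ih =>
    rw [Function.iterate_succ_apply', ih, map_neg, DD_C, Dz_C, ← Function.iterate_succ_apply' (⇑d)]

end

end Pool.Agent.ZFin
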