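import Pool.Agent.ZFin.Defs

/-! # Module UpperNum: numerics of section 5 -/

namespace Pool.Agent.ZFin

/-- numerics of section 5: `L = (r/4 + D X_1) m`, `e < X_1 m`, `H = exp(X_1 m log m + C m)`. -/
theorem upper_num (D : ℕ) (hD : 1 ≤ D) (C : ℝ) (hC : 0 ≤ C) : ∃ m0 : ℕ, ∀ m ≥ m0, ∀ e : ℕ,
    e < X1 D * m →
    (X1 D * m * Real.log m + C * m) + (-(rr D / 2 : ℝ) * m * Real.log m +
      (LL D m / 2 : ℝ) * Real.log m + e * Real.log (e + 1) + C * (m + e + LL D m)) ≤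
    -(36 / 100 : ℝ) * rr D * m * Real.log m := by
  have hD' : (1:ℝ) ≤ D := by exact_mod_cast hD
  have hdl : 1 ≤ dl (8 * D) := by unfold dl; omega
  have hdl' : (1:ℝ) ≤ dl (8 * D) := by exact_mod_cast hdl
  have hE : 100 * D ≤ E2 D := by
    have h1 : 162 ≤ dl (8 * D) := by
      unfold dl
      have : 9 ≤ 8 * D + 1 := by omega
      nlinarith
    unfold E2
    have h2 : D ≤ D ^ 2 := by nlinarith
    calc 100 * D ≤ 50 * D ^ 2 * 162 := by nlinarith
      _ ≤ 50 * D ^ 2 * dl (8 * D) := Nat.mul_le_mul_left _ h1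
  have hE' : (100:ℝ) * D ≤ E2 D := by exact_mod_cast hE
  have hX1 : 1 ≤ X1 D := by
    unfold X1
    have : 1 ≤ E2 D := by omega
    have h3 : 0 < 2 * E2 D * dl (8 * D) * D := by positivity
    exact h3
  have hX : (1:ℝ) ≤ X1 D := by exact_mod_cast hX1
  have hr4 : (r4 D : ℝ) = E2 D * X1 D := by
    unfold r4 X1; push_cast; ring
  have hrr : (rr D : ℝ) = 4 * (E2 D * X1 D) := by
    unfold rr; push_cast; rw [hr4]
  have hlogX : 0 ≤ Real.log (X1 D) := Real.log_nonneg hX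
  set K : ℝ := C + X1 D * Real.log (X1 D) + C * (1 + X1 D + (r4 D + D * X1 D)) with hK
  refine ⟨⌈Real.exp K⌉₊ + 1, fun m hm e he => ?_⟩
  have hm1 : 1 ≤ m := by omega
  have hm1' : (1:ℝ) ≤ m := by exact_mod_cast hm1
  have hm0 : (0:ℝ) < m := by linarith
  have hlog0 : 0 ≤ Real.log m := Real.log_nonneg hm1'
  have hlogK : K ≤ Real.log m := by
    rw [Real.le_log_iff_exp_le hm0]
    have h1 : (⌈Real.exp K⌉₊ : ℝ) ≤ m := by
      have : ⌈Real.exp K⌉₊ ≤ m := by omega
      exact_mod_cast this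
    exact (Nat.le_ceil _).trans h1
  have he1 : (e:ℝ) + 1 ≤ X1 D * m := by exact_mod_cast he
  have he0 : (0:ℝ) ≤ e := Nat.cast_nonneg e
  have hle : (e:ℝ) * Real.log (e + 1) ≤ X1 D * m * (Real.log (X1 D) + Real.log m) := by
    have h1 : Real.log ((e:ℝ) + 1) ≤ Real.log (X1 D * m) := Real.log_le_log (by positivity) he1
    rw [Real.log_mul (by positivity) (by positivity)] at h1
    have h2 : 0 ≤ Real.log ((e:ℝ) + 1) := Real.log_nonneg (by linarith)
    exact mul_le_mul (by linarith) h1 h2 (by positivity)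
  have hLL : (LL D m : ℝ) = (r4 D + D * X1 D) * m := by unfold LL; push_cast; ring
  have hsum : C * ((m:ℝ) + e + LL D m) ≤ C * (1 + X1 D + (r4 D + D * X1 D)) * m := by
    have : (m:ℝ) + e + LL D m ≤ (1 + X1 D + (r4 D + D * X1 D)) * m := by
      rw [hLL]; nlinarith
    calc C * ((m:ℝ) + e + LL D m) ≤ C * ((1 + X1 D + (r4 D + D * X1 D)) * m) :=
          mul_le_mul_of_nonneg_left this hC
      _ = _ := by ring
  have hKm : K * m ≤ X1 D * (m * Real.log m) := by
    have h1 : K * m ≤ Real.log m * m := mul_le_mul_of_nonneg_right hlogK hm0.le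
    have h2 : 0 ≤ (m:ℝ) * Real.log m := by positivity
    nlinarith
  rw [hLL, hrr, hr4] at *
  have hmain : (X1 D : ℝ) * (3 + D / 2) ≤ (15 / 1000) * (4 * (E2 D * X1 D)) := by
    have h1 : 3 + (D:ℝ) / 2 ≤ (15 / 1000) * (4 * E2 D) := by nlinarith
    nlinarith
  have hml : 0 ≤ (m:ℝ) * Real.log m := by positivity
  have hmain' := mul_le_mul_of_nonneg_right hmain hml
  have hKe : K * m = C * m + X1 D * Real.log (X1 D) * m + C * (1 + X1 D + (E2 D * X1 D + D * X1 D)) * m := by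
    rw [hK, hr4]; ring
  nlinarith [hle, hsum, hKm, hmain', hKe]

end Pool.Agent.ZFin
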