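import Pool.Agent.ZFin.Upper
import Pool.Agent.ZFin.Small
import Pool.Agent.ZFin.UpperNum
import Pool.Agent.ZFin.AlgK
import Pool.Agent.ZFin.Shift

/-! # Module ValueU: the value at `p0 = u + β0` is very small (end of section 5, with translates) -/

namespace Pool.Agent.ZFin
open Polynomial NumberField Pool.Agent.ZCM

theorem ValueU_eval {k : Type} [Field k] {F : Type} [Field F] [Algebra k F] [Algebra k ℂ]
    [Algebra F ℂ] [IsScalarTower k F ℂ] (L : PeriodPair) (a b : k)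
    (h2 : L.g₂ = -4 * algebraMap k ℂ a) (h3 : L.g₃ = -4 * algebraMap k ℂ b) (u v z : ℂ) (β c : F)
    (hz : z ∉ L.lattice) (hβ : algebraMap F ℂ β = z - u) (hc : algebraMap F ℂ c = zetaL L z - v)
    {q : ℕ} (t : ℕ) (p : Idx q → k[X]) :
    ((gk a b β c t p).re.map (algebraMap F ℂ)).eval (L.weierstrassP z) +
        ((gk a b β c t p).im.map (algebraMap F ℂ)).eval (L.weierstrassP z) *
          (L.derivWeierstrassP z / 2) =
      MvPolynomial.eval (v4 L z)
        ((⇑(D4 (algebraMap k ℂ a)))^[t] (mv q (shp u v (bc ℂ p)))) := by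
  have hcurve : (L.derivWeierstrassP z / 2) ^ 2 =
      L.weierstrassP z ^ 3 +
        algebraMap k ℂ a * L.weierstrassP z + algebraMap k ℂ b := by
    have h := L.derivWeierstrassP_sq z hz
    rw [h2, h3] at h
    linear_combination h / 4
  have h1 := gk_hom (IsScalarTower.toAlgHom k F ℂ) a b β c t p
  have h4 : (((IsScalarTower.toAlgHom k F ℂ : F →ₐ[k] ℂ) : F →+* ℂ)) = algebraMap F ℂ := rfl
  have h5 : (IsScalarTower.toAlgHom k F ℂ) β = z - u := hβ
  have h6 : (IsScalarTower.toAlgHom k F ℂ) c = zetaL L z - v := hc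
  rw [h4, h5, h6] at h1
  rw [← h1.1, ← h1.2]
  have h7 := evR_gt (algebraMap k ℂ a) (algebraMap k ℂ b) (z - u) (zetaL L z - v) t
    (mv q (bc ℂ p)) _ _ hcurve
  rw [← sh_mv, ← sh_D4_iterate, eval_sh]
  have h8 : (![v4 L z 0 - u, v4 L z 1, v4 L z 2, v4 L z 3 - v] : Fin 4 → ℂ) =
      ![z - u, L.weierstrassP z, L.derivWeierstrassP z / 2, zetaL L z - v] := by
    simp [v4]
  rw [h8]
  exact h7

/-- the value at `p0` is very small -/
theorem valueU_small {D : ℕ} (hD : 1 ≤ D) {k : Type} [Field k] [NumberField k]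
    {K : Fin (rr D) → Type} [∀ i, Field (K i)] [∀ i, NumberField (K i)] [∀ i, Algebra k (K i)]
    [Algebra k ℂ] [∀ i, Algebra (K i) ℂ] [∀ i, IsScalarTower k (K i) ℂ]
    {K0 : Type} [Field K0] [NumberField K0] [Algebra k K0] [Algebra K0 ℂ] [IsScalarTower k K0 ℂ]
    (L : PeriodPair) (a b : k)
    (h2 : L.g₂ = -4 * algebraMap k ℂ a) (h3 : L.g₃ = -4 * algebraMap k ℂ b) (u v : ℂ)
    (z : Fin (rr D) → ℂ) (z0 : ℂ)
    (β c : ∀ i, K i) (β0 c0 : K0) (hz : ∀ i, z i ∉ L.lattice)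
    (hinj : Function.Injective z)
    (hβ : ∀ i, algebraMap (K i) ℂ (β i) = z i - u)
    (hc : ∀ i, algebraMap (K i) ℂ (c i) = zetaL L (z i) - v)
    (hz0 : z0 ∉ L.lattice)
    (hβ0 : algebraMap K0 ℂ β0 = z0 - u)
    (hc0 : algebraMap K0 ℂ c0 = zetaL L z0 - v) (C : ℝ) (hC : 0 ≤ C) :
    ∃ m0 : ℕ, ∀ m ≥ m0, ∀ (e : ℕ) (p : Idx (8 * D) → k[X]),
      SmallSol D a b β c β0 c0 C m e p →
      ‖((gk a b β0 c0 e p).re.map (algebraMap K0 ℂ)).eval (L.weierstrassP z0) +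
        ((gk a b β0 c0 e p).im.map (algebraMap K0 ℂ)).eval (L.weierstrassP z0) *
          (L.derivWeierstrassP z0 / 2)‖ ≤
        Real.exp (-(36 / 100 : ℝ) * rr D * m * Real.log m) := by
  obtain ⟨C1, hC1, m1, hm1⟩ := upper L (algebraMap k ℂ a) (algebraMap k ℂ b) h2 h3 (8 * D) (rr D)
    z hz hinj z0 hz0
  obtain ⟨C2, hC2, hsh⟩ := shp_coeff u v (8 * D)
  obtain ⟨m2, hm2⟩ := upper_num D hD (max (C + C2) (C1 + C2))
    ((add_nonneg hC hC2).trans (le_max_left _ _))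
  refine ⟨max (max m1 m2) 1, fun m hm e p hp => ?_⟩
  have h1m : m1 ≤ m := (le_max_left _ _).trans ((le_max_left _ _).trans hm)
  have h2m : m2 ≤ m := (le_max_right _ _).trans ((le_max_left _ _).trans hm)
  have hm1' : (1 : ℝ) ≤ m := by exact_mod_cast (le_max_right _ _).trans hm
  have hzero : ∀ {F : Type} [Field F] [Algebra k F] [Algebra F ℂ] [IsScalarTower k F ℂ] (β c : F)
      (z : ℂ), z ∉ L.lattice → algebraMap F ℂ β = z - u → algebraMap F ℂ c = zetaL L z - v → ∀ t,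
      gk a b β c t p = 0 →
      MvPolynomial.eval (v4 L z)
        ((⇑(D4 (algebraMap k ℂ a)))^[t] (mv (8 * D) (shp u v (bc ℂ p)))) = 0 := by
    intro F _ _ _ _ β c z hz hβ hc t h0
    rw [← ValueU_eval L a b h2 h3 u v z β c hz hβ hc t p, h0]
    simp
  have hdeg : ∀ i, (bc ℂ p i).natDegree ≤ LL D m := fun i => by
    have h4 : p i ∈ Polynomial.degreeLT k (LL D m) := hp.deg i (Set.mem_univ i)
    rw [Polynomial.mem_degreeLT] at h4
    refine (Polynomial.natDegree_map_le).trans ?_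
    exact Polynomial.natDegree_le_of_degree_le h4.le
  have hcoef : ∀ i n, ‖(bc ℂ p i).coeff n‖ ≤ Real.exp (X1 D * m * Real.log m + C * m) :=
    fun i n => by
      have h4 := hp.size i n (algebraMap k ℂ)
      simpa [bc, Polynomial.coeff_map] using h4
  have hb := hm1 m h1m (LL D m) e
    (Real.exp (X1 D * m * Real.log m + C * m) * Real.exp (C2 * (LL D m + 1)))
    (shp u v (bc ℂ p)) (by positivity) (shp_natDegree u v (bc ℂ p) (LL D m) hdeg)
    (hsh (bc ℂ p) (LL D m) _ (Real.exp_pos _).le hdeg hcoef)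
    (fun i t ht => hzero (β i) (c i) (z i) (hz i) (hβ i) (hc i) t (hp.van i t ht))
    (fun t ht => hzero β0 c0 z0 hz0 hβ0 hc0 t (hp.van0 t ht))
  rw [ValueU_eval L a b h2 h3 u v z0 β0 c0 hz0 hβ0 hc0 e p]
  refine hb.trans ?_
  rw [← Real.exp_add, ← Real.exp_add]
  apply Real.exp_le_exp.2
  have hn := hm2 m h2m e hp.e_lt
  refine le_trans ?_ hn
  have hm0 : (0 : ℝ) ≤ m := Nat.cast_nonneg m
  have he0 : (0 : ℝ) ≤ (m : ℝ) + e + LL D m := by positivity
  have he1 : (0 : ℝ) ≤ e := Nat.cast_nonneg e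
  set M : ℝ := max (C + C2) (C1 + C2) with hM
  have h6 : (C + C2) * m ≤ M * m := mul_le_mul_of_nonneg_right (le_max_left _ _) hm0
  have h7 : (C1 + C2) * ((m : ℝ) + e + LL D m) ≤ M * ((m : ℝ) + e + LL D m) :=
    mul_le_mul_of_nonneg_right (le_max_right _ _) he0
  have h8 : C2 * ((LL D m : ℝ) + 1) ≤ C2 * m + C2 * ((m : ℝ) + e + LL D m) := by
    have h9 : C2 * 1 ≤ C2 * (m : ℝ) := mul_le_mul_of_nonneg_left hm1' hC2
    have h10 : 0 ≤ C2 * ((m : ℝ) + e) := by positivity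
    nlinarith
  nlinarith

end Pool.Agent.ZFin
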