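import Pool.Agent.ZFin.Theta
import Pool.Agent.ZFin.ValueU

/-! # Module ThetaU: `℘(p0)` is algebraic (section 6, with translates) -/

namespace Pool.Agent.ZFin
open Polynomial NumberField Pool.Agent.ZCM

/-- section 6 -/
theorem thetaU_alg {D : ℕ} (hD : 1 ≤ D) {k : Type} [Field k] [NumberField k]
    {K : Fin (rr D) → Type} [∀ i, Field (K i)] [∀ i, NumberField (K i)] [∀ i, Algebra k (K i)]
    [Algebra k ℂ] [∀ i, Algebra (K i) ℂ] [∀ i, IsScalarTower k (K i) ℂ]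
    {K0 : Type} [Field K0] [NumberField K0] [Algebra k K0] [Algebra K0 ℂ] [IsScalarTower k K0 ℂ]
    (L : PeriodPair) (a b : k) (ha : IsIntegral ℤ a) (hb : IsIntegral ℤ b)
    (h2 : L.g₂ = -4 * algebraMap k ℂ a) (h3 : L.g₃ = -4 * algebraMap k ℂ b) (u v : ℂ)
    (z : Fin (rr D) → ℂ) (z0 : ℂ)
    (β c : ∀ i, K i) (β0 c0 : K0) (hz : ∀ i, z i ∉ L.lattice)
    (hinj : Function.Injective z)
    (hβ : ∀ i, algebraMap (K i) ℂ (β i) = z i - u)
    (hc : ∀ i, algebraMap (K i) ℂ (c i) = zetaL L (z i) - v)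
    (hz0 : z0 ∉ L.lattice)
    (hβ0 : algebraMap K0 ℂ β0 = z0 - u)
    (hc0 : algebraMap K0 ℂ c0 = zetaL L z0 - v) (hκ0 : Module.finrank ℚ K0 ≤ D)
    (hsmall : ∃ C : ℝ, 0 ≤ C ∧ ∃ m0 : ℕ, ∀ m ≥ m0, ∃ (e : ℕ) (p : Idx (8 * D) → k[X]),
      SmallSol D a b β c β0 c0 C m e p) :
    IsAlgebraic ℚ (L.weierstrassP z0) := by
  classical
  obtain ⟨ι, hι⟩ : ∃ ι : K0 →+* ℂ, ι = algebraMap K0 ℂ := ⟨_, rfl⟩
  obtain ⟨C1, hC1, m1, hsol⟩ := hsmall
  obtain ⟨M0, C2, hM0, hC2, hAB⟩ := poly_AB (K := K0) a b ha hb β0 c0 (8 * D)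
  obtain ⟨m2, hval⟩ := valueU_small hD L a b h2 h3 u v z z0 β c β0 c0 hz hinj hβ hc hz0 hβ0 hc0 C1 hC1
  have haK : IsIntegral ℤ (algebraMap k K0 a) := map_isIntegral_int (algebraMap k K0) ha
  have hbK : IsIntegral ℤ (algebraMap k K0 b) := map_isIntegral_int (algebraMap k K0) hb
  let a' : 𝓞 K0 := ⟨algebraMap k K0 a, haK⟩
  let b' : 𝓞 K0 := ⟨algebraMap k K0 b, hbK⟩
  have hoa : oc ι a' = algebraMap k ℂ a := by
    rw [hι, IsScalarTower.algebraMap_apply k K0 ℂ]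
    rfl
  have hob : oc ι b' = algebraMap k ℂ b := by
    rw [hι, IsScalarTower.algebraMap_apply k K0 ℂ]
    rfl
  obtain ⟨θ, hθ⟩ : ∃ θ : ℂ, θ = L.weierstrassP z0 := ⟨_, rfl⟩
  obtain ⟨θ', hθ'⟩ : ∃ θ' : ℂ, θ' = L.derivWeierstrassP z0 / 2 := ⟨_, rfl⟩
  rw [← hθ, ← hθ'] at hval
  rw [← hθ]
  have hcurve : θ' ^ 2 = θ ^ 3 + oc ι a' * θ + oc ι b' := by
    have h := L.derivWeierstrassP_sq z0 hz0
    rw [h2, h3, ← hθ] at h
    rw [hθ', div_pow, h, hoa, hob]
    ring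
  obtain ⟨Cf, hCf⟩ : ∃ Cf : ℝ, Cf = ∑ σ : K0 →+* ℂ,
      nm1 ((X ^ 3 + Polynomial.C a' * X + Polynomial.C b' : (𝓞 K0)[X]).map (oc σ)) := ⟨_, rfl⟩
  have hCf0 : 0 ≤ Cf := by
    rw [hCf]; exact Finset.sum_nonneg fun σ _ => nm1_nonneg _
  have hCfσ : ∀ σ : K0 →+* ℂ,
      nm1 ((X ^ 3 + Polynomial.C a' * X + Polynomial.C b' : (𝓞 K0)[X]).map (oc σ)) ≤ Cf := by
    intro σ
    rw [hCf]
    exact Finset.single_le_sum (f := fun σ : K0 →+* ℂ =>
      nm1 ((X ^ 3 + Polynomial.C a' * X + Polynomial.C b' : (𝓞 K0)[X]).map (oc σ)))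
      (fun σ _ => nm1_nonneg _) (Finset.mem_univ σ)
  obtain ⟨lm, hlm0, hlm⟩ : ∃ lm : ℝ, 0 ≤ lm ∧ max 1 ‖θ‖ = Real.exp lm := by
    refine ⟨Real.log (max 1 ‖θ‖), Real.log_nonneg (le_max_left _ _), ?_⟩
    rw [Real.exp_log (lt_of_lt_of_le one_pos (le_max_left _ _))]
  obtain ⟨lM, hlM⟩ : ∃ lM : ℝ, lM = Real.log (M0 : ℝ) := ⟨_, rfl⟩
  have hM0' : (1 : ℝ) ≤ (M0 : ℝ) := by exact_mod_cast hM0
  have hlM0 : 0 ≤ lM := by rw [hlM]; exact Real.log_nonneg hM0'
  have hMexp : (M0 : ℝ) = Real.exp lM := by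
    rw [hlM, Real.exp_log (by linarith)]
  obtain ⟨C3, hC3⟩ : ∃ C3 : ℝ, C3 = C1 + C2 + lM + 8 * D * lM +
      (Cf + dl (8 * D) * lm + ‖θ'‖) := ⟨_, rfl⟩
  have hp1 : 0 ≤ 8 * (D : ℝ) * lM := by positivity
  have hp2 : 0 ≤ (dl (8 * D) : ℝ) * lm := by positivity
  have hp3 : 0 ≤ ‖θ'‖ := norm_nonneg _
  have hC30 : 0 ≤ C3 := by rw [hC3]; positivity
  obtain ⟨C', m3, hC', hnum⟩ := gel_num D hD C3 hC30
  have hX1 : 0 < X1 D := by
    have : 0 < dl (8 * D) := by unfold dl; positivity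
    have : 0 < E2 D := by unfold E2; positivity
    unfold X1; positivity
  have hX1' : (0 : ℝ) < (X1 D : ℝ) := by exact_mod_cast hX1
  have hD' : (1 : ℝ) ≤ (D : ℝ) := by exact_mod_cast hD
  have key : ∀ m : ℕ, max (max m1 m2) (max m3 3) ≤ m → ∃ q : ℤ[X], q ≠ 0 ∧
      q.natDegree ≤ D * dl (8 * D) ∧
      nmZ q ≤ Real.exp ((4 * D * X1 D) * ((m : ℝ) * Real.log m) + (2 * D * C') * m +
        2 * D * C3) ∧
      ‖aeval θ q‖ ≤ Real.exp (-6 * ((D * dl (8 * D) : ℕ) : ℝ) *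
        ((4 * D * X1 D) * ((m : ℝ) * Real.log m) + (2 * D * C') * m + 2 * D * C3)) := by
    intro m hm
    have hmm1 : m1 ≤ m := (le_max_left _ _).trans ((le_max_left _ _).trans hm)
    have hmm2 : m2 ≤ m := (le_max_right _ _).trans ((le_max_left _ _).trans hm)
    have hmm3 : m3 ≤ m := (le_max_left _ _).trans ((le_max_right _ _).trans hm)
    have hm3 : 3 ≤ m := (le_max_right _ _).trans ((le_max_right _ _).trans hm)
    have hm1' : (1 : ℝ) ≤ (m : ℝ) := by
      have : (3 : ℝ) ≤ (m : ℝ) := by exact_mod_cast hm3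
      linarith
    have hlog : 0 ≤ Real.log (m : ℝ) := Real.log_nonneg hm1'
    obtain ⟨e, p, hp⟩ := hsol m hmm1
    have hv := hval m hmm2 e p hp
    obtain ⟨n1, n2⟩ := hnum m hmm3 e hp.e_lt
    have hpdeg : ∀ i, (p i).natDegree ≤ LL D m := by
      intro i
      have h := hp.deg
      rw [Amb, Submodule.mem_pi] at h
      have h' := Polynomial.mem_degreeLT.1 (h i (Set.mem_univ i))
      exact Polynomial.natDegree_le_of_degree_le h'.le
    obtain ⟨A, B, hA, hB, hnm⟩ := hAB (LL D m) e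
      (Real.exp (X1 D * m * Real.log m + C1 * m)) p (Real.exp_nonneg _) hpdeg hp.int hp.size
    obtain ⟨w1, w2⟩ := gk_weight_le L a b h2 h3 (8 * D) β0 c0 p e hp.van0
    have hcoe : Function.Injective (algebraMap (𝓞 K0) K0) := RingOfIntegers.coe_injective
    have hMK : ((M0 : K0) ^ (LL D m + 8 * D)) ≠ 0 :=
      pow_ne_zero _ (by exact_mod_cast hM0.ne')
    have hA1 : A.natDegree = (gk a b β0 c0 e p).re.natDegree := by
      rw [← natDegree_map_eq_of_injective hcoe A, hA, natDegree_smul _ hMK]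
    have hB1 : B.natDegree = (gk a b β0 c0 e p).im.natDegree := by
      rw [← natDegree_map_eq_of_injective hcoe B, hB, natDegree_smul _ hMK]
    have hA0 : A = 0 → (gk a b β0 c0 e p).re = 0 := by
      intro h
      rw [h, Polynomial.map_zero] at hA
      exact (smul_eq_zero.1 hA.symm).resolve_left hMK
    have hB0 : B = 0 → (gk a b β0 c0 e p).im = 0 := by
      intro h
      rw [h, Polynomial.map_zero] at hB
      exact (smul_eq_zero.1 hB.symm).resolve_left hMK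
    have hB0' : (gk a b β0 c0 e p).im = 0 → B = 0 := by
      intro h
      rw [h, smul_zero] at hB
      exact (Polynomial.map_eq_zero_iff hcoe).1 hB
    have hmapι : ∀ P : (𝓞 K0)[X], P.map (oc ι) = (P.map (algebraMap (𝓞 K0) K0)).map ι := by
      intro P
      rw [Polynomial.map_map]
    obtain ⟨H, hHdef⟩ : ∃ H : ℝ, H = 2 * X1 D * m * Real.log m + C' * m := ⟨_, rfl⟩
    have hH0 : 0 ≤ H := by rw [hHdef]; positivity
    have hsz : (X1 D * m * Real.log m + C1 * m) +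
        (e * Real.log (LL D m + e + 1) + C2 * (LL D m + e + 1)) ≤ H := by
      rw [hHdef]
      refine le_trans ?_ n1
      have e1 : C1 * (m : ℝ) ≤ C3 * m :=
        mul_le_mul_of_nonneg_right (by rw [hC3]; linarith) (by linarith)
      have e2 : C2 * ((LL D m : ℝ) + e + 1) ≤ C3 * (LL D m + e + 1) :=
        mul_le_mul_of_nonneg_right (by rw [hC3]; linarith) (by positivity)
      linarith
    have hnm' : ∀ σ : K0 →+* ℂ, nm1 (A.map (oc σ)) ≤ Real.exp H ∧
        nm1 (B.map (oc σ)) ≤ Real.exp H := by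
      intro σ
      obtain ⟨s1, s2⟩ := hnm σ
      rw [← Real.exp_add] at s1 s2
      exact ⟨s1.trans (Real.exp_le_exp.mpr hsz), s2.trans (Real.exp_le_exp.mpr hsz)⟩
    have hvalAB : ‖(A.map (oc ι)).eval θ + (B.map (oc ι)).eval θ * θ'‖ ≤
        Real.exp (-(36 / 100 : ℝ) * rr D * m * Real.log m +
          ((LL D m : ℝ) + 8 * D) * lM) := by
      rw [hmapι, hmapι, hA, hB, Polynomial.map_smul, Polynomial.map_smul, eval_smul, eval_smul,
        smul_eq_mul, smul_eq_mul, mul_assoc, ← mul_add, norm_mul]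
      rw [← hι] at hv
      rw [Real.exp_add, mul_comm]
      refine mul_le_mul hv ?_ (norm_nonneg _) (Real.exp_nonneg _)
      rw [map_pow, map_natCast, norm_pow, Complex.norm_natCast, hMexp, ← Real.exp_nat_mul]
      push_cast
      exact le_rfl
    obtain ⟨q, q1, q2, q3, q4⟩ := Theta_step ι a' b' θ θ' hcurve D (dl (8 * D)) hD hκ0 Cf lm hlm0
      hlm hCf0 hCfσ A B
      (by
        rintro ⟨h1, h2⟩
        exact hp.ne0 (QuadraticAlgebra.ext (hA0 h1) (hB0 h2)))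
      (by rw [hA1]; exact w1)
      (by
        intro h
        rw [hB1]
        exact w2 fun h' => h (hB0' h'))
      H _ C3 (2 * D * (H + C3)) hH0 hC30 hnm' hvalAB
      (by rw [hC3]; linarith) rfl
      (by
        rw [hHdef]
        refine le_trans ?_ n2
        have hLL : 1 ≤ LL D m := by
          unfold LL
          have : 0 < r4 D + D * X1 D := by
            have := Nat.mul_pos hD hX1
            omega
          exact Nat.mul_pos this (by omega)
        have hLL' : (1 : ℝ) ≤ (LL D m : ℝ) := by exact_mod_cast hLL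
        have e0 : lM + 8 * D * lM ≤ C3 := by rw [hC3]; linarith
        have e1 : (lM + 8 * D * lM) * LL D m ≤ C3 * LL D m :=
          mul_le_mul_of_nonneg_right e0 (by positivity)
        have e2 : 8 * D * lM * 1 ≤ 8 * D * lM * (LL D m : ℝ) :=
          mul_le_mul_of_nonneg_left hLL' hp1
        linarith)
    have e1 : 2 * (D : ℝ) * (H + C3) = (4 * D * X1 D) * ((m : ℝ) * Real.log m) +
        (2 * D * C') * m + 2 * D * C3 := by
      rw [hHdef]; ring
    rw [e1] at q3 q4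
    exact ⟨q, q1, q2, q3, q4⟩
  choose! q hq using key
  obtain ⟨g1, g2, g3⟩ := Theta_growth (4 * D * X1 D) (2 * D * C') (2 * D * C3) (by positivity)
    (by positivity) (by positivity)
  have hδ : 1 ≤ D * dl (8 * D) := by
    have : 0 < dl (8 * D) := by unfold dl; positivity
    exact Nat.mul_pos hD this
  refine gelfond (D * dl (8 * D)) hδ θ (fun m => (4 * D * X1 D) * ((m : ℝ) * Real.log m) +
      (2 * D * C') * m + 2 * D * C3) g1
    (max (max m1 m2) (max m3 3))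
    (fun T hT => g2 T ((le_max_right _ _).trans ((le_max_right _ _).trans hT)))
    (fun T hT => g3 T ((le_max_right _ _).trans ((le_max_right _ _).trans hT))) q
    (fun T hT => hq T hT)

end Pool.Agent.ZFin
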