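import Pool.Agent.ZFin.Growth
import Pool.Agent.ZFin.DerivG
import Pool.Agent.ZFin.SchwarzC

/-! # Module Upper: upper bound for the first non-vanishing derivative at `β0` (section 5) -/

namespace Pool.Agent.ZFin
open Polynomial Pool.Agent.ZCM

theorem upper (L : PeriodPair) (a b : ℂ) (h2 : L.g₂ = -4 * a) (h3 : L.g₃ = -4 * b) (q r : ℕ)
    (β : Fin r → ℂ) (hβ : ∀ i, β i ∉ L.lattice) (hinj : Function.Injective β) (β0 : ℂ)
    (hβ0 : β0 ∉ L.lattice) :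
    ∃ C : ℝ, 0 ≤ C ∧ ∃ m0 : ℕ, ∀ m ≥ m0, ∀ (l e : ℕ) (H : ℝ) (p : Idx q → ℂ[X]), 0 ≤ H →
      (∀ i, (p i).natDegree ≤ l) → (∀ i n, ‖(p i).coeff n‖ ≤ H) →
      (∀ i, ∀ t < m, MvPolynomial.eval (v4 L (β i)) ((⇑(D4 a))^[t] (mv q p)) = 0) →
      (∀ t < e, MvPolynomial.eval (v4 L β0) ((⇑(D4 a))^[t] (mv q p)) = 0) →
      ‖MvPolynomial.eval (v4 L β0) ((⇑(D4 a))^[e] (mv q p))‖ ≤
        H * Real.exp (-(r / 2 : ℝ) * m * Real.log m + (l / 2 : ℝ) * Real.log m +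
          e * Real.log (e + 1) + C * (m + e + l)) := by
  obtain ⟨Cg, hCg0, hCg⟩ := growth L a b h2 h3 q
  obtain ⟨C1, hC10, m0, hC1⟩ := schwarz_cauchy r β hinj β0 Cg hCg0
  have hS0 : ev (SS a b) β0 ≠ 0 := fun h => hβ0 ((S_eq_zero_iff L a b h2 h3 β0).mp h)
  set s : ℝ := ‖ev (SS a b) β0‖ ^ ww q with hs
  have hspos : 0 < s := pow_pos (norm_pos_iff.mpr hS0) _
  set C2 : ℝ := Cg / s with hC2
  have hC20 : 0 ≤ C2 := div_nonneg hCg0 hspos.le
  refine ⟨C1 + 1 + C2, by positivity, max m0 1, fun m hm l e H p hH hdeg hcoef hv hv0 => ?_⟩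
  have hm0 : m0 ≤ m := (le_max_left _ _).trans hm
  have hm1 : (1 : ℝ) ≤ m := by exact_mod_cast (le_max_right _ _).trans hm
  obtain ⟨G, hGd, hG, hGb⟩ := hCg l H p hH hdeg hcoef
  have hz : ∀ i, ∀ t < m, iteratedDeriv t G (β i) = 0 := fun i =>
    (deriv_G L a b h2 h3 (ww q) (mv q p) G hG (β i) (hβ i) m (hv i)).1
  have h5 := (deriv_G L a b h2 h3 (ww q) (mv q p) G hG β0 hβ0 e hv0).2
  have h6 := hC1 m hm0 G l e (H * (Cg * (l + 1))) (by positivity) hGd hGb hz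
  rw [h5, norm_mul, norm_pow, ← hs] at h6
  set E : ℝ := -(r / 2 : ℝ) * m * Real.log m + (l / 2 : ℝ) * Real.log m +
    e * Real.log (e + 1) with hE
  set v : ℝ := ‖MvPolynomial.eval (v4 L β0) ((⇑(D4 a))^[e] (mv q p))‖ with hv'
  have h7 : v ≤ H * (C2 * (l + 1)) * Real.exp (E + C1 * (m + e + l)) := by
    have h8 : v = s * v / s := by field_simp
    rw [h8, div_le_iff₀ hspos]
    refine h6.trans (le_of_eq ?_)
    rw [hC2]
    field_simp
  refine h7.trans ?_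
  rw [mul_assoc]
  refine mul_le_mul_of_nonneg_left ?_ hH
  have h9 : C2 * (l + 1) ≤ Real.exp (C2 + l) := by
    rw [Real.exp_add]
    refine mul_le_mul ?_ (Real.add_one_le_exp _) (by positivity) (Real.exp_pos _).le
    have := Real.add_one_le_exp C2
    linarith
  calc C2 * (l + 1) * Real.exp (E + C1 * (m + e + l)) ≤
        Real.exp (C2 + l) * Real.exp (E + C1 * (m + e + l)) :=
          mul_le_mul_of_nonneg_right h9 (Real.exp_pos _).le
    _ = Real.exp (C2 + l + (E + C1 * (m + e + l))) := (Real.exp_add _ _).symm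
    _ ≤ Real.exp (E + (C1 + 1 + C2) * (m + e + l)) := by
        refine Real.exp_le_exp.mpr ?_
        have he : (0 : ℝ) ≤ e := Nat.cast_nonneg e
        have hl : (0 : ℝ) ≤ l := Nat.cast_nonneg l
        nlinarith [mul_nonneg hC20 he, mul_nonneg hC20 hl, mul_le_mul_of_nonneg_left hm1 hC20]

end Pool.Agent.ZFin
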