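import Pool.Agent.ZFin.Upper
import Pool.Agent.ZFin.Small
import Pool.Agent.ZFin.UpperNum
import Pool.Agent.ZFin.AlgK

/-! # Module Value: the value at `β0` is very small (end of section 5) -/

namespace Pool.Agent.ZFin
open Polynomial NumberField Pool.Agent.ZCM

private theorem Value_eval {k : Type} [Field k] {F : Type} [Field F] [Algebra k F] [Algebra k ℂ]
    [Algebra F ℂ] [IsScalarTower k F ℂ] (L : PeriodPair) (a b : k)
    (h2 : L.g₂ = -4 * algebraMap k ℂ a) (h3 : L.g₃ = -4 * algebraMap k ℂ b) (β c : F)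
    (hβ : algebraMap F ℂ β ∉ L.lattice) (hc : zetaL L (algebraMap F ℂ β) = algebraMap F ℂ c)
    {q : ℕ} (t : ℕ) (p : Idx q → k[X]) :
    ((gk a b β c t p).re.map (algebraMap F ℂ)).eval (L.weierstrassP (algebraMap F ℂ β)) +
        ((gk a b β c t p).im.map (algebraMap F ℂ)).eval (L.weierstrassP (algebraMap F ℂ β)) *
          (L.derivWeierstrassP (algebraMap F ℂ β) / 2) =
      MvPolynomial.eval (v4 L (algebraMap F ℂ β))
        ((⇑(D4 (algebraMap k ℂ a)))^[t] (mv q (bc ℂ p))) := by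
  have hcurve : (L.derivWeierstrassP (algebraMap F ℂ β) / 2) ^ 2 =
      L.weierstrassP (algebraMap F ℂ β) ^ 3 +
        algebraMap k ℂ a * L.weierstrassP (algebraMap F ℂ β) + algebraMap k ℂ b := by
    have h := L.derivWeierstrassP_sq (algebraMap F ℂ β) hβ
    rw [h2, h3] at h
    linear_combination h / 4
  have h1 := gk_hom (IsScalarTower.toAlgHom k F ℂ) a b β c t p
  have h4 : (((IsScalarTower.toAlgHom k F ℂ : F →ₐ[k] ℂ) : F →+* ℂ)) = algebraMap F ℂ := rfl
  have h5 : (IsScalarTower.toAlgHom k F ℂ) β = algebraMap F ℂ β := rfl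
  have h6 : (IsScalarTower.toAlgHom k F ℂ) c = algebraMap F ℂ c := rfl
  rw [h4, h5, h6] at h1
  rw [← h1.1, ← h1.2]
  have h7 := evR_gt (algebraMap k ℂ a) (algebraMap k ℂ b) (algebraMap F ℂ β) (algebraMap F ℂ c) t
    (mv q (bc ℂ p)) _ _ hcurve
  unfold v4
  rw [hc]
  exact h7

/-- the value at `β0` is very small -/
theorem value_small {D : ℕ} (hD : 1 ≤ D) {k : Type} [Field k] [NumberField k]
    {K : Fin (rr D) → Type} [∀ i, Field (K i)] [∀ i, NumberField (K i)] [∀ i, Algebra k (K i)]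
    [Algebra k ℂ] [∀ i, Algebra (K i) ℂ] [∀ i, IsScalarTower k (K i) ℂ]
    {K0 : Type} [Field K0] [NumberField K0] [Algebra k K0] [Algebra K0 ℂ] [IsScalarTower k K0 ℂ]
    (L : PeriodPair) (a b : k)
    (h2 : L.g₂ = -4 * algebraMap k ℂ a) (h3 : L.g₃ = -4 * algebraMap k ℂ b)
    (β c : ∀ i, K i) (β0 c0 : K0) (hβ : ∀ i, algebraMap (K i) ℂ (β i) ∉ L.lattice)
    (hinj : ∀ i j, algebraMap (K i) ℂ (β i) = algebraMap (K j) ℂ (β j) → i = j)
    (hc : ∀ i, zetaL L (algebraMap (K i) ℂ (β i)) = algebraMap (K i) ℂ (c i))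
    (hβ0 : algebraMap K0 ℂ β0 ∉ L.lattice)
    (hc0 : zetaL L (algebraMap K0 ℂ β0) = algebraMap K0 ℂ c0) (C : ℝ) (hC : 0 ≤ C) :
    ∃ m0 : ℕ, ∀ m ≥ m0, ∀ (e : ℕ) (p : Idx (8 * D) → k[X]),
      SmallSol D a b β c β0 c0 C m e p →
      ‖((gk a b β0 c0 e p).re.map (algebraMap K0 ℂ)).eval (L.weierstrassP (algebraMap K0 ℂ β0)) +
        ((gk a b β0 c0 e p).im.map (algebraMap K0 ℂ)).eval (L.weierstrassP (algebraMap K0 ℂ β0)) *
          (L.derivWeierstrassP (algebraMap K0 ℂ β0) / 2)‖ ≤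
        Real.exp (-(36 / 100 : ℝ) * rr D * m * Real.log m) := by
  obtain ⟨C1, hC1, m1, hm1⟩ := upper L (algebraMap k ℂ a) (algebraMap k ℂ b) h2 h3 (8 * D) (rr D)
    (fun i => algebraMap (K i) ℂ (β i)) hβ (fun i j h => hinj i j h) (algebraMap K0 ℂ β0) hβ0
  obtain ⟨m2, hm2⟩ := upper_num D hD (max C C1) (hC.trans (le_max_left _ _))
  refine ⟨max m1 m2, fun m hm e p hp => ?_⟩
  have h1m : m1 ≤ m := (le_max_left _ _).trans hm
  have h2m : m2 ≤ m := (le_max_right _ _).trans hm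
  have hzero : ∀ {F : Type} [Field F] [Algebra k F] [Algebra F ℂ] [IsScalarTower k F ℂ] (β c : F),
      algebraMap F ℂ β ∉ L.lattice → zetaL L (algebraMap F ℂ β) = algebraMap F ℂ c → ∀ t,
      gk a b β c t p = 0 →
      MvPolynomial.eval (v4 L (algebraMap F ℂ β))
        ((⇑(D4 (algebraMap k ℂ a)))^[t] (mv (8 * D) (bc ℂ p))) = 0 := by
    intro F _ _ _ _ β c hβ hc t h0
    rw [← Value_eval L a b h2 h3 β c hβ hc t p, h0]
    simp
  have hb := hm1 m h1m (LL D m) e (Real.exp (X1 D * m * Real.log m + C * m)) (bc ℂ p)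
    (Real.exp_pos _).le
    (fun i => by
      have h4 : p i ∈ Polynomial.degreeLT k (LL D m) := hp.deg i (Set.mem_univ i)
      rw [Polynomial.mem_degreeLT] at h4
      refine (Polynomial.natDegree_map_le).trans ?_
      exact Polynomial.natDegree_le_of_degree_le h4.le)
    (fun i n => by
      have h4 := hp.size i n (algebraMap k ℂ)
      simpa [bc, Polynomial.coeff_map] using h4)
    (fun i t ht => hzero (β i) (c i) (hβ i) (hc i) t (hp.van i t ht))
    (fun t ht => hzero β0 c0 hβ0 hc0 t (hp.van0 t ht))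
  rw [Value_eval L a b h2 h3 β0 c0 hβ0 hc0 e p]
  refine hb.trans ?_
  rw [← Real.exp_add]
  apply Real.exp_le_exp.2
  have hn := hm2 m h2m e hp.e_lt
  refine le_trans ?_ hn
  have hm0 : (0 : ℝ) ≤ m := Nat.cast_nonneg m
  have he0 : (0 : ℝ) ≤ (m : ℝ) + e + LL D m := by positivity
  have h6 : C * m ≤ max C C1 * m := mul_le_mul_of_nonneg_right (le_max_left _ _) hm0
  have h7 : C1 * ((m : ℝ) + e + LL D m) ≤ max C C1 * ((m : ℝ) + e + LL D m) :=
    mul_le_mul_of_nonneg_right (le_max_right _ _) he0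
  linarith

end Pool.Agent.ZFin
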