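import Pool.Agent.ZFin.Alg
import Pool.Agent.ZCM.Curve
import Pool.Agent.ZCM.PoleDeg

/-! # Module Weight: the first non-vanishing derivative has weight `≤ δ` (section 1, (F2)) -/

namespace Pool.Agent.ZFin
open Pool.Agent.ZCM
open Filter Topology Asymptotics

/-- `w = 2 (q+1)^2 + 1 + q` -/
private def Weight_w (q : ℕ) : ℕ := 2 * (q + 1) ^ 2 + 1 + q

/-- the entire function `H(u, s)` -/
private noncomputable def Weight_H (a b : ℂ) (q : ℕ) (p : Idx q → Polynomial ℂ) (β c : ℂ)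
    (w : ℂ × ℂ) : ℂ :=
  ∑ i : Idx q, (p i).eval (β + w.2) * ev (QQ a b) (w.1 + w.2) ^ (i.1 : ℕ)
      * ev (qq a b) (w.1 + w.2) ^ (i.2.1 : ℕ)
      * ev (SS a b) (w.1 + w.2) ^ (Weight_w q - 2 * (i.1 : ℕ) - 3 * (i.2.1 : ℕ) - (i.2.2 : ℕ))
      * (c * ev (SS a b) w.1 * ev (SS a b) (w.1 + w.2)
          + ev (ZCM.RR a b) (w.1 + w.2) * ev (SS a b) w.1
          - ev (SS a b) (w.1 + w.2) * ev (ZCM.RR a b) w.1) ^ (i.2.2 : ℕ)
      * ev (SS a b) w.1 ^ (q - (i.2.2 : ℕ))

private theorem Weight_H_continuous (a b : ℂ) (q : ℕ) (p : Idx q → Polynomial ℂ) (β c : ℂ) :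
    Continuous (Weight_H a b q p β c) := by
  have hS : Continuous (ev (SS a b)) := (differentiable_ev (Gr_SS a b).ent).continuous
  have hQ : Continuous (ev (QQ a b)) := (differentiable_ev (Gr_QQ a b).ent).continuous
  have hq : Continuous (ev (qq a b)) := (differentiable_ev (Gr_qq a b).ent).continuous
  have hR : Continuous (ev (ZCM.RR a b)) := (differentiable_ev (Gr_RR a b).ent).continuous
  unfold Weight_H
  refine continuous_finsetSum _ fun i _ => ?_
  have hp : Continuous fun w : ℂ × ℂ => (p i).eval (β + w.2) :=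
    (p i).continuous.comp (by fun_prop)
  fun_prop

private theorem Weight_H_differentiable (a b : ℂ) (q : ℕ) (p : Idx q → Polynomial ℂ)
    (β c u : ℂ) : Differentiable ℂ fun s => Weight_H a b q p β c (u, s) := by
  have hS : Differentiable ℂ (ev (SS a b)) := differentiable_ev (Gr_SS a b).ent
  have hQ : Differentiable ℂ (ev (QQ a b)) := differentiable_ev (Gr_QQ a b).ent
  have hq : Differentiable ℂ (ev (qq a b)) := differentiable_ev (Gr_qq a b).ent
  have hR : Differentiable ℂ (ev (ZCM.RR a b)) := differentiable_ev (Gr_RR a b).ent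
  unfold Weight_H
  refine Differentiable.fun_sum fun i _ => ?_
  have hp : Differentiable ℂ fun s : ℂ => (p i).eval (β + s) :=
    (p i).differentiable.comp (by fun_prop)
  fun_prop

private theorem Weight_H_eq (L : PeriodPair) (a b : ℂ) (h2 : L.g₂ = -4 * a)
    (h3 : L.g₃ = -4 * b) (q : ℕ) (p : Idx q → Polynomial ℂ) (β c : ℂ) {u s : ℂ}
    (hu : u ∉ L.lattice) (hs : u + s ∉ L.lattice) :
    Weight_H a b q p β c (u, s) = ev (SS a b) (u + s) ^ Weight_w q * ev (SS a b) u ^ q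
      * MvPolynomial.eval (Curve_pt L β c u s) (mv q p) := by
  have hQ := link_Q L a b h2 h3 hs
  have hq := link_q L a b h2 h3 hs
  have hR := link_R L a b h2 h3 hs
  have hR' := link_R L a b h2 h3 hu
  unfold Weight_H mv
  simp only [map_sum, Finset.mul_sum, map_mul, map_pow, MvPolynomial.eval_X,
    ← hQ, ← hq, ← hR, ← hR']
  refine Finset.sum_congr rfl fun i _ => ?_
  have h1 : (i.1 : ℕ) + 1 ≤ (q + 1) ^ 2 := i.1.2
  have h2' : (i.2.1 : ℕ) ≤ 1 := Nat.lt_succ_iff.1 i.2.1.2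
  have h3' : (i.2.2 : ℕ) ≤ q := Nat.lt_succ_iff.1 i.2.2.2
  have e0 : Curve_pt L β c u s 0 = β + s := rfl
  have e1 : Curve_pt L β c u s 1 = L.weierstrassP (u + s) := rfl
  have e2 : Curve_pt L β c u s 2 = L.derivWeierstrassP (u + s) / 2 := rfl
  have e3 : Curve_pt L β c u s 3 = c + zetaL L (u + s) - zetaL L u := rfl
  have e4 : MvPolynomial.eval (Curve_pt L β c u s)
      (Polynomial.aeval (MvPolynomial.X 0 : MvPolynomial (Fin 4) ℂ) (p i)) =
      (p i).eval (β + s) := by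
    have h : (MvPolynomial.eval (Curve_pt L β c u s)) =
        ((MvPolynomial.aeval (Curve_pt L β c u s) : MvPolynomial (Fin 4) ℂ →ₐ[ℂ] ℂ) :
          MvPolynomial (Fin 4) ℂ →+* ℂ) := by
      ext <;> simp
    rw [h]
    change (MvPolynomial.aeval (Curve_pt L β c u s)) _ = _
    rw [← Polynomial.aeval_algHom_apply, MvPolynomial.aeval_X, e0, Polynomial.coe_aeval_eq_eval]
  rw [e4, e1, e2, e3]
  generalize hj : (i.1 : ℕ) = j at *
  generalize hε : (i.2.1 : ℕ) = ε at *
  generalize hκ : (i.2.2 : ℕ) = κ at *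
  set S := ev (SS a b) (u + s) with hS
  set S0 := ev (SS a b) u with hS0
  have hb : c * S0 * S + S * zetaL L (u + s) * S0 - S * (S0 * zetaL L u) =
      S * S0 * (c + zetaL L (u + s) - zetaL L u) := by ring
  rw [hb]
  have hS3 : S ^ Weight_w q = S ^ (2 * j) * S ^ (3 * ε) * S ^ (Weight_w q - 2 * j - 3 * ε - κ) *
      S ^ κ := by
    rw [← pow_add, ← pow_add, ← pow_add]
    congr 1
    unfold Weight_w
    omega
  have hS0' : S0 ^ q = S0 ^ κ * S0 ^ (q - κ) := by
    rw [← pow_add]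
    congr 1
    omega
  rw [hS3, hS0', mul_pow, mul_pow, mul_pow, mul_pow, ← pow_mul, ← pow_mul]
  ring

private theorem Weight_pole (L : PeriodPair) (a b : ℂ) (h2 : L.g₂ = -4 * a)
    (h3 : L.g₃ = -4 * b) (q : ℕ) (p : Idx q → Polynomial ℂ) (β c : ℂ) (t : ℕ)
    (h : ∀ t' < t, ∀ u, u ∉ L.lattice →
      MvPolynomial.eval (vc L β c u) ((⇑(D4 a))^[t'] (mv q p)) = 0) :
    (fun u => MvPolynomial.eval (vc L β c u) ((⇑(D4 a))^[t] (mv q p)))
      =O[𝓝[≠] (0 : ℂ)] fun u => u ^ (-(dl q : ℤ)) := by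
  -- the bound for `H`
  obtain ⟨M, hM⟩ := ((isCompact_closedBall (0 : ℂ) 1).prod
    (isCompact_closedBall (0 : ℂ) 1)).exists_bound_of_continuousOn
      (Weight_H_continuous a b q p β c).continuousOn
  have key : ∀ u : ℂ, u ∉ L.lattice → ‖u‖ ≤ 1 →
      ‖ev (SS a b) u ^ dl q *
        MvPolynomial.eval (vc L β c u) ((⇑(D4 a))^[t] (mv q p))‖ ≤ t.factorial * M := by
    intro u hu hu1
    have hu0 : u + 0 ∉ L.lattice := by rwa [add_zero]
    -- Cauchy
    have hC := Complex.norm_iteratedDeriv_le_of_forall_mem_sphere_norm_le (c := 0) (R := 1)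
      (C := M) (f := fun s => Weight_H a b q p β c (u, s)) t one_pos
      (Weight_H_differentiable a b q p β c u).diffContOnCl
      (fun s hs => hM (u, s) ⟨by simpa using hu1, by
        have : ‖s‖ = 1 := by simpa using hs
        simp [this]⟩)
    rw [one_pow, div_one] at hC
    refine le_trans (le_of_eq ?_) hC
    congr 1
    -- the `t`-th derivative of `H`
    have hS : Differentiable ℂ (ev (SS a b)) := differentiable_ev (Gr_SS a b).ent
    have hA : AnalyticAt ℂ (fun s => ev (SS a b) (u + s) ^ Weight_w q * ev (SS a b) u ^ q) 0 := by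
      have hdiff : Differentiable ℂ
          (fun s => ev (SS a b) (u + s) ^ Weight_w q * ev (SS a b) u ^ q) := by fun_prop
      exact hdiff.analyticAt 0
    have hφ := Curve_analyticAt L a b h2 h3 β c u (mv q p) hu0
    have hlow : ∀ j < t, iteratedDeriv j
        (fun s => MvPolynomial.eval (Curve_pt L β c u s) (mv q p)) 0 = 0 := by
      intro j hj
      rw [Curve_iteratedDeriv L a b h2 h3 β c u _ j hu0, Curve_pt_zero]
      exact h j hj u hu
    have hL := Curve_leibniz _ _ t 0 hA hφ hlow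
    have heq : (fun s => Weight_H a b q p β c (u, s)) =ᶠ[𝓝 (0 : ℂ)]
        ((fun s => ev (SS a b) (u + s) ^ Weight_w q * ev (SS a b) u ^ q) *
          fun s => MvPolynomial.eval (Curve_pt L β c u s) (mv q p)) := by
      filter_upwards [(Curve_isOpen L u).mem_nhds hu0] with s hs
      exact Weight_H_eq L a b h2 h3 q p β c hu hs
    rw [heq.iteratedDeriv_eq, hL, Curve_iteratedDeriv L a b h2 h3 β c u _ t hu0, Curve_pt_zero,
      add_zero, ← pow_add]
    congr 2
    unfold dl Weight_w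
    ring
  -- `|S(u)| ≥ |u|/2` near `0`
  have hSlow : ∀ᶠ u in 𝓝 (0 : ℂ), ‖u‖ / 2 ≤ ‖ev (SS a b) u‖ := by
    have hd := hasDerivAt_S a b 0
    rw [R_zero] at hd
    have hlit := hd.isLittleO
    have hh : (fun u : ℂ => ev (SS a b) u - u) =o[𝓝 (0 : ℂ)] fun u => u := by
      simpa [S_zero] using hlit
    have := hh.bound (show (0 : ℝ) < 1 / 2 by norm_num)
    filter_upwards [this] with u hu
    have h1 : ‖u‖ ≤ ‖ev (SS a b) u‖ + ‖ev (SS a b) u - u‖ := by
      have := norm_sub_le (ev (SS a b) u) (ev (SS a b) u - u)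
      rw [sub_sub_cancel] at this
      exact this
    linarith
  refine IsBigO.of_bound (t.factorial * M * 2 ^ dl q) ?_
  have hne : ∀ᶠ u in 𝓝[≠] (0 : ℂ), u ≠ 0 := eventually_mem_nhdsWithin
  have hb : ∀ᶠ u in 𝓝[≠] (0 : ℂ), ‖u‖ ≤ 1 := by
    have : ∀ᶠ u in 𝓝 (0 : ℂ), ‖u‖ ≤ 1 := by
      filter_upwards [Metric.closedBall_mem_nhds (0 : ℂ) one_pos] with u hu
      simpa using hu
    exact this.filter_mono nhdsWithin_le_nhds
  filter_upwards [eventually_notMem L, hne, hb, hSlow.filter_mono nhdsWithin_le_nhds] with u hu hu0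
    hu1 hSu
  have h1 := key u hu hu1
  rw [norm_mul, norm_pow] at h1
  have hupos : 0 < ‖u‖ := norm_pos_iff.2 hu0
  have h2' : (‖u‖ / 2) ^ dl q ≤ ‖ev (SS a b) u‖ ^ dl q :=
    pow_le_pow_left₀ (by positivity) hSu _
  have h3' : (‖u‖ / 2) ^ dl q *
      ‖MvPolynomial.eval (vc L β c u) ((⇑(D4 a))^[t] (mv q p))‖ ≤ t.factorial * M :=
    le_trans (mul_le_mul_of_nonneg_right h2' (norm_nonneg _)) h1
  have hz : ‖u ^ (-(dl q : ℤ))‖ = (‖u‖ ^ dl q)⁻¹ := by
    rw [zpow_neg, norm_inv, zpow_natCast, norm_pow]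
  rw [hz]
  rw [div_pow] at h3'
  have hu4 : 0 < ‖u‖ ^ dl q := by positivity
  have h24 : (0 : ℝ) < 2 ^ dl q := by positivity
  rw [← div_eq_mul_inv, le_div_iff₀ hu4]
  have h5 := mul_le_mul_of_nonneg_right h3' h24.le
  calc ‖MvPolynomial.eval (vc L β c u) ((⇑(D4 a))^[t] (mv q p))‖ * ‖u‖ ^ dl q
      = ‖u‖ ^ dl q / 2 ^ dl q *
        ‖MvPolynomial.eval (vc L β c u) ((⇑(D4 a))^[t] (mv q p))‖ * 2 ^ dl q := by
        field_simp
    _ ≤ t.factorial * M * 2 ^ dl q := h5

/-- over `ℂ`; adapt the proof of `Pool.Agent.ZCM.curve_pole` (file `ZCM/Curve.lean`), with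
`H(u,s) = ∑ p_i(β+s) Q(u+s)^j q(u+s)^ε S(u+s)^(w-2j-3ε-κ)
  (c S(u)S(u+s)+R(u+s)S(u)-S(u+s)R(u))^κ S(u)^(q-κ)`, `w = 2(q+1)^2+1+q`, then `pole_deg`. -/
theorem weight_le (L : PeriodPair) (a b : ℂ) (h2 : L.g₂ = -4 * a) (h3 : L.g₃ = -4 * b)
    (q : ℕ) (β c : ℂ) (p : Idx q → Polynomial ℂ) (t : ℕ)
    (h : ∀ t' < t, gt a b β c t' (mv q p) = 0) : WtLE (dl q) (gt a b β c t (mv q p)) := by
  have hev : ∀ (t' : ℕ) (u : ℂ), u ∉ L.lattice →
      MvPolynomial.eval (vc L β c u) ((⇑(D4 a))^[t'] (mv q p)) =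
        evR (gt a b β c t' (mv q p)) (L.weierstrassP u) (L.derivWeierstrassP u / 2) := by
    intro t' u hu
    rw [evR_gt a b β c t' (mv q p) _ _ (ode L a b h2 h3 hu)]
    rfl
  have h1 := Weight_pole L a b h2 h3 q p β c t (fun t' ht' u hu => by
    rw [hev t' u hu, h t' ht']
    simp [evR])
  apply pole_deg L a b h2 h3
  refine h1.congr' ?_ (EventuallyEq.refl _ _)
  filter_upwards [eventually_notMem L] with u hu
  rw [hev t u hu]
  rfl

/-- over a subfield of `ℂ` -/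
theorem gk_weight_le {k K : Type} [Field k] [Field K] [Algebra k K] [Algebra k ℂ] [Algebra K ℂ]
    [IsScalarTower k K ℂ] (L : PeriodPair) (a b : k) (h2 : L.g₂ = -4 * algebraMap k ℂ a)
    (h3 : L.g₃ = -4 * algebraMap k ℂ b) (q : ℕ) (β c : K) (p : Idx q → Polynomial k) (t : ℕ)
    (h : ∀ t' < t, gk a b β c t' p = 0) : WtLE (dl q) (gk a b β c t p) := by
  have hinj : Function.Injective (algebraMap K ℂ) := (algebraMap K ℂ).injective
  rw [IsScalarTower.algebraMap_apply k K ℂ] at h2 h3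
  have hmap := fun t' => gt_map (algebraMap K ℂ) (algebraMap k K a) (algebraMap k K b) β c t'
    (mv q (bc K p))
  have hw := weight_le L _ _ h2 h3 q (algebraMap K ℂ β) (algebraMap K ℂ c)
    (fun i => (bc K p i).map (algebraMap K ℂ)) t (fun t' ht' => by
      have h0 : gt (algebraMap k K a) (algebraMap k K b) β c t' (mv q (bc K p)) = 0 := h t' ht'
      rw [← mv_map]
      apply QuadraticAlgebra.ext
      · rw [(hmap t').1, h0]
        simp
      · rw [(hmap t').2, h0]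
        simp)
  rw [← mv_map] at hw
  unfold WtLE at hw ⊢
  rw [(hmap t).1, (hmap t).2, Polynomial.natDegree_map_eq_of_injective hinj,
    Polynomial.natDegree_map_eq_of_injective hinj] at hw
  refine ⟨hw.1, fun h0 => hw.2 ?_⟩
  rw [Ne, Polynomial.map_eq_zero_iff hinj]
  exact h0

end Pool.Agent.ZFin
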