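import Pool.Agent.ZFin.DetDvd

/-! # Module ZE: the abstract zero estimate (section 2.4) -/

namespace Pool.Agent.ZFin
open Polynomial

theorem zero_est_abs {F : Type*} [Field F] [CharZero F] [DecidableEq F] {A : Type*} [CommRing A]
    [IsDomain A] [Algebra F A] (d : Derivation F A A) (x : A) (hH : HypH d x) (P : A[X][X])
    (hP : P ≠ 0) (q dz m : ℕ) (hq : P.natDegree ≤ q) (hd : ∀ i, (P.coeff i).natDegree ≤ dz)
    (hm : q ≤ m) (S : Finset (F × F)) (hS : ∀ β, (S.filter fun π => π.1 = β).card ≤ q + 1)
    (hv : ∀ π ∈ S, ∀ t < m,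
      evalEval (algebraMap F A π.1) (algebraMap F A π.2) ((⇑(DD d x))^[t] P) = 0) :
    S.card * (m - q) ≤ (q + 1) * dz := by
  classical
  set n := P.natDegree with hn
  have hdet := det_Mat_ne_zero d x hH P hP
  have hdeg := natDegree_det_Mat d x P n dz hd
  rw [← hn] at hdet
  set B := S.image Prod.fst with hB
  -- the points above `β`
  have hex : ∀ β : F, ∃ T : Finset F, T.card = min (S.filter fun π => π.1 = β).card (n + 1) ∧
      ∀ c ∈ T, (β, c) ∈ S := by
    intro β
    have h1 : ((S.filter fun π => π.1 = β).image Prod.snd).card =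
        (S.filter fun π => π.1 = β).card := by
      apply Finset.card_image_of_injOn
      intro π hπ π' hπ' h
      have h2 : π.1 = β := (Finset.mem_filter.mp hπ).2
      have h3 : π'.1 = β := (Finset.mem_filter.mp hπ').2
      exact Prod.ext (h2.trans h3.symm) h
    obtain ⟨T, hT, hTc⟩ := Finset.exists_subset_card_eq
      (s := (S.filter fun π => π.1 = β).image Prod.snd)
      (n := min (S.filter fun π => π.1 = β).card (n + 1)) (by
        rw [h1]
        exact min_le_left _ _)
    refine ⟨T, hTc, fun c hc => ?_⟩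
    obtain ⟨π, hπ, rfl⟩ := Finset.mem_image.mp (hT hc)
    obtain ⟨hπS, rfl⟩ := Finset.mem_filter.mp hπ
    exact hπS
  choose T hTc hTS using hex
  have hdvd : ∀ β ∈ B, (X - C (algebraMap F A β)) ^ ((T β).card * (m - n)) ∣ (Mat d x P n).det := by
    intro β _
    refine pow_dvd_det_Mat d x P n m le_rfl (hq.trans hm) β (T β) ?_ ?_
    · rw [hTc]
      exact min_le_right _ _
    · intro c hc t ht
      exact hv (β, c) (hTS β c hc) t ht
  have hprod : (∏ β ∈ B, (X - C (algebraMap F A β)) ^ ((T β).card * (m - n))) ∣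
      (Mat d x P n).det := by
    refine Finset.prod_dvd_of_coprime ?_ hdvd
    intro β _ β' _ hne
    apply IsCoprime.pow
    apply isCoprime_X_sub_C_of_isUnit_sub
    rw [← map_sub]
    exact (IsUnit.mk0 _ (sub_ne_zero.mpr hne)).map _
  have hle : ∑ β ∈ B, (T β).card * (m - n) ≤ (n + 1) * dz := by
    have h1 := natDegree_le_of_dvd hprod hdet
    rw [natDegree_prod_of_monic _ _ (fun β _ => (monic_X_sub_C _).pow _)] at h1
    have h2 : ∀ β ∈ B, ((X - C (algebraMap F A β)) ^ ((T β).card * (m - n))).natDegree =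
        (T β).card * (m - n) := by
      intro β _
      rw [(monic_X_sub_C _).natDegree_pow, natDegree_X_sub_C, mul_one]
    rw [Finset.sum_congr rfl h2] at h1
    exact h1.trans hdeg
  have hcard : S.card = ∑ β ∈ B, (S.filter fun π => π.1 = β).card :=
    Finset.card_eq_sum_card_fiberwise (f := Prod.fst) (t := B) (by
      intro π hπ
      exact Finset.mem_coe.mpr (Finset.mem_image_of_mem _ hπ))
  have hb : ∀ β ∈ B, (n + 1) * (S.filter fun π => π.1 = β).card ≤ (q + 1) * (T β).card := by
    intro β _
    rw [hTc]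
    rcases le_total (S.filter fun π => π.1 = β).card (n + 1) with h | h
    · rw [min_eq_left h]
      exact Nat.mul_le_mul_right _ (by omega)
    · rw [min_eq_right h, mul_comm]
      exact Nat.mul_le_mul_right _ (hS β)
  have h1 : (n + 1) * (S.card * (m - q)) ≤ (n + 1) * ((q + 1) * dz) := by
    calc (n + 1) * (S.card * (m - q)) = ((n + 1) * S.card) * (m - q) := by ring
      _ = (∑ β ∈ B, (n + 1) * (S.filter fun π => π.1 = β).card) * (m - q) := by
          rw [hcard, Finset.mul_sum]
      _ ≤ (∑ β ∈ B, (q + 1) * (T β).card) * (m - n) :=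
          Nat.mul_le_mul (Finset.sum_le_sum hb) (by omega)
      _ = (q + 1) * ∑ β ∈ B, (T β).card * (m - n) := by
          rw [Finset.sum_mul, Finset.mul_sum]
          exact Finset.sum_congr rfl (fun β _ => by ring)
      _ ≤ (q + 1) * ((n + 1) * dz) := Nat.mul_le_mul_left _ hle
      _ = (n + 1) * ((q + 1) * dz) := by ring
  exact Nat.le_of_mul_le_mul_left h1 (Nat.succ_pos n)

end Pool.Agent.ZFin
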